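import Pool.Agent.helper987_SE.Stm

/-!
# Project SE: internal homomorphisms and powers, interface
-/

set_option autoImplicit false
set_option maxHeartbeats 400000

open Filter Topology Finset
open scoped Classical

namespace Pool.Agent.helper987_SE

open Helper418

section
variable {A : ℕ → Type} [∀ n, Fintype (A n)]

theorem cls_mul (s t : ∀ n, Equiv.Perm (A n)) : cls s * cls t = cls (s * t) := rfl

theorem cls_inv (s : ∀ n, Equiv.Perm (A n)) : (cls s)⁻¹ = cls s⁻¹ := rfl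

theorem cls_surj (s : SS A) : ∃ t, cls t = s := QuotientGroup.mk_surjective s

/-- maps induced by a sequence of maps -/
def Itl (r : (ℕ → ℤ) → SS A) : Prop :=
  ∃ ψ : ∀ n, ℤ → Equiv.Perm (A n), ∀ a, r a = cls fun n => ψ n (a n)

theorem Itl.mul {r r' : (ℕ → ℤ) → SS A} (h : Itl r) (h' : Itl r') :
    Itl fun m => r m * r' m := by
  obtain ⟨ψ, hψ⟩ := h
  obtain ⟨ψ', hψ'⟩ := h'
  refine ⟨fun n a => ψ n a * ψ' n a, fun a => ?_⟩
  show r a * r' a = _
  rw [hψ, hψ', cls_mul]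
  rfl

theorem Itl.const (s : SS A) : Itl fun _ => s := by
  obtain ⟨t, rfl⟩ := cls_surj s
  exact ⟨fun n _ => t n, fun a => rfl⟩

theorem Itl.comp {r : (ℕ → ℤ) → SS A} (h : Itl r) (F : ℕ → ℤ → ℤ) :
    Itl fun m => r fun n => F n (m n) := by
  obtain ⟨ψ, hψ⟩ := h
  exact ⟨fun n a => ψ n (F n a), fun a => hψ _⟩

theorem Itl.conj {r : (ℕ → ℤ) → SS A} (h : Itl r) (s : SS A) :
    Itl fun m => s * r m * s⁻¹ :=
  ((Itl.const s).mul h).mul (Itl.const s⁻¹)

theorem IsI.itl {r : (ℕ → ℤ) → SS A} (h : IsI r) : Itl r := h.2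

theorem IsI.conj {r : (ℕ → ℤ) → SS A} (h : IsI r) (s : SS A) :
    IsI fun m => s * r m * s⁻¹ := by
  refine ⟨fun a b => ?_, h.itl.conj s⟩
  show s * r (a + b) * s⁻¹ = s * r a * s⁻¹ * (s * r b * s⁻¹)
  rw [h.1]; group

theorem IsI.conj' {r : (ℕ → ℤ) → SS A} (h : IsI r) (s : SS A) :
    IsI fun m => s⁻¹ * r m * s := by
  have := h.conj s⁻¹
  simpa using this

theorem IsI.mul {r r' : (ℕ → ℤ) → SS A} (h : IsI r) (h' : IsI r')
    (hc : ∀ a b, Commute (r a) (r' b)) : IsI fun m => r m * r' m := by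
  refine ⟨fun a b => ?_, h.itl.mul h'.itl⟩
  show r (a + b) * r' (a + b) = r a * r' a * (r b * r' b)
  rw [h.1, h'.1, mul_assoc, mul_assoc, ← mul_assoc (r b) (r' a), (hc b a).eq]
  simp only [mul_assoc]

theorem IsI.smul {r : (ℕ → ℤ) → SS A} (h : IsI r) (l : ℕ → ℤ) : IsI fun m => r (l * m) := by
  refine ⟨fun a b => ?_, h.itl.comp fun n m => l n * m⟩
  show r (l * (a + b)) = r (l * a) * r (l * b)
  rw [mul_add, h.1]

theorem IsI.zero {r : (ℕ → ℤ) → SS A} (h : IsI r) : r 0 = 1 := by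
  have := h.1 0 0
  rw [add_zero] at this
  exact (left_eq_mul.mp this)

theorem IsI.neg {r : (ℕ → ℤ) → SS A} (h : IsI r) (m : ℕ → ℤ) : r (-m) = (r m)⁻¹ := by
  have := h.1 (-m) m
  rw [neg_add_cancel, h.zero] at this
  exact eq_inv_of_mul_eq_one_left this.symm

theorem IsI.natCast {r : (ℕ → ℤ) → SS A} (h : IsI r) (c : ℕ) :
    r (fun _ => (c : ℤ)) = r (fun _ => 1) ^ c := by
  induction c with
  | zero =>
    rw [pow_zero, ← h.zero]
    congr 1
  | succ c ih =>
    rw [pow_succ, ← ih, ← h.1]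
    congr 1

theorem IsI.intCast {r : (ℕ → ℤ) → SS A} (h : IsI r) (c : ℤ) :
    r (fun _ => c) = r (fun _ => 1) ^ c := by
  obtain ⟨n, rfl | rfl⟩ := c.eq_nat_or_neg
  · rw [h.natCast, zpow_natCast]
  · have : (fun _ : ℕ => (-(n : ℤ))) = -(fun _ => (n : ℤ)) := rfl
    rw [this, h.neg, h.natCast, zpow_neg, zpow_natCast]

variable {G : Type} [Group G]

/-- `r` is the exact power map of the central element `v` of `T` -/
structure IsPw (α : G →* SS A) (T : Subgroup G) (v : G) (r : (ℕ → ℤ) → SS A) : Prop where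
  int : IsI r
  one : r (fun _ => 1) = α v
  cen : ∀ m, ∀ t ∈ T, Commute (r m) (α t)
  dbl : ∀ s : SS A, (∀ t ∈ T, Commute s (α t)) → ∀ m, Commute (r m) s
  uni : ∀ r' : (ℕ → ℤ) → SS A, IsI r' → r' (fun _ => 1) = α v →
      (∀ m, ∀ t ∈ T, Commute (r' m) (α t)) → r' = r

variable {α : G →* SS A} {T T' : Subgroup G} {v v' : G} {r r' r'' : (ℕ → ℤ) → SS A}

theorem IsPw.mono (h : IsPw α T v r) (h' : IsPw α T' v r') (hT : T' ≤ T) : r = r' :=
  h'.uni r h.int h.one fun m t ht => h.cen m t (hT ht)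

theorem IsPw.comm (h : IsPw α T v r) {g : G} (hg : ∀ t ∈ T, Commute g t) (m : ℕ → ℤ) :
    Commute (r m) (α g) :=
  h.dbl (α g) (fun t ht => (hg t ht).map α) m

/-- `T` and `T'` commute elementwise -/
def EC (T T' : Subgroup G) : Prop := ∀ t ∈ T, ∀ t' ∈ T', Commute t t'

theorem EC.symm (h : EC T T') : EC T' T := fun t ht t' ht' => (h t' ht' t ht).symm

theorem IsPw.comm₂ (h : IsPw α T v r) (h' : IsPw α T' v' r') (hT : EC T T') (m m' : ℕ → ℤ) :
    Commute (r m) (r' m') := by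
  refine h.dbl _ (fun t ht => ?_) m
  exact h'.comm (fun t' ht' => hT t ht t' ht') m'

theorem IsPw.eq₂ (h : IsPw α T v r) (h' : IsPw α T' v r') (hT : EC T T') : r = r' := by
  refine h'.uni r h.int h.one fun m t ht => ?_
  exact h.comm (fun t' ht' => (hT t' ht' t ht).symm) m

theorem IsPw.comm₁ (h : IsPw α T v r) (h' : IsPw α T v' r') (m m' : ℕ → ℤ) :
    Commute (r m) (r' m') :=
  h.dbl _ (fun t ht => h'.cen m' t ht) m

theorem IsPw.conj (h : IsPw α T v r) (h' : IsPw α T v' r') {g : G}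
    (hg : ∀ t ∈ T, g⁻¹ * t * g ∈ T) (hv : g * v * g⁻¹ = v') (m : ℕ → ℤ) :
    α g * r m * (α g)⁻¹ = r' m := by
  have key := h'.uni (fun m => α g * r m * (α g)⁻¹) (h.int.conj _)
    (by show α g * r (fun _ => 1) * (α g)⁻¹ = α v'
        rw [h.one, ← hv, map_mul, map_mul, map_inv])
    (fun m t ht => by
      have h1 := h.cen m _ (hg t ht)
      rw [map_mul, map_mul, map_inv] at h1
      show α g * r m * (α g)⁻¹ * α t = α t * (α g * r m * (α g)⁻¹)
      have h2 : r m * ((α g)⁻¹ * α t * α g) = (α g)⁻¹ * α t * α g * r m := h1.eq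
      calc α g * r m * (α g)⁻¹ * α t
          = α g * (r m * ((α g)⁻¹ * α t * α g)) * (α g)⁻¹ := by group
        _ = α t * (α g * r m * (α g)⁻¹) := by rw [h2]; group)
  exact congrFun key m

theorem IsPw.mul_pw (h : IsPw α T v r) (h' : IsPw α T v' r') (h'' : IsPw α T (v * v') r'')
    (m : ℕ → ℤ) : r'' m = r m * r' m := by
  have key := h''.uni (fun m => r m * r' m) (h.int.mul h'.int fun a b => h.comm₁ h' a b)
    (by show r _ * r' _ = _; rw [h.one, h'.one, map_mul])
    (fun m t ht => (h.cen m t ht).mul_left (h'.cen m t ht))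
  exact (congrFun key m).symm

theorem IsPw.zpow_pw (h : IsPw α T v r) {c : ℤ} (h' : IsPw α T (v ^ c) r')
    (m : ℕ → ℤ) : r' m = r ((fun _ => c) * m) := by
  have key := h'.uni (fun m => r ((fun _ => c) * m)) (h.int.smul _)
    (by show r _ = _
        rw [show ((fun _ => c) * (fun _ : ℕ => (1 : ℤ))) = fun _ => c by funext; simp,
          h.int.intCast, h.one, map_zpow])
    (fun m t ht => h.cen _ t ht)
  exact (congrFun key m).symm

theorem IsPw.twist (h : IsPw α T v r) {s : SS A} (hr' : IsI r')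
    (h1 : r' (fun _ => 1) = s * α v * s⁻¹)
    (hc : ∀ m, ∀ t ∈ T, Commute (r' m) (s * α t * s⁻¹)) (m : ℕ → ℤ) :
    s * r m * s⁻¹ = r' m := by
  have key := h.uni (fun m => s⁻¹ * r' m * s) (hr'.conj' s)
    (by show s⁻¹ * r' (fun _ => 1) * s = α v
        rw [h1]; group)
    (fun m t ht => by
      have h2 : r' m * (s * α t * s⁻¹) = s * α t * s⁻¹ * r' m := (hc m t ht).eq
      show s⁻¹ * r' m * s * α t = α t * (s⁻¹ * r' m * s)
      calc s⁻¹ * r' m * s * α t = s⁻¹ * (r' m * (s * α t * s⁻¹)) * s := by group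
        _ = α t * (s⁻¹ * r' m * s) := by rw [h2]; group)
  have := congrFun key m
  rw [← this]
  group

/-- it suffices to check commutation with generators -/
theorem comm_closure {S : Set G} {s x : SS A}
    (h : ∀ t ∈ S, Commute x (s * α t * s⁻¹)) : ∀ t ∈ Subgroup.closure S,
    Commute x (s * α t * s⁻¹) := by
  intro t ht
  induction ht using Subgroup.closure_induction with
  | mem t ht => exact h t ht
  | one => simp
  | mul a b _ _ ha hb =>
    have : s * α (a * b) * s⁻¹ = (s * α a * s⁻¹) * (s * α b * s⁻¹) := by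
      rw [map_mul]; group
    rw [this]
    exact ha.mul_right hb
  | inv a _ ha =>
    have : s * α a⁻¹ * s⁻¹ = (s * α a * s⁻¹)⁻¹ := by
      rw [map_inv]; group
    rw [this]
    exact ha.inv_right

end

end Pool.Agent.helper987_SE
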