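import Pool.Agent.Helper418_Sofic.Defs
import Pool.Agent.W661.RC.Stm2

/-!
# Project SE (helper987): definitions
-/

set_option autoImplicit false
set_option maxHeartbeats 400000

open Filter Topology Finset
open scoped Classical

namespace Pool.Agent.helper987_SE

open Helper418

noncomputable section

/-! ## The group `SS A` and internal homomorphisms -/

section SSdef
variable (A : ℕ → Type) [∀ n, Fintype (A n)]

theorem ae_perm' {A : ℕ → Type} [∀ n, Fintype (A n)] {P : ∀ n, A n → Prop}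
    (h : ∀ᶠ x in ae A, P x.1 x.2) (τ : ∀ n, Equiv.Perm (A n)) :
    ∀ᶠ x in ae A, P x.1 (τ x.1 x.2) := by
  have h' := mem_ae.1 h
  refine (mem_ae (P := fun n a => P n (τ n a))).2 ?_
  have : Helper418.dens (fun n a => ¬ P n (τ n a)) = Helper418.dens (fun n a => ¬ P n a) := by
    funext n
    unfold Helper418.dens
    congr 2
    refine Finset.card_bij (fun a _ => τ n a) ?_ ?_ ?_
    · intro a ha; simpa using ha
    · intro a _ b _ hab; exact (τ n).injective hab
    · intro b hb
      exact ⟨(τ n).symm b, by simpa using hb, by simp⟩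
  rw [this]
  exact h'

/-- the sequence `s` of permutations is trivial almost everywhere -/
def Nul {A : ℕ → Type} [∀ n, Fintype (A n)] (s : ∀ n, Equiv.Perm (A n)) : Prop :=
  ∀ᶠ x in ae A, s x.1 x.2 = x.2

theorem Nul.one {A : ℕ → Type} [∀ n, Fintype (A n)] :
    Nul (1 : ∀ n, Equiv.Perm (A n)) := by
  unfold Nul
  exact Eventually.of_forall fun _ => rfl

theorem Nul.mul {A : ℕ → Type} [∀ n, Fintype (A n)] {s t : ∀ n, Equiv.Perm (A n)}
    (hs : Nul s) (ht : Nul t) : Nul (s * t) := by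
  have hs' := ae_perm' (P := fun n a => s n a = a) hs t
  unfold Nul at *
  filter_upwards [hs', ht] with x h1 h2
  rw [Pi.mul_apply, Equiv.Perm.mul_apply, h1, h2]

theorem Nul.inv {A : ℕ → Type} [∀ n, Fintype (A n)] {s : ∀ n, Equiv.Perm (A n)}
    (hs : Nul s) : Nul s⁻¹ := by
  unfold Nul at *
  filter_upwards [hs] with x h1
  rw [Pi.inv_apply, Equiv.Perm.inv_eq_iff_eq, h1]

theorem Nul.conj {A : ℕ → Type} [∀ n, Fintype (A n)] {s : ∀ n, Equiv.Perm (A n)}
    (hs : Nul s) (t : ∀ n, Equiv.Perm (A n)) : Nul (t * s * t⁻¹) := by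
  have hs' := ae_perm' (P := fun n a => s n a = a) hs (fun n => (t n)⁻¹)
  unfold Nul at *
  filter_upwards [hs'] with x h1
  rw [Pi.mul_apply, Pi.mul_apply, Pi.inv_apply, Equiv.Perm.mul_apply, Equiv.Perm.mul_apply, h1]
  simp

/-- sequences of permutations which are trivial almost everywhere -/
def NN : Subgroup (∀ n, Equiv.Perm (A n)) where
  carrier := {s | Nul s}
  one_mem' := Nul.one
  mul_mem' := fun hs ht => Nul.mul hs ht
  inv_mem' := fun hs => Nul.inv hs

instance : (NN A).Normal where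
  conj_mem := fun _ hs t => Nul.conj hs t

/-- the group of sequences of permutations modulo equality almost everywhere -/
abbrev SS := (∀ n, Equiv.Perm (A n)) ⧸ NN A

variable {A}

/-- the class of a sequence of permutations -/
def cls (s : ∀ n, Equiv.Perm (A n)) : SS A := QuotientGroup.mk s

/-- internal homomorphisms from the additive group of all sequences of integers to `SS A`:
they are induced by maps `ψ n : ℤ → Perm (A n)` -/
def IsI (r : (ℕ → ℤ) → SS A) : Prop :=
  (∀ a b, r (a + b) = r a * r b) ∧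
    ∃ ψ : ∀ n, ℤ → Equiv.Perm (A n), ∀ a, r a = cls fun n => ψ n (a n)

/-- `s` commutes with the image of `α` -/
def Cen {T : Type} [Group T] (α : T →* SS A) (s : SS A) : Prop := ∀ t, s * α t = α t * s

end SSdef

/-! ## Finite near actions -/

/-- the permutation given by a word -/
abbrev wd {X : Type} {k : ℕ} (σ : Fin k → Equiv.Perm X) (w : FreeGroup (Fin k)) :
    Equiv.Perm X := FreeGroup.lift σ w

/-- indicator function -/
def ind {X : Type} (Y : Finset X) : X → ℝ := fun x => if x ∈ Y then 1 else 0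

/-- the lazy Markov operator -/
def MK {X : Type} {k : ℕ} (σ : Fin k → Equiv.Perm X) (F : X → ℝ) : X → ℝ := fun x =>
  F x / 2 + (F x + ∑ s, (F (σ s x) + F ((σ s)⁻¹ x))) / (2 * (2 * k + 1))

/-- defect of equivariance of the map `p` -/
def dfc {X Y : Type} [Fintype X] {k : ℕ} (σ : Fin k → Equiv.Perm X) (τ : Fin k → Equiv.Perm Y)
    (p : X → Y) : ℕ := ∑ i, (univ.filter fun x => p (σ i x) ≠ τ i (p x)).card

/-- ergodicity at the scale `(η, ε)` -/
def Erg {V : Type} [Fintype V] {k : ℕ} (σ : Fin k → Equiv.Perm V) (η ε : ℝ) : Prop :=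
  ∀ W : Finset V, (bd σ W : ℝ) ≤ ε * Fintype.card V →
    ((W.card : ℝ) ≤ η * Fintype.card V ∨ (1 - η) * Fintype.card V ≤ W.card)

/-- sequences of near-commuting permutations which behave like the powers of `τ` -/
structure SeqOK {V : Type} [Fintype V] {k : ℕ} (σ : Fin k → Equiv.Perm V) (τ : Equiv.Perm V)
    (δ η : ℝ) (θ : ℕ → Equiv.Perm V) : Prop where
  zero : θ 0 = 1
  df : ∀ m, (dfc σ σ (θ m) : ℝ) ≤ δ * Fintype.card V
  step : ∀ m, ((univ.filter fun x => θ (m + 1) x ≠ τ (θ m x)).card : ℝ) ≤ η * Fintype.card V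

/-- the hypothesis that `γ` presents the property (T) group `T` -/
structure TPres (T : Type) [Group T] (k : ℕ) (γ : FreeGroup (Fin k) →* T) : Prop where
  hasT : Pool.Agent.W661.RC.HasT T
  surj : Function.Surjective γ

/-! ## Symplectic relations -/

/-- elements `E i j a` (`i ≠ j`) and `N i j a` of a group satisfying the relations of the elements
of the Siegel parabolic subgroup `SL_n(ℤ) ⋉ Sym_n(ℤ)` -/
structure SpRel (ι : Type) (G : Type) [Group G] where
  E : ι → ι → ℤ → G
  N : ι → ι → ℤ → G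
  E_add : ∀ i j a b, i ≠ j → E i j (a + b) = E i j a * E i j b
  N_add : ∀ i j a b, N i j (a + b) = N i j a * N i j b
  N_symm : ∀ i j a, N i j a = N j i a
  EE : ∀ i j k a b, i ≠ j → j ≠ k → i ≠ k → E i j a * E j k b = E i k (a * b) * E j k b * E i j a
  EE_comm : ∀ i j k l a b, i ≠ j → k ≠ l → j ≠ k → i ≠ l → Commute (E i j a) (E k l b)
  NN_comm : ∀ i j k l a b, Commute (N i j a) (N k l b)
  EN_comm : ∀ i j k l a b, i ≠ j → j ≠ k → j ≠ l → Commute (E i j a) (N k l b)
  EN : ∀ i j k a b, i ≠ j → k ≠ i → k ≠ j → E i j a * N j k b = N j k b * N i k (a * b) * E i j a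
  EN_i : ∀ i j a b, i ≠ j → E i j a * N j i b = N j i b * N i i (2 * a * b) * E i j a
  EN_j : ∀ i j a b, i ≠ j →
    E i j a * N j j b = N j j b * N i j (a * b) * N i i (a ^ 2 * b) * E i j a

/-- generators of the subgroup `T_I^D(J,K)` -/
def gens {ι : Type} {G : Type} [Group G] (P : SpRel ι G) (D I J K : Finset ι) : Set G :=
  {g | (∃ p ∈ D, ∃ q ∈ D, p ≠ q ∧ g = P.E p q 1) ∨ (∃ i ∈ I, ∃ p ∈ D, g = P.E i p 1) ∨
    (∃ p ∈ D, ∃ j ∈ J, g = P.E p j 1) ∨ (∃ p ∈ D, ∃ k ∈ K, g = P.N p k 1) ∨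
    (∃ i ∈ I, ∃ j ∈ J, g = P.E i j 1) ∨ (∃ i ∈ I, ∃ k ∈ K, g = P.N i k 1)}

/-- the subgroup `T_I^D(J,K)` -/
def TT {ι : Type} {G : Type} [Group G] (P : SpRel ι G) (D I J K : Finset ι) : Subgroup G :=
  Subgroup.closure (gens P D I J K)

/-- conditions on the index sets -/
structure Adm {ι : Type} (D I J K : Finset ι) : Prop where
  card : D.card = 9
  DI : Disjoint D I
  DJ : Disjoint D J
  DK : Disjoint D K
  IJ : Disjoint I J
  JK : Disjoint J K

/-- the first block (8 indices) -/
def RR : Finset (Fin 26) := univ.filter fun i => (i : ℕ) < 8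

/-- the block `D'` -/
def DA : Finset (Fin 26) := univ.filter fun i => 8 ≤ (i : ℕ) ∧ (i : ℕ) < 17

/-- the block `D''` -/
def DB : Finset (Fin 26) := univ.filter fun i => 17 ≤ (i : ℕ)

/-- the product of the elements `f i`, `i < 8` -/
def prod8 {G : Type} [Group G] (f : Fin 26 → G) : G :=
  (List.ofFn fun i : Fin 8 => f (Fin.castLE (by norm_num) i)).prod

/-- the Weyl element of the first block -/
def WW {G : Type} [Group G] (P P' : SpRel (Fin 26) G) : G :=
  prod8 (fun i => P.N i i 1) * prod8 (fun i => P'.N i i (-1)) * prod8 (fun i => P.N i i 1)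

/-- soficity as in the frozen statement -/
def Sof (G : Type) [Group G] : Prop :=
  ∀ (F : Finset G) (ε : ℝ), 0 < ε →
      ∃ n : ℕ, ∃ φ : G → Equiv.Perm (Fin n),
        (∀ g ∈ F, ∀ h ∈ F,
          (((Finset.univ.filter (fun i => φ (g * h) i ≠ (φ g * φ h) i)).card : ℝ) < ε * n)) ∧
        (∀ g ∈ F, g ≠ 1 →
          (1 - ε) * n ≤ ((Finset.univ.filter (fun i => φ g i ≠ i)).card : ℝ))

end

end Pool.Agent.helper987_SE
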