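import Pool.Agent.helper987_SE.Defs

/-!
# Project SE (helper987): statements of the parts
Every part proves `theorem main ... : XxxP` in its own file.
-/

set_option autoImplicit false
set_option maxHeartbeats 400000

open Filter Topology Finset MeasureTheory
open scoped Classical

namespace Pool.Agent.helper987_SE

open Helper418

noncomputable section

/-! ## Part A: internal homomorphisms -/

/-- Lemma 1: near-homomorphisms of `ℤ`. -/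
def A1P : Prop := ∀ (X : Type) [Fintype X] (τ : ℤ → Equiv.Perm X) (ω : ℝ),
  (∀ a b, ((univ.filter fun x => τ (a + b) x ≠ τ a (τ b x)).card : ℝ) ≤ ω * Fintype.card X) →
  ((univ.filter fun x => τ 1 x ≠ x).card : ℝ) ≤ ω * Fintype.card X →
  ∀ c, ((univ.filter fun x => τ c x ≠ x).card : ℝ) ≤ 140 * ω * Fintype.card X

/-- Cor 2: an internal homomorphism which is trivial at `1` is trivial. -/
def A2P : Prop := ∀ (A : ℕ → Type) [∀ n, Fintype (A n)] (r : (ℕ → ℤ) → SS A),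
  IsI r → r (fun _ => 1) = 1 → ∀ m, r m = 1

/-- Cor 3: torsion. -/
def A3P : Prop := ∀ (A : ℕ → Type) [∀ n, Fintype (A n)] (r : (ℕ → ℤ) → SS A),
  IsI r → ∃ o : ℕ → ℤ, (∀ n, 0 < o n) ∧ ∀ m, r (o * m) = 1

/-- Cor 4: uniqueness. -/
def A4P : Prop := ∀ (A : ℕ → Type) [∀ n, Fintype (A n)] (T : Type) [Group T] (α : T →* SS A)
  (r r' : (ℕ → ℤ) → SS A), IsI r → IsI r' → (∀ m, Cen α (r m)) → (∀ m, Cen α (r' m)) →
  (∀ m s, Cen α s → r m * s = s * r m) → r (fun _ => 1) = r' (fun _ => 1) → ∀ m, r m = r' m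

/-! ## Part B: exact powers of central elements of property (T) groups -/

/-- Lemma 5: improvement. -/
def B1P : Prop := ∀ (T : Type) [Group T] (k : ℕ) (γ : FreeGroup (Fin k) →* T), TPres T k γ →
  ∃ C : ℝ, 0 < C ∧ ∀ δ : ℝ, 0 < δ → ∃ β : ℝ, 0 < β ∧
    ∃ (R : Finset (FreeGroup (Fin k))) (m : ℕ), (∀ w ∈ R, γ w = 1) ∧
      ∀ (X : Type) [Fintype X] (σ : Fin k → Equiv.Perm X) (Y : Finset X),
        (∀ w ∈ R, ((Y.filter fun x => wd σ w x ≠ x).card : ℝ) ≤ β * Y.card) →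
        ∃ θ : ℝ, 1 / 2 < θ ∧ θ ≤ 3 / 4 ∧
          (bd σ (univ.filter fun x => θ < ((MK σ)^[m] (ind Y)) x) : ℝ) ≤ δ * Y.card ∧
          ((Y.filter fun x => ((MK σ)^[m] (ind Y)) x ≤ θ).card : ℝ) ≤
            C * bd σ Y + δ * Y.card

/-- Cor 6(a): approximations of property (T) groups have the improvement property. -/
def B2P : Prop := ∀ (T : Type) [Group T] (k : ℕ) (γ : FreeGroup (Fin k) →* T), TPres T k γ →
  ∀ (A : ℕ → Type) [∀ n, Fintype (A n)] [∀ n, Nonempty (A n)] (Φ : Approx T A),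
    Improves (fun n (i : Fin k) => Φ.φ n (γ (FreeGroup.of i)))

/-- Cor 6(b): matchings. -/
def B3P : Prop := ∀ (T : Type) [Group T] (k : ℕ) (γ : FreeGroup (Fin k) →* T), TPres T k γ →
  ∃ C : ℝ, 0 < C ∧ ∀ δ : ℝ, 0 < δ → ∃ β : ℝ, 0 < β ∧
    ∃ R : Finset (FreeGroup (Fin k)), (∀ w ∈ R, γ w = 1) ∧
      ∀ (V : Type) [Fintype V] (σ : Fin k → Equiv.Perm V),
        (∀ w ∈ R, ((univ.filter fun x => wd σ w x ≠ x).card : ℝ) ≤ β * Fintype.card V) →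
        ∀ θ : Equiv.Perm V, ∃ P : Finset (V × V),
          (∀ a b b', (a, b) ∈ P → (a, b') ∈ P → b = b') ∧
          (∀ a a' b, (a, b) ∈ P → (a', b) ∈ P → a = a') ∧
          ((∑ i, (P.filter fun x => (σ i x.1, σ i x.2) ∉ P).card : ℕ) : ℝ) ≤
            δ * Fintype.card V ∧
          ((univ.filter fun a => (a, θ a) ∉ P).card : ℝ) ≤
            C * (dfc σ σ θ : ℝ) + δ * Fintype.card V

/-- Lemma 7. -/
def B4P : Prop := ∀ (V V' : Type) [Fintype V] [Fintype V'] (k : ℕ) (σ : Fin k → Equiv.Perm V)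
  (σ' : Fin k → Equiv.Perm V') (η ε : ℝ), Erg σ η ε → ∀ p q : V → V',
  (dfc σ σ' p : ℝ) + dfc σ σ' q ≤ ε * Fintype.card V →
  ((univ.filter fun x => p x = q x).card : ℝ) ≤ η * Fintype.card V ∨
    (1 - η) * Fintype.card V ≤ ((univ.filter fun x => p x = q x).card : ℝ)

/-- Lemma 8: improvement inside the class. -/
def B5P : Prop := ∀ (T : Type) [Group T] (k : ℕ) (γ : FreeGroup (Fin k) →* T), TPres T k γ →
  ∀ e : ℝ → ℝ, (∀ η, 0 < η → 0 < e η) → ∀ η : ℝ, 0 < η → η < 1 / 10 →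
    ∃ δ β η' : ℝ, 0 < δ ∧ δ ≤ η ∧ 6 * δ ≤ e η ∧ 0 < β ∧ 0 < η' ∧ η' < 1 / 2 ∧
      ∃ R : Finset (FreeGroup (Fin k)), (∀ w ∈ R, γ w = 1) ∧
        ∀ (V : Type) [Fintype V] [Nonempty V] (σ : Fin k → Equiv.Perm V),
          Erg σ η (e η) → Erg σ η' (e η') →
          (∀ w ∈ R, ((univ.filter fun x => wd σ w x ≠ x).card : ℝ) ≤ β * Fintype.card V) →
          ∀ θ : Equiv.Perm V, (dfc σ σ θ : ℝ) ≤ 3 * δ * Fintype.card V →
            ∃ θ' : Equiv.Perm V, (dfc σ σ θ' : ℝ) ≤ δ * Fintype.card V ∧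
              ((univ.filter fun x => θ' x ≠ θ x).card : ℝ) ≤ η * Fintype.card V

/-- Lemma 9, existence of the sequence. -/
def B6P : Prop := ∀ (V : Type) [Fintype V] (k : ℕ) (σ : Fin k → Equiv.Perm V) (δ η : ℝ),
  0 ≤ δ → (∀ θ : Equiv.Perm V, (dfc σ σ θ : ℝ) ≤ 3 * δ * Fintype.card V →
    ∃ θ' : Equiv.Perm V, (dfc σ σ θ' : ℝ) ≤ δ * Fintype.card V ∧
      ((univ.filter fun x => θ' x ≠ θ x).card : ℝ) ≤ η * Fintype.card V) →
  ∀ τ : Equiv.Perm V, (dfc σ σ τ : ℝ) ≤ δ * Fintype.card V →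
    ∃ θ : ℕ → Equiv.Perm V, SeqOK σ τ δ η θ

/-- Lemma 9, multiplicativity. -/
def B7P : Prop := ∀ (V : Type) [Fintype V] [Nonempty V] (k : ℕ) (σ : Fin k → Equiv.Perm V)
  (δ η ε : ℝ), 0 ≤ δ → 0 < η → η < 1 / 10 → 6 * δ ≤ ε → Erg σ η ε →
  ∀ (τ : Equiv.Perm V) (θ : ℕ → Equiv.Perm V), SeqOK σ τ δ η θ →
    ∀ m m', ((univ.filter fun x => θ (m + m') x ≠ θ m (θ m' x)).card : ℝ) ≤ η * Fintype.card V

/-- Two parts (the finite part of the centrality claim in Theorem 10). -/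
def B8P : Prop := ∀ (V V' : Type) [Fintype V] [Fintype V'] [Nonempty V] (k : ℕ)
  (σ : Fin k → Equiv.Perm V) (σ' : Fin k → Equiv.Perm V') (δ η ε κ : ℝ), 0 ≤ δ → 0 < η →
  η < 1 / 10 → 0 ≤ κ → κ ≤ η → 4 * δ + 4 * (k + 1) * κ ≤ ε → Erg σ η ε →
  (Fintype.card V' : ℝ) ≤ 2 * Fintype.card V →
  ∀ (τ : Equiv.Perm V) (θ : ℕ → Equiv.Perm V) (τ' : Equiv.Perm V') (θ' : ℕ → Equiv.Perm V'),
    SeqOK σ τ δ η θ → SeqOK σ' τ' δ η θ' →
    ∀ s : V → V', (dfc σ σ' s : ℝ) ≤ κ * Fintype.card V →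
      ((univ.filter fun x => ∃ y, y ≠ x ∧ s y = s x).card : ℝ) ≤ κ * Fintype.card V →
      ((univ.filter fun x => s (τ x) ≠ τ' (s x)).card : ℝ) ≤ κ * Fintype.card V →
      ∀ m, ((univ.filter fun x => s (θ m x) ≠ θ' m (s x)).card : ℝ) ≤ η * Fintype.card V

/-- Restriction to the parts of a labelling. -/
def B9P : Prop := ∀ (T : Type) [Group T] (k : ℕ) (γ : FreeGroup (Fin k) →* T)
  (A : ℕ → Type) [∀ n, Fintype (A n)] [∀ n, Nonempty (A n)] (Φ : Approx T A),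
  Improves (fun n (i : Fin k) => Φ.φ n (γ (FreeGroup.of i))) →
  ∀ f : ∀ n, A n → ℕ, AsInv (fun n (i : Fin k) => Φ.φ n (γ (FreeGroup.of i))) f →
  (∀ h, AsInv (fun n (i : Fin k) => Φ.φ n (γ (FreeGroup.of i))) h → Ref f h) →
  ∃ (σ : ∀ n c, Fin k → Equiv.Perm {a : A n // f n a = c}) (e : ℝ → ℝ),
    (∀ η, 0 < η → 0 < e η) ∧
    (∀ η, 0 < η → η < 1 / 2 → ∀ᶠ x in ae A, Erg (σ x.1 (f x.1 x.2)) η (e η)) ∧
    (∀ (w : FreeGroup (Fin k)) (κ : ℝ), 0 < κ → ∀ᶠ x in ae A,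
      ((univ.filter fun y : {a : A x.1 // f x.1 a = f x.1 x.2} =>
        (wd (σ x.1 (f x.1 x.2)) w y).1 ≠ Φ.φ x.1 (γ w) y.1).card : ℝ) ≤
          κ * Fintype.card {a : A x.1 // f x.1 a = f x.1 x.2})

/-- Theorem 10. -/
def BP : Prop := ∀ (T : Type) [Group T] (k : ℕ) (γ : FreeGroup (Fin k) →* T), TPres T k γ →
  ∀ (A : ℕ → Type) [∀ n, Fintype (A n)] [∀ n, Nonempty (A n)] (α : T →* SS A) (v : T),
    (∀ t, v * t = t * v) →
    ∃ r : (ℕ → ℤ) → SS A, IsI r ∧ r (fun _ => 1) = α v ∧ (∀ m, Cen α (r m)) ∧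
      ∀ m s, Cen α s → r m * s = s * r m

/-! ## Part C: property (T) -/

/-- The torus `(ℝ/ℤ)²`. -/
abbrev Tor := UnitAddCircle × UnitAddCircle

/-- Existence of the spectral measure of two commuting unitaries. -/
def C1P : Prop := ∀ (H : Type) [NormedAddCommGroup H] [InnerProductSpace ℂ H] [CompleteSpace H]
  (U V : unitary (H →L[ℂ] H)), U * V = V * U → ∀ v : H,
  ∃ μ : Measure Tor, IsFiniteMeasure μ ∧ ∀ a b : ℤ,
    ∫ z : Tor, (fourier a z.1 * fourier b z.2 : ℂ) ∂μ =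
      inner ℂ v (((U ^ a * V ^ b : unitary (H →L[ℂ] H)) : H →L[ℂ] H) v)

/-- Uniqueness: a finite measure on the torus is determined by its Fourier coefficients. -/
def C2P : Prop := ∀ μ ν : Measure Tor, IsFiniteMeasure μ → IsFiniteMeasure ν →
  (∀ a b : ℤ, ∫ z : Tor, (fourier a z.1 * fourier b z.2 : ℂ) ∂μ =
    ∫ z : Tor, (fourier a z.1 * fourier b z.2 : ℂ) ∂ν) → μ = ν

/-- Lemma 11, measure part: ping-pong. -/
def C3P : Prop := ∀ (m : Measure Tor), IsProbabilityMeasure m → ∀ η : ℝ,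
  0 < η → η ≤ 1 →
  (∀ E : Set Tor, MeasurableSet E →
    |m.real ((fun z : Tor => (z.1, z.2 - z.1)) ⁻¹' E) - m.real E| ≤ 3 * η ∧
    |m.real ((fun z : Tor => (z.1 - z.2, z.2)) ⁻¹' E) - m.real E| ≤ 3 * η) →
  ∫ z : Tor, ‖(fourier 1 z.1 : ℂ) - 1‖ ^ 2 ∂m ≤ η ^ 2 →
  ∫ z : Tor, ‖(fourier 1 z.2 : ℂ) - 1‖ ^ 2 ∂m ≤ η ^ 2 →
  m.real {z : Tor | z ≠ 0} ≤ 200 * η

/-- Lemma 11: relative property (T). -/
def C4P : Prop := ∀ (H : Type) [NormedAddCommGroup H] [InnerProductSpace ℂ H]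
  [CompleteSpace H] (U V X Y : unitary (H →L[ℂ] H)), U * V = V * U → X * U = U * X →
  X * V = U * V * X → Y * V = V * Y → Y * U = V * U * Y → ∀ (v : H) (η : ℝ), ‖v‖ = 1 → 0 < η →
  η ≤ 1 → ‖(U : H →L[ℂ] H) v - v‖ ≤ η → ‖(V : H →L[ℂ] H) v - v‖ ≤ η →
  ‖(X : H →L[ℂ] H) v - v‖ ≤ η → ‖(Y : H →L[ℂ] H) v - v‖ ≤ η →
  ∀ a b : ℤ, ‖((U ^ a * V ^ b : unitary (H →L[ℂ] H)) : H →L[ℂ] H) v - v‖ ^ 2 ≤ 1000 * η

/-- Lemma 13: three subspaces. `Q i` is the orthogonal projection to `S i`. -/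
def C5P : Prop := ∀ (H : Type) [NormedAddCommGroup H] [InnerProductSpace ℂ H] [CompleteSpace H]
  (S : Fin 3 → Submodule ℂ H) [∀ i, (S i).HasOrthogonalProjection]
  [(⨅ i, S i).HasOrthogonalProjection] (e : ℝ), 0 ≤ e → 2 * e < 1 →
  (∀ i j, i ≠ j → ∀ f : H,
    - e * (‖f - (S i).starProjection f‖ ^ 2 + ‖f - (S j).starProjection f‖ ^ 2) ≤
      2 * (inner ℂ (f - (S i).starProjection f) (f - (S j).starProjection f)).re) →
  ∀ f : H, (1 - 2 * e) * ‖f - (⨅ i, S i).starProjection f‖ ^ 2 ≤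
    ∑ i, ‖f - (S i).starProjection f‖ ^ 2

/-- Lemma 14: the angle inequality. -/
def C6P : Prop := ∀ (H : Type) [NormedAddCommGroup H] [InnerProductSpace ℂ H] [CompleteSpace H]
  (S₁ S₂ S₃ : Submodule ℂ H) [S₁.HasOrthogonalProjection] [S₂.HasOrthogonalProjection]
  [S₃.HasOrthogonalProjection] (e : ℝ), 0 ≤ e → e ≤ 1 →
  (∀ f, S₁.starProjection (S₃.starProjection f) = S₃.starProjection (S₁.starProjection f)) →
  (∀ f, S₂.starProjection (S₃.starProjection f) = S₃.starProjection (S₂.starProjection f)) →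
  (∀ f ∈ S₃, S₁.starProjection (S₂.starProjection f) = S₂.starProjection (S₁.starProjection f)) →
  (∀ f, S₃.starProjection f = 0 → ‖S₁.starProjection (S₂.starProjection f)‖ ≤ e * ‖f‖) →
  ∀ f : H, - e * (‖f - S₁.starProjection f‖ ^ 2 + ‖f - S₂.starProjection f‖ ^ 2) ≤
    2 * (inner ℂ (f - S₁.starProjection f) (f - S₂.starProjection f)).re

/-- Theorem 15. -/
def CP : Prop := ∀ (ι : Type) (G : Type) [Group G] (P : SpRel ι G) (D I J K : Finset ι),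
  Adm D I J K → Pool.Agent.W661.RC.HasT (TT P D I J K)

/-! ## Part D: algebra -/

/-- The homomorphism `α` restricted to the subgroup `T`. -/
abbrev rst {A : ℕ → Type} [∀ n, Fintype (A n)] {G : Type} [Group G] (α : G →* SS A)
    (T : Subgroup G) : T →* SS A := α.comp T.subtype

/-- Theorem 10 for the subgroups `T_I^D(J,K)`, together with Cor 4 (consequences of A4P, BP, CP).
-/
def PwP : Prop := ∀ (A : ℕ → Type) [∀ n, Fintype (A n)] [∀ n, Nonempty (A n)] (G : Type) [Group G]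
  (P : SpRel (Fin 26) G) (α : G →* SS A) (D I J K : Finset (Fin 26)), Adm D I J K →
  ∀ v ∈ TT P D I J K, (∀ t ∈ TT P D I J K, v * t = t * v) →
  ∃ r : (ℕ → ℤ) → SS A, IsI r ∧ r (fun _ => 1) = α v ∧
    (∀ m, ∀ t ∈ TT P D I J K, Commute (r m) (α t)) ∧
    (∀ s : SS A, (∀ t ∈ TT P D I J K, Commute s (α t)) → ∀ m, Commute (r m) s) ∧
    ∀ r' : (ℕ → ℤ) → SS A, IsI r' → r' (fun _ => 1) = α v →
      (∀ m, ∀ t ∈ TT P D I J K, Commute (r' m) (α t)) → r' = r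

/-- The nonstandard root elements (output of Section 4). Indices in `RR`. -/
structure NS {A : ℕ → Type} [∀ n, Fintype (A n)] {G : Type} [Group G]
    (P : SpRel (Fin 26) G) (α : G →* SS A) where
  e : Fin 26 → Fin 26 → (ℕ → ℤ) → SS A
  n : Fin 26 → Fin 26 → (ℕ → ℤ) → SS A
  e_int : ∀ i ∈ RR, ∀ j ∈ RR, i ≠ j → IsI (e i j)
  e_one : ∀ i ∈ RR, ∀ j ∈ RR, i ≠ j → e i j (fun _ => 1) = α (P.E i j 1)
  e_cen : ∀ i ∈ RR, ∀ j ∈ RR, i ≠ j → ∀ m, ∀ t ∈ TT P DA {i} {j} ∅, Commute (e i j m) (α t)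
  e_uni : ∀ i ∈ RR, ∀ j ∈ RR, i ≠ j → ∀ r : (ℕ → ℤ) → SS A, IsI r →
    r (fun _ => 1) = α (P.E i j 1) → (∀ m, ∀ t ∈ TT P DA {i} {j} ∅, Commute (r m) (α t)) →
    r = e i j
  e_glob : ∀ i ∈ RR, ∀ j ∈ RR, i ≠ j → ∀ s : SS A, (∀ g, Commute s (α g)) →
    ∀ m, Commute (e i j m) s
  n_int : ∀ i ∈ RR, ∀ j ∈ RR, IsI (n i j)
  n_one : ∀ i ∈ RR, ∀ j ∈ RR, n i j (fun _ => 1) = α (P.N i j 1)
  n_symm : ∀ i ∈ RR, ∀ j ∈ RR, n i j = n j i
  n_comm : ∀ i ∈ RR, ∀ j ∈ RR, ∀ a ∈ RR, ∀ b ∈ RR, ∀ l m, Commute (n i j l) (n a b m)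
  relA : ∀ i ∈ RR, ∀ j ∈ RR, ∀ a ∈ RR, ∀ b ∈ RR, i ≠ j → j ≠ a → j ≠ b →
    ∀ l m, Commute (e i j l) (n a b m)
  relB : ∀ i ∈ RR, ∀ j ∈ RR, ∀ b ∈ RR, i ≠ j → b ≠ i → b ≠ j → ∀ l m,
    e i j l * n j b m = n j b m * n i b (l * m) * e i j l
  relB' : ∀ i ∈ RR, ∀ j ∈ RR, i ≠ j → ∀ l m,
    e i j l * n j i m = n j i m * n i i (2 * l * m) * e i j l
  relC : ∀ i ∈ RR, ∀ j ∈ RR, i ≠ j → ∀ l m,
    e i j l * n j j m = n j j m * n i j (l * m) * n i i (l ^ 2 * m) * e i j l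

/-- Section 4. -/
def D3P : Prop := ∀ (A : ℕ → Type) [∀ n, Fintype (A n)] [∀ n, Nonempty (A n)] (G : Type)
  [Group G] (P : SpRel (Fin 26) G) (α : G →* SS A), Nonempty (NS P α)

/-- Sections 4 and 5. -/
def DP : Prop := ∀ (A : ℕ → Type) [∀ n, Fintype (A n)] [∀ n, Nonempty (A n)] (G : Type)
  [Group G] (P P' : SpRel (Fin 26) G), (∀ i j a, P'.E i j a = P.E j i (-a)) →
  ∀ u : G, (∀ g, u * g = g * u) → WW P P' ^ 4 = u ^ (-8 : ℤ) →
  ∀ α : G →* SS A, α u ^ 16 = 1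

/-! ## Part E: the model -/

/-- Section 6. -/
def EP : Prop := ∃ (G : Type) (_ : Group G) (u : G) (P P' : SpRel (Fin 26) G)
  (φ : G →* Matrix.GeneralLinearGroup (Fin 26 ⊕ Fin 26) ℤ), (∀ i j a, P'.E i j a = P.E j i (-a)) ∧
  (∀ g, u * g = g * u) ∧ (∀ n : ℤ, u ^ n = 1 → n = 0) ∧ WW P P' ^ 4 = u ^ (-8 : ℤ) ∧
  φ.ker = Subgroup.zpowers u

/-! ## Part F: assembly -/

/-- A group with an injective homomorphism to `GL_n(ℤ)` is sofic. -/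
def F1P : Prop := ∀ (G : Type) [Group G] (n : Type) [Fintype n] [DecidableEq n]
  (φ : G →* Matrix.GeneralLinearGroup n ℤ), Function.Injective φ → Sof G

/-- A countable sofic group embeds into some `SS A`. -/
def F2P : Prop := ∀ (G : Type) [Group G] [Countable G], Sof G →
  ∃ (A : ℕ → Type) (_ : ∀ n, Fintype (A n)) (_ : ∀ n, Nonempty (A n)) (α : G →* SS A),
    ∀ g, α g = 1 → g = 1

/-- The frozen statement S01758 without the negation. -/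
def Frozen : Prop := ∀ (G : Type) [Group G] (N : Subgroup G) [N.Normal], Nat.card N = 2 →
    (∀ (F : Finset (G ⧸ N)) (ε : ℝ), 0 < ε →
      ∃ n : ℕ, ∃ φ : G ⧸ N → Equiv.Perm (Fin n),
        (∀ g ∈ F, ∀ h ∈ F,
          (((Finset.univ.filter (fun i => φ (g * h) i ≠ (φ g * φ h) i)).card : ℝ) < ε * n)) ∧
        (∀ g ∈ F, g ≠ 1 →
          (1 - ε) * n ≤ ((Finset.univ.filter (fun i => φ g i ≠ i)).card : ℝ))) →
    (∀ (F : Finset G) (ε : ℝ), 0 < ε →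
      ∃ n : ℕ, ∃ φ : G → Equiv.Perm (Fin n),
        (∀ g ∈ F, ∀ h ∈ F,
          (((Finset.univ.filter (fun i => φ (g * h) i ≠ (φ g * φ h) i)).card : ℝ) < ε * n)) ∧
        (∀ g ∈ F, g ≠ 1 →
          (1 - ε) * n ≤ ((Finset.univ.filter (fun i => φ g i ≠ i)).card : ℝ)))

/-- The chain argument. -/
def F3P : Prop := EP → F1P → F2P → DP → ¬ Frozen

end

end Pool.Agent.helper987_SE
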