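import Pool.Agent.helper987_SE.C7c

/-!
# Project SE, part C7, fourth file: proof of the abstract form of Theorem 15
-/

set_option autoImplicit false
set_option linter.unusedSectionVars false

namespace Pool.Agent.helper987_SE.C7

open Submodule Filter Topology

noncomputable section

variable {Γ : Type} [Group Γ] {A B C : Type} (d : TD Γ A B C)
variable {H : Type} [NormedAddCommGroup H] [InnerProductSpace ℂ H]
  [CompleteSpace H] (π : Γ →* unitary (H →L[ℂ] H))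

/-- `b * s = a * s * b` -/
lemma cj1 {a b s : Γ} (h : b * s = a * s * b) (hc : Commute a s) : s⁻¹ * b * s = a * b := by
  calc s⁻¹ * b * s = s⁻¹ * (b * s) := by group
    _ = s⁻¹ * (a * s) * b := by rw [h]; group
    _ = a * b := by rw [hc.eq]; group

lemma cj2 {a b s : Γ} (h : b * s = a * s * b) : s * b * s⁻¹ = a⁻¹ * b := by
  calc s * b * s⁻¹ = a⁻¹ * (a * s * b) * s⁻¹ := by group
    _ = a⁻¹ * b := by rw [← h]; group

lemma cj3 {a b s : Γ} (h : s * b = a * b * s) : s * b * s⁻¹ = a * b := by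
  rw [h]; group

lemma cj4 {a b s : Γ} (h : s * b = a * b * s) (hc : Commute s a) : s⁻¹ * b * s = a⁻¹ * b := by
  have h1 : b = s⁻¹ * a * b * s := by
    calc b = s⁻¹ * (s * b) := by group
      _ = s⁻¹ * a * b * s := by rw [h]; group
  have h2 : s⁻¹ * a = a * s⁻¹ := hc.inv_left.eq
  have h3 : b = a * (s⁻¹ * b * s) := by
    calc b = (s⁻¹ * a) * b * s := h1
      _ = a * (s⁻¹ * b * s) := by rw [h2]; group
  calc s⁻¹ * b * s = a⁻¹ * (a * (s⁻¹ * b * s)) := by group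
    _ = a⁻¹ * b := by rw [← h3]

section
variable [Fintype A] [Fintype B] [Fintype C]

lemma cj_com {K : Subgroup Γ} {g a : Γ} (ha : a ∈ K) (hc : Commute g a) :
    g⁻¹ * a * g ∈ K ∧ g * a * g⁻¹ ∈ K := by
  have h1 : g⁻¹ * a * g = a := by rw [mul_assoc, ← hc.eq]; group
  have h2 : g * a * g⁻¹ = a := by rw [hc.eq]; group
  rw [h1, h2]
  exact ⟨ha, ha⟩

lemma norm_X (p q : DD) (hpq : p ≠ q) (g : Γ) (hg : g ∈ (Xa d : Set Γ)) :
    (d.s p q)⁻¹ * g * d.s p q ∈ Subgroup.closure (Xa d : Set Γ) ∧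
      d.s p q * g * (d.s p q)⁻¹ ∈ Subgroup.closure (Xa d : Set Γ) := by
  obtain ⟨a, r, rfl⟩ := (mem_Xa d).1 hg
  have hm : ∀ r, d.x a r ∈ Subgroup.closure (Xa d : Set Γ) := fun r =>
    Subgroup.subset_closure ((mem_Xa d).2 ⟨a, r, rfl⟩)
  by_cases hr : r = p
  · subst hr
    rw [cj1 (d.xs a r q hpq) (d.xs_comm a q r q hpq hpq.symm), cj2 (d.xs a r q hpq)]
    exact ⟨mul_mem (hm _) (hm _), mul_mem (inv_mem (hm _)) (hm _)⟩
  · exact cj_com (hm r) (d.xs_comm a r p q hpq hr).symm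

lemma norm_Y (p q : DD) (hpq : p ≠ q) (g : Γ) (hg : g ∈ (Ya d : Set Γ)) :
    (d.s p q)⁻¹ * g * d.s p q ∈ Subgroup.closure (Ya d : Set Γ) ∧
      d.s p q * g * (d.s p q)⁻¹ ∈ Subgroup.closure (Ya d : Set Γ) := by
  obtain ⟨r, b, rfl⟩ := (mem_Ya d).1 hg
  have hm : ∀ r, d.y r b ∈ Subgroup.closure (Ya d : Set Γ) := fun r =>
    Subgroup.subset_closure ((mem_Ya d).2 ⟨r, b, rfl⟩)
  by_cases hr : r = q
  · subst hr
    rw [cj3 (d.sy p r b hpq), cj4 (d.sy p r b hpq) (d.sy_comm p r p b hpq hpq)]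
    exact ⟨mul_mem (inv_mem (hm _)) (hm _), mul_mem (hm _) (hm _)⟩
  · exact cj_com (hm r) (d.sy_comm p q r b hpq hr)

lemma comm_SX (v : H) : Pr π (Sa d) (Pr π (Xa d : Set Γ) v) = Pr π (Xa d : Set Γ) (Pr π (Sa d) v) := by
  apply Pr_comm_Pr
  rintro g ⟨p, q, hpq, rfl⟩ v
  exact Pr_comm_op_of_norm π (fun a ha => (norm_X d p q hpq a ha).1)
    (fun a ha => (norm_X d p q hpq a ha).2) v

lemma comm_SY (v : H) : Pr π (Sa d) (Pr π (Ya d : Set Γ) v) = Pr π (Ya d : Set Γ) (Pr π (Sa d) v) := by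
  apply Pr_comm_Pr
  rintro g ⟨p, q, hpq, rfl⟩ v
  exact Pr_comm_op_of_norm π (fun a ha => (norm_Y d p q hpq a ha).1)
    (fun a ha => (norm_Y d p q hpq a ha).2) v

lemma W_cen (g h : Γ) (hg : g ∈ (Wa d : Set Γ)) : Commute g h := by
  obtain ⟨a, b, rfl⟩ := (mem_Wa d).1 hg
  exact d.w_cen a b h

lemma T_cen (g h : Γ) (hg : g ∈ (Ta d : Set Γ)) : Commute g h := by
  obtain ⟨c, rfl⟩ := (mem_Ta d).1 hg
  exact d.t_cen c h

lemma comm_W (E : Set Γ) (v : H) :
    Pr π E (Pr π (Wa d : Set Γ) v) = Pr π (Wa d : Set Γ) (Pr π E v) :=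
  Pr_comm_Pr_of_commute π (fun a _ b hb => (W_cen d b a hb).symm) v

lemma XY_rel (g : Γ) (hg : g ∈ (Xa d : Set Γ)) (h : Γ) (hh : h ∈ (Ya d : Set Γ)) :
    ∃ z ∈ Subgroup.closure (Wa d : Set Γ), g * h = z * h * g := by
  obtain ⟨a, p, rfl⟩ := (mem_Xa d).1 hg
  obtain ⟨q, b, rfl⟩ := (mem_Ya d).1 hh
  by_cases hpq : p = q
  · subst hpq
    exact ⟨d.w a b, Subgroup.subset_closure ((mem_Wa d).2 ⟨a, b, rfl⟩), d.xy a p b⟩
  · exact ⟨1, one_mem _, by rw [one_mul]; exact (d.xy_comm a p q b hpq).eq⟩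

/-- the estimate on the complement of the fixed vectors of the centre -/
lemma near_W (v : H) (e : ℝ) (hx : ‖v - Pr π (Xa d : Set Γ) v‖ ≤ e)
    (hy : ‖v - Pr π (Ya d : Set Γ) v‖ ≤ e) : ‖v - Pr π (Wa d : Set Γ) v‖ ≤ 8 * e := by
  set PX := Pr π (Xa d : Set Γ) with hPX
  set PY := Pr π (Ya d : Set Γ) with hPY
  set PW := Pr π (Wa d : Set Γ) with hPW
  have hWc : ∀ (E : Set Γ) (v : H), Pr π E (PW v) = PW (Pr π E v) := fun E v => comm_W d π E v
  have hker := ker_ind π (Wa d) (fun a ha b _ => W_cen d a b ha) (fun v => PX (PY v))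
    (by intro v w; simp only [map_add])
    (by
      intro c hc v
      have h1 : ∀ (E : Set Γ) (v : H), Pr π {c} (Pr π E v) = Pr π E (Pr π {c} v) := by
        intro E
        apply Pr_comm_Pr_of_commute
        intro a ha b hb
        rw [Set.mem_singleton_iff.1 ha]; exact W_cen d c b hc
      show Pr π {c} (PX (PY v)) = PX (PY (Pr π {c} v))
      rw [hPX, hPY, h1, h1]) (3 / 4) (by norm_num)
    (by
      intro c hc f hf
      obtain ⟨a, b, rfl⟩ := (mem_Wa d).1 hc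
      refine pair_one π (A := (Xa d : Set Γ)) (B := (Ya d : Set Γ)) (x := d.x a (0, 0))
        (y := d.y (0, 0) b) ((mem_Xa d).2 ⟨a, _, rfl⟩) ((mem_Ya d).2 ⟨_, b, rfl⟩)
        (d.xy a (0, 0) b) (d.w_cen _ _ _) (fun g _ => d.w_cen _ _ g) f hf)
  set w := v - PW v with hw
  have hPWw : PW w = 0 := by rw [hw, map_sub, Pr_Pr, sub_self]
  have h1 : ‖PX (PY w)‖ ≤ 3 / 4 * ‖w‖ := hker w hPWw
  have h2 : ‖v - PX (PY v)‖ ≤ 2 * e := by
    have : v - PX (PY v) = (v - PX v) + PX (v - PY v) := by rw [map_sub]; abel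
    rw [this]
    refine (norm_add_le _ _).trans ?_
    have := (norm_Pr π (Xa d : Set Γ) (v - PY v)).trans hy
    linarith
  have h3 : w - PX (PY w) = (v - PX (PY v)) - PW (v - PX (PY v)) := by
    rw [hw, map_sub, map_sub, map_sub, hWc, hWc]; abel
  have h4 : ‖w - PX (PY w)‖ ≤ 2 * e := by
    rw [h3]
    exact (norm_sub_Pr π _ _).trans h2
  have h5 : ‖w‖ ≤ ‖w - PX (PY w)‖ + ‖PX (PY w)‖ := by
    have := norm_add_le (w - PX (PY w)) (PX (PY w))
    rwa [sub_add_cancel] at this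
  linarith

lemma pow_two_fix {g : Γ} {u : H} (h : op π g (op π g u) = u) (n : ℕ) :
    op π (g ^ n) u = u ∨ op π (g ^ n) u = op π g u := by
  induction n with
  | zero => left; simp
  | succ n ih =>
    rw [pow_succ', op_mul]
    rcases ih with h1 | h1
    · right; rw [h1]
    · left; rw [h1, h]

include d in
theorem abstr (c4 : C4P) (c5 : C5P) (c6 : C6P) : Pool.Agent.W661.RC.HasT Γ := by
  classical
  intro H _ _ _ π hπ
  set N : ℝ := ((Xa d).card : ℝ) + (Ya d).card + (Ta d).card + 9 with hN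
  have hX0 : (0 : ℝ) ≤ (Xa d).card := Nat.cast_nonneg _
  have hY0 : (0 : ℝ) ≤ (Ya d).card := Nat.cast_nonneg _
  have hT0 : (0 : ℝ) ≤ (Ta d).card := Nat.cast_nonneg _
  have hN9 : 9 ≤ N := by linarith
  have hNX : ((Xa d).card : ℝ) ≤ N := by linarith
  have hNY : ((Ya d).card : ℝ) ≤ N := by linarith
  have hNT : ((Ta d).card : ℝ) ≤ N := by linarith
  set δ : ℝ := 1 / (50 * N ^ 2) with hδdef
  have hN2 : 81 ≤ N ^ 2 := by nlinarith
  have hδ : 0 < δ := by positivity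
  have hδN : N ^ 2 * δ = 1 / 50 := by
    rw [hδdef]; field_simp
  have hδ1 : δ ≤ 1 := by nlinarith
  have hη : 0 < δ ^ 2 / 1000 := by positivity
  obtain ⟨v, hv, hK⟩ := hπ (((Finset.univ : Finset (DD × DD)).image fun i => d.s i.1 i.2) ∪
    Xa d ∪ Ya d ∪ Ta d) (δ ^ 2 / 1000) hη
  have ks : ∀ p q, ‖op π (d.s p q) v - v‖ ≤ δ ^ 2 / 1000 := by
    intro p q
    refine (hK _ ?_).le
    simp only [Finset.mem_union]
    left; left; left
    exact Finset.mem_image.2 ⟨(p, q), Finset.mem_univ _, rfl⟩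
  have kx : ∀ a p, ‖op π (d.x a p) v - v‖ ≤ δ ^ 2 / 1000 := by
    intro a p
    refine (hK _ ?_).le
    simp only [Finset.mem_union]
    left; left; right
    exact (mem_Xa d).2 ⟨a, p, rfl⟩
  have ky : ∀ p b, ‖op π (d.y p b) v - v‖ ≤ δ ^ 2 / 1000 := by
    intro p b
    refine (hK _ ?_).le
    simp only [Finset.mem_union]
    left; right
    exact (mem_Ya d).2 ⟨p, b, rfl⟩
  have kt : ∀ c, ‖op π (d.t c) v - v‖ ≤ δ ^ 2 / 1000 := by
    intro c
    refine (hK _ ?_).le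
    simp only [Finset.mem_union]
    right
    exact (mem_Ta d).2 ⟨c, rfl⟩
  have ns := near_s d π c4 v hv δ hδ hδ1 ks
  have nx := near_x d π c4 v hv δ hδ hδ1 ks kx
  have ny := near_y d π c4 v hv δ hδ hδ1 ks ky
  have hS := near_S d π c5 c6 v δ hδ ns
  set PS := Pr π (Sa d) with hPS
  set PX := Pr π (Xa d : Set Γ) with hPX
  set PY := Pr π (Ya d : Set Γ) with hPY
  set PW := Pr π (Wa d : Set Γ) with hPW
  set PT := Pr π (Ta d : Set Γ) with hPT
  have hS' : ‖v - PS v‖ ≤ 4 * (N * δ) := hS.trans (by nlinarith)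
  have hX : ‖v - PX v‖ ≤ N * δ := by
    refine (near_finset π (Xa d) ?_ v δ ?_).trans (mul_le_mul_of_nonneg_right hNX hδ.le)
    · intro g hg h hh
      obtain ⟨a, p, rfl⟩ := (mem_Xa d).1 hg
      obtain ⟨a', p', rfl⟩ := (mem_Xa d).1 hh
      exact d.xx_comm _ _ _ _
    · intro g hg
      obtain ⟨a, p, rfl⟩ := (mem_Xa d).1 hg
      exact nx a p
  have hY : ‖v - PY v‖ ≤ N * δ := by
    refine (near_finset π (Ya d) ?_ v δ ?_).trans (mul_le_mul_of_nonneg_right hNY hδ.le)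
    · intro g hg h hh
      obtain ⟨a, p, rfl⟩ := (mem_Ya d).1 hg
      obtain ⟨a', p', rfl⟩ := (mem_Ya d).1 hh
      exact d.yy_comm _ _ _ _
    · intro g hg
      obtain ⟨a, p, rfl⟩ := (mem_Ya d).1 hg
      exact ny a p
  have hW : ‖v - PW v‖ ≤ 8 * (N * δ) := near_W d π v (N * δ) hX hY
  -- the vector `u`
  set u := PS (PX (PY (PW v))) with hu
  have hWc : ∀ (E : Set Γ) (v : H), Pr π E (PW v) = PW (Pr π E v) := fun E v => comm_W d π E v
  have hSX : ∀ v, PS (PX v) = PX (PS v) := comm_SX d π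
  have hSY : ∀ v, PS (PY v) = PY (PS v) := comm_SY d π
  have hXY : PX (PY (PW v)) = PY (PX (PW v)) :=
    comm_on π (A := (Xa d : Set Γ)) (B := (Ya d : Set Γ)) (Z := (Wa d : Set Γ))
      (fun a _ z hz => (W_cen d z a hz).symm) (fun a _ z hz => (W_cen d z a hz).symm)
      (fun a ha b hb => XY_rel d a ha b hb) (PW v) (Pr_mem π _ v)
  have uS : u ∈ Fx π (Sa d) := Pr_mem π _ _
  have uX : u ∈ Fx π (Xa d : Set Γ) := by
    rw [hu, hSX]; exact Pr_mem π _ _
  have uY : u ∈ Fx π (Ya d : Set Γ) := by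
    rw [hu, hXY, hSY]; exact Pr_mem π _ _
  have uW : u ∈ Fx π (Wa d : Set Γ) := by
    rw [hu, hPY, hWc, hPX, hWc, hPS, hWc]; exact Pr_mem π _ _
  have huv : ‖v - u‖ ≤ 14 * (N * δ) := by
    have e1 : v - u = (v - PS v) + PS (v - PX v) + PS (PX (v - PY v)) + PS (PX (PY (v - PW v))) := by
      rw [hu]; simp only [map_sub]; abel
    rw [e1]
    have n1 : ‖PS (v - PX v)‖ ≤ N * δ := (norm_Pr π _ _).trans hX
    have n2 : ‖PS (PX (v - PY v))‖ ≤ N * δ := (norm_Pr π _ _).trans ((norm_Pr π _ _).trans hY)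
    have n3 : ‖PS (PX (PY (v - PW v)))‖ ≤ 8 * (N * δ) :=
      (norm_Pr π _ _).trans ((norm_Pr π _ _).trans ((norm_Pr π _ _).trans hW))
    have m1 := norm_add_le ((v - PS v) + PS (v - PX v) + PS (PX (v - PY v))) (PS (PX (PY (v - PW v))))
    have m2 := norm_add_le ((v - PS v) + PS (v - PX v)) (PS (PX (v - PY v)))
    have m3 := norm_add_le (v - PS v) (PS (v - PX v))
    linarith
  have hηN : δ ^ 2 / 1000 ≤ N * δ := by nlinarith
  have ht : ∀ c, ‖op π (d.t c) u - u‖ ≤ 29 * (N * δ) := by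
    intro c
    have e1 : op π (d.t c) u - u = (op π (d.t c) v - v) + (v - u) - op π (d.t c) (v - u) := by
      rw [map_sub]; abel
    rw [e1]
    have n1 := kt c
    have n2 : ‖op π (d.t c) (v - u)‖ ≤ 14 * (N * δ) := by rw [norm_op]; exact huv
    have m1 := norm_sub_le ((op π (d.t c) v - v) + (v - u)) (op π (d.t c) (v - u))
    have m2 := norm_add_le (op π (d.t c) v - v) (v - u)
    linarith
  have htt : ∀ c, op π (d.t c) (op π (d.t c) u) = u := by
    intro c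
    obtain ⟨a, b, hab⟩ := d.t_sq c
    rw [← op_mul, hab]
    exact uW _ ((mem_Wa d).2 ⟨a, b, rfl⟩)
  have hPtc : ∀ c, ‖u - Pr π {d.t c} u‖ ≤ 29 * (N * δ) := by
    intro c
    refine near_single π (d.t c) u _ fun n => ?_
    rcases pow_two_fix π (htt c) n with h1 | h1
    · rw [h1, sub_self, norm_zero]; positivity
    · rw [h1]; exact ht c
  have hTu : ‖u - PT u‖ ≤ N * (29 * (N * δ)) := by
    refine (near_finset π (Ta d) (fun a ha b _ => T_cen d a b ha) u (29 * (N * δ)) ?_).trans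
      (mul_le_mul_of_nonneg_right hNT (by positivity))
    intro g hg
    obtain ⟨c, rfl⟩ := (mem_Ta d).1 hg
    exact hPtc c
  set f := PT u with hf
  have hTc : ∀ (g : Γ) (w : H), PT (op π g w) = op π g (PT w) := fun g w =>
    Pr_comm_op_of_commute π (fun a ha => (T_cen d a g ha).symm) w
  have hfix : ∀ g : Γ, op π g u = u → op π g f = f := by
    intro g hg
    rw [hf, ← hTc, hg]
  have hfT : f ∈ Fx π (Ta d : Set Γ) := Pr_mem π _ _
  have hfv : ‖v - f‖ < 1 := by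
    have e1 : v - f = (v - u) + (u - f) := by abel
    rw [e1]
    refine (norm_add_le _ _).trans_lt ?_
    have e2 : N * (29 * (N * δ)) = 29 / 50 := by
      calc N * (29 * (N * δ)) = 29 * (N ^ 2 * δ) := by ring
        _ = 29 / 50 := by rw [hδN]; norm_num
    have e3 : 14 * (N * δ) ≤ 14 / 50 := by nlinarith
    linarith
  refine ⟨f, ?_, ?_⟩
  · intro h0
    rw [h0, sub_zero, hv] at hfv
    exact lt_irrefl _ hfv
  · let K : Subgroup Γ :=
      { carrier := {g | op π g f = f}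
        mul_mem' := by
          intro a b ha hb
          show op π (a * b) f = f
          rw [op_mul, hb, ha]
        one_mem' := op_one π f
        inv_mem' := by
          intro a ha
          exact fx_inv π ha }
    intro g
    refine d.gen K ?_ ?_ ?_ ?_ ?_ g
    · intro p q hpq
      exact hfix _ (uS _ ⟨p, q, hpq, rfl⟩)
    · intro a p
      exact hfix _ (uX _ ((mem_Xa d).2 ⟨a, p, rfl⟩))
    · intro p b
      exact hfix _ (uY _ ((mem_Ya d).2 ⟨p, b, rfl⟩))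
    · intro a b
      exact hfix _ (uW _ ((mem_Wa d).2 ⟨a, b, rfl⟩))
    · intro c
      exact hfT _ ((mem_Ta d).2 ⟨c, rfl⟩)

end

end

end Pool.Agent.helper987_SE.C7
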