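import Pool.Agent.helper987_SE.C7a

/-!
# Project SE, part C7, second file: Lemma 12 and pairs of subgroups
-/

set_option autoImplicit false

namespace Pool.Agent.helper987_SE.C7

open Submodule Filter Topology

noncomputable section

variable {Γ : Type} [Group Γ] {H : Type} [NormedAddCommGroup H] [InnerProductSpace ℂ H]
  [CompleteSpace H] (π : Γ →* unitary (H →L[ℂ] H))

lemma pyth (A : Set Γ) (v : H) : ‖v‖ ^ 2 = ‖Pr π A v‖ ^ 2 + ‖v - Pr π A v‖ ^ 2 := by
  have h3 := norm_sq_eq_add_norm_sq_starProjection v (Fx π A)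
  have h4 : (Fx π A)ᗮ.starProjection v = v - Pr π A v := by
    rw [starProjection_orthogonal']
    simp [Pr]
  rw [h4] at h3
  exact h3

lemma Pr_Pr_of_subset {A B : Set Γ} (h : B ⊆ A) (v : H) : Pr π B (Pr π A v) = Pr π A v :=
  Pr_of_mem π (Fx_mono π h (Pr_mem π A v))

lemma Pr_Pr_of_subset' {A B : Set Γ} (h : B ⊆ A) (v : H) : Pr π A (Pr π B v) = Pr π A v := by
  refine ext_inner_left ℂ fun w => ?_
  rw [← Pr_inner, ← Pr_inner, ← Pr_inner, Pr_Pr_of_subset π h]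

lemma op_Pr_single (x : Γ) (v : H) : op π x (Pr π {x} v) = Pr π {x} v :=
  Pr_mem π {x} v x rfl

lemma Pr_op_single (x : Γ) (v : H) : Pr π {x} (op π x v) = Pr π {x} v := by
  rw [Pr_comm_op_of_commute π (g := x) (A := {x}) (by
    intro a ha
    rw [Set.mem_singleton_iff.1 ha]) v, op_Pr_single]

/-- Lemma 12, first part -/
lemma lem12 {x y c : Γ} (hxy : x * y = c * y * x) (hcx : Commute c x) (hcy : Commute c y) (w : H)
    (hw : Pr π {c} w = 0) : ‖Pr π {x} (Pr π {y} w)‖ ^ 2 ≤ 1 / 2 * ‖w‖ ^ 2 := by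
  have cy : ∀ v, Pr π {c} (Pr π {y} v) = Pr π {y} (Pr π {c} v) := by
    intro v
    apply Pr_comm_Pr_of_commute
    intro a ha b hb
    rw [Set.mem_singleton_iff.1 ha, Set.mem_singleton_iff.1 hb]; exact hcy
  set u := Pr π {y} w with hu
  have hcu : Pr π {c} u = 0 := by rw [hu, cy, hw, map_zero]
  have hyu : op π y u = u := op_Pr_single π y w
  set a := op π x u with ha
  have hya : op π y a = op π c⁻¹ a := by
    have e1 : y * x = c⁻¹ * (x * y) := by rw [hxy]; group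
    rw [ha, ← op_mul, e1, op_mul, op_mul, hyu]
  have hca : Pr π {c} a = 0 := by
    rw [ha, Pr_comm_op_of_commute π (g := x) (A := {c}) (by
      intro b hb
      rw [Set.mem_singleton_iff.1 hb]; exact hcx.symm), hcu, map_zero]
  set h' := Pr π {y} a with hh'
  have h1 : op π c⁻¹ h' = h' := by
    rw [hh', ← Pr_comm_op_of_commute π (g := c⁻¹) (A := {y}) (by
      intro b hb
      rw [Set.mem_singleton_iff.1 hb]; exact hcy.inv_left), ← hya, Pr_op_single]
  have h2 : op π c h' = h' := by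
    have := fx_inv π h1
    rwa [inv_inv] at this
  have h3 : h' = 0 := by
    have h4 : Pr π {c} h' = h' := by
      apply Pr_of_mem
      intro g hg
      rw [Set.mem_singleton_iff.1 hg]; exact h2
    rw [← h4, hh', cy, hca, map_zero]
  have h5 : inner ℂ u a = 0 := by
    have h6 : u = Pr π {y} u := by rw [hu, Pr_Pr]
    rw [h6, Pr_inner, ← hh', h3, inner_zero_right]
  have h7 : Pr π {x} u = Pr π {x} ((1 / 2 : ℂ) • (u + a)) := by
    rw [map_smul, map_add, ha, Pr_op_single, ← two_smul ℂ, smul_smul]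
    norm_num
  have h8 : ‖u + a‖ ^ 2 = 2 * ‖u‖ ^ 2 := by
    have := @norm_add_sq ℂ H _ _ _ u a
    rw [h5] at this
    rw [this, ha, norm_op]
    simp; ring
  have h9 : ‖Pr π {x} u‖ ^ 2 ≤ 1 / 2 * ‖u‖ ^ 2 := by
    have h10 : ‖Pr π {x} u‖ ≤ ‖(1 / 2 : ℂ) • (u + a)‖ := by
      rw [h7]; exact norm_Pr π {x} _
    have h11 : ‖(1 / 2 : ℂ) • (u + a)‖ = 1 / 2 * ‖u + a‖ := by
      rw [norm_smul]; norm_num
    rw [h11] at h10
    have h12 := pow_le_pow_left₀ (norm_nonneg _) h10 2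
    rw [mul_pow, h8] at h12
    linarith
  have h10 : ‖u‖ ^ 2 ≤ ‖w‖ ^ 2 := pow_le_pow_left₀ (norm_nonneg _) (norm_Pr π {y} w) 2
  linarith

/-- Lemma 12 for three pairs -/
lemma lem12_three {x y : Fin 3 → Γ} {c : Γ} (hxy : ∀ q, x q * y q = c * y q * x q)
    (hxy' : ∀ q q', q ≠ q' → Commute (x q) (y q'))
    (hcx : ∀ q, Commute c (x q)) (hcy : ∀ q, Commute c (y q)) (w : H)
    (hw : Pr π {c} w = 0) :
    ‖Pr π {x 0} (Pr π {x 1} (Pr π {x 2} (Pr π {y 0} (Pr π {y 1} (Pr π {y 2} w)))))‖ ^ 2 ≤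
      1 / 8 * ‖w‖ ^ 2 := by
  have hc : ∀ q q', q ≠ q' → ∀ v, Pr π {x q} (Pr π {y q'} v) = Pr π {y q'} (Pr π {x q} v) := by
    intro q q' hq v
    apply Pr_comm_Pr_of_commute
    intro a ha b hb
    rw [Set.mem_singleton_iff.1 ha, Set.mem_singleton_iff.1 hb]; exact hxy' q q' hq
  have hcx' : ∀ q v, Pr π {c} (Pr π {x q} v) = Pr π {x q} (Pr π {c} v) := by
    intro q v
    apply Pr_comm_Pr_of_commute
    intro a ha b hb
    rw [Set.mem_singleton_iff.1 ha, Set.mem_singleton_iff.1 hb]; exact hcx q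
  have hcy' : ∀ q v, Pr π {c} (Pr π {y q} v) = Pr π {y q} (Pr π {c} v) := by
    intro q v
    apply Pr_comm_Pr_of_commute
    intro a ha b hb
    rw [Set.mem_singleton_iff.1 ha, Set.mem_singleton_iff.1 hb]; exact hcy q
  rw [hc 2 0 (by decide), hc 2 1 (by decide), hc 1 0 (by decide)]
  set w2 := Pr π {x 2} (Pr π {y 2} w) with hw2
  have c2 : Pr π {c} w2 = 0 := by rw [hw2, hcx', hcy', hw, map_zero, map_zero]
  set w1 := Pr π {x 1} (Pr π {y 1} w2) with hw1
  have c1 : Pr π {c} w1 = 0 := by rw [hw1, hcx', hcy', c2, map_zero, map_zero]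
  have i0 := lem12 π (hxy 0) (hcx 0) (hcy 0) w1 c1
  have i1 := lem12 π (hxy 1) (hcx 1) (hcy 1) w2 c2
  have i2 := lem12 π (hxy 2) (hcx 2) (hcy 2) w hw
  rw [← hw1] at i1
  rw [← hw2] at i2
  linarith

/-- a pair of sets containing three pairs as in Lemma 12 -/
lemma pair_three {A B : Set Γ} {x y : Fin 3 → Γ} {c : Γ} (hA : ∀ q, x q ∈ A) (hB : ∀ q, y q ∈ B)
    (hxy : ∀ q, x q * y q = c * y q * x q)
    (hxy' : ∀ q q', q ≠ q' → Commute (x q) (y q'))
    (hcx : ∀ q, Commute c (x q)) (hcB : ∀ b ∈ B, Commute c b) (w : H)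
    (hw : Pr π {c} w = 0) :
    ‖Pr π A (Pr π B w)‖ ≤ 3 / 8 * ‖w‖ := by
  have hA' : ∀ q v, Pr π A (Pr π {x q} v) = Pr π A v := fun q v =>
    Pr_Pr_of_subset' π (by rw [Set.singleton_subset_iff]; exact hA q) v
  have hB' : ∀ q v, Pr π {y q} (Pr π B v) = Pr π B v := fun q v =>
    Pr_Pr_of_subset π (by rw [Set.singleton_subset_iff]; exact hB q) v
  set w' := Pr π B w with hw'
  have hcw' : Pr π {c} w' = 0 := by
    rw [hw', Pr_comm_Pr_of_commute π (A := {c}) (B := B) (by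
      intro a ha b hb
      rw [Set.mem_singleton_iff.1 ha]; exact hcB b hb), hw, map_zero]
  have h1 := lem12_three π hxy hxy' hcx (fun q => hcB _ (hB q)) w' hcw'
  have h2 : Pr π A w' =
      Pr π A (Pr π {x 0} (Pr π {x 1} (Pr π {x 2} (Pr π {y 0} (Pr π {y 1} (Pr π {y 2} w')))))) := by
    rw [hA', hA', hA', hw', hB', hB', hB']
  rw [h2]
  refine (norm_Pr π A _).trans ?_
  have h3 : ‖w'‖ ≤ ‖w‖ := norm_Pr π B w
  have h4 : 0 ≤ ‖w'‖ := norm_nonneg _
  refine (abs_le_of_sq_le_sq' ?_ (by positivity)).2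
  refine h1.trans ?_
  nlinarith

/-- the first part for sets -/
lemma pair_one {A B : Set Γ} {x y : Γ} {c : Γ} (hA : x ∈ A) (hB : y ∈ B)
    (hxy : x * y = c * y * x) (hcx : Commute c x) (hcB : ∀ b ∈ B, Commute c b) (w : H)
    (hw : Pr π {c} w = 0) :
    ‖Pr π A (Pr π B w)‖ ≤ 3 / 4 * ‖w‖ := by
  set w' := Pr π B w with hw'
  have hcw' : Pr π {c} w' = 0 := by
    rw [hw', Pr_comm_Pr_of_commute π (A := {c}) (B := B) (by
      intro a ha b hb
      rw [Set.mem_singleton_iff.1 ha]; exact hcB b hb), hw, map_zero]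
  have h1 := lem12 π hxy hcx (hcB _ hB) w' hcw'
  have h2 : Pr π A w' = Pr π A (Pr π {x} (Pr π {y} w')) := by
    rw [Pr_Pr_of_subset' π (A := A) (B := {x}) (by rw [Set.singleton_subset_iff]; exact hA), hw',
      Pr_Pr_of_subset π (A := B) (B := {y}) (by rw [Set.singleton_subset_iff]; exact hB)]
  rw [h2]
  refine (norm_Pr π A _).trans ?_
  have h3 : ‖w'‖ ≤ ‖w‖ := norm_Pr π B w
  have h4 : 0 ≤ ‖w'‖ := norm_nonneg _
  refine (abs_le_of_sq_le_sq' ?_ (by positivity)).2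
  refine h1.trans ?_
  nlinarith

open scoped Classical in
/-- norm estimates on the kernel of a product of commuting projections -/
lemma ker_ind (C : Finset Γ) (hC : ∀ a ∈ C, ∀ b ∈ C, Commute a b) (X : H → H)
    (hXadd : ∀ v w, X (v + w) = X v + X w) (hX : ∀ c ∈ C, ∀ v, Pr π {c} (X v) = X (Pr π {c} v))
    (e : ℝ) (he : 0 ≤ e) (h : ∀ c ∈ C, ∀ f, Pr π {c} f = 0 → ‖X f‖ ≤ e * ‖f‖) :
    ∀ f, Pr π (C : Set Γ) f = 0 → ‖X f‖ ≤ e * ‖f‖ := by
  induction C using Finset.induction_on with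
  | empty =>
    intro f hf
    have hX0 : X 0 = 0 := by
      have := hXadd 0 0
      rw [add_zero] at this
      simpa using this
    have : f ∈ Fx π (((∅ : Finset Γ) : Set Γ)) := by
      intro g hg
      simp at hg
    rw [Pr_of_mem π this] at hf
    rw [hf, hX0]
    simp
  | insert a s ha ih =>
    intro f hf
    have hs := ih (fun x hx y hy => hC x (Finset.mem_insert_of_mem hx) y (Finset.mem_insert_of_mem hy))
      (fun c hc => hX c (Finset.mem_insert_of_mem hc)) (fun c hc => h c (Finset.mem_insert_of_mem hc))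
    have hcomm : ∀ v, Pr π {a} (Pr π (s : Set Γ) v) = Pr π (s : Set Γ) (Pr π {a} v) := by
      intro v
      apply Pr_comm_Pr_of_commute
      intro x hx b hb
      rw [Set.mem_singleton_iff.1 hx]
      exact hC a (Finset.mem_insert_self a s) b (Finset.mem_insert_of_mem hb)
    have e1 : ((insert a s : Finset Γ) : Set Γ) = {a} ∪ (s : Set Γ) := by
      rw [Finset.coe_insert]; rfl
    rw [e1, Pr_union π hcomm, hcomm] at hf
    have h1 := hs (Pr π {a} f) hf
    have h2 := h a (Finset.mem_insert_self a s) (f - Pr π {a} f) (by rw [map_sub, Pr_Pr, sub_self])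
    have hXf : X f = X (Pr π {a} f) + X (f - Pr π {a} f) := by
      rw [← hXadd]; congr 1; abel
    have h3 : X (Pr π {a} f) = Pr π {a} (X f) := (hX a (Finset.mem_insert_self a s) f).symm
    have h4 : X (f - Pr π {a} f) = X f - Pr π {a} (X f) := by
      rw [← h3]
      rw [eq_sub_iff_add_eq, add_comm]; exact hXf.symm
    rw [h3] at h1
    rw [h4] at h2
    have p1 := pyth π {a} (X f)
    have p2 := pyth π {a} f
    have q1 := pow_le_pow_left₀ (norm_nonneg _) h1 2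
    have q2 := pow_le_pow_left₀ (norm_nonneg _) h2 2
    refine (abs_le_of_sq_le_sq' ?_ (by positivity)).2
    rw [p1, mul_pow, p2]
    rw [mul_pow] at q1 q2
    linarith

/-- the projections commute on the fixed vectors of the commutators -/
lemma comm_on {A B Z : Set Γ} (hAZ : ∀ a ∈ A, ∀ z ∈ Z, Commute a z)
    (hBZ : ∀ b ∈ B, ∀ z ∈ Z, Commute b z)
    (hAB : ∀ a ∈ A, ∀ b ∈ B, ∃ z ∈ Subgroup.closure Z, a * b = z * b * a) (f : H)
    (hf : f ∈ Fx π Z) : Pr π A (Pr π B f) = Pr π B (Pr π A f) := by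
  have hBZ' : ∀ v, Pr π B (Pr π Z v) = Pr π Z (Pr π B v) := Pr_comm_Pr_of_commute π hBZ
  have hAZ' : ∀ v, Pr π A (Pr π Z v) = Pr π Z (Pr π A v) := Pr_comm_Pr_of_commute π hAZ
  have hinv : ∀ a ∈ A, ∀ v ∈ Fx π (B ∪ Z), op π a v ∈ Fx π (B ∪ Z) ∧ op π a⁻¹ v ∈ Fx π (B ∪ Z) := by
    intro a ha v hv
    rw [Fx_union] at hv ⊢
    obtain ⟨hvB, hvZ⟩ := hv
    have h1 : op π a v ∈ Fx π Z := Fx_of_commute π (hAZ a ha) hvZ
    have h2 : op π a⁻¹ v ∈ Fx π Z := Fx_of_commute π (fun z hz => (hAZ a ha z hz).inv_left) hvZ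
    refine ⟨⟨?_, h1⟩, ⟨?_, h2⟩⟩
    · intro b hb
      obtain ⟨z, hz, hab⟩ := hAB a ha b hb
      have e1 : b * a = z⁻¹ * (a * b) := by rw [hab]; group
      rw [← op_mul, e1, op_mul, op_mul, hvB b hb]
      exact Fx_closure π h1 (inv_mem hz)
    · intro b hb
      obtain ⟨z, hz, hab⟩ := hAB a ha b hb
      have e1 : b * a⁻¹ = a⁻¹ * (z * b) := by
        have : z * b = a * b * a⁻¹ := by rw [hab]; group
        rw [this]; group
      rw [← op_mul, e1, op_mul, op_mul, hvB b hb, Fx_closure π hvZ hz]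
  have hE : ∀ v, Pr π A (Pr π (B ∪ Z) v) = Pr π (B ∪ Z) (Pr π A v) := by
    apply Pr_comm_Pr
    intro g hg v
    exact Pr_comm_op π _ g (fun w hw => (hinv g hg w hw).1) (fun w hw => (hinv g hg w hw).2) v
  have e1 : Pr π (B ∪ Z) f = Pr π B f := by
    rw [Pr_union π hBZ', Pr_of_mem π hf]
  have e2 : Pr π (B ∪ Z) (Pr π A f) = Pr π B (Pr π A f) := by
    rw [Pr_union π hBZ', ← hAZ', Pr_of_mem π hf]
  rw [← e1, hE, e2]

/-- the angle inequality for a pair of sets -/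
lemma angle (c6 : C6P) {A B : Set Γ} {Z : Finset Γ} (hAZ : ∀ a ∈ A, ∀ z ∈ Z, Commute a z)
    (hBZ : ∀ b ∈ B, ∀ z ∈ Z, Commute b z) (hZZ : ∀ a ∈ Z, ∀ b ∈ Z, Commute a b)
    (hAB : ∀ a ∈ A, ∀ b ∈ B, ∃ z ∈ Subgroup.closure (Z : Set Γ), a * b = z * b * a)
    (e : ℝ) (he : 0 ≤ e) (he1 : e ≤ 1)
    (h : ∀ z ∈ Z, ∀ f, Pr π {z} f = 0 → ‖Pr π A (Pr π B f)‖ ≤ e * ‖f‖) (f : H) :
    - e * (‖f - Pr π A f‖ ^ 2 + ‖f - Pr π B f‖ ^ 2) ≤
      2 * (inner ℂ (f - Pr π A f) (f - Pr π B f)).re := by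
  have hAZ' : ∀ v, Pr π A (Pr π (Z : Set Γ) v) = Pr π (Z : Set Γ) (Pr π A v) :=
    Pr_comm_Pr_of_commute π hAZ
  have hBZ' : ∀ v, Pr π B (Pr π (Z : Set Γ) v) = Pr π (Z : Set Γ) (Pr π B v) :=
    Pr_comm_Pr_of_commute π hBZ
  have hker := ker_ind π Z hZZ (fun v => Pr π A (Pr π B v)) (by intro v w; simp only [map_add])
    (by
      intro c hc v
      have h1 : ∀ v, Pr π {c} (Pr π A v) = Pr π A (Pr π {c} v) := by
        apply Pr_comm_Pr_of_commute
        intro a ha b hb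
        rw [Set.mem_singleton_iff.1 ha]; exact (hAZ b hb c hc).symm
      have h2 : ∀ v, Pr π {c} (Pr π B v) = Pr π B (Pr π {c} v) := by
        apply Pr_comm_Pr_of_commute
        intro a ha b hb
        rw [Set.mem_singleton_iff.1 ha]; exact (hBZ b hb c hc).symm
      show Pr π {c} (Pr π A (Pr π B v)) = Pr π A (Pr π B (Pr π {c} v))
      rw [h1, h2]) e he h
  exact c6 H (Fx π A) (Fx π B) (Fx π (Z : Set Γ)) e he he1 hAZ' hBZ'
    (fun v hv => comm_on π hAZ hBZ hAB v hv) hker f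

end

end Pool.Agent.helper987_SE.C7
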