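import Pool.Agent.helper987_SE.Stm

/-!
# Project SE, part A1: near-homomorphisms of `ℤ`
-/

set_option autoImplicit false

open Finset
open scoped Classical

namespace Pool.Agent.helper987_SE.A1

noncomputable section

variable {X : Type} (τ : ℤ → Equiv.Perm X)

/-- number of `k < M` for which multiplicativity fails at `(k, h)` -/
def F (M h : ℕ) (x : X) : ℕ :=
  ((range M).filter fun k : ℕ => τ ((k : ℤ) + (h : ℤ)) x ≠ τ (k : ℤ) (τ (h : ℤ) x)).card

/-- number of `k < L` with `τ (k + 1) x ≠ τ k x` -/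
def Gc (L : ℕ) (x : X) : ℕ :=
  ((range L).filter fun k : ℕ => τ ((k : ℤ) + 1) x ≠ τ (k : ℤ) x).card

/-- number of `k < M` with `τ (k + d) x = τ k x` -/
def p (M d : ℕ) (x : X) : ℕ :=
  ((range M).filter fun k : ℕ => τ ((k : ℤ) + (d : ℤ)) x = τ (k : ℤ) x).card

/-- the same in a shifted window -/
def W (M h d : ℕ) (x : X) : ℕ :=
  ((range M).filter fun k : ℕ =>
    τ (((k + h : ℕ) : ℤ) + (d : ℤ)) x = τ ((k + h : ℕ) : ℤ) x).card

theorem W_le (M h d : ℕ) (x : X) : W τ M h d x ≤ p τ M d x + h := by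
  unfold W p
  have h1 : (((range M).filter fun k : ℕ =>
      τ (((k + h : ℕ) : ℤ) + (d : ℤ)) x = τ ((k + h : ℕ) : ℤ) x).image fun k => k + h) ⊆
      ((range M).filter fun k : ℕ => τ ((k : ℤ) + (d : ℤ)) x = τ (k : ℤ) x) ∪ Ico M (M + h) := by
    intro j hj
    rw [mem_image] at hj
    obtain ⟨k, hk, rfl⟩ := hj
    rw [mem_filter, mem_range] at hk
    rw [mem_union, mem_filter, mem_range, mem_Ico]
    by_cases hlt : k + h < M
    · exact Or.inl ⟨hlt, hk.2⟩
    · right; omega
  have h2 := card_le_card h1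
  rw [card_image_of_injective _ (fun a b hab => by simpa using hab)] at h2
  refine h2.trans ((card_union_le _ _).trans ?_)
  rw [Nat.card_Ico]
  omega

theorem p_le (M h d : ℕ) (x : X) : p τ M d x ≤ W τ M h d x + h := by
  unfold W p
  have h1 : ((range M).filter fun k : ℕ => τ ((k : ℤ) + (d : ℤ)) x = τ (k : ℤ) x) ⊆
      (((range M).filter fun k : ℕ =>
        τ (((k + h : ℕ) : ℤ) + (d : ℤ)) x = τ ((k + h : ℕ) : ℤ) x).image fun k => k + h) ∪
      range h := by
    intro j hj
    rw [mem_filter, mem_range] at hj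
    rw [mem_union, mem_image, mem_range]
    by_cases hlt : j < h
    · exact Or.inr hlt
    · left
      refine ⟨j - h, ?_, by omega⟩
      rw [mem_filter, mem_range, Nat.sub_add_cancel (by omega)]
      exact ⟨by omega, hj.2⟩
  have h2 := card_le_card h1
  refine h2.trans ((card_union_le _ _).trans ?_)
  rw [card_image_of_injective _ (fun a b hab => by simpa using hab), card_range]

theorem p_step (M L d : ℕ) (x : X) (hL : M + d ≤ L) :
    p τ M d x ≤ p τ M (d + 1) x + Gc τ L x := by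
  unfold p Gc
  have h1 : ((range M).filter fun k : ℕ => τ ((k : ℤ) + (d : ℤ)) x = τ (k : ℤ) x) ⊆
      ((range M).filter fun k : ℕ => τ ((k : ℤ) + ((d + 1 : ℕ) : ℤ)) x = τ (k : ℤ) x) ∪
      ((range M).filter fun k : ℕ => τ (((k + d : ℕ) : ℤ) + 1) x ≠ τ ((k + d : ℕ) : ℤ) x) := by
    intro k hk
    rw [mem_filter] at hk
    rw [mem_union, mem_filter, mem_filter]
    by_cases he : τ (((k + d : ℕ) : ℤ) + 1) x = τ ((k + d : ℕ) : ℤ) x
    · left
      refine ⟨hk.1, ?_⟩
      have e1 : (k : ℤ) + ((d + 1 : ℕ) : ℤ) = ((k + d : ℕ) : ℤ) + 1 := by push_cast; ring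
      rw [e1, he, ← hk.2]
      congr 2
    · exact Or.inr ⟨hk.1, he⟩
  refine (card_le_card h1).trans ((card_union_le _ _).trans ?_)
  apply Nat.add_le_add_left
  have h2 : (((range M).filter fun k : ℕ =>
      τ (((k + d : ℕ) : ℤ) + 1) x ≠ τ ((k + d : ℕ) : ℤ) x).image fun k => k + d) ⊆
      ((range L).filter fun k : ℕ => τ ((k : ℤ) + 1) x ≠ τ (k : ℤ) x) := by
    intro j hj
    rw [mem_image] at hj
    obtain ⟨k, hk, rfl⟩ := hj
    rw [mem_filter, mem_range] at hk ⊢
    exact ⟨by omega, hk.2⟩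
  have h3 := card_le_card h2
  rwa [card_image_of_injective _ (fun a b hab => by simpa using hab)] at h3

theorem W_eq (M h d : ℕ) (x : X) (hy : τ (h : ℤ) x = τ ((h + d : ℕ) : ℤ) x) :
    M ≤ W τ M h d x + F τ M h x + F τ M (h + d) x := by
  unfold W F
  have h1 : range M ⊆ (((range M).filter fun k : ℕ =>
        τ (((k + h : ℕ) : ℤ) + (d : ℤ)) x = τ ((k + h : ℕ) : ℤ) x) ∪
      ((range M).filter fun k : ℕ => τ ((k : ℤ) + (h : ℤ)) x ≠ τ (k : ℤ) (τ (h : ℤ) x))) ∪
      ((range M).filter fun k : ℕ =>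
        τ ((k : ℤ) + ((h + d : ℕ) : ℤ)) x ≠ τ (k : ℤ) (τ ((h + d : ℕ) : ℤ) x)) := by
    intro k hk
    rw [mem_union, mem_union, mem_filter, mem_filter, mem_filter]
    by_cases h1 : τ ((k : ℤ) + (h : ℤ)) x = τ (k : ℤ) (τ (h : ℤ) x)
    · by_cases h2 : τ ((k : ℤ) + ((h + d : ℕ) : ℤ)) x = τ (k : ℤ) (τ ((h + d : ℕ) : ℤ) x)
      · left; left
        refine ⟨hk, ?_⟩
        have e1 : ((k + h : ℕ) : ℤ) + (d : ℤ) = (k : ℤ) + ((h + d : ℕ) : ℤ) := by push_cast; ring
        have e2 : ((k + h : ℕ) : ℤ) = (k : ℤ) + (h : ℤ) := by push_cast; ring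
        rw [e1, e2, h1, h2, hy]
      · exact Or.inr ⟨hk, h2⟩
    · exact Or.inl (Or.inr ⟨hk, h1⟩)
  have h2 := card_le_card h1
  rw [card_range] at h2
  refine h2.trans ((card_union_le _ _).trans ?_)
  exact Nat.add_le_add_right (card_union_le _ _) _

theorem W_ne (M h d : ℕ) (x : X) (hy : τ (h : ℤ) x ≠ τ ((h + d : ℕ) : ℤ) x) :
    W τ M h d x ≤ F τ M h x + F τ M (h + d) x := by
  unfold W F
  refine le_trans (card_le_card ?_) (card_union_le _ _)
  intro k hk
  rw [mem_filter] at hk
  rw [mem_union, mem_filter, mem_filter]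
  by_cases h1 : τ ((k : ℤ) + (h : ℤ)) x = τ (k : ℤ) (τ (h : ℤ) x)
  · right
    refine ⟨hk.1, ?_⟩
    intro h2
    apply hy
    have e1 : ((k + h : ℕ) : ℤ) + (d : ℤ) = (k : ℤ) + ((h + d : ℕ) : ℤ) := by push_cast; ring
    have e2 : ((k + h : ℕ) : ℤ) = (k : ℤ) + (h : ℤ) := by push_cast; ring
    have h3 := hk.2
    rw [e1, e2, h1, h2] at h3
    exact ((τ (k : ℤ)).injective h3).symm
  · exact Or.inl ⟨hk.1, h1⟩

/-- the pointwise argument -/
theorem pointwise (c N M : ℕ) (hN : N = 2 * c + 2) (hM : M = 100 * N) (x : X)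
    (hu : ∑ h ∈ range N, F τ M h x ≤ N * N) (hv : Gc τ (M + N) x ≤ 10 * N) :
    79 * N ≤ p τ M c x := by
  set R : Finset ℕ := (range N).filter fun h => 10 * N < F τ M h x with hR
  have hRc : 10 * R.card ≤ N := by
    have h1 : R.card * (10 * N) ≤ ∑ h ∈ R, F τ M h x := by
      rw [← smul_eq_mul]
      refine card_nsmul_le_sum R _ _ fun h hh => ?_
      exact (mem_filter.1 hh).2.le
    have h2 : ∑ h ∈ R, F τ M h x ≤ ∑ h ∈ range N, F τ M h x :=
      sum_le_sum_of_subset (filter_subset _ _)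
    have h3 : (10 * R.card) * N ≤ N * N := by
      calc (10 * R.card) * N = R.card * (10 * N) := by ring
        _ ≤ N * N := h1.trans (h2.trans hu)
    exact Nat.le_of_mul_le_mul_right h3 (by omega)
  -- dichotomy
  have hdich : ∀ d, d ≤ c → 79 * N ≤ p τ M d x ∨ p τ M d x ≤ 21 * N := by
    intro d hd
    obtain ⟨h, hh1, hh2, hh3⟩ : ∃ h, h < N - d ∧ h ∉ R ∧ h + d ∉ R := by
      by_contra hcon
      push Not at hcon
      have h1 : range (N - d) ⊆ R ∪ (range (N - d)).filter fun h => h + d ∈ R := by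
        intro h hh
        rw [mem_union]
        by_cases hr : h ∈ R
        · exact Or.inl hr
        · exact Or.inr (mem_filter.2 ⟨hh, hcon h (mem_range.1 hh) hr⟩)
      have h2 : ((range (N - d)).filter fun h => h + d ∈ R).card ≤ R.card := by
        have h3 : (((range (N - d)).filter fun h => h + d ∈ R).image fun h => h + d) ⊆ R := by
          intro j hj
          rw [mem_image] at hj
          obtain ⟨k, hk, rfl⟩ := hj
          exact (mem_filter.1 hk).2
        have h4 := card_le_card h3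
        rwa [card_image_of_injective _ (fun a b hab => by simpa using hab)] at h4
      have h5 := (card_le_card h1).trans (card_union_le _ _)
      rw [card_range] at h5
      omega
    have hF1 : F τ M h x ≤ 10 * N := by
      by_contra hlt
      exact hh2 (mem_filter.2 ⟨mem_range.2 (by omega), by omega⟩)
    have hF2 : F τ M (h + d) x ≤ 10 * N := by
      by_contra hlt
      exact hh3 (mem_filter.2 ⟨mem_range.2 (by omega), by omega⟩)
    by_cases hy : τ (h : ℤ) x = τ ((h + d : ℕ) : ℤ) x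
    · left
      have h1 := W_eq τ M h d x hy
      have h2 := W_le τ M h d x
      omega
    · right
      have h1 := W_ne τ M h d x hy
      have h2 := p_le τ M h d x
      omega
  have hind : ∀ d, d ≤ c → 79 * N ≤ p τ M d x := by
    intro d
    induction d with
    | zero =>
      intro _
      have : p τ M 0 x = M := by
        unfold p
        rw [filter_true_of_mem, card_range]
        intro k _
        simp
      omega
    | succ d ih =>
      intro hd
      have h1 := ih (by omega)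
      have h2 := p_step τ M (M + N) d x (by omega)
      rcases hdich (d + 1) hd with h3 | h3
      · exact h3
      · omega
  exact hind c (le_refl c)

/-- the conclusion at a good point -/
theorem good (c N M : ℕ) (hN : N = 2 * c + 2) (hM : M = 100 * N) (x : X)
    (hu : ∑ h ∈ range N, F τ M h x ≤ N * N) (hv : Gc τ (M + N) x ≤ 10 * N)
    (hw : F τ M c x < 79 * N) : τ (c : ℤ) x = x := by
  have h1 := pointwise τ c N M hN hM x hu hv
  obtain ⟨k, hk1, hk2⟩ : ∃ k, k ∈ ((range M).filter fun k : ℕ =>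
      τ ((k : ℤ) + (c : ℤ)) x = τ (k : ℤ) x) ∧ k ∉ ((range M).filter fun k : ℕ =>
      τ ((k : ℤ) + (c : ℤ)) x ≠ τ (k : ℤ) (τ (c : ℤ) x)) := by
    by_contra hcon
    push Not at hcon
    have h2 := card_le_card (fun k hk => hcon k hk)
    unfold p at h1
    unfold F at hw
    omega
  rw [mem_filter] at hk1
  rw [mem_filter, not_and, not_not] at hk2
  have h3 := hk2 hk1.1
  rw [hk1.2] at h3
  exact ((τ (k : ℤ)).injective h3).symm

section count

variable [Fintype X]

theorem sum_F (ω : ℝ) (hmul : ∀ a b, ((univ.filter fun x => τ (a + b) x ≠ τ a (τ b x)).card : ℝ) ≤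
    ω * Fintype.card X) (M h : ℕ) :
    ((∑ x : X, F τ M h x : ℕ) : ℝ) ≤ M * (ω * Fintype.card X) := by
  have h1 : ∑ x : X, F τ M h x = ∑ k ∈ range M,
      (univ.filter fun x => τ ((k : ℤ) + (h : ℤ)) x ≠ τ (k : ℤ) (τ (h : ℤ) x)).card := by
    unfold F
    simp_rw [card_filter]
    rw [sum_comm]
  rw [h1]
  push_cast
  have h2 : ∀ k ∈ range M,
      ((univ.filter fun x => τ ((k : ℤ) + (h : ℤ)) x ≠ τ (k : ℤ) (τ (h : ℤ) x)).card : ℝ) ≤
      ω * Fintype.card X := fun k _ => hmul (k : ℤ) (h : ℤ)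
  refine (sum_le_sum h2).trans ?_
  rw [sum_const, card_range, nsmul_eq_mul]

theorem sum_G (ω : ℝ) (hmul : ∀ a b, ((univ.filter fun x => τ (a + b) x ≠ τ a (τ b x)).card : ℝ) ≤
    ω * Fintype.card X) (hone : ((univ.filter fun x => τ 1 x ≠ x).card : ℝ) ≤ ω * Fintype.card X)
    (L : ℕ) :
    ((∑ x : X, Gc τ L x : ℕ) : ℝ) ≤ L * (2 * (ω * Fintype.card X)) := by
  have h1 : ∑ x : X, Gc τ L x = ∑ k ∈ range L,
      (univ.filter fun x => τ ((k : ℤ) + 1) x ≠ τ (k : ℤ) x).card := by
    unfold Gc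
    simp_rw [card_filter]
    rw [sum_comm]
  rw [h1]
  push_cast
  have h2 : ∀ k ∈ range L, ((univ.filter fun x => τ ((k : ℤ) + 1) x ≠ τ (k : ℤ) x).card : ℝ) ≤
      2 * (ω * Fintype.card X) := by
    intro k _
    have h3 : (univ.filter fun x => τ ((k : ℤ) + 1) x ≠ τ (k : ℤ) x) ⊆
        (univ.filter fun x => τ ((k : ℤ) + 1) x ≠ τ (k : ℤ) (τ 1 x)) ∪
        (univ.filter fun x => τ 1 x ≠ x) := by
      intro x hx
      rw [mem_filter] at hx
      rw [mem_union, mem_filter, mem_filter]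
      by_cases h4 : τ 1 x = x
      · left
        refine ⟨mem_univ _, ?_⟩
        rw [h4]
        exact hx.2
      · exact Or.inr ⟨mem_univ _, h4⟩
    have h5 : ((univ.filter fun x => τ ((k : ℤ) + 1) x ≠ τ (k : ℤ) x).card : ℝ) ≤
        ((univ.filter fun x => τ ((k : ℤ) + 1) x ≠ τ (k : ℤ) (τ 1 x)).card : ℝ) +
        ((univ.filter fun x => τ 1 x ≠ x).card : ℝ) := by
      exact_mod_cast (card_le_card h3).trans (card_union_le _ _)
    linarith [hmul (k : ℤ) 1]
  refine (sum_le_sum h2).trans ?_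
  rw [sum_const, card_range, nsmul_eq_mul]

/-- Markov's inequality -/
theorem markov (f : X → ℕ) (t : ℕ) :
    ((univ.filter fun x => t ≤ f x).card : ℝ) * t ≤ ((∑ x : X, f x : ℕ) : ℝ) := by
  have h1 : (univ.filter fun x => t ≤ f x).card * t ≤ ∑ x : X, f x := by
    calc (univ.filter fun x => t ≤ f x).card * t
        = (univ.filter fun x => t ≤ f x).card • t := by rw [smul_eq_mul]
      _ ≤ ∑ x ∈ univ.filter (fun x => t ≤ f x), f x :=
          card_nsmul_le_sum _ _ _ fun x hx => (mem_filter.1 hx).2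
      _ ≤ ∑ x : X, f x := sum_le_sum_of_subset (filter_subset _ _)
  exact_mod_cast h1

/-- the bound for nonnegative `c` -/
theorem nonneg_case (ω : ℝ)
    (hmul : ∀ a b, ((univ.filter fun x => τ (a + b) x ≠ τ a (τ b x)).card : ℝ) ≤
      ω * Fintype.card X)
    (hone : ((univ.filter fun x => τ 1 x ≠ x).card : ℝ) ≤ ω * Fintype.card X) (c : ℕ) :
    ((univ.filter fun x => τ (c : ℤ) x ≠ x).card : ℝ) ≤ 124 * (ω * Fintype.card X) := by
  obtain ⟨N, hN⟩ : ∃ N : ℕ, N = 2 * c + 2 := ⟨_, rfl⟩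
  obtain ⟨M, hM⟩ : ∃ M : ℕ, M = 100 * N := ⟨_, rfl⟩
  have hNpos : (0 : ℝ) < N := by
    have : 0 < N := by omega
    exact_mod_cast this
  have hMN : (M : ℝ) = 100 * N := by rw [hM]; push_cast; ring
  have hw0 : 0 ≤ ω * Fintype.card X := le_trans (Nat.cast_nonneg _) hone
  -- the three bad sets
  have hB1 : ((univ.filter fun x => N * N ≤ ∑ h ∈ range N, F τ M h x).card : ℝ) ≤
      100 * (ω * Fintype.card X) := by
    have h1 := markov (X := X) (fun x => ∑ h ∈ range N, F τ M h x) (N * N)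
    have h2 : ((∑ x : X, ∑ h ∈ range N, F τ M h x : ℕ) : ℝ) ≤ N * (M * (ω * Fintype.card X)) := by
      rw [sum_comm]
      push_cast
      have h3 : ∀ h ∈ range N, (∑ x : X, (F τ M h x : ℝ)) ≤ M * (ω * Fintype.card X) := by
        intro h _
        have := sum_F τ ω hmul M h
        push_cast at this
        exact this
      refine (sum_le_sum h3).trans ?_
      rw [sum_const, card_range, nsmul_eq_mul]
    have h4 := h1.trans h2
    rw [hMN] at h4
    push_cast at h4
    have h5 : ((univ.filter fun x => N * N ≤ ∑ h ∈ range N, F τ M h x).card : ℝ) * ((N : ℝ) * N) ≤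
        (100 * (ω * Fintype.card X)) * ((N : ℝ) * N) := by
      calc _ ≤ _ := h4
        _ = _ := by ring
    exact le_of_mul_le_mul_right h5 (mul_pos hNpos hNpos)
  have hB2 : ((univ.filter fun x => 10 * N ≤ Gc τ (M + N) x).card : ℝ) ≤
      21 * (ω * Fintype.card X) := by
    have h1 := markov (X := X) (fun x => Gc τ (M + N) x) (10 * N)
    have h4 := h1.trans (sum_G τ ω hmul hone (M + N))
    push_cast at h4
    rw [hMN] at h4
    have h5 : ((univ.filter fun x => 10 * N ≤ Gc τ (M + N) x).card : ℝ) * (10 * (N : ℝ)) ≤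
        (21 * (ω * Fintype.card X)) * (10 * (N : ℝ)) := by
      have h6 : (100 * (N : ℝ) + N) * (2 * (ω * Fintype.card X)) ≤
          (21 * (ω * Fintype.card X)) * (10 * (N : ℝ)) := by
        have : 0 ≤ (ω * Fintype.card X) * N := mul_nonneg hw0 hNpos.le
        nlinarith
      exact h4.trans h6
    exact le_of_mul_le_mul_right h5 (by linarith)
  have hB3 : ((univ.filter fun x => 79 * N ≤ F τ M c x).card : ℝ) ≤
      2 * (ω * Fintype.card X) := by
    have h1 := markov (X := X) (fun x => F τ M c x) (79 * N)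
    have h4 := h1.trans (sum_F τ ω hmul M c)
    push_cast at h4
    rw [hMN] at h4
    have h5 : ((univ.filter fun x => 79 * N ≤ F τ M c x).card : ℝ) * (79 * (N : ℝ)) ≤
        (2 * (ω * Fintype.card X)) * (79 * (N : ℝ)) := by
      have h6 : 100 * (N : ℝ) * (ω * Fintype.card X) ≤
          (2 * (ω * Fintype.card X)) * (79 * (N : ℝ)) := by
        have : 0 ≤ (ω * Fintype.card X) * N := mul_nonneg hw0 hNpos.le
        nlinarith
      exact h4.trans h6
    exact le_of_mul_le_mul_right h5 (by linarith)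
  have hsub : (univ.filter fun x => τ (c : ℤ) x ≠ x) ⊆
      ((univ.filter fun x => N * N ≤ ∑ h ∈ range N, F τ M h x) ∪
      (univ.filter fun x => 10 * N ≤ Gc τ (M + N) x)) ∪
      (univ.filter fun x => 79 * N ≤ F τ M c x) := by
    intro x hx
    by_contra hcon
    simp only [mem_union, mem_filter, mem_univ, true_and, not_or, not_le] at hcon
    exact (mem_filter.1 hx).2 (good τ c N M hN hM x hcon.1.1.le hcon.1.2.le hcon.2)
  have hcard : ((univ.filter fun x => τ (c : ℤ) x ≠ x).card : ℝ) ≤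
      ((univ.filter fun x => N * N ≤ ∑ h ∈ range N, F τ M h x).card : ℝ) +
      ((univ.filter fun x => 10 * N ≤ Gc τ (M + N) x).card : ℝ) +
      ((univ.filter fun x => 79 * N ≤ F τ M c x).card : ℝ) := by
    have h1 := (card_le_card hsub).trans ((card_union_le _ _).trans
      (Nat.add_le_add_right (card_union_le _ _) _))
    exact_mod_cast h1
  linarith

end count

/-- Part A1. -/
theorem main : A1P := by
  intro X _ τ ω hmul hone c
  have hw0 : 0 ≤ ω * Fintype.card X := le_trans (Nat.cast_nonneg _) hone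
  have hgoal : ∀ n : ℝ, n ≤ 126 * (ω * Fintype.card X) → n ≤ 140 * ω * Fintype.card X := by
    intro n hn
    have : 140 * ω * Fintype.card X = 140 * (ω * Fintype.card X) := by ring
    rw [this]
    linarith
  apply hgoal
  rcases Int.eq_nat_or_neg c with ⟨m, rfl | rfl⟩
  · have := nonneg_case τ ω hmul hone m
    linarith
  · have h1 := nonneg_case τ ω hmul hone m
    have h2 := hmul 0 0
    have h3 := hmul (-(m : ℤ)) m
    have hsub : (univ.filter fun x => τ (-(m : ℤ)) x ≠ x) ⊆
        ((univ.filter fun x => τ (m : ℤ) x ≠ x) ∪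
        (univ.filter fun x => τ (0 + 0) x ≠ τ 0 (τ 0 x))) ∪
        (univ.filter fun x => τ (-(m : ℤ) + m) x ≠ τ (-(m : ℤ)) (τ m x)) := by
      intro x hx
      by_contra hcon
      simp only [mem_union, mem_filter, mem_univ, true_and, not_or, not_not] at hcon
      obtain ⟨⟨h4, h5⟩, h6⟩ := hcon
      rw [add_zero] at h5
      have h7 : x = τ 0 x := (τ 0).injective h5
      rw [h4, neg_add_cancel, ← h7] at h6
      exact (mem_filter.1 hx).2 h6.symm
    have hcard : ((univ.filter fun x => τ (-(m : ℤ)) x ≠ x).card : ℝ) ≤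
        ((univ.filter fun x => τ (m : ℤ) x ≠ x).card : ℝ) +
        ((univ.filter fun x => τ (0 + 0) x ≠ τ 0 (τ 0 x)).card : ℝ) +
        ((univ.filter fun x => τ (-(m : ℤ) + m) x ≠ τ (-(m : ℤ)) (τ m x)).card : ℝ) := by
      have h1 := (card_le_card hsub).trans ((card_union_le _ _).trans
        (Nat.add_le_add_right (card_union_le _ _) _))
      exact_mod_cast h1
    linarith

end

end Pool.Agent.helper987_SE.A1
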