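import Pool.Agent.helper987_SE.Stm

/-!
# Project SE, part A2: an internal homomorphism which is trivial at `1` is trivial
-/

set_option autoImplicit false

open Filter Topology Finset
open scoped Classical

namespace Pool.Agent.helper987_SE.A2

open Helper418

noncomputable section

/-- equality of classes -/
theorem cls_eq {A : ℕ → Type} [∀ n, Fintype (A n)] (s t : ∀ n, Equiv.Perm (A n)) :
    cls s = cls t ↔ ∀ᶠ x in ae A, s x.1 x.2 = t x.1 x.2 := by
  have h1 : cls s = cls t ↔ s⁻¹ * t ∈ NN A := QuotientGroup.eq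
  have h2 : s⁻¹ * t ∈ NN A ↔ Nul (s⁻¹ * t) := Iff.rfl
  rw [h1, h2]
  unfold Nul
  refine eventually_congr (Eventually.of_forall fun x => ?_)
  rw [Pi.mul_apply, Pi.inv_apply, Equiv.Perm.mul_apply, Equiv.Perm.inv_eq_iff_eq]
  exact eq_comm

theorem cls_one {A : ℕ → Type} [∀ n, Fintype (A n)] :
    cls (1 : ∀ n, Equiv.Perm (A n)) = (1 : SS A) := rfl

theorem cls_mul {A : ℕ → Type} [∀ n, Fintype (A n)] (s t : ∀ n, Equiv.Perm (A n)) :
    cls (s * t) = cls s * cls t := rfl

theorem cls_inv {A : ℕ → Type} [∀ n, Fintype (A n)] (s : ∀ n, Equiv.Perm (A n)) :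
    cls s⁻¹ = (cls s)⁻¹ := rfl

/-- a bounded function attains its maximum -/
theorem exists_max {α : Type} [Nonempty α] (f : α → ℕ) (K : ℕ) (hf : ∀ a, f a ≤ K) :
    ∃ a, ∀ b, f b ≤ f a := by
  refine ⟨Function.argmin (fun a => K - f a), fun b => ?_⟩
  have h1 := Function.argmin_le (fun a => K - f a) b
  have h2 := hf b
  have h3 := hf (Function.argmin (fun a => K - f a))
  omega

/-- cardinality and density -/
theorem card_eq_dens {A : ℕ → Type} [∀ n, Fintype (A n)] (P : ∀ n, A n → Prop) (n : ℕ)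
    (hc : (0 : ℝ) < Fintype.card (A n)) (h : DecidablePred (P n)) :
    ((@filter (A n) (P n) h univ).card : ℝ) = Helper418.dens P n * Fintype.card (A n) := by
  unfold Helper418.dens
  rw [div_mul_cancel₀ _ hc.ne']
  congr!

/-- Part A2. -/
theorem main (h1 : A1P) : A2P := by
  intro A _ r hr hone m
  obtain ⟨hmul, ψ, hψ⟩ := hr
  -- worst pairs
  have hworst : ∀ n, ∃ ab : ℤ × ℤ, ∀ cd : ℤ × ℤ,
      (univ.filter fun x => ψ n (cd.1 + cd.2) x ≠ ψ n cd.1 (ψ n cd.2 x)).card ≤
      (univ.filter fun x => ψ n (ab.1 + ab.2) x ≠ ψ n ab.1 (ψ n ab.2 x)).card := fun n =>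
    exists_max (fun cd : ℤ × ℤ =>
      (univ.filter fun x => ψ n (cd.1 + cd.2) x ≠ ψ n cd.1 (ψ n cd.2 x)).card)
      (Fintype.card (A n)) fun _ => card_le_univ _
  choose ab hab using hworst
  have hA : ∀ᶠ x in ae A, ψ x.1 ((ab x.1).1 + (ab x.1).2) x.2 =
      ψ x.1 (ab x.1).1 (ψ x.1 (ab x.1).2 x.2) := by
    have h2 := hmul (fun n => (ab n).1) (fun n => (ab n).2)
    rw [hψ, hψ, hψ, ← cls_mul, cls_eq] at h2
    exact h2
  have hB : ∀ᶠ x in ae A, ψ x.1 1 x.2 = x.2 := by
    have h2 := hone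
    rw [hψ, ← cls_one, cls_eq] at h2
    exact h2
  have hA' := (mem_ae (P := fun n x => ψ n ((ab n).1 + (ab n).2) x =
      ψ n (ab n).1 (ψ n (ab n).2 x))).1 hA
  have hB' := (mem_ae (P := fun n x => ψ n 1 x = x)).1 hB
  rw [hψ, ← cls_one, cls_eq]
  refine (mem_ae (P := fun n x => ψ n (m n) x = x)).2 ?_
  have hlim := (hA'.add hB').const_mul 140
  rw [add_zero, mul_zero] at hlim
  refine squeeze_zero (fun n => dens_nonneg _ n) (fun n => ?_) hlim
  set a1 : ℝ := Helper418.dens (fun n x => ¬ ψ n ((ab n).1 + (ab n).2) x = ψ n (ab n).1 (ψ n (ab n).2 x)) n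
    with ha1
  set b1 : ℝ := Helper418.dens (fun n x => ¬ ψ n 1 x = x) n with hb1
  have ha0 : 0 ≤ a1 := dens_nonneg _ n
  have hb0 : 0 ≤ b1 := dens_nonneg _ n
  rcases Nat.eq_zero_or_pos (Fintype.card (A n)) with h0 | hpos
  · have : Helper418.dens (fun n x => ¬ ψ n (m n) x = x) n = 0 := by
      unfold Helper418.dens
      rw [h0, Nat.cast_zero, div_zero]
    rw [this]
    positivity
  · have hc : (0 : ℝ) < Fintype.card (A n) := by exact_mod_cast hpos
    have key := h1 (A n) (ψ n) (a1 + b1) ?_ ?_ (m n)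
    · have e1 := card_eq_dens (fun n x => ¬ ψ n (m n) x = x) n hc (fun x => instDecidableNot)
      have e2 : Helper418.dens (fun n x => ¬ ψ n (m n) x = x) n * Fintype.card (A n) ≤
          140 * (a1 + b1) * Fintype.card (A n) := by
        rw [← e1]
        exact key
      exact le_of_mul_le_mul_right e2 hc
    · intro a b
      have h3 := hab n (a, b)
      have h4 : ((univ.filter fun x => ψ n (a + b) x ≠ ψ n a (ψ n b x)).card : ℝ) ≤
          ((univ.filter fun x => ψ n ((ab n).1 + (ab n).2) x ≠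
            ψ n (ab n).1 (ψ n (ab n).2 x)).card : ℝ) := by
        exact_mod_cast h3
      have h5 : ((univ.filter fun x => ψ n ((ab n).1 + (ab n).2) x ≠
            ψ n (ab n).1 (ψ n (ab n).2 x)).card : ℝ) = a1 * Fintype.card (A n) :=
        card_eq_dens (fun n x => ¬ ψ n ((ab n).1 + (ab n).2) x =
            ψ n (ab n).1 (ψ n (ab n).2 x)) n hc (fun x => instDecidableNot)
      rw [h5] at h4
      nlinarith
    · have h5 : ((univ.filter fun x => ψ n 1 x ≠ x).card : ℝ) = b1 * Fintype.card (A n) :=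
        card_eq_dens (fun n x => ¬ ψ n 1 x = x) n hc (fun x => instDecidableNot)
      rw [h5]
      nlinarith

end

end Pool.Agent.helper987_SE.A2
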