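import Pool.Agent.helper987_SE.Stm

/-!
# Project SE, part A3: torsion of internal homomorphisms
-/

set_option autoImplicit false

open Filter Topology Finset
open scoped Classical

namespace Pool.Agent.helper987_SE.A3

open Helper418

noncomputable section

/-- pigeonhole -/
theorem pigeon {X : Type} [Fintype X] (ψ : ℤ → Equiv.Perm X) :
    ∃ a b : ℤ, a < b ∧ ψ a = ψ b := by
  obtain ⟨a, b, hab, h⟩ := Finite.exists_ne_map_eq_of_infinite ψ
  rcases lt_or_gt_of_ne hab with h1 | h1
  · exact ⟨a, b, h1, h⟩
  · exact ⟨b, a, h1, h.symm⟩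

/-- Part A3. -/
theorem main (h2 : A2P) : A3P := by
  intro A _ r hr
  have hr' := hr
  obtain ⟨hmul, ψ, hψ⟩ := hr
  have hp : ∀ n, ∃ a b : ℤ, a < b ∧ ψ n a = ψ n b := fun n => pigeon (ψ n)
  choose a b hab heq using hp
  have ho : r (fun n => b n - a n) = 1 := by
    have e1 : r a * r (fun n => b n - a n) = r b := by
      rw [← hmul]
      congr 1
      funext n
      show a n + (b n - a n) = b n
      ring
    have e2 : r a = r b := by
      rw [hψ, hψ]
      congr 1
      funext n
      exact heq n
    rw [e2] at e1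
    exact mul_eq_left.1 e1
  refine ⟨fun n => b n - a n, fun n => sub_pos.2 (hab n), ?_⟩
  refine h2 A (fun m => r ((fun n => b n - a n) * m)) ⟨?_, ?_⟩ ?_
  · intro x y
    show r ((fun n => b n - a n) * (x + y)) = _
    rw [mul_add, hmul]
  · refine ⟨fun n k => ψ n ((b n - a n) * k), fun x => ?_⟩
    show r ((fun n => b n - a n) * x) = _
    rw [hψ]
    rfl
  · show r ((fun n => b n - a n) * fun _ => 1) = 1
    rw [← ho]
    congr 1
    funext n
    show (b n - a n) * 1 = b n - a n
    ring

end

end Pool.Agent.helper987_SE.A3
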