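import Pool.Agent.helper987_SE.Stm

/-!
# Project SE, part A4: uniqueness of internal homomorphisms
-/

set_option autoImplicit false

open Filter Topology Finset
open scoped Classical

namespace Pool.Agent.helper987_SE.A4

open Helper418

noncomputable section

/-- Part A4. -/
theorem main (h2 : A2P) : A4P := by
  intro A _ T _ α r r' hr hr' hc hc' hcc hone
  have key : ∀ m, r' m * (r m)⁻¹ = 1 := by
    refine h2 A (fun m => r' m * (r m)⁻¹) ⟨?_, ?_⟩ ?_
    · intro x y
      show r' (x + y) * (r (x + y))⁻¹ = r' x * (r x)⁻¹ * (r' y * (r y)⁻¹)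
      rw [hr'.1, hr.1]
      have h3 : r x * r' y = r' y * r x := hcc x (r' y) (hc' y)
      have h4 : r x * r y = r y * r x := hcc x (r y) (hc y)
      rw [h4]
      have h5 : (r x)⁻¹ * r' y = r' y * (r x)⁻¹ := by
        rw [inv_mul_eq_iff_eq_mul, ← mul_assoc, h3, mul_assoc, mul_inv_cancel, mul_one]
      have h6 : (r x)⁻¹ * (r y)⁻¹ = (r y)⁻¹ * (r x)⁻¹ := by
        rw [← mul_inv_rev, ← mul_inv_rev, h4]
      calc r' x * r' y * (r y * r x)⁻¹ = r' x * (r' y * ((r x)⁻¹ * (r y)⁻¹)) := by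
            rw [mul_inv_rev, mul_assoc]
        _ = r' x * ((r' y * (r x)⁻¹) * (r y)⁻¹) := by rw [mul_assoc (r' y)]
        _ = r' x * (((r x)⁻¹ * r' y) * (r y)⁻¹) := by rw [h5]
        _ = r' x * (r x)⁻¹ * (r' y * (r y)⁻¹) := by rw [mul_assoc, mul_assoc]
    · obtain ⟨ψ, hψ⟩ := hr.2
      obtain ⟨ψ', hψ'⟩ := hr'.2
      refine ⟨fun n k => ψ' n k * (ψ n k)⁻¹, fun x => ?_⟩
      show r' x * (r x)⁻¹ = _
      rw [hψ, hψ']
      rfl
    · show r' (fun _ => 1) * (r fun _ => 1)⁻¹ = 1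
      rw [hone, mul_inv_cancel]
  intro m
  have := key m
  rw [mul_inv_eq_one] at this
  exact this.symm

end

end Pool.Agent.helper987_SE.A4
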