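import Pool.Agent.helper987_SE.Stm
import Pool.Agent.W681.RC.PTB
import Pool.Agent.W440.RC.PTA
import Pool.Agent.W103.RC.PTC
import Pool.Agent.Helper418_Sofic.ILCore

/-!
# Project SE, B1 (helper787): the improvement lemma for near actions of property (T) groups
-/

set_option autoImplicit false
set_option maxHeartbeats 400000
set_option linter.unusedSectionVars false

open Filter Topology Finset
open scoped Classical

namespace Pool.Agent.helper987_SE.B1

open Helper418 Pool.Agent.helper987_SE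

noncomputable section

/-- the permutation representation -/
def permL (X : Type) [Fintype X] :
    Equiv.Perm X →* (EuclideanSpace ℂ X ≃ₗᵢ[ℂ] EuclideanSpace ℂ X) where
  toFun τ := LinearIsometryEquiv.piLpCongrLeft 2 ℂ ℂ τ
  map_one' := by
    ext F x
    simp [LinearIsometryEquiv.piLpCongrLeft_apply]
    rfl
  map_mul' := by
    intro a b
    ext F x
    simp [LinearIsometryEquiv.piLpCongrLeft_apply]
    rfl

theorem permL_apply {X : Type} [Fintype X] (τ : Equiv.Perm X) (F : EuclideanSpace ℂ X) (x : X) :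
    (permL X τ F) x = F (τ⁻¹ x) := by
  show (LinearIsometryEquiv.piLpCongrLeft 2 ℂ ℂ τ F) x = _
  rw [LinearIsometryEquiv.piLpCongrLeft_apply]
  rfl

/-- the permutation representation of the free group -/
def rho {X : Type} [Fintype X] {k : ℕ} (σ : Fin k → Equiv.Perm X) :
    FreeGroup (Fin k) →* unitary (EuclideanSpace ℂ X →L[ℂ] EuclideanSpace ℂ X) :=
  ((Unitary.linearIsometryEquiv.symm : (EuclideanSpace ℂ X ≃ₗᵢ[ℂ] EuclideanSpace ℂ X) ≃*
    unitary (EuclideanSpace ℂ X →L[ℂ] EuclideanSpace ℂ X)).toMonoidHom.comp (permL X)).comp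
    (FreeGroup.lift σ)

theorem rho_apply {X : Type} [Fintype X] {k : ℕ} (σ : Fin k → Equiv.Perm X)
    (w : FreeGroup (Fin k)) (F : EuclideanSpace ℂ X) (x : X) :
    ((rho σ w : EuclideanSpace ℂ X →L[ℂ] EuclideanSpace ℂ X) F) x = F ((wd σ w)⁻¹ x) := by
  have h : ((rho σ w : EuclideanSpace ℂ X →L[ℂ] EuclideanSpace ℂ X) F) = permL X (wd σ w) F := by
    show ((Unitary.linearIsometryEquiv.symm (permL X (wd σ w)) :
      unitary (EuclideanSpace ℂ X →L[ℂ] EuclideanSpace ℂ X)) :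
      EuclideanSpace ℂ X →L[ℂ] EuclideanSpace ℂ X) F = _
    rw [Unitary.coe_symm_linearIsometryEquiv_apply]
    rfl
  rw [h, permL_apply]

/-- complexification of a real function -/
def cx {X : Type} (F : X → ℝ) : EuclideanSpace ℂ X := WithLp.toLp 2 fun x => ((F x : ℝ) : ℂ)

theorem cx_apply {X : Type} (F : X → ℝ) (x : X) : cx F x = ((F x : ℝ) : ℂ) := rfl

theorem norm_cx_sq {X : Type} [Fintype X] (F : X → ℝ) : ‖cx F‖ ^ 2 = ∑ x, F x ^ 2 := by
  rw [EuclideanSpace.norm_sq_eq]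
  apply Finset.sum_congr rfl
  intro x _
  rw [cx_apply, Complex.norm_real, Real.norm_eq_abs, sq_abs]

theorem cx_sub {X : Type} (F G : X → ℝ) : cx F - cx G = cx fun x => F x - G x := by
  ext x
  rw [PiLp.sub_apply, cx_apply, cx_apply, cx_apply]
  push_cast
  rfl

theorem rho_cx {X : Type} [Fintype X] {k : ℕ} (σ : Fin k → Equiv.Perm X)
    (w : FreeGroup (Fin k)) (F : X → ℝ) :
    (rho σ w : EuclideanSpace ℂ X →L[ℂ] EuclideanSpace ℂ X) (cx F) =
      cx fun x => F ((wd σ w)⁻¹ x) := by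
  ext x
  rw [rho_apply, cx_apply, cx_apply]

theorem Mk_cx {X : Type} [Fintype X] {k : ℕ} (σ : Fin k → Equiv.Perm X) (F : X → ℝ) :
    Pool.Agent.W661.RC.Mk (rho σ) (cx F) = cx (MK σ F) := by
  ext x
  unfold Pool.Agent.W661.RC.Mk
  simp only [ContinuousLinearMap.add_apply, ContinuousLinearMap.smul_apply,
    ContinuousLinearMap.one_apply, ContinuousLinearMap.sum_apply, rho_cx, PiLp.add_apply,
    PiLp.smul_apply, cx_apply, WithLp.ofLp_sum, Finset.sum_apply, smul_eq_mul]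
  simp only [map_inv, FreeGroup.lift_apply_of, inv_inv, wd]
  unfold MK
  push_cast
  rw [Finset.sum_congr rfl fun s _ => add_comm _ _]
  ring

theorem Mk_pow_cx {X : Type} [Fintype X] {k : ℕ} (σ : Fin k → Equiv.Perm X) (m : ℕ)
    (F : X → ℝ) : (Pool.Agent.W661.RC.Mk (rho σ) ^ m) (cx F) = cx ((MK σ)^[m] F) := by
  induction m with
  | zero => rfl
  | succ m ih =>
    rw [pow_succ', ContinuousLinearMap.mul_apply, ih, Mk_cx, Function.iterate_succ_apply']

theorem norm_rho_sub {X : Type} [Fintype X] {k : ℕ} (σ : Fin k → Equiv.Perm X)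
    (w : FreeGroup (Fin k)) (F : X → ℝ) :
    ‖(rho σ w : EuclideanSpace ℂ X →L[ℂ] EuclideanSpace ℂ X) (cx F) - cx F‖ ^ 2 =
      ∑ x, (F x - F (wd σ w x)) ^ 2 := by
  rw [rho_cx, cx_sub, norm_cx_sq, ← Equiv.sum_comp (wd σ w)]
  apply Finset.sum_congr rfl
  intro x _
  have h : (wd σ w)⁻¹ (wd σ w x) = x := (wd σ w).symm_apply_apply x
  rw [h]

theorem sum_ind {X : Type} [Fintype X] (Y : Finset X) : ∑ x, ind Y x = Y.card := by
  unfold ind
  rw [← Finset.sum_filter, Finset.sum_const, nsmul_eq_mul, mul_one]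
  congr 2
  ext x; simp

theorem sum_ind_sq {X : Type} [Fintype X] (Y : Finset X) : ∑ x, ind Y x ^ 2 = Y.card := by
  rw [← sum_ind]
  apply Finset.sum_congr rfl
  intro x _
  unfold ind; split_ifs <;> norm_num

theorem ind_diff {X : Type} [Fintype X] (Y : Finset X) (τ : Equiv.Perm X) :
    ∑ x, (ind Y x - ind Y (τ x)) ^ 2 = 2 * ((Y.filter fun x => τ x ∉ Y).card : ℝ) := by
  have e1 : ∀ x, (ind Y x - ind Y (τ x)) ^ 2 = 2 * (if x ∈ Y ∧ τ x ∉ Y then (1 : ℝ) else 0)
      - (ind Y x - ind Y (τ x)) := by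
    intro x
    unfold ind
    by_cases ha : x ∈ Y <;> by_cases hb : τ x ∈ Y <;> simp [ha, hb] <;> norm_num
  rw [Finset.sum_congr rfl (fun x _ => e1 x), Finset.sum_sub_distrib, ← Finset.mul_sum,
    Finset.sum_sub_distrib, Equiv.sum_comp τ (ind Y), sub_self, sub_zero]
  congr 1
  rw [← Finset.sum_filter, Finset.sum_const, nsmul_eq_mul, mul_one]
  congr 2
  ext x
  simp

/-- positivity and mass of the iterates -/
theorem MK_props {X : Type} [Fintype X] {k : ℕ} (σ : Fin k → Equiv.Perm X) (F : X → ℝ)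
    (h0 : ∀ x, 0 ≤ F x) : (∀ x, 0 ≤ MK σ F x) ∧ ∑ x, MK σ F x = ∑ x, F x := by
  constructor
  · intro x
    unfold MK
    have h1 : 0 ≤ ∑ s, (F (σ s x) + F ((σ s)⁻¹ x)) :=
      Finset.sum_nonneg fun s _ => add_nonneg (h0 _) (h0 _)
    have h2 := h0 x
    positivity
  · unfold MK
    have hk : (2 * (2 * (k : ℝ) + 1)) ≠ 0 := by positivity
    rw [Finset.sum_add_distrib, ← Finset.sum_div, ← Finset.sum_div, Finset.sum_add_distrib,
      Finset.sum_comm]
    have h1 : ∀ s : Fin k, ∑ x, (F (σ s x) + F ((σ s)⁻¹ x)) = 2 * ∑ x, F x := by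
      intro s
      rw [Finset.sum_add_distrib, Equiv.sum_comp (σ s) F, Equiv.sum_comp (σ s)⁻¹ F]
      ring
    rw [Finset.sum_congr rfl fun s _ => h1 s, Finset.sum_const, Finset.card_univ,
      Fintype.card_fin, nsmul_eq_mul]
    field_simp
    ring

theorem MK_iter {X : Type} [Fintype X] {k : ℕ} (σ : Fin k → Equiv.Perm X) (F : X → ℝ)
    (h0 : ∀ x, 0 ≤ F x) (m : ℕ) :
    (∀ x, 0 ≤ ((MK σ)^[m] F) x) ∧ ∑ x, ((MK σ)^[m] F) x = ∑ x, F x := by
  induction m with
  | zero => exact ⟨h0, rfl⟩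
  | succ m ih =>
    rw [Function.iterate_succ_apply']
    have := MK_props σ _ ih.1
    exact ⟨this.1, this.2.trans ih.2⟩

/-- the boundary of an upper level set -/
theorem bd_lev {X : Type} [Fintype X] {k : ℕ} (σ : Fin k → Equiv.Perm X) (F : X → ℝ)
    (θ t : ℝ) (ht : 0 < t) :
    (bd σ (univ.filter fun x => θ < F x) : ℝ) ≤
      k * ((univ.filter fun x => θ < F x ∧ F x ≤ θ + t).card : ℝ) +
        (∑ s, ∑ x, (F x - F (σ s x)) ^ 2) / t ^ 2 := by
  unfold bd
  rw [Nat.cast_sum]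
  have h1 : ∀ i, ((((univ.filter fun x => θ < F x).filter fun x =>
      σ i x ∉ (univ.filter fun x => θ < F x)).card : ℕ) : ℝ) ≤
      ((univ.filter fun x => θ < F x ∧ F x ≤ θ + t).card : ℝ) +
        (∑ x, (F x - F (σ i x)) ^ 2) / t ^ 2 := by
    intro i
    have h2 : ((univ.filter fun x => θ < F x).filter fun x =>
      σ i x ∉ (univ.filter fun x => θ < F x)) ⊆ (univ.filter fun x => θ < F x ∧ F x ≤ θ + t) ∪
        (univ.filter fun x => t ^ 2 ≤ (F x - F (σ i x)) ^ 2) := by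
      intro x hx
      simp only [Finset.mem_filter, Finset.mem_univ, true_and, not_lt, Finset.mem_union] at hx ⊢
      by_cases h : F x ≤ θ + t
      · exact Or.inl ⟨hx.1, h⟩
      · right
        push Not at h
        have : t ≤ F x - F (σ i x) := by linarith [hx.2]
        nlinarith
    have h3 : ((univ.filter fun x => t ^ 2 ≤ (F x - F (σ i x)) ^ 2).card : ℝ) ≤
        (∑ x, (F x - F (σ i x)) ^ 2) / t ^ 2 := by
      rw [le_div_iff₀ (by positivity)]
      calc ((univ.filter fun x => t ^ 2 ≤ (F x - F (σ i x)) ^ 2).card : ℝ) * t ^ 2 =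
          ∑ x ∈ univ.filter fun x => t ^ 2 ≤ (F x - F (σ i x)) ^ 2, t ^ 2 := by
            rw [Finset.sum_const, nsmul_eq_mul]
        _ ≤ ∑ x ∈ univ.filter fun x => t ^ 2 ≤ (F x - F (σ i x)) ^ 2, (F x - F (σ i x)) ^ 2 :=
            Finset.sum_le_sum fun x hx => (Finset.mem_filter.mp hx).2
        _ ≤ ∑ x, (F x - F (σ i x)) ^ 2 :=
            Finset.sum_le_sum_of_subset_of_nonneg (Finset.subset_univ _)
              fun x _ _ => sq_nonneg _
    have h4 := (Finset.card_le_card h2).trans (Finset.card_union_le _ _)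
    have h5 : ((((univ.filter fun x => θ < F x).filter fun x =>
      σ i x ∉ (univ.filter fun x => θ < F x)).card : ℕ) : ℝ) ≤
      ((univ.filter fun x => θ < F x ∧ F x ≤ θ + t).card : ℝ) +
      ((univ.filter fun x => t ^ 2 ≤ (F x - F (σ i x)) ^ 2).card : ℝ) := by exact_mod_cast h4
    linarith
  refine (Finset.sum_le_sum fun i _ => h1 i).trans ?_
  rw [Finset.sum_add_distrib, Finset.sum_const, Finset.card_univ, nsmul_eq_mul,
    ← Finset.sum_div, Fintype.card_fin]

/-- Lemma 5 -/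
theorem main : B1P := by
  intro T _ k γ hT
  obtain ⟨C0, hC0, hB⟩ := Pool.Agent.W681.RC.main W440.RC.main T k γ hT.hasT
    hT.surj
  refine ⟨32 * C0, by positivity, fun δ hδ => ?_⟩
  obtain ⟨J', hJ'⟩ := exists_nat_ge (4 * (k : ℝ) / δ)
  set J : ℕ := J' + 1 with hJdef
  have hJ0 : 0 < J := Nat.succ_pos _
  have hJR : (0 : ℝ) < J := by exact_mod_cast hJ0
  have hJ : 4 * (k : ℝ) / δ ≤ J := by
    refine hJ'.trans ?_
    rw [hJdef]; push_cast; linarith
  set t : ℝ := 1 / (4 * ((J : ℝ) + 1)) with ht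
  have ht0 : 0 < t := by positivity
  set η : ℝ := min (δ * t ^ 2 / 4) (δ / 32) with hη
  have hη0 : 0 < η := lt_min (by positivity) (by positivity)
  have hη1 : 4 * η ≤ δ * t ^ 2 := by
    have := min_le_left (δ * t ^ 2 / 4) (δ / 32)
    rw [← hη] at this
    linarith
  have hη2 : 32 * η ≤ δ := by
    have := min_le_right (δ * t ^ 2 / 4) (δ / 32)
    rw [← hη] at this
    linarith
  obtain ⟨K, hK⟩ := hB η hη0
  obtain ⟨d, hd, R, hR, hS⟩ := Pool.Agent.W103.RC.main k γ.ker K C0 η hη0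
    (fun H _ _ _ ρ hρ ξ => hK H ρ (fun w hw => hρ w hw) ξ)
  refine ⟨d ^ 2 / 2, by positivity, R, K, fun w hw => hR w hw, ?_⟩
  intro X _ σ Y hY
  have hYc : (0 : ℝ) ≤ Y.card := Nat.cast_nonneg _
  have hn : ‖cx (ind Y)‖ ^ 2 = Y.card := by rw [norm_cx_sq, sum_ind_sq]
  -- almost invariance of the indicator function
  have hinv : ∀ w ∈ R, ‖(rho σ w : EuclideanSpace ℂ X →L[ℂ] EuclideanSpace ℂ X) (cx (ind Y)) -
      cx (ind Y)‖ ≤ d * ‖cx (ind Y)‖ := by
    intro w hw
    refine (sq_le_sq₀ (norm_nonneg _) (by positivity)).1 ?_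
    rw [mul_pow, hn, norm_rho_sub, ind_diff]
    have h1 := hY w hw
    have h2 : ((Y.filter fun x => wd σ w x ∉ Y).card : ℝ) ≤
        ((Y.filter fun x => wd σ w x ≠ x).card : ℝ) := by
      exact_mod_cast Finset.card_le_card fun x hx => by
        rw [Finset.mem_filter] at hx ⊢
        refine ⟨hx.1, fun h => hx.2 ?_⟩
        rw [h]; exact hx.1
    nlinarith
  obtain ⟨hs1, hs2⟩ := hS (EuclideanSpace ℂ X) (rho σ) (cx (ind Y)) hinv
  rw [Mk_pow_cx, hn] at hs1 hs2
  have hind0 : ∀ x, 0 ≤ ind Y x := by intro x; unfold ind; split_ifs <;> norm_num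
  obtain ⟨hF0, hFs⟩ := MK_iter σ (ind Y) hind0 K
  rw [sum_ind] at hFs
  set F := (MK σ)^[K] (ind Y) with hF
  have hs1' : ∑ s, ∑ x, (F x - F (σ s x)) ^ 2 ≤ 2 * η * Y.card := by
    refine le_trans (le_of_eq ?_) hs1
    apply Finset.sum_congr rfl
    intro s _
    rw [norm_rho_sub]
    simp only [wd, FreeGroup.lift_apply_of]
  have hs2' : ∑ x, (F x - ind Y x) ^ 2 ≤ C0 * (2 * bd σ Y) + 2 * η * Y.card := by
    have e1 : ‖cx F - cx (ind Y)‖ ^ 2 = ∑ x, (F x - ind Y x) ^ 2 := by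
      rw [cx_sub, norm_cx_sq]
    have e2 : ∑ s, ‖(rho σ (FreeGroup.of s) : EuclideanSpace ℂ X →L[ℂ] EuclideanSpace ℂ X)
        (cx (ind Y)) - cx (ind Y)‖ ^ 2 = 2 * bd σ Y := by
      unfold bd
      rw [Nat.cast_sum, Finset.mul_sum]
      apply Finset.sum_congr rfl
      intro s _
      rw [norm_rho_sub, ind_diff]
      simp only [wd, FreeGroup.lift_apply_of]
    rw [e1, e2] at hs2
    exact hs2
  obtain ⟨θ, hθ1, hθ2, hθ3⟩ := ILCore.threshold F hF0 J hJ0
  rw [hFs, ← ht] at hθ3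
  refine ⟨θ, hθ1, hθ2, ?_, ?_⟩
  · have h1 := bd_lev σ F θ t ht0
    refine h1.trans ?_
    have h2 : (k : ℝ) * ((univ.filter fun x => θ < F x ∧ F x ≤ θ + t).card : ℝ) ≤
        δ / 2 * Y.card := by
      calc (k : ℝ) * ((univ.filter fun x => θ < F x ∧ F x ≤ θ + t).card : ℝ) ≤
          k * (2 * Y.card / J) := mul_le_mul_of_nonneg_left hθ3 (Nat.cast_nonneg _)
        _ = (2 * k / J) * Y.card := by ring
        _ ≤ δ / 2 * Y.card := by
            apply mul_le_mul_of_nonneg_right _ hYc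
            rw [div_le_iff₀ hδ] at hJ
            rw [div_le_div_iff₀ hJR (by norm_num)]
            linarith
    have h3 : (∑ s, ∑ x, (F x - F (σ s x)) ^ 2) / t ^ 2 ≤ δ / 2 * Y.card := by
      rw [div_le_iff₀ (by positivity)]
      refine hs1'.trans ?_
      calc 2 * η * Y.card ≤ (δ * t ^ 2 / 2) * Y.card := by
            apply mul_le_mul_of_nonneg_right _ hYc
            linarith
        _ = δ / 2 * Y.card * t ^ 2 := by ring
    linarith
  · have h2 : ((Y.filter fun x => F x ≤ θ).card : ℝ) * (1 / 16) ≤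
        ∑ x, (F x - ind Y x) ^ 2 := by
      calc ((Y.filter fun x => F x ≤ θ).card : ℝ) * (1 / 16) =
          ∑ x ∈ Y.filter fun x => F x ≤ θ, (1 / 16 : ℝ) := by
            rw [Finset.sum_const, nsmul_eq_mul]
        _ ≤ ∑ x ∈ Y.filter fun x => F x ≤ θ, (F x - ind Y x) ^ 2 := by
            apply Finset.sum_le_sum
            intro x hx
            obtain ⟨hx1, hx2⟩ := Finset.mem_filter.mp hx
            have e : ind Y x = 1 := by unfold ind; rw [if_pos hx1]
            rw [e]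
            nlinarith
        _ ≤ ∑ x, (F x - ind Y x) ^ 2 :=
            Finset.sum_le_sum_of_subset_of_nonneg (Finset.subset_univ _)
              fun x _ _ => sq_nonneg _
    have h3 : 32 * η * Y.card ≤ δ * Y.card := mul_le_mul_of_nonneg_right hη2 hYc
    nlinarith

end

end Pool.Agent.helper987_SE.B1
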