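import Pool.Agent.helper987_SE.Stm
import Pool.Agent.Helper418_Sofic.Lef
import Pool.Agent.Helper418_Sofic.Finest
import Pool.Agent.Helper418_Sofic.RefLemmas

/-!
# Project SE (helper987), part B10: Theorem 10
-/

set_option autoImplicit false
set_option maxHeartbeats 400000

open Filter Topology Finset
open scoped Classical

namespace Pool.Agent.helper987_SE.B10

open Helper418

noncomputable section

/-! ## Counting -/

/-- number of points that satisfy `P`, as a real number -/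
def cnt {V : Type} [Fintype V] (P : V → Prop) : ℝ := ((univ.filter P).card : ℝ)

theorem cnt_eq {V : Type} [Fintype V] (P : V → Prop) (iP : DecidablePred P) :
    ((@Finset.filter _ P iP univ).card : ℝ) = cnt P := by
  unfold cnt
  congr!

theorem cnt_nonneg {V : Type} [Fintype V] (P : V → Prop) : 0 ≤ cnt P := by
  unfold cnt
  positivity

theorem cnt_mono {V : Type} [Fintype V] {P Q : V → Prop} (h : ∀ x, P x → Q x) :
    cnt P ≤ cnt Q := by
  unfold cnt
  exact Nat.cast_le.2 (card_le_card (monotone_filter_right _ (fun a _ ha => h a ha)))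

theorem cnt_or {V : Type} [Fintype V] (P Q : V → Prop) :
    cnt (fun x => P x ∨ Q x) ≤ cnt P + cnt Q := by
  unfold cnt
  refine le_trans (Nat.cast_le.2 (card_le_card (t := univ.filter P ∪ univ.filter Q) ?_)) ?_
  · intro x hx
    simp only [mem_union, mem_filter, mem_univ, true_and] at hx ⊢
    exact hx
  · exact_mod_cast card_union_le _ _

/-- two bounds -/
theorem cnt_or_le {V : Type} [Fintype V] {P Q R : V → Prop} {a b : ℝ} (hP : cnt P ≤ a)
    (hQ : cnt Q ≤ b) (h : ∀ x, ¬ P x → ¬ Q x → ¬ R x) : cnt R ≤ a + b := by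
  refine (cnt_mono (Q := fun x => P x ∨ Q x) ?_).trans ((cnt_or P Q).trans (add_le_add hP hQ))
  intro x hx
  by_contra hc
  push Not at hc
  exact h x hc.1 hc.2 hx

/-- preimages under a map which is injective outside of a set -/
theorem cnt_comp {V W : Type} [Fintype V] [Fintype W] (P : V → Prop) (Q : W → Prop) (p : V → W)
    (h : ∀ x y, P x → P y → p x = p y → x = y) : cnt (fun x => P x ∧ Q (p x)) ≤ cnt Q := by
  unfold cnt
  refine Nat.cast_le.2 (card_le_card_of_injOn p ?_ ?_)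
  · intro x hx
    simp only [coe_filter, mem_univ, true_and, Set.mem_ofPred_eq] at hx ⊢
    exact hx.2
  · intro x hx y hy hxy
    simp only [coe_filter, mem_univ, true_and, Set.mem_ofPred_eq] at hx hy
    exact h x y hx.1 hy.1 hxy

theorem cnt_perm {V : Type} [Fintype V] (P : V → Prop) (τ : Equiv.Perm V) :
    cnt (fun x => P (τ x)) ≤ cnt P := by
  refine le_trans (cnt_mono (Q := fun x => True ∧ P (τ x)) fun x hx => ⟨trivial, hx⟩) ?_
  exact cnt_comp (fun _ => True) P τ fun x y _ _ h => τ.injective h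

theorem dfc_eq {X Y : Type} [Fintype X] {k : ℕ} (σ : Fin k → Equiv.Perm X)
    (τ : Fin k → Equiv.Perm Y) (p : X → Y) :
    (dfc σ τ p : ℝ) = ∑ i, cnt fun x => p (σ i x) ≠ τ i (p x) := by
  unfold dfc
  push_cast
  exact Finset.sum_congr rfl fun i _ => cnt_eq _ _

section G
variable {A : ℕ → Type} [∀ n, Fintype (A n)]

theorem dens_cnt (P : ∀ n, A n → Prop) (n : ℕ) :
    Helper418.dens P n = cnt (P n) / Fintype.card (A n) := by
  unfold Helper418.dens
  rw [cnt_eq]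

theorem cls_eq {s t : ∀ n, Equiv.Perm (A n)} :
    cls s = cls t ↔ ∀ᶠ x in ae A, s x.1 x.2 = t x.1 x.2 := by
  unfold cls
  rw [QuotientGroup.eq]
  show Nul (s⁻¹ * t) ↔ _
  unfold Nul
  refine eventually_congr (Eventually.of_forall fun x => ?_)
  rw [Pi.mul_apply, Pi.inv_apply, Equiv.Perm.mul_apply, Equiv.Perm.inv_eq_iff_eq]
  exact eq_comm

theorem cls_mul (s t : ∀ n, Equiv.Perm (A n)) : cls (s * t) = cls s * cls t := rfl

theorem cls_inv (s : ∀ n, Equiv.Perm (A n)) : cls s⁻¹ = (cls s)⁻¹ := rfl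

theorem cls_one : cls (1 : ∀ n, Equiv.Perm (A n)) = 1 := rfl

theorem ae_fst {p : ℕ → Prop} (h : ∀ᶠ n in atTop, p n) : ∀ᶠ x in ae A, p x.1 := by
  refine (mem_ae (P := fun n _ => p n)).2 ?_
  refine tendsto_const_nhds.congr' ?_
  filter_upwards [h] with n hn
  unfold Helper418.dens
  simp [hn]

/-- the part with label `c` -/
abbrev Pt (f : ∀ n, A n → ℕ) (n c : ℕ) : Type := {a : A n // f n a = c}

theorem card_part {X : Type} [Fintype X] (f : X → ℕ) (c : ℕ) (P : X → Prop) :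
    cnt (fun y : {a : X // f a = c} => P y.1) =
      (((univ.filter P).filter fun y => f y = c).card : ℝ) := by
  unfold cnt
  rw [← Finset.card_map (Function.Embedding.subtype _)]
  congr 2
  ext y
  simp only [Finset.mem_map, mem_filter, mem_univ, true_and, Function.Embedding.coe_subtype,
    Subtype.exists, exists_and_right, exists_eq_right]
  constructor
  · rintro ⟨h, hP⟩
    exact ⟨hP, h⟩
  · rintro ⟨hP, h⟩
    exact ⟨h, hP⟩

theorem card_part' {X : Type} [Fintype X] (f : X → ℕ) (x : X) :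
    Fintype.card {a : X // f a = f x} = sz f x := by
  unfold sz
  rw [Fintype.card_subtype]

theorem parts {P : ∀ n, A n → Prop} (h : ∀ᶠ x in ae A, P x.1 x.2) (f : ∀ n, A n → ℕ) {κ : ℝ}
    (hκ : 0 < κ) :
    ∀ᶠ x in ae A, cnt (fun y : Pt f x.1 (f x.1 x.2) => ¬ P x.1 y.1) ≤
      κ * Fintype.card (Pt f x.1 (f x.1 x.2)) := by
  filter_upwards [Lef.ae_parts h f hκ] with x hx
  rw [card_part', card_part (f x.1) (f x.1 x.2) (fun y => ¬ P x.1 y)]
  convert hx

theorem of_parts (f : ∀ n, A n → ℕ) {Q : ∀ n, A n → Prop}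
    (h : ∀ κ : ℝ, 0 < κ → ∀ᶠ x in ae A,
      cnt (fun y : Pt f x.1 (f x.1 x.2) => ¬ Q x.1 y.1) ≤
      κ * Fintype.card (Pt f x.1 (f x.1 x.2))) : ∀ᶠ x in ae A, Q x.1 x.2 := by
  refine (mem_ae (P := Q)).2 ?_
  rw [Metric.tendsto_atTop]
  intro ε hε
  have h1 := h (ε / 2) (half_pos hε)
  have h2 := (mem_ae (P := fun n a =>
    cnt (fun y : Pt f n (f n a) => ¬ Q n y.1) ≤
      ε / 2 * Fintype.card (Pt f n (f n a)))).1 h1
  obtain ⟨N, hN⟩ := eventually_atTop.1 (h2.eventually_lt_const (half_pos hε))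
  refine ⟨N, fun n hn => ?_⟩
  rw [Real.dist_eq, sub_zero, abs_of_nonneg (dens_nonneg _ n)]
  have h3 := hN n hn
  set Bad : ∀ n, A n → Prop := fun n a =>
    ¬ (cnt (fun y : Pt f n (f n a) => ¬ Q n y.1) ≤ ε / 2 * Fintype.card (Pt f n (f n a)))
    with hBad
  have h4 : Helper418.dens (fun n a => ¬ Q n a) n ≤
      Helper418.dens (fun n a => Bad n a ∨ (¬ Q n a ∧ ¬ Bad n a)) n := by
    apply Helper418.dens_mono
    intro a ha
    by_cases hb : Bad n a
    · exact Or.inl hb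
    · exact Or.inr ⟨ha, hb⟩
  have h5 := dens_or_le Bad (fun n a => ¬ Q n a ∧ ¬ Bad n a) n
  have h6 : Helper418.dens (fun n a => ¬ Q n a ∧ ¬ Bad n a) n ≤ ε / 2 := by
    rw [dens_cnt]
    have h7 : cnt (fun a => ¬ Q n a ∧ ¬ Bad n a) ≤
        ε / 2 * ((univ : Finset (A n)).card : ℝ) := by
      unfold cnt
      refine SzNear.fiberwise_le (f n) _ univ (half_pos hε).le (fun a ha => ?_)
      simp only [mem_filter, mem_univ, true_and] at ha
      obtain ⟨ha1, ha2⟩ := ha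
      simp only [hBad, not_not] at ha2
      rw [card_part' (f n) a, card_part (f n) (f n a) (fun y => ¬ Q n y)] at ha2
      refine le_trans ?_ ha2
      refine Nat.cast_le.2 (card_le_card ?_)
      intro y hy
      simp only [mem_filter, mem_univ, true_and] at hy ⊢
      exact ⟨hy.1.1, hy.2⟩
    rcases Nat.eq_zero_or_pos (Fintype.card (A n)) with h0 | h0
    · rw [h0]
      simp [(half_pos hε).le]
    · have h0' : (0 : ℝ) < Fintype.card (A n) := by exact_mod_cast h0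
      rw [div_le_iff₀ h0']
      rw [card_univ] at h7
      exact h7
  linarith

end G

/-- gluing permutations of the parts -/
def glue {X : Type} (f : X → ℕ) (θ : ∀ c, Equiv.Perm {a : X // f a = c}) : Equiv.Perm X :=
  (Equiv.sigmaFiberEquiv f).symm.trans ((Equiv.sigmaCongrRight θ).trans (Equiv.sigmaFiberEquiv f))

theorem glue_apply {X : Type} (f : X → ℕ) (θ : ∀ c, Equiv.Perm {a : X // f a = c}) {c : ℕ}
    (y : {a : X // f a = c}) : glue f θ y.1 = (θ c y).1 := by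
  obtain ⟨y, rfl⟩ := y
  rfl

theorem seqOK_mono {V : Type} [Fintype V] {k : ℕ} {σ : Fin k → Equiv.Perm V} {τ : Equiv.Perm V}
    {δ η δ' η' : ℝ} {θ : ℕ → Equiv.Perm V} (h : SeqOK σ τ δ η θ) (hδ : δ ≤ δ') (hη : η ≤ η') :
    SeqOK σ τ δ' η' θ where
  zero := h.zero
  df := fun m => (h.df m).trans (mul_le_mul_of_nonneg_right hδ (Nat.cast_nonneg _))
  step := fun m => (h.step m).trans (mul_le_mul_of_nonneg_right hη (Nat.cast_nonneg _))

/-- the data of the proof -/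
structure Dat {T : Type} [Group T] {k : ℕ} (γ : FreeGroup (Fin k) →* T) {A : ℕ → Type}
    [∀ n, Fintype (A n)] (Φ : Approx T A) (w0 : FreeGroup (Fin k)) where
  f : ∀ n, A n → ℕ
  inv : AsInv (fun n (i : Fin k) => Φ.φ n (γ (FreeGroup.of i))) f
  ref : ∀ h, AsInv (fun n (i : Fin k) => Φ.φ n (γ (FreeGroup.of i))) h → Ref f h
  σ : ∀ n c, Fin k → Equiv.Perm (Pt f n c)
  e : ℝ → ℝ
  e_pos : ∀ η, 0 < η → 0 < e η
  erg : ∀ η, 0 < η → η < 1 / 2 → ∀ᶠ x in ae A, Erg (σ x.1 (f x.1 x.2)) η (e η)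
  word : ∀ (w : FreeGroup (Fin k)) (κ : ℝ), 0 < κ → ∀ᶠ x in ae A,
      cnt (fun y : Pt f x.1 (f x.1 x.2) => (wd (σ x.1 (f x.1 x.2)) w y).1 ≠ Φ.φ x.1 (γ w) y.1) ≤
          κ * Fintype.card (Pt f x.1 (f x.1 x.2))
  θ : ∀ n c, ℕ → Equiv.Perm (Pt f n c)
  ok : ∀ η, 0 < η → ∀ᶠ x in ae A, SeqOK (σ x.1 (f x.1 x.2)) (wd (σ x.1 (f x.1 x.2)) w0) η η
    (θ x.1 (f x.1 x.2))

section Words
variable {T : Type} [Group T] {k : ℕ} {γ : FreeGroup (Fin k) →* T} {A : ℕ → Type}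
  [∀ n, Fintype (A n)] {Φ : Approx T A} {f : ∀ n, A n → ℕ}
  {σ : ∀ n c, Fin k → Equiv.Perm (Pt f n c)}

theorem rel_ae (hword : ∀ (w : FreeGroup (Fin k)) (κ : ℝ), 0 < κ → ∀ᶠ x in ae A,
      cnt (fun y : Pt f x.1 (f x.1 x.2) => (wd (σ x.1 (f x.1 x.2)) w y).1 ≠ Φ.φ x.1 (γ w) y.1) ≤
          κ * Fintype.card (Pt f x.1 (f x.1 x.2))) {w : FreeGroup (Fin k)}
    (hw : γ w = 1) {β : ℝ} (hβ : 0 < β) :
    ∀ᶠ x in ae A, cnt (fun y => wd (σ x.1 (f x.1 x.2)) w y ≠ y) ≤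
        β * Fintype.card (Pt f x.1 (f x.1 x.2)) := by
  filter_upwards [hword w (β / 2) (half_pos hβ),
    parts (P := fun n a => Φ.φ n 1 a = a) (Lef.ae_one Φ) f (half_pos hβ)] with x h1 h2
  refine (cnt_or_le h1 h2 ?_).trans (le_of_eq ?_)
  · intro y h3 h4
    rw [not_not] at h3 h4 ⊢
    apply Subtype.ext
    rw [h3, hw, h4]
  · ring

theorem comm_ae (hword : ∀ (w : FreeGroup (Fin k)) (κ : ℝ), 0 < κ → ∀ᶠ x in ae A,
      cnt (fun y : Pt f x.1 (f x.1 x.2) => (wd (σ x.1 (f x.1 x.2)) w y).1 ≠ Φ.φ x.1 (γ w) y.1) ≤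
          κ * Fintype.card (Pt f x.1 (f x.1 x.2))) {w0 : FreeGroup (Fin k)}
    (hw0 : ∀ t, γ w0 * t = t * γ w0) (i : Fin k) {κ : ℝ} (hκ : 0 < κ) :
    ∀ᶠ x in ae A, cnt (fun y : Pt f x.1 (f x.1 x.2) =>
          wd (σ x.1 (f x.1 x.2)) w0 (σ x.1 (f x.1 x.2) i y) ≠
            σ x.1 (f x.1 x.2) i (wd (σ x.1 (f x.1 x.2)) w0 y)) ≤
          (κ + κ) * Fintype.card (Pt f x.1 (f x.1 x.2)) := by
  filter_upwards [hword (w0 * FreeGroup.of i) _ hκ, hword (FreeGroup.of i * w0) _ hκ]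
    with x k1 k2
  refine (cnt_or_le k1 k2 ?_).trans (le_of_eq ?_)
  · intro y h3 h4
    rw [not_not] at h3 h4 ⊢
    apply Subtype.ext
    have e1 : wd (σ x.1 (f x.1 x.2)) (w0 * FreeGroup.of i) y =
        wd (σ x.1 (f x.1 x.2)) w0 (σ x.1 (f x.1 x.2) i y) := by
      unfold wd
      rw [map_mul, Equiv.Perm.mul_apply, FreeGroup.lift_apply_of]
    have e2 : wd (σ x.1 (f x.1 x.2)) (FreeGroup.of i * w0) y =
        σ x.1 (f x.1 x.2) i (wd (σ x.1 (f x.1 x.2)) w0 y) := by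
      unfold wd
      rw [map_mul, Equiv.Perm.mul_apply, FreeGroup.lift_apply_of]
    rw [← e1, ← e2, h3, h4, map_mul, map_mul, hw0]
  · ring

theorem dfc_ae (hword : ∀ (w : FreeGroup (Fin k)) (κ : ℝ), 0 < κ → ∀ᶠ x in ae A,
      cnt (fun y : Pt f x.1 (f x.1 x.2) => (wd (σ x.1 (f x.1 x.2)) w y).1 ≠ Φ.φ x.1 (γ w) y.1) ≤
          κ * Fintype.card (Pt f x.1 (f x.1 x.2))) {w0 : FreeGroup (Fin k)}
    (hw0 : ∀ t, γ w0 * t = t * γ w0) {δ : ℝ} (hδ : 0 < δ) :
    ∀ᶠ x in ae A, (dfc (σ x.1 (f x.1 x.2)) (σ x.1 (f x.1 x.2))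
        (wd (σ x.1 (f x.1 x.2)) w0) : ℝ) ≤
        δ * Fintype.card (Pt f x.1 (f x.1 x.2)) := by
  have hk : (0 : ℝ) < 2 * k + 1 := by positivity
  have hκ : 0 < δ / (2 * k + 1) := div_pos hδ hk
  have h1 : ∀ᶠ x in ae A, ∀ i : Fin k, cnt (fun y : Pt f x.1 (f x.1 x.2) =>
        wd (σ x.1 (f x.1 x.2)) w0 (σ x.1 (f x.1 x.2) i y) ≠
          σ x.1 (f x.1 x.2) i (wd (σ x.1 (f x.1 x.2)) w0 y)) ≤
        (δ / (2 * k + 1) + δ / (2 * k + 1)) *
          Fintype.card (Pt f x.1 (f x.1 x.2)) := by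
    rw [Filter.eventually_all]
    intro i
    exact comm_ae hword hw0 i hκ
  filter_upwards [h1] with x hx
  rw [dfc_eq]
  refine (Finset.sum_le_sum fun i _ => hx i).trans ?_
  rw [sum_const, card_univ, Fintype.card_fin, nsmul_eq_mul]
  have h2 : (k : ℝ) * (δ / (2 * k + 1) + δ / (2 * k + 1)) ≤ δ := by
    rw [← add_div, mul_div_assoc', div_le_iff₀ hk]
    have := hδ.le
    nlinarith
  have h3 : (0 : ℝ) ≤ Fintype.card (Pt f x.1 (f x.1 x.2)) := Nat.cast_nonneg _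
  have h4 := mul_le_mul_of_nonneg_right h2 h3
  linarith

end Words

/-- a good part -/
structure Good {V : Type} [Fintype V] {k : ℕ} (σ : Fin k → Equiv.Perm V)
    (w0 : FreeGroup (Fin k)) (e : ℝ → ℝ) (η η' β δ : ℝ) (R : Finset (FreeGroup (Fin k))) :
    Prop where
  ne : Nonempty V
  erg : Erg σ η (e η)
  erg' : Erg σ η' (e η')
  rel : ∀ w ∈ R, cnt (fun x => wd σ w x ≠ x) ≤ β * Fintype.card V
  df : (dfc σ σ (wd σ w0) : ℝ) ≤ δ * Fintype.card V

theorem exists_dat (B2 : B2P) (B5 : B5P) (B6 : B6P) (B9 : B9P) {T : Type} [Group T] {k : ℕ}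
    {γ : FreeGroup (Fin k) →* T} (hT : TPres T k γ) {A : ℕ → Type} [∀ n, Fintype (A n)]
    [∀ n, Nonempty (A n)] (Φ : Approx T A) (w0 : FreeGroup (Fin k))
    (hw0 : ∀ t, γ w0 * t = t * γ w0) : Nonempty (Dat γ Φ w0) := by
  have himp := B2 T k γ hT A Φ
  obtain ⟨f, hf⟩ := exists_finest himp
  have href : ∀ h, AsInv (fun n (i : Fin k) => Φ.φ n (γ (FreeGroup.of i))) h → Ref f h :=
    fun h hh => hf.ref hh
  obtain ⟨σ, e, he, herg, hword0⟩ := B9 T k γ A Φ himp f hf.1 href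
  have hword : ∀ (w : FreeGroup (Fin k)) (κ : ℝ), 0 < κ → ∀ᶠ x in ae A,
      cnt (fun y : Pt f x.1 (f x.1 x.2) => (wd (σ x.1 (f x.1 x.2)) w y).1 ≠ Φ.φ x.1 (γ w) y.1) ≤
          κ * Fintype.card (Pt f x.1 (f x.1 x.2)) := by
    intro w κ hκ
    filter_upwards [hword0 w κ hκ] with x hx
    rw [← cnt_eq _ _]
    exact hx
  let η : ℕ → ℝ := fun j => 1 / (10 * (j : ℝ) + 20)
  have hη0 : ∀ j, 0 < η j := fun j => by positivity
  have hη1 : ∀ j, η j < 1 / 10 := by
    intro j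
    show 1 / (10 * (j : ℝ) + 20) < 1 / 10
    apply one_div_lt_one_div_of_lt (by norm_num)
    have : (0 : ℝ) ≤ j := Nat.cast_nonneg _
    linarith
  have hηlim : Tendsto η atTop (𝓝 0) := by
    have h1 : Tendsto (fun j : ℕ => 1 / ((j : ℝ) + 1)) atTop (𝓝 0) :=
      tendsto_one_div_add_atTop_nhds_zero_nat
    refine squeeze_zero (fun j => (hη0 j).le) (fun j => ?_) h1
    apply one_div_le_one_div_of_le (by positivity)
    have : (0 : ℝ) ≤ j := Nat.cast_nonneg _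
    linarith
  choose δ β η' hδ hδη h6 hβ hη'0 hη'1 R hR hB5 using
    fun j => B5 T k γ hT e he (η j) (hη0 j) (hη1 j)
  have hGood : ∀ j, ∀ᶠ x in ae A,
      Good (σ x.1 (f x.1 x.2)) w0 e (η j) (η' j) (β j) (δ j) (R j) := by
    intro j
    have g1 : ∀ᶠ x in ae A, ∀ w ∈ R j,
        cnt (fun y => wd (σ x.1 (f x.1 x.2)) w y ≠ y) ≤
        β j * Fintype.card (Pt f x.1 (f x.1 x.2)) := by
      rw [Filter.eventually_all_finset]
      intro w hw
      exact rel_ae hword (hR j w hw) (hβ j)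
    filter_upwards [herg (η j) (hη0 j) ((hη1 j).trans (by norm_num)),
      herg (η' j) (hη'0 j) (hη'1 j), g1, dfc_ae hword hw0 (hδ j)] with x k1 k2 k3 k4
    exact ⟨⟨⟨x.2, rfl⟩⟩, k1, k2, k3, k4⟩
  obtain ⟨J, hJ, hJP⟩ := Finest.diag
    (fun m n => Helper418.dens (fun n a =>
      ¬ Good (σ n (f n a)) w0 e (η m) (η' m) (β m) (δ m) (R m)) n ≤ 1 / ((m : ℝ) + 1)) (by
    intro m
    have h1 := (mem_ae (P := fun n a =>
      Good (σ n (f n a)) w0 e (η m) (η' m) (β m) (δ m) (R m))).1 (hGood m)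
    exact h1.eventually_le_const (by positivity))
  have hG : ∀ᶠ x in ae A, Good (σ x.1 (f x.1 x.2)) w0 e (η (J x.1)) (η' (J x.1)) (β (J x.1))
      (δ (J x.1)) (R (J x.1)) := by
    refine (mem_ae (P := fun n a => Good (σ n (f n a)) w0 e (η (J n)) (η' (J n)) (β (J n))
      (δ (J n)) (R (J n)))).2 ?_
    have h1 : Tendsto (fun n => 1 / ((J n : ℝ) + 1)) atTop (𝓝 0) :=
      tendsto_one_div_add_atTop_nhds_zero_nat.comp hJ
    exact squeeze_zero' (Eventually.of_forall fun n => dens_nonneg _ n) hJP h1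
  have hθ : ∀ n c, ∃ θ : ℕ → Equiv.Perm (Pt f n c),
      Good (σ n c) w0 e (η (J n)) (η' (J n)) (β (J n)) (δ (J n)) (R (J n)) →
      SeqOK (σ n c) (wd (σ n c) w0) (δ (J n)) (η (J n)) θ := by
    intro n c
    by_cases hg : Good (σ n c) w0 e (η (J n)) (η' (J n)) (β (J n)) (δ (J n)) (R (J n))
    · have := hg.ne
      obtain ⟨θ, hθ⟩ := B6 (Pt f n c) k (σ n c) (δ (J n)) (η (J n)) (hδ _).le
        (hB5 (J n) (Pt f n c) (σ n c) hg.erg hg.erg' (fun w hw => by
          rw [cnt_eq]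
          exact hg.rel w hw)) (wd (σ n c) w0) hg.df
      exact ⟨θ, fun _ => hθ⟩
    · exact ⟨fun _ => 1, fun h => absurd h hg⟩
  choose θ hθ using hθ
  refine ⟨⟨f, hf.1, href, σ, e, he, herg, hword, θ, ?_⟩⟩
  intro η0 hη0'
  have h1 : ∀ᶠ n in atTop, η (J n) ≤ η0 := (hηlim.comp hJ).eventually_le_const hη0'
  filter_upwards [hG, ae_fst (A := A) h1] with x hx hx1
  exact seqOK_mono (hθ x.1 (f x.1 x.2) hx) ((hδη _).trans hx1) hx1

theorem cnt_or3_le {V : Type} [Fintype V] {P Q R S : V → Prop} {a b c : ℝ} (hP : cnt P ≤ a)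
    (hQ : cnt Q ≤ b) (hR : cnt R ≤ c) (h : ∀ x, ¬ P x → ¬ Q x → ¬ R x → ¬ S x) :
    cnt S ≤ a + b + c := by
  refine cnt_or_le (cnt_or_le hP hQ (R := fun x => P x ∨ Q x) fun x h1 h2 h3 =>
    h3.elim h1 h2) hR fun x h1 h2 => ?_
  push Not at h1
  exact h x h1.1 h1.2 h2

theorem dfc_single {X Y : Type} [Fintype X] {k : ℕ} (σ : Fin k → Equiv.Perm X)
    (τ : Fin k → Equiv.Perm Y) (p : X → Y) (i : Fin k) :
    cnt (fun x => p (σ i x) ≠ τ i (p x)) ≤ (dfc σ τ p : ℝ) := by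
  rw [dfc_eq]
  exact Finset.single_le_sum (f := fun i => cnt fun x => p (σ i x) ≠ τ i (p x))
    (fun i _ => cnt_nonneg _) (mem_univ i)

theorem wd_of {X : Type} {k : ℕ} (σ : Fin k → Equiv.Perm X) (i : Fin k) :
    wd σ (FreeGroup.of i) = σ i := by
  unfold wd
  rw [FreeGroup.lift_apply_of]

section Powers
variable {T : Type} [Group T] {k : ℕ} {γ : FreeGroup (Fin k) →* T} {A : ℕ → Type}
  [∀ n, Fintype (A n)] {Φ : Approx T A} {w0 : FreeGroup (Fin k)} (D : Dat γ Φ w0)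

/-- the positive powers -/
def pw (n m : ℕ) : Equiv.Perm (A n) := glue (D.f n) (fun c => D.θ n c m)

theorem pw_apply {n c : ℕ} (m : ℕ) (y : Pt D.f n c) : pw D n m y.1 = (D.θ n c m y).1 :=
  glue_apply _ _ _

theorem pw_zero : ∀ᶠ x in ae A, pw D x.1 0 x.2 = x.2 := by
  filter_upwards [D.ok 1 one_pos] with x hx
  have h := pw_apply D 0 (⟨x.2, rfl⟩ : Pt D.f x.1 (D.f x.1 x.2))
  rw [hx.zero] at h
  exact h

theorem pw_one : ∀ᶠ x in ae A, pw D x.1 1 x.2 = Φ.φ x.1 (γ w0) x.2 := by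
  refine of_parts (Q := fun n y => pw D n 1 y = Φ.φ n (γ w0) y) D.f (fun κ hκ => ?_)
  filter_upwards [D.ok _ (half_pos hκ), D.word w0 _ (half_pos hκ)] with x h1 h2
  have h3 := h1.step 0
  rw [cnt_eq] at h3
  refine (cnt_or_le h2 h3 ?_).trans (le_of_eq ?_)
  · intro y h4 h5
    rw [not_not] at h4 h5 ⊢
    rw [zero_add, h1.zero, Equiv.Perm.one_apply] at h5
    rw [pw_apply, h5, h4]
  · ring

theorem pw_add (B7 : B7P) (a b : ℕ → ℕ) : ∀ᶠ x in ae A,
    pw D x.1 (a x.1 + b x.1) x.2 = pw D x.1 (a x.1) (pw D x.1 (b x.1) x.2) := by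
  refine of_parts (Q := fun n y => pw D n (a n + b n) y = pw D n (a n) (pw D n (b n) y)) D.f
    (fun κ hκ => ?_)
  have hη : 0 < min κ (1 / 20) := lt_min hκ (by norm_num)
  have hη1 : min κ (1 / 20) < 1 / 10 := (min_le_right _ _).trans_lt (by norm_num)
  set η := min κ (1 / 20) with hηd
  have he := D.e_pos η hη
  have hδ : 0 < min η (D.e η / 6) := lt_min hη (by positivity)
  set δ := min η (D.e η / 6) with hδd
  have h6 : 6 * δ ≤ D.e η := by
    have := min_le_right η (D.e η / 6)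
    linarith
  filter_upwards [D.ok δ hδ, D.erg η hη (by linarith)] with x h1 h2
  have : Nonempty (Pt D.f x.1 (D.f x.1 x.2)) := ⟨⟨x.2, rfl⟩⟩
  have h3 := B7 (Pt D.f x.1 (D.f x.1 x.2)) k (D.σ x.1 (D.f x.1 x.2)) δ η (D.e η) hδ.le hη hη1
    h6 h2 (wd (D.σ x.1 (D.f x.1 x.2)) w0) (D.θ x.1 (D.f x.1 x.2))
    (seqOK_mono h1 le_rfl (min_le_left _ _)) (a x.1) (b x.1)
  rw [cnt_eq] at h3
  refine (cnt_mono ?_).trans (h3.trans (mul_le_mul_of_nonneg_right (min_le_left _ _)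
    (Nat.cast_nonneg _)))
  intro y hy h
  apply hy
  rw [pw_apply, pw_apply, pw_apply, h]

theorem pw_gen (i : Fin k) (a : ℕ → ℕ) : ∀ᶠ x in ae A,
    pw D x.1 (a x.1) (Φ.φ x.1 (γ (FreeGroup.of i)) x.2) =
      Φ.φ x.1 (γ (FreeGroup.of i)) (pw D x.1 (a x.1) x.2) := by
  refine of_parts (Q := fun n y => pw D n (a n) (Φ.φ n (γ (FreeGroup.of i)) y) =
      Φ.φ n (γ (FreeGroup.of i)) (pw D n (a n) y)) D.f (fun κ hκ => ?_)
  have hκ3 : 0 < κ / 3 := by positivity
  filter_upwards [D.ok _ hκ3, D.word (FreeGroup.of i) _ hκ3] with x h1 h2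
  have h3 := (dfc_single _ _ _ i).trans (h1.df (a x.1))
  have h4 := (cnt_perm _ (D.θ x.1 (D.f x.1 x.2) (a x.1))).trans h2
  refine (cnt_or3_le h2 h4 h3 ?_).trans (le_of_eq ?_)
  · intro y k2 k4 k3
    rw [not_not] at k2 k3 k4 ⊢
    rw [wd_of] at k2 k4
    rw [pw_apply, ← k2, ← k4, pw_apply, k3]
  · ring

end Powers

/-! ## Two parts -/

section Two
variable {X : Type} (f : X → ℕ) (s : Equiv.Perm X) (x : X)

/-- the map between the two parts -/
def st (y : {a : X // f a = f x}) : {a : X // f a = f (s x)} :=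
  if h : f (s y.1) = f (s x) then ⟨s y.1, h⟩ else ⟨s x, rfl⟩

theorem st_good {y : {a : X // f a = f x}} (h : f (s y.1) = f (s x)) :
    (st f s x y).1 = s y.1 := by
  unfold st
  rw [dif_pos h]

theorem st_bad {y : {a : X // f a = f x}} (h : ¬ f (s y.1) = f (s x)) :
    (st f s x y).1 = s x := by
  unfold st
  rw [dif_neg h]

theorem st_noninj [Fintype X] {b : ℝ}
    (hb : cnt (fun y : {a : X // f a = f x} => f (s y.1) ≠ f (s x)) ≤ b) :
    cnt (fun y => ∃ z, z ≠ y ∧ st f s x z = st f s x y) ≤ b + b := by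
  by_cases hne : ∃ z : {a : X // f a = f x}, f (s z.1) ≠ f (s x)
  · obtain ⟨z, hz⟩ := hne
    have h1 : cnt (fun y : {a : X // f a = f x} => y.1 = x) ≤
        cnt (fun y : {a : X // f a = f x} => f (s y.1) ≠ f (s x)) := by
      unfold cnt
      refine Nat.cast_le.2 ?_
      have h2 : 1 ≤ (univ.filter fun y : {a : X // f a = f x} => f (s y.1) ≠ f (s x)).card :=
        Finset.card_pos.2 ⟨z, by simpa using hz⟩
      refine le_trans (Finset.card_le_one.2 ?_) (le_trans h2 (le_of_eq (by congr!)))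
      intro a ha b hb
      simp only [mem_filter, mem_univ, true_and] at ha hb
      exact Subtype.ext (ha.trans hb.symm)
    refine cnt_or_le hb (h1.trans hb) ?_
    rintro y h2 h3 ⟨w, hw1, hw2⟩
    rw [not_not] at h2
    apply h3
    have h4 := congrArg Subtype.val hw2
    rw [st_good f s x h2] at h4
    by_cases h5 : f (s w.1) = f (s x)
    · rw [st_good f s x h5] at h4
      exact absurd (Subtype.ext (s.injective h4)) hw1
    · rw [st_bad f s x h5] at h4
      exact (s.injective h4).symm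
  · push Not at hne
    have h0 : cnt (fun y => ∃ z, z ≠ y ∧ st f s x z = st f s x y) ≤
        cnt (fun y : {a : X // f a = f x} => f (s y.1) ≠ f (s x)) := by
      apply cnt_mono
      rintro y ⟨w, hw1, hw2⟩
      have h4 := congrArg Subtype.val hw2
      rw [st_good f s x (hne w), st_good f s x (hne y)] at h4
      exact absurd (Subtype.ext (s.injective h4)) hw1
    have h1 := h0.trans hb
    have h2 := (cnt_nonneg _).trans h1
    linarith

theorem st_comm [Fintype X] {b : ℝ}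
    (hb : cnt (fun y : {a : X // f a = f x} => f (s y.1) ≠ f (s x)) ≤ b) (φ : Equiv.Perm X)
    (τ : Equiv.Perm {a : X // f a = f x}) (τ' : Equiv.Perm {a : X // f a = f (s x)})
    (h1 : cnt (fun y : {a : X // f a = f x} => (τ y).1 ≠ φ y.1) ≤ b)
    (h2 : cnt (fun y : {a : X // f a = f x} => ¬ s (φ y.1) = φ (s y.1)) ≤ b)
    (h3 : cnt (fun y : {a : X // f a = f (s x)} => (τ' y).1 ≠ φ y.1) ≤ b + b) :
    cnt (fun y => st f s x (τ y) ≠ τ' (st f s x y)) ≤ (b + b + b) + (b + (b + b)) := by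
  have h4 := (cnt_perm _ τ).trans hb
  have h5 : cnt (fun y => f (s y.1) = f (s x) ∧ (τ' (st f s x y)).1 ≠ φ (st f s x y).1) ≤
      b + b := by
    refine (cnt_comp (fun y : {a : X // f a = f x} => f (s y.1) = f (s x))
      (fun y : {a : X // f a = f (s x)} => (τ' y).1 ≠ φ y.1) (st f s x) ?_).trans h3
    intro y z hy hz hyz
    have := congrArg Subtype.val hyz
    rw [st_good f s x hy, st_good f s x hz] at this
    exact Subtype.ext (s.injective this)
  have h6 : cnt (fun y : {a : X // f a = f x} => (f (s y.1) ≠ f (s x) ∨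
      f (s (τ y).1) ≠ f (s x)) ∨ (τ y).1 ≠ φ y.1) ≤ b + b + b :=
    cnt_or3_le hb h4 h1 fun y k1 k2 k3 k4 => k4.elim (fun k => k.elim k1 k2) k3
  refine cnt_or_le h6 (cnt_or_le h2 h5 (R := fun y => (¬ s (φ y.1) = φ (s y.1)) ∨
    (f (s y.1) = f (s x) ∧ (τ' (st f s x y)).1 ≠ φ (st f s x y).1))
    fun y k1 k2 k3 => k3.elim k1 k2) ?_
  intro y k1 k2
  push Not at k1 k2
  rw [not_not]
  apply Subtype.ext
  rw [st_good f s x k1.1.2, k1.2, k2.1, k2.2 k1.1.1, st_good f s x k1.1.1]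

theorem card_two [Fintype X] (hb : cnt (fun y : {a : X // f a = f (s x)} => ¬ f (s⁻¹ y.1) = f x) ≤
    1 / 2 * Fintype.card {a : X // f a = f (s x)}) :
    (Fintype.card {a : X // f a = f (s x)} : ℝ) ≤ 2 * Fintype.card {a : X // f a = f x} := by
  have h1 : (Fintype.card {a : X // f a = f (s x)} : ℝ) ≤
      cnt (fun y : {a : X // f a = f (s x)} => f (s⁻¹ y.1) = f x) +
      cnt (fun y : {a : X // f a = f (s x)} => ¬ f (s⁻¹ y.1) = f x) := by
    have : (Fintype.card {a : X // f a = f (s x)} : ℝ) =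
        cnt (fun _ : {a : X // f a = f (s x)} => True) := by
      rw [← cnt_eq _ (fun _ => instDecidableTrue)]
      simp
    rw [this]
    exact cnt_or_le le_rfl le_rfl (fun y k1 k2 _ => k2 k1)
  have h2 : cnt (fun y : {a : X // f a = f (s x)} => f (s⁻¹ y.1) = f x) ≤
      Fintype.card {a : X // f a = f x} := by
    unfold cnt
    rw [← card_univ]
    refine Nat.cast_le.2 (card_le_card_of_injOn
      (fun y : {a : X // f a = f (s x)} => if h : f (s⁻¹ y.1) = f x then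
        (⟨s⁻¹ y.1, h⟩ : {a : X // f a = f x}) else ⟨x, rfl⟩) (fun _ _ => by simp) ?_)
    intro y hy z hz hyz
    simp only [coe_filter, mem_univ, true_and, Set.mem_ofPred_eq] at hy hz
    simp only [dif_pos hy, dif_pos hz, Subtype.mk.injEq] at hyz
    exact Subtype.ext (s⁻¹.injective hyz)
  linarith

end Two

section Central
variable {T : Type} [Group T] {k : ℕ} {γ : FreeGroup (Fin k) →* T} {A : ℕ → Type}
  [∀ n, Fintype (A n)] {Φ : Approx T A} {w0 : FreeGroup (Fin k)} (D : Dat γ Φ w0)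
  (s : ∀ n, Equiv.Perm (A n))
  (hs : ∀ t, ∀ᶠ x in ae A, s x.1 (Φ.φ x.1 t x.2) = Φ.φ x.1 t (s x.1 x.2))

include hs

theorem exists_H : ∃ H : ℕ → ℕ → ℕ, ∀ᶠ x in ae A, D.f x.1 (s x.1 x.2) = H x.1 (D.f x.1 x.2) := by
  refine D.ref (fun n a => D.f n (s n a)) fun i => ?_
  have h1 := ae_perm' (P := fun n a => D.f n (Φ.φ n (γ (FreeGroup.of i)) a) = D.f n a)
    (D.inv i) s
  filter_upwards [hs (γ (FreeGroup.of i)), h1] with x h2 h3
  rw [h2, h3]

theorem exists_H' : ∃ H : ℕ → ℕ → ℕ, ∀ᶠ x in ae A,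
    D.f x.1 ((s x.1)⁻¹ x.2) = H x.1 (D.f x.1 x.2) := by
  refine D.ref (fun n a => D.f n ((s n)⁻¹ a)) fun i => ?_
  have h1 := ae_perm' (P := fun n a => D.f n (Φ.φ n (γ (FreeGroup.of i)) a) = D.f n a)
    (D.inv i) (fun n => (s n)⁻¹)
  have h2 := ae_perm' (P := fun n a => s n (Φ.φ n (γ (FreeGroup.of i)) a) =
    Φ.φ n (γ (FreeGroup.of i)) (s n a)) (hs (γ (FreeGroup.of i))) (fun n => (s n)⁻¹)
  filter_upwards [h1, h2] with x h3 h4
  rw [← h3]
  congr 1
  rw [Equiv.Perm.inv_eq_iff_eq, h4]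
  simp

/-- the facts about the two parts of `x` and `s x` -/
structure Fct (b : ℝ) (x : Σ n, A n) : Prop where
  bad : cnt (fun y : Pt D.f x.1 (D.f x.1 x.2) =>
    D.f x.1 (s x.1 y.1) ≠ D.f x.1 (s x.1 x.2)) ≤ b * Fintype.card (Pt D.f x.1 (D.f x.1 x.2))
  card : (Fintype.card (Pt D.f x.1 (D.f x.1 (s x.1 x.2))) : ℝ) ≤
    2 * Fintype.card (Pt D.f x.1 (D.f x.1 x.2))

theorem fct_ae {b : ℝ} (hb : 0 < b) : ∀ᶠ x in ae A, Fct D s b x := by
  obtain ⟨H, hH⟩ := exists_H D s hs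
  obtain ⟨H', hH'⟩ := exists_H' D s hs
  have h1 := parts (P := fun n a => D.f n (s n a) = H n (D.f n a)) hH D.f hb
  have h2 := ae_perm' (P := fun n a => cnt (fun y : Pt D.f n (D.f n a) =>
    ¬ D.f n ((s n)⁻¹ y.1) = H' n (D.f n y.1)) ≤ 1 / 2 * Fintype.card (Pt D.f n (D.f n a)))
    (parts (P := fun n a => D.f n ((s n)⁻¹ a) = H' n (D.f n a)) hH' D.f
      (κ := 1 / 2) (by norm_num)) s
  have h3 := ae_perm' (P := fun n a => D.f n ((s n)⁻¹ a) = H' n (D.f n a)) hH' s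
  filter_upwards [hH, h1, h2, h3] with x k0 k1 k2 k3
  refine ⟨(cnt_mono ?_).trans k1, card_two (D.f x.1) (s x.1) x.2 ((cnt_mono ?_).trans k2)⟩
  · intro y hy hc
    apply hy
    rw [hc, y.2, k0]
  · intro y hy hc
    apply hy
    rw [hc, y.2, ← k3]
    simp

theorem st_word (w : FreeGroup (Fin k)) {b : ℝ} (hb : 0 < b) : ∀ᶠ x in ae A,
    cnt (fun y => st (D.f x.1) (s x.1) x.2 (wd (D.σ x.1 (D.f x.1 x.2)) w y) ≠
      wd (D.σ x.1 (D.f x.1 (s x.1 x.2))) w (st (D.f x.1) (s x.1) x.2 y)) ≤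
    6 * b * Fintype.card (Pt D.f x.1 (D.f x.1 x.2)) := by
  have h1 := ae_perm' (P := fun n a => cnt (fun y : Pt D.f n (D.f n a) =>
    (wd (D.σ n (D.f n a)) w y).1 ≠ Φ.φ n (γ w) y.1) ≤
      b * Fintype.card (Pt D.f n (D.f n a))) (D.word w b hb) s
  have h2 := parts (P := fun n a => s n (Φ.φ n (γ w) a) = Φ.φ n (γ w) (s n a)) (hs (γ w))
    D.f hb
  filter_upwards [fct_ae D s hs hb, h1, h2, D.word w b hb] with x k0 k1 k2 k3
  refine (st_comm (D.f x.1) (s x.1) x.2 k0.bad (Φ.φ x.1 (γ w)) _ _ k3 k2 (k1.trans ?_)).trans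
    (le_of_eq (by ring))
  have h5 := mul_le_mul_of_nonneg_left k0.card hb.le
  linarith

theorem st_dfc {b : ℝ} (hb : 0 < b) : ∀ᶠ x in ae A,
    (dfc (D.σ x.1 (D.f x.1 x.2)) (D.σ x.1 (D.f x.1 (s x.1 x.2)))
      (st (D.f x.1) (s x.1) x.2) : ℝ) ≤
    k * (6 * b * Fintype.card (Pt D.f x.1 (D.f x.1 x.2))) := by
  have h1 : ∀ᶠ x in ae A, ∀ i : Fin k,
      cnt (fun y => st (D.f x.1) (s x.1) x.2 (D.σ x.1 (D.f x.1 x.2) i y) ≠
      D.σ x.1 (D.f x.1 (s x.1 x.2)) i (st (D.f x.1) (s x.1) x.2 y)) ≤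
      6 * b * Fintype.card (Pt D.f x.1 (D.f x.1 x.2)) := by
    rw [Filter.eventually_all]
    intro i
    filter_upwards [st_word D s hs (FreeGroup.of i) hb] with x hx
    rw [wd_of, wd_of] at hx
    exact hx
  filter_upwards [h1] with x hx
  rw [dfc_eq]
  refine (Finset.sum_le_sum fun i _ => hx i).trans (le_of_eq ?_)
  rw [sum_const, card_univ, Fintype.card_fin, nsmul_eq_mul]

theorem central (B8 : B8P) (a : ℕ → ℕ) : ∀ᶠ x in ae A,
    s x.1 (pw D x.1 (a x.1) x.2) = pw D x.1 (a x.1) (s x.1 x.2) := by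
  refine of_parts (Q := fun n y => s n (pw D n (a n) y) = pw D n (a n) (s n y)) D.f
    (fun κ hκ => ?_)
  have hη : 0 < min (κ / 3) (1 / 20) := lt_min (by positivity) (by norm_num)
  have hη1 : min (κ / 3) (1 / 20) < 1 / 10 := (min_le_right _ _).trans_lt (by norm_num)
  have hηκ : min (κ / 3) (1 / 20) ≤ κ / 3 := min_le_left _ _
  set η := min (κ / 3) (1 / 20) with hηd
  have he := D.e_pos η hη
  have hδ : 0 < min η (D.e η / 8) := lt_min hη (by positivity)
  have h8 : 8 * min η (D.e η / 8) ≤ D.e η := by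
    have := min_le_right η (D.e η / 8)
    linarith
  have hδη : min η (D.e η / 8) ≤ η := min_le_left _ _
  set δ := min η (D.e η / 8) with hδd
  have hk : (0 : ℝ) < k + 1 := by positivity
  have hκ2 : 0 < min η (D.e η / (8 * (k + 1))) := lt_min hη (by positivity)
  have hκ2η : min η (D.e η / (8 * (k + 1))) ≤ η := min_le_left _ _
  have hκ2e : 8 * (k + 1) * min η (D.e η / (8 * (k + 1))) ≤ D.e η := by
    have := min_le_right η (D.e η / (8 * (k + 1)))
    rw [le_div_iff₀ (by positivity)] at this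
    linarith
  set κ2 := min η (D.e η / (8 * (k + 1))) with hκ2d
  have hb : 0 < κ2 / (6 * (k + 1)) := by positivity
  have hb1 : 6 * (k + 1) * (κ2 / (6 * (k + 1))) = κ2 := by
    field_simp
  set b := κ2 / (6 * (k + 1)) with hbd
  have hkb : 0 ≤ (k : ℝ) * b := by positivity
  have hb6 : 6 * b ≤ κ2 := by linarith
  have hb2 : b + b ≤ κ2 := by linarith
  have hbk : (k : ℝ) * (6 * b) ≤ κ2 := by linarith
  have hok' := ae_perm' (P := fun n a => SeqOK (D.σ n (D.f n a)) (wd (D.σ n (D.f n a)) w0) δ δ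
    (D.θ n (D.f n a))) (D.ok δ hδ) s
  filter_upwards [D.ok δ hδ, hok', D.erg η hη (by linarith), fct_ae D s hs hb,
    st_dfc D s hs hb, st_word D s hs w0 hb] with x h1 h2 h3 h4 h5 h6
  have : Nonempty (Pt D.f x.1 (D.f x.1 x.2)) := ⟨⟨x.2, rfl⟩⟩
  have hV : (0 : ℝ) ≤ Fintype.card (Pt D.f x.1 (D.f x.1 x.2)) := Nat.cast_nonneg _
  have h7 := B8 (Pt D.f x.1 (D.f x.1 x.2)) (Pt D.f x.1 (D.f x.1 (s x.1 x.2))) k
    (D.σ x.1 (D.f x.1 x.2)) (D.σ x.1 (D.f x.1 (s x.1 x.2))) δ η (D.e η) κ2 hδ.le hη hη1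
    hκ2.le hκ2η (by linarith) h3 h4.card (wd (D.σ x.1 (D.f x.1 x.2)) w0)
    (D.θ x.1 (D.f x.1 x.2)) (wd (D.σ x.1 (D.f x.1 (s x.1 x.2))) w0)
    (D.θ x.1 (D.f x.1 (s x.1 x.2))) (seqOK_mono h1 le_rfl hδη) (seqOK_mono h2 le_rfl hδη)
    (st (D.f x.1) (s x.1) x.2) (by
      refine h5.trans ?_
      rw [← mul_assoc]
      exact mul_le_mul_of_nonneg_right hbk hV) (by
      rw [cnt_eq]
      refine (st_noninj (D.f x.1) (s x.1) x.2 h4.bad).trans ?_
      rw [← add_mul]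
      exact mul_le_mul_of_nonneg_right hb2 hV) (by
      rw [cnt_eq]
      exact h6.trans (mul_le_mul_of_nonneg_right hb6 hV)) (a x.1)
  rw [cnt_eq] at h7
  have h8 := (cnt_perm _ (D.θ x.1 (D.f x.1 x.2) (a x.1))).trans h4.bad
  refine (cnt_or3_le h4.bad h8 h7 ?_).trans ?_
  · intro y k1 k2 k3
    rw [not_not] at k1 k2 k3 ⊢
    rw [pw_apply, ← st_good (D.f x.1) (s x.1) x.2 k2, k3, ← st_good (D.f x.1) (s x.1) x.2 k1,
      pw_apply]
  · rw [← add_mul, ← add_mul]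
    exact mul_le_mul_of_nonneg_right (by linarith) hV

end Central

/-! ## Assembly -/

theorem grp {G : Type} [Group G] {p q ap bp am bm : G} (h : p * (am * bm) = q * (ap * bp))
    (hq : Commute q (ap * bp * (am * bm)⁻¹)) (h3 : Commute am⁻¹ (bp * bm⁻¹)) :
    p * q⁻¹ = ap * am⁻¹ * (bp * bm⁻¹) := by
  have e1 : p = q * (ap * bp * (am * bm)⁻¹) := by
    rw [← mul_assoc, ← h]
    group
  rw [e1, hq.eq, mul_assoc, mul_inv_cancel, mul_one, mul_assoc ap am⁻¹, h3.eq]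
  group

section Assembly
variable {T : Type} [Group T] {k : ℕ} {γ : FreeGroup (Fin k) →* T} {A : ℕ → Type}
  [∀ n, Fintype (A n)]

/-- a representative -/
def rp (u : SS A) : ∀ n, Equiv.Perm (A n) :=
  Classical.choose (QuotientGroup.mk_surjective (s := NN A) u)

theorem cls_rp (u : SS A) : cls (rp u) = u :=
  Classical.choose_spec (QuotientGroup.mk_surjective (s := NN A) u)

theorem rp_mul (u v : SS A) : ∀ᶠ x in ae A, rp (u * v) x.1 x.2 = rp u x.1 (rp v x.1 x.2) := by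
  have h1 : cls (rp (u * v)) = cls (rp u * rp v) := by
    rw [cls_mul, cls_rp, cls_rp, cls_rp]
  exact (cls_eq (s := rp (u * v)) (t := rp u * rp v)).1 h1

/-- representatives of the values of `α` -/
def apx (α : T →* SS A) : Approx T A where
  φ n t := rp (α t) n
  mul g h := by
    rw [map_mul]
    exact rp_mul (α g) (α h)

theorem cls_apx (α : T →* SS A) (t : T) : cls (fun n => (apx α).φ n t) = α t := cls_rp (α t)

variable {w0 : FreeGroup (Fin k)} {α : T →* SS A} (D : Dat γ (apx α) w0)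

/-- powers with nonnegative exponents -/
def rho (a : ℕ → ℕ) : SS A := cls fun n => pw D n (a n)

theorem rho_add (B7 : B7P) (a b : ℕ → ℕ) : rho D (a + b) = rho D a * rho D b := by
  unfold rho
  rw [← cls_mul, cls_eq]
  exact pw_add D B7 a b

theorem rho_zero : rho D 0 = 1 := by
  unfold rho
  rw [← cls_one, cls_eq]
  exact pw_zero D

theorem rho_one : rho D 1 = α (γ w0) := by
  rw [← cls_apx]
  unfold rho
  rw [cls_eq]
  exact pw_one D

theorem rho_gen (i : Fin k) (a : ℕ → ℕ) :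
    rho D a * α (γ (FreeGroup.of i)) = α (γ (FreeGroup.of i)) * rho D a := by
  rw [← cls_apx α (γ (FreeGroup.of i))]
  unfold rho
  rw [← cls_mul, ← cls_mul, cls_eq]
  exact pw_gen D i a

theorem rho_cen (hγ : Function.Surjective γ) (a : ℕ → ℕ) (t : T) :
    rho D a * α t = α t * rho D a := by
  obtain ⟨w, rfl⟩ := hγ t
  have h : (α.comp γ) w ∈ Subgroup.centralizer {rho D a} := by
    have h1 : ∀ i, (α.comp γ) (FreeGroup.of i) ∈ Subgroup.centralizer {rho D a} := by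
      intro i
      rw [Subgroup.mem_centralizer_singleton_iff]
      exact (rho_gen D i a).symm
    induction w using FreeGroup.induction_on with
    | C1 =>
      rw [map_one]
      exact Subgroup.one_mem _
    | of i => exact h1 i
    | inv_of i _ =>
      rw [map_inv]
      exact Subgroup.inv_mem _ (h1 i)
    | mul x y hx hy =>
      rw [map_mul]
      exact Subgroup.mul_mem _ hx hy
  rw [Subgroup.mem_centralizer_singleton_iff] at h
  exact h.symm

theorem rho_central (B8 : B8P) (s : SS A) (hs : Cen α s) (a : ℕ → ℕ) :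
    rho D a * s = s * rho D a := by
  obtain ⟨s', rfl⟩ := QuotientGroup.mk_surjective s
  have h1 : ∀ t, ∀ᶠ x in ae A, s' x.1 ((apx α).φ x.1 t x.2) = (apx α).φ x.1 t (s' x.1 x.2) := by
    intro t
    have h2 : cls s' * α t = α t * cls s' := hs t
    rw [← cls_apx α t, ← cls_mul, ← cls_mul, cls_eq] at h2
    exact h2
  have h3 := central D s' h1 B8 a
  show rho D a * cls s' = cls s' * rho D a
  unfold rho
  rw [← cls_mul, ← cls_mul, cls_eq]
  filter_upwards [h3] with x hx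
  exact hx.symm

/-- all powers -/
def rr (m : ℕ → ℤ) : SS A :=
  rho D (fun n => (m n).toNat) * (rho D (fun n => (-(m n)).toNat))⁻¹

theorem rr_eq (m : ℕ → ℤ) :
    rr D m = cls fun n => pw D n (m n).toNat * (pw D n (-(m n)).toNat)⁻¹ := rfl

theorem rr_add (B7 : B7P) (a b : ℕ → ℤ) : rr D (a + b) = rr D a * rr D b := by
  have hc : ∀ a b, Commute (rho D a) (rho D b) := by
    intro a b
    show rho D a * rho D b = rho D b * rho D a
    rw [← rho_add D B7, ← rho_add D B7, add_comm]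
  have h1 : (fun n => ((a + b) n).toNat) + ((fun n => (-(a n)).toNat) +
      (fun n => (-(b n)).toNat)) =
      (fun n => (-((a + b) n)).toNat) + ((fun n => (a n).toNat) + (fun n => (b n).toNat)) := by
    funext n
    simp only [Pi.add_apply]
    omega
  have h2 := congrArg (rho D) h1
  rw [rho_add D B7, rho_add D B7, rho_add D B7, rho_add D B7] at h2
  unfold rr
  have hq := ((hc (fun n => (-((a + b) n)).toNat) (fun n => (a n).toNat)).mul_right
    (hc (fun n => (-((a + b) n)).toNat) (fun n => (b n).toNat))).mul_right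
    ((hc (fun n => (-((a + b) n)).toNat) (fun n => (-(a n)).toNat)).mul_right
    (hc (fun n => (-((a + b) n)).toNat) (fun n => (-(b n)).toNat))).inv_right
  have h3 := ((hc (fun n => (-(a n)).toNat) (fun n => (b n).toNat)).mul_right
    (hc (fun n => (-(a n)).toNat) (fun n => (-(b n)).toNat)).inv_right).inv_left
  exact grp h2 hq h3

theorem rr_cen (hγ : Function.Surjective γ) (m : ℕ → ℤ) : Cen α (rr D m) := by
  intro t
  have h1 : Commute (rho D (fun n => (m n).toNat)) (α t) := rho_cen D hγ _ t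
  have h2 : Commute (rho D (fun n => (-(m n)).toNat)) (α t) := rho_cen D hγ _ t
  exact h1.mul_left h2.inv_left

theorem rr_central (B8 : B8P) (s : SS A) (hs : Cen α s) (m : ℕ → ℤ) :
    rr D m * s = s * rr D m := by
  have h1 : Commute (rho D (fun n => (m n).toNat)) s := rho_central D B8 s hs _
  have h2 : Commute (rho D (fun n => (-(m n)).toNat)) s := rho_central D B8 s hs _
  exact h1.mul_left h2.inv_left

theorem rr_one : rr D (fun _ => 1) = α (γ w0) := by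
  unfold rr
  have h1 : (fun _ : ℕ => (1 : ℤ).toNat) = 1 := rfl
  have h2 : (fun _ : ℕ => (-(1 : ℤ)).toNat) = 0 := rfl
  rw [h1, h2, rho_zero, rho_one, inv_one, mul_one]

end Assembly

theorem main (B2 : B2P) (B5 : B5P) (B6 : B6P) (B7 : B7P) (B8 : B8P) (B9 : B9P) : BP := by
  intro T _ k γ hT A _ _ α v hv
  obtain ⟨w0, rfl⟩ := hT.surj v
  obtain ⟨D⟩ := exists_dat B2 B5 B6 B9 hT (apx α) w0 hv
  refine ⟨rr D, ⟨rr_add D B7, fun n z => pw D n z.toNat * (pw D n (-z).toNat)⁻¹, rr_eq D⟩,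
    rr_one D, rr_cen D hT.surj, fun m s hs => rr_central D B8 s hs m⟩

end

end Pool.Agent.helper987_SE.B10
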