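import Pool.Agent.helper987_SE.Stm

/-!
# Project SE, part B2: approximations of property (T) groups improve (Cor 6(a))
-/

set_option autoImplicit false

open Filter Topology Finset
open scoped Classical

namespace Pool.Agent.helper987_SE.B2

open Helper418

noncomputable section

/-- the action on the first coordinate -/
def ext {X I : Type} (τ : Equiv.Perm X) : Equiv.Perm (X × I) := τ.prodCongr (Equiv.refl I)

theorem ext_apply {X I : Type} (τ : Equiv.Perm X) (x : X) (a : I) :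
    ext (I := I) τ (x, a) = (τ x, a) := rfl

theorem ext_inv_apply {X I : Type} (τ : Equiv.Perm X) (x : X) (a : I) :
    (ext (I := I) τ)⁻¹ (x, a) = (τ⁻¹ x, a) := rfl

/-- the action as a homomorphism -/
def extH (X I : Type) : Equiv.Perm X →* Equiv.Perm (X × I) where
  toFun := ext
  map_one' := rfl
  map_mul' := fun _ _ => rfl

theorem wd_ext {X I : Type} {k : ℕ} (σ : Fin k → Equiv.Perm X) (w : FreeGroup (Fin k)) :
    wd (fun i => ext (I := I) (σ i)) w = ext (wd σ w) := by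
  have h : (FreeGroup.lift fun i => ext (I := I) (σ i)) = (extH X I).comp (FreeGroup.lift σ) := by
    apply FreeGroup.ext_hom
    intro i
    first
      | (simp [extH]; done)
      | (simp [extH]; rfl)
  exact DFunLike.congr_fun h w

theorem MK_nonneg {X : Type} {k : ℕ} {σ : Fin k → Equiv.Perm X} {F : X → ℝ}
    (hF : ∀ x, 0 ≤ F x) (x : X) : 0 ≤ MK σ F x := by
  unfold MK
  have h3 : 0 ≤ ∑ s, (F (σ s x) + F ((σ s)⁻¹ x)) :=
    Finset.sum_nonneg fun s _ => add_nonneg (hF _) (hF _)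
  have h4 := hF x
  positivity

theorem MK_iter_nonneg {X : Type} {k : ℕ} {σ : Fin k → Equiv.Perm X} {F : X → ℝ}
    (hF : ∀ x, 0 ≤ F x) (m : ℕ) (x : X) : 0 ≤ (MK σ)^[m] F x := by
  induction m generalizing x with
  | zero => exact hF x
  | succ m ih =>
    rw [Function.iterate_succ_apply']
    exact MK_nonneg ih x

theorem MK_ext_sum {X I : Type} [Fintype I] {k : ℕ} {σ : Fin k → Equiv.Perm X}
    {F : X × I → ℝ} (hF : ∀ x, ∑ a, F (x, a) = 1) (x : X) :
    ∑ a, MK (fun i => ext (I := I) (σ i)) F (x, a) = 1 := by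
  unfold MK
  rw [Finset.sum_add_distrib, ← Finset.sum_div, ← Finset.sum_div, Finset.sum_add_distrib, hF,
    Finset.sum_comm]
  have h3 : ∀ s ∈ (univ : Finset (Fin k)),
      ∑ a : I, (F (ext (σ s) (x, a)) + F ((ext (σ s))⁻¹ (x, a))) = 2 := by
    intro s _
    rw [Finset.sum_add_distrib]
    simp only [ext_apply, ext_inv_apply]
    rw [hF, hF]
    norm_num
  rw [Finset.sum_congr rfl h3]
  simp only [sum_const, card_univ, Fintype.card_fin, nsmul_eq_mul]
  field_simp
  ring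

theorem MK_ext_iter_sum {X I : Type} [Fintype I] {k : ℕ} {σ : Fin k → Equiv.Perm X}
    {F : X × I → ℝ} (hF : ∀ x, ∑ a, F (x, a) = 1) (m : ℕ) (x : X) :
    ∑ a, (MK (fun i => ext (I := I) (σ i)))^[m] F (x, a) = 1 := by
  induction m generalizing x with
  | zero => exact hF x
  | succ m ih =>
    rw [Function.iterate_succ']
    exact MK_ext_sum ih x

/-- a permutation moves as many points out of a set as into it -/
theorem card_out_eq {X : Type} [Fintype X] (τ : Equiv.Perm X) (W : Finset X) :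
    (univ.filter fun q => q ∉ W ∧ τ q ∈ W).card = (W.filter fun q => τ q ∉ W).card := by
  have h1 := card_filter_add_card_filter_not (s := W) (fun q => τ q ∈ W)
  have h2 := card_filter_add_card_filter_not (s := univ.filter fun q => τ q ∈ W)
    (fun q => q ∈ W)
  have h3 : (univ.filter fun q => τ q ∈ W).card = W.card := by
    refine card_bij (fun q _ => τ q) ?_ ?_ ?_
    · intro q hq; simpa using hq
    · intro a _ b _ hab; exact τ.injective hab
    · intro b hb; exact ⟨τ.symm b, by simpa using hb, by simp⟩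
  have h4 : (univ.filter fun q => τ q ∈ W).filter (fun q => q ∈ W) =
      W.filter (fun q => τ q ∈ W) := by
    ext q; simp [and_comm]
  have h5 : (univ.filter fun q => τ q ∈ W).filter (fun q => ¬ q ∈ W) =
      univ.filter fun q => q ∉ W ∧ τ q ∈ W := by
    ext q; simp [and_comm]
  rw [h4, h5, h3] at h2
  omega

/-- `B1P` without decidability instances -/
theorem core (b1 : B1P) (T : Type) [Group T] (k : ℕ) (γ : FreeGroup (Fin k) →* T)
    (hT : TPres T k γ) :
    ∃ C : ℝ, 0 < C ∧ ∀ δ : ℝ, 0 < δ → ∃ β : ℝ, 0 < β ∧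
      ∃ (R : Finset (FreeGroup (Fin k))) (m : ℕ), (∀ w ∈ R, γ w = 1) ∧
        ∀ (X : Type) [Fintype X] (σ : Fin k → Equiv.Perm X) (Y : Finset X) (F : X → ℝ),
          (∀ x ∈ Y, F x = 1) → (∀ x, x ∉ Y → F x = 0) →
          (∀ w ∈ R, ∃ N : Finset X, (∀ x, x ∈ N ↔ x ∈ Y ∧ wd σ w x ≠ x) ∧
            (N.card : ℝ) ≤ β * Y.card) →
          ∃ θ : ℝ, 1 / 2 < θ ∧ ∃ P : Finset X, (∀ x, x ∈ P ↔ θ < ((MK σ)^[m] F) x) ∧
            ((bd σ P : ℕ) : ℝ) ≤ δ * Y.card ∧
            ∃ N : Finset X, (∀ x, x ∈ N ↔ x ∈ Y ∧ ((MK σ)^[m] F) x ≤ θ) ∧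
            (N.card : ℝ) ≤ C * bd σ Y + δ * Y.card := by
  obtain ⟨C, hC, h⟩ := b1 T k γ hT
  refine ⟨C, hC, fun δ hδ => ?_⟩
  obtain ⟨β, hβ, R, m, hR, h⟩ := h δ hδ
  refine ⟨β, hβ, R, m, hR, ?_⟩
  intro X _ σ Y F h1 h0 hk
  have hF : F = ind Y := by
    funext x
    unfold ind
    by_cases hx : x ∈ Y
    · rw [if_pos hx, h1 x hx]
    · rw [if_neg hx, h0 x hx]
  subst hF
  obtain ⟨θ, hθ, -, hb, hN⟩ := h X σ Y (by
    intro w hw
    obtain ⟨N, hN, hNc⟩ := hk w hw
    have e : (Y.filter fun x => wd σ w x ≠ x) = N := by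
      ext x
      rw [mem_filter, hN]
    rw [e]
    exact hNc)
  exact ⟨θ, hθ, _, fun x => by rw [mem_filter]; simp, hb, _, fun x => by rw [mem_filter], hN⟩

/-- improvement of a labelling of a finite set -/
theorem part (b1 : B1P) (T : Type) [Group T] (k : ℕ) (γ : FreeGroup (Fin k) →* T)
    (hT : TPres T k γ) :
    ∃ C : ℝ, 0 < C ∧ ∀ δ : ℝ, 0 < δ → ∃ β : ℝ, 0 < β ∧
      ∃ R : Finset (FreeGroup (Fin k)), (∀ w ∈ R, γ w = 1) ∧
        ∀ (X : Type) [Fintype X] (σ : Fin k → Equiv.Perm X),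
          (∀ w ∈ R, ((univ.filter fun x => wd σ w x ≠ x).card : ℝ) ≤ β * Fintype.card X) →
          ∀ f : X → ℕ, ∃ f' : X → ℕ, (inv σ f' : ℝ) ≤ δ * Fintype.card X ∧
            ((univ.filter fun x => f' x ≠ f x).card : ℝ) ≤
              C * inv σ f + δ * Fintype.card X := by
  obtain ⟨C, hC, hcore⟩ := core b1 T k γ hT
  refine ⟨C, hC, fun δ hδ => ?_⟩
  obtain ⟨β, hβ, R, m, hR, hmain⟩ := hcore (δ / 2) (by positivity)
  refine ⟨β, hβ, R, hR, fun X _ σ hrel f => ?_⟩
  -- the finite set of labels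
  set M : ℕ := univ.sup f with hM
  have hfM : ∀ x, f x < M + 1 := fun x => Nat.lt_succ_of_le (le_sup (f := f) (mem_univ x))
  set g : X → Fin (M + 1) := fun x => ⟨f x, hfM x⟩ with hg
  obtain ⟨σ', hσ'⟩ : ∃ σ' : Fin k → Equiv.Perm (X × Fin (M + 1)), σ' = fun i => ext (σ i) :=
    ⟨_, rfl⟩
  obtain ⟨Y, hYm⟩ : ∃ Y : Finset (X × Fin (M + 1)), ∀ q, q ∈ Y ↔ q.2 = g q.1 :=
    ⟨univ.filter fun q => q.2 = g q.1, fun q => by simp⟩
  have hYmem : ∀ x a, (x, a) ∈ Y ↔ a = g x := fun x a => hYm (x, a)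
  have hYcard : Y.card = Fintype.card X := by
    rw [← card_univ]
    refine (card_bij (fun x _ => (x, g x)) ?_ ?_ ?_).symm
    · intro x _; exact (hYmem x (g x)).2 rfl
    · intro a _ b _ hab; exact (Prod.mk.injEq _ _ _ _ ▸ hab).1
    · rintro ⟨x, a⟩ hq; exact ⟨x, mem_univ _, by rw [(hYmem x a).1 hq]⟩
  obtain ⟨F₀, hF1, hF0⟩ : ∃ F : X × Fin (M + 1) → ℝ, (∀ x ∈ Y, F x = 1) ∧
      (∀ x, x ∉ Y → F x = 0) :=
    ⟨fun x => if x ∈ Y then 1 else 0, fun x hx => if_pos hx, fun x hx => if_neg hx⟩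
  have hF₀nn : ∀ x, 0 ≤ F₀ x := fun x => by
    by_cases hx : x ∈ Y
    · rw [hF1 x hx]; norm_num
    · rw [hF0 x hx]
  have hF₀sum : ∀ x, ∑ a, F₀ (x, a) = 1 := by
    intro x
    rw [Finset.sum_eq_single (g x)]
    · exact hF1 _ ((hYmem _ _).2 rfl)
    · intro b _ hb
      exact hF0 _ (fun hx => hb ((hYmem _ _).1 hx))
    · intro hcon
      exact absurd (mem_univ _) hcon
  obtain ⟨θ, hθ, Y', hY'mem, h1, N, hN, h2⟩ := hmain (X × Fin (M + 1)) σ' Y F₀ hF1 hF0 (by
    intro w hw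
    refine ⟨Y.filter fun x => wd σ' w x ≠ x, fun x => by rw [mem_filter], ?_⟩
    rw [hYcard]
    refine le_trans ?_ (hrel w hw)
    rw [Nat.cast_le]
    refine card_le_card_of_injOn Prod.fst ?_ ?_
    · rintro ⟨x, a⟩ hq
      rw [mem_coe, mem_filter, hσ', wd_ext, ext_apply] at hq
      rw [mem_coe, mem_filter]
      exact ⟨mem_univ _, fun h5 => hq.2 (by rw [h5])⟩
    · rintro ⟨x, a⟩ hq ⟨y, b⟩ hq' hxy
      rw [mem_coe, mem_filter, hYmem] at hq hq'
      simp only at hxy
      subst hxy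
      rw [hq.1, hq'.1])
  obtain ⟨Fk, hFk⟩ : ∃ Fk : X × Fin (M + 1) → ℝ, Fk = (MK σ')^[m] F₀ := ⟨_, rfl⟩
  rw [← hFk] at hY'mem hN
  have hsum : ∀ x, ∑ a, Fk (x, a) = 1 := fun x => by
    rw [hFk, hσ']
    exact MK_ext_iter_sum hF₀sum m x
  have hnn : ∀ x, 0 ≤ Fk x := fun x => by
    rw [hFk]
    exact MK_iter_nonneg hF₀nn m x
  -- at most one label for each point
  have huniq : ∀ x a b, (x, a) ∈ Y' → (x, b) ∈ Y' → a = b := by
    intro x a b ha hb
    by_contra hab
    rw [hY'mem] at ha hb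
    have h3 : ∑ c ∈ ({a, b} : Finset (Fin (M + 1))), Fk (x, c) ≤ ∑ c, Fk (x, c) :=
      sum_le_sum_of_subset_of_nonneg (subset_univ _) fun c _ _ => hnn _
    rw [sum_pair hab, hsum x] at h3
    linarith
  -- the new labelling
  obtain ⟨f', hf'1, hf'2⟩ : ∃ f' : X → ℕ, (∀ x a, (x, a) ∈ Y' → f' x = a) ∧
      ∀ x, (¬ ∃ a, (x, a) ∈ Y') → f' x = M + 1 := by
    refine ⟨fun x => if h : ∃ a, (x, a) ∈ Y' then ((h.choose : Fin (M + 1)) : ℕ)
      else M + 1, ?_, ?_⟩
    · intro x a hxa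
      have h : ∃ a, (x, a) ∈ Y' := ⟨a, hxa⟩
      simp only [dif_pos h]
      rw [huniq x _ _ h.choose_spec hxa]
    · intro x h
      simp only [dif_neg h]
  refine ⟨f', ?_, ?_⟩
  · have h3 : inv σ f' ≤ 2 * bd σ' Y' := by
      unfold inv bd
      rw [mul_sum]
      refine sum_le_sum fun i _ => ?_
      have h4 : (univ.filter fun x => f' (σ i x) ≠ f' x) ⊆
          (Y'.filter fun q => σ' i q ∉ Y').image Prod.fst ∪
          (univ.filter fun q => q ∉ Y' ∧ σ' i q ∈ Y').image Prod.fst := by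
        intro x hx
        rw [mem_filter] at hx
        replace hx := hx.2
        rw [mem_union, mem_image, mem_image]
        by_cases h : ∃ a, (x, a) ∈ Y'
        · obtain ⟨a, ha⟩ := h
          left
          refine ⟨(x, a), ?_, rfl⟩
          rw [mem_filter]
          refine ⟨ha, fun h5 => hx ?_⟩
          rw [hσ'] at h5
          rw [hf'1 x a ha, hf'1 (σ i x) a h5]
        · right
          by_cases h' : ∃ a, (σ i x, a) ∈ Y'
          · obtain ⟨a, ha⟩ := h'
            refine ⟨(x, a), ?_, rfl⟩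
            rw [mem_filter]
            refine ⟨mem_univ _, fun h6 => h ⟨a, h6⟩, ?_⟩
            rw [hσ']
            exact ha
          · exact absurd (by rw [hf'2 x h, hf'2 _ h']) hx
      have key : (univ.filter fun x => f' (σ i x) ≠ f' x).card ≤
          2 * (Y'.filter fun q => σ' i q ∉ Y').card := by
        calc (univ.filter fun x => f' (σ i x) ≠ f' x).card
          ≤ _ := card_le_card h4
        _ ≤ _ := card_union_le _ _
        _ ≤ (Y'.filter fun q => σ' i q ∉ Y').card +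
            (univ.filter fun q => q ∉ Y' ∧ σ' i q ∈ Y').card :=
          add_le_add card_image_le card_image_le
        _ = _ := by
          have h7 : (univ.filter fun q => q ∉ Y' ∧ σ' i q ∈ Y').card =
              (Y'.filter fun q => σ' i q ∉ Y').card := by
            convert card_out_eq (σ' i) Y'
          rw [h7]; ring
      refine le_of_le_of_eq key ?_
      congr!
    have h4 : (inv σ f' : ℝ) ≤ 2 * (bd σ' Y' : ℝ) := by exact_mod_cast h3
    rw [hYcard] at h1
    linarith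
  · have h3 : (univ.filter fun x => f' x ≠ f x).card ≤ N.card := by
      refine card_le_card_of_injOn (fun x => (x, g x)) ?_ ?_
      · intro x hx
        rw [mem_coe, mem_filter] at hx
        rw [mem_coe, hN]
        refine ⟨(hYmem x _).2 rfl, ?_⟩
        by_contra hcon
        exact hx.2 (hf'1 x (g x) ((hY'mem _).2 (not_le.1 hcon)))
      · intro a _ b _ hab
        exact (Prod.mk.injEq _ _ _ _ ▸ hab).1
    have h4 : bd σ' Y ≤ inv σ f := by
      unfold inv bd
      refine sum_le_sum fun i _ => ?_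
      refine card_le_card_of_injOn Prod.fst ?_ ?_
      · rintro ⟨x, a⟩ hq
        simp only [coe_filter, Set.mem_ofPred_eq] at hq
        simp only [coe_filter, mem_univ, true_and, Set.mem_ofPred_eq]
        intro h5
        apply hq.2
        rw [hYmem] at hq
        rw [hσ']
        show (σ i x, a) ∈ Y
        rw [hYmem, hq.1]
        exact Fin.ext h5.symm
      · rintro ⟨x, a⟩ hq ⟨y, b⟩ hq' hxy
        simp only [coe_filter, Set.mem_ofPred_eq] at hq hq'
        simp only at hxy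
        subst hxy
        rw [(hYmem x a).1 hq.1, (hYmem x b).1 hq'.1]
    have h3' : ((univ.filter fun x => f' x ≠ f x).card : ℝ) ≤ (N.card : ℝ) := by
      exact_mod_cast h3
    have h4' : (bd σ' Y : ℝ) ≤ (inv σ f : ℝ) := by exact_mod_cast h4
    rw [hYcard] at h2
    have h6 : C * (bd σ' Y : ℝ) ≤ C * inv σ f := mul_le_mul_of_nonneg_left h4' hC.le
    have h7 : 0 ≤ δ / 2 * Fintype.card X := by positivity
    linarith

/-! ### approximations -/

section approx
variable {A : ℕ → Type} [∀ n, Fintype (A n)] {T : Type} [Group T]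

theorem phi_one (Φ : Approx T A) : ∀ᶠ x in ae A, Φ.φ x.1 1 x.2 = x.2 := by
  filter_upwards [Φ.mul 1 1] with x hx
  rw [mul_one] at hx
  exact ((Φ.φ x.1 1).injective hx).symm

theorem wd_of {X : Type} {k : ℕ} (σ : Fin k → Equiv.Perm X) (i : Fin k) :
    wd σ (FreeGroup.of i) = σ i := by simp [wd]

/-- words -/
theorem phi_wd {k : ℕ} (γ : FreeGroup (Fin k) →* T) (Φ : Approx T A) (w : FreeGroup (Fin k)) :
    ∀ᶠ x in ae A, wd (fun i => Φ.φ x.1 (γ (FreeGroup.of i))) w x.2 = Φ.φ x.1 (γ w) x.2 := by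
  induction w using FreeGroup.induction_on with
  | C1 =>
    filter_upwards [phi_one Φ] with x hx
    have e : wd (fun i => Φ.φ x.1 (γ (FreeGroup.of i))) 1 = 1 := map_one _
    rw [e, map_one, Equiv.Perm.one_apply, hx]
  | of i =>
    refine Eventually.of_forall fun x => ?_
    rw [wd_of]
  | inv_of i _ =>
    filter_upwards [phi_one Φ, Φ.mul (γ (FreeGroup.of i)) (γ (FreeGroup.of i))⁻¹] with x h1 h2
    rw [mul_inv_cancel, h1] at h2
    have e : wd (fun i => Φ.φ x.1 (γ (FreeGroup.of i))) (FreeGroup.of i)⁻¹ =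
        (wd (fun i => Φ.φ x.1 (γ (FreeGroup.of i))) (FreeGroup.of i))⁻¹ := map_inv _ _
    rw [e, wd_of, map_inv, Equiv.Perm.inv_eq_iff_eq]
    exact h2
  | mul v w hv hw =>
    have hv' := ae_perm' (P := fun n a => wd (fun i => Φ.φ n (γ (FreeGroup.of i))) v a =
      Φ.φ n (γ v) a) hv (fun n => wd (fun i => Φ.φ n (γ (FreeGroup.of i))) w)
    filter_upwards [hv', hw, Φ.mul (γ v) (γ w)] with x h1 h2 h3
    have e : wd (fun i => Φ.φ x.1 (γ (FreeGroup.of i))) (v * w) =
        wd (fun i => Φ.φ x.1 (γ (FreeGroup.of i))) v *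
          wd (fun i => Φ.φ x.1 (γ (FreeGroup.of i))) w := map_mul _ _ _
    rw [e, map_mul, Equiv.Perm.mul_apply, h3, ← h2]
    exact h1

end approx

theorem inv_const {X ι : Type} [Fintype X] [Fintype ι] (σ : ι → Equiv.Perm X) :
    inv σ (fun _ => 0) = 0 := by
  unfold inv
  simp

theorem one_le_inv {X ι : Type} [Fintype X] [Fintype ι] (σ : ι → Equiv.Perm X) (f : X → ℕ)
    (i : ι) : (univ.filter fun x => f (σ i x) ≠ f x).card ≤ inv σ f := by
  unfold inv
  exact single_le_sum (f := fun i => (univ.filter fun x => f (σ i x) ≠ f x).card)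
    (fun _ _ => Nat.zero_le _) (mem_univ i)

/-- **B2** -/
theorem main (b1 : B1P) : B2P := by
  intro T _ k γ hT A _ _ Φ
  obtain ⟨C, hC0, hC⟩ := part b1 T k γ hT
  obtain ⟨σ, hσ⟩ : ∃ σ : ∀ n, Fin k → Equiv.Perm (A n),
    σ = fun n i => Φ.φ n (γ (FreeGroup.of i)) := ⟨_, rfl⟩
  rw [← hσ]
  have hcard : ∀ n, (0 : ℝ) < Fintype.card (A n) := fun n => by
    exact_mod_cast Fintype.card_pos
  -- the relators
  have hrel : ∀ (R : Finset (FreeGroup (Fin k))), (∀ w ∈ R, γ w = 1) → ∀ β : ℝ, 0 < β →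
      ∀ᶠ n in atTop, ∀ w ∈ R,
        ((univ.filter fun x : A n => wd (σ n) w x ≠ x).card : ℝ) ≤ β * Fintype.card (A n) := by
    intro R hR β hβ
    rw [eventually_all_finset]
    intro w hw
    have h1 : ∀ᶠ x in ae A, wd (σ x.1) w x.2 = x.2 := by
      filter_upwards [phi_wd γ Φ w, phi_one Φ] with x h1 h2
      rw [hσ]
      rw [h1, hR w hw, h2]
    have h2 := (mem_ae (P := fun n a => wd (σ n) w a = a)).1 h1
    filter_upwards [h2.eventually (gt_mem_nhds hβ)] with n hn
    unfold Helper418.dens at hn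
    rw [div_lt_iff₀ (hcard n)] at hn
    refine le_trans (le_of_eq ?_) hn.le
    rw [Nat.cast_inj]
    congr!
  -- the property
  set P : ℕ → ℝ → Prop := fun n δ => ∀ f : A n → ℕ, ∃ f' : A n → ℕ,
    (inv (σ n) f' : ℝ) ≤ δ * Fintype.card (A n) ∧
    ((univ.filter fun a => f' a ≠ f a).card : ℝ) ≤
      C * inv (σ n) f + δ * Fintype.card (A n) with hP
  have hPmono : ∀ n δ δ', δ ≤ δ' → P n δ → P n δ' := by
    intro n δ δ' hδ h f
    obtain ⟨f', h1, h2⟩ := h f
    have h3 := mul_le_mul_of_nonneg_right hδ (hcard n).le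
    exact ⟨f', h1.trans h3, h2.trans (by linarith)⟩
  have hP1 : ∀ n, P n 1 := by
    intro n f
    refine ⟨fun _ => 0, ?_, ?_⟩
    · rw [inv_const]
      have := hcard n
      rw [Nat.cast_zero]
      positivity
    · have h1 : ((univ.filter fun a => (0 : ℕ) ≠ f a).card : ℝ) ≤ Fintype.card (A n) := by
        exact_mod_cast card_le_univ _
      have h4 : (0 : ℝ) ≤ C * inv (σ n) f := by positivity
      linarith
  have hPev : ∀ δ : ℝ, 0 < δ → ∀ᶠ n in atTop, P n δ := by
    intro δ hδ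
    obtain ⟨β, hβ, R, hR, hβC⟩ := hC δ hδ
    filter_upwards [hrel R hR β hβ] with n hn
    intro f
    exact hβC (A n) (σ n) hn f
  -- diagonal choice
  set Q : ℕ → Set ℝ := fun n => {δ | 0 ≤ δ ∧ P n δ} with hQ
  have hQb : ∀ n, BddBelow (Q n) := fun n => ⟨0, fun x hx => hx.1⟩
  have hQn : ∀ n, (Q n).Nonempty := fun n => ⟨1, zero_le_one, hP1 n⟩
  set δ : ℕ → ℝ := fun n => sInf (Q n) + 1 / ((n : ℝ) + 1) with hδ
  have hinf0 : ∀ n, 0 ≤ sInf (Q n) := fun n => Real.sInf_nonneg fun x hx => hx.1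
  have hPδ : ∀ n, P n (δ n) := by
    intro n
    have h1 : sInf (Q n) < δ n := by
      have : (0 : ℝ) < 1 / ((n : ℝ) + 1) := by positivity
      simp only [hδ]
      linarith
    obtain ⟨x, hx, hxn⟩ := exists_lt_of_csInf_lt (hQn n) h1
    exact hPmono n x _ hxn.le hx.2
  have hδt : Tendsto δ atTop (𝓝 0) := by
    have h1 : Tendsto (fun n => sInf (Q n)) atTop (𝓝 0) := by
      rw [tendsto_order]
      refine ⟨fun a ha => Eventually.of_forall fun n => ha.trans_le (hinf0 n), fun a ha => ?_⟩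
      filter_upwards [hPev (a / 2) (by linarith)] with n hn
      have : sInf (Q n) ≤ a / 2 := csInf_le (hQb n) ⟨by linarith, hn⟩
      linarith
    have h2 := h1.add (tendsto_one_div_add_atTop_nhds_zero_nat (𝕜 := ℝ))
    rwa [add_zero] at h2
  refine ⟨C, hC0.le, fun f => ?_⟩
  choose f' h1 h2 using fun n => hPδ n (f n)
  refine ⟨f', fun i => ?_, δ, hδt, fun n => ?_⟩
  · rw [mem_ae (P := fun n a => f' n (σ n i a) = f' n a)]
    refine squeeze_zero (fun n => Helper418.dens_nonneg _ n) (fun n => ?_) hδt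
    unfold Helper418.dens
    rw [div_le_iff₀ (hcard n)]
    refine le_trans ?_ (h1 n)
    rw [Nat.cast_le]
    convert one_le_inv (σ n) (f' n) i
  · unfold Helper418.dens
    rw [div_le_iff₀ (hcard n), add_mul]
    have h3 : C * ((inv (σ n) (f n) : ℝ) / Fintype.card (A n)) * Fintype.card (A n) =
        C * inv (σ n) (f n) := by
      rw [mul_assoc, div_mul_cancel₀ _ (hcard n).ne']
    rw [h3]
    refine le_trans (le_of_eq ?_) (h2 n)
    rw [Nat.cast_inj]
    congr!

end

end Pool.Agent.helper987_SE.B2
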