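import Pool.Agent.helper987_SE.Stm

/-!
# Project SE, part B3: matchings (Cor 6(b))
-/

set_option autoImplicit false

open Filter Topology Finset
open scoped Classical

namespace Pool.Agent.helper987_SE.B3

open Helper418

noncomputable section

/-- nonnegative with row and column sums one -/
def DS {V : Type} [Fintype V] (F : V × V → ℝ) : Prop :=
  (∀ x, 0 ≤ F x) ∧ (∀ a, ∑ b, F (a, b) = 1) ∧ ∀ b, ∑ a, F (a, b) = 1

/-- diagonal action -/
def dg {V : Type} (σ : Equiv.Perm V) : Equiv.Perm (V × V) := Equiv.prodCongr σ σ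

theorem dg_apply {V : Type} (σ : Equiv.Perm V) (x : V × V) : dg σ x = (σ x.1, σ x.2) := rfl

theorem dg_inv_apply {V : Type} (σ : Equiv.Perm V) (x : V × V) :
    (dg σ)⁻¹ x = (σ⁻¹ x.1, σ⁻¹ x.2) := rfl

/-- the diagonal action as a homomorphism -/
def dgH (V : Type) : Equiv.Perm V →* Equiv.Perm (V × V) where
  toFun := dg
  map_one' := rfl
  map_mul' := fun _ _ => rfl

theorem wd_dg {V : Type} {k : ℕ} (σ : Fin k → Equiv.Perm V) (w : FreeGroup (Fin k)) :
    wd (fun i => dg (σ i)) w = dg (wd σ w) := by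
  have h : (FreeGroup.lift fun i => dg (σ i)) = (dgH V).comp (FreeGroup.lift σ) := by
    apply FreeGroup.ext_hom
    intro i
    first
      | (simp [dgH]; done)
      | (simp [dgH]; rfl)
  exact DFunLike.congr_fun h w

theorem ds_MK {V : Type} [Fintype V] {k : ℕ} (σ : Fin k → Equiv.Perm V) {F : V × V → ℝ}
    (h : DS F) : DS (MK (fun i => dg (σ i)) F) := by
  obtain ⟨h0, h1, h2⟩ := h
  have hk : (0 : ℝ) < 2 * (2 * k + 1) := by positivity
  refine ⟨fun x => ?_, fun a => ?_, fun b => ?_⟩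
  · unfold MK
    have h3 : 0 ≤ ∑ s, (F (dg (σ s) x) + F ((dg (σ s))⁻¹ x)) :=
      Finset.sum_nonneg fun s _ => add_nonneg (h0 _) (h0 _)
    have h4 := h0 x
    positivity
  · unfold MK
    rw [Finset.sum_add_distrib, ← Finset.sum_div, ← Finset.sum_div, Finset.sum_add_distrib, h1,
      Finset.sum_comm]
    have h3 : ∀ s ∈ (univ : Finset (Fin k)),
        ∑ b : V, (F (dg (σ s) (a, b)) + F ((dg (σ s))⁻¹ (a, b))) = 2 := by
      intro s _
      rw [Finset.sum_add_distrib]
      have e1 : ∑ b : V, F (dg (σ s) (a, b)) = 1 := by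
        rw [← h1 (σ s a)]
        exact Equiv.sum_comp (σ s) (fun b => F (σ s a, b))
      have e2 : ∑ b : V, F ((dg (σ s))⁻¹ (a, b)) = 1 := by
        rw [← h1 ((σ s)⁻¹ a)]
        exact Equiv.sum_comp (σ s)⁻¹ (fun b => F ((σ s)⁻¹ a, b))
      rw [e1, e2]
      norm_num
    rw [Finset.sum_congr rfl h3]
    simp only [sum_const, card_univ, Fintype.card_fin, nsmul_eq_mul]
    field_simp
    ring
  · unfold MK
    rw [Finset.sum_add_distrib, ← Finset.sum_div, ← Finset.sum_div, Finset.sum_add_distrib, h2,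
      Finset.sum_comm]
    have h3 : ∀ s ∈ (univ : Finset (Fin k)),
        ∑ a : V, (F (dg (σ s) (a, b)) + F ((dg (σ s))⁻¹ (a, b))) = 2 := by
      intro s _
      rw [Finset.sum_add_distrib]
      have e1 : ∑ a : V, F (dg (σ s) (a, b)) = 1 := by
        rw [← h2 (σ s b)]
        exact Equiv.sum_comp (σ s) (fun a => F (a, σ s b))
      have e2 : ∑ a : V, F ((dg (σ s))⁻¹ (a, b)) = 1 := by
        rw [← h2 ((σ s)⁻¹ b)]
        exact Equiv.sum_comp (σ s)⁻¹ (fun a => F (a, (σ s)⁻¹ b))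
      rw [e1, e2]
      norm_num
    rw [Finset.sum_congr rfl h3]
    simp only [sum_const, card_univ, Fintype.card_fin, nsmul_eq_mul]
    field_simp
    ring

theorem ds_iter {V : Type} [Fintype V] {k : ℕ} (σ : Fin k → Equiv.Perm V) {F : V × V → ℝ}
    (h : DS F) (m : ℕ) : DS ((MK (fun i => dg (σ i)))^[m] F) := by
  induction m with
  | zero => exact h
  | succ m ih =>
    rw [Function.iterate_succ_apply']
    exact ds_MK σ ih

theorem bd_dec {X : Type} [Fintype X] {ι : Type} [Fintype ι] [DecidableEq X]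
    (σ : ι → Equiv.Perm X) (W : Finset X) :
    bd σ W = ∑ i, (W.filter fun x => σ i x ∉ W).card := by
  unfold bd
  refine Finset.sum_congr rfl fun i _ => ?_
  congr!

/-- `B1P` without decidability instances -/
theorem core (b1 : B1P) (T : Type) [Group T] (k : ℕ) (γ : FreeGroup (Fin k) →* T)
    (hT : TPres T k γ) :
    ∃ C : ℝ, 0 < C ∧ ∀ δ : ℝ, 0 < δ → ∃ β : ℝ, 0 < β ∧
      ∃ (R : Finset (FreeGroup (Fin k))) (m : ℕ), (∀ w ∈ R, γ w = 1) ∧
        ∀ (X : Type) [Fintype X] (σ : Fin k → Equiv.Perm X) (Y : Finset X) (F : X → ℝ),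
          (∀ x ∈ Y, F x = 1) → (∀ x, x ∉ Y → F x = 0) →
          (∀ w ∈ R, ∃ N : Finset X, (∀ x, x ∈ N ↔ x ∈ Y ∧ wd σ w x ≠ x) ∧
            (N.card : ℝ) ≤ β * Y.card) →
          ∃ θ : ℝ, 1 / 2 < θ ∧ ∃ P : Finset X, (∀ x, x ∈ P ↔ θ < ((MK σ)^[m] F) x) ∧
            ((bd σ P : ℕ) : ℝ) ≤ δ * Y.card ∧
            ∃ N : Finset X, (∀ x, x ∈ N ↔ x ∈ Y ∧ ((MK σ)^[m] F) x ≤ θ) ∧
            (N.card : ℝ) ≤ C * bd σ Y + δ * Y.card := by
  obtain ⟨C, hC, h⟩ := b1 T k γ hT
  refine ⟨C, hC, fun δ hδ => ?_⟩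
  obtain ⟨β, hβ, R, m, hR, h⟩ := h δ hδ
  refine ⟨β, hβ, R, m, hR, ?_⟩
  intro X _ σ Y F h1 h0 hk
  have hF : F = ind Y := by
    funext x
    unfold ind
    by_cases hx : x ∈ Y
    · rw [if_pos hx, h1 x hx]
    · rw [if_neg hx, h0 x hx]
  subst hF
  obtain ⟨θ, hθ, -, hb, hN⟩ := h X σ Y (by
    intro w hw
    obtain ⟨N, hN, hNc⟩ := hk w hw
    have e : (Y.filter fun x => wd σ w x ≠ x) = N := by
      ext x
      rw [mem_filter, hN]
    rw [e]
    exact hNc)
  exact ⟨θ, hθ, _, fun x => by rw [mem_filter]; simp, hb, _, fun x => by rw [mem_filter], hN⟩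

/-- **B3** -/
theorem main (b1 : B1P) : B3P := by
  intro T _ k γ hT
  obtain ⟨C, hC, h⟩ := core b1 T k γ hT
  refine ⟨C, hC, fun δ hδ => ?_⟩
  obtain ⟨β, hβ, R, m, hR, h⟩ := h δ hδ
  refine ⟨β / 2, by positivity, R, hR, ?_⟩
  intro V _ σ hrel θ
  -- the graph
  obtain ⟨Y, hY⟩ : ∃ Y : Finset (V × V), ∀ x, x ∈ Y ↔ θ x.1 = x.2 :=
    ⟨univ.filter fun x => θ x.1 = x.2, fun x => by simp⟩
  obtain ⟨F, hF1, hF0⟩ : ∃ F : V × V → ℝ, (∀ x ∈ Y, F x = 1) ∧ (∀ x, x ∉ Y → F x = 0) :=
    ⟨fun x => if x ∈ Y then 1 else 0, fun x hx => if_pos hx, fun x hx => if_neg hx⟩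
  have hinj : Function.Injective (fun a : V => (a, θ a)) := fun a b hab => (Prod.ext_iff.1 hab).1
  have hYmap : Y = univ.map ⟨fun a : V => (a, θ a), hinj⟩ := by
    ext x
    rw [hY]
    simp only [Finset.mem_map, mem_univ, true_and, Function.Embedding.coeFn_mk]
    constructor
    · intro hx
      exact ⟨x.1, Prod.ext rfl hx⟩
    · rintro ⟨a, rfl⟩
      rfl
  have hYcard : Y.card = Fintype.card V := by
    rw [hYmap, card_map, card_univ]
  have hDS : DS F := by
    refine ⟨fun x => ?_, fun a => ?_, fun b => ?_⟩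
    · by_cases hx : x ∈ Y
      · rw [hF1 x hx]; norm_num
      · rw [hF0 x hx]
    · rw [Finset.sum_eq_single (θ a)]
      · exact hF1 _ ((hY _).2 rfl)
      · intro b _ hb
        exact hF0 _ (fun hx => hb ((hY _).1 hx).symm)
      · intro hcon
        exact absurd (mem_univ _) hcon
    · rw [Finset.sum_eq_single (θ.symm b)]
      · exact hF1 _ ((hY _).2 (θ.apply_symm_apply b))
      · intro a _ ha
        refine hF0 _ (fun hx => ha ?_)
        have : θ a = b := (hY _).1 hx
        rw [← this, θ.symm_apply_apply]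
      · intro hcon
        exact absurd (mem_univ _) hcon
  obtain ⟨θ', hθ', P, hP, hbd, N, hN, hNc⟩ := h (V × V) (fun i => dg (σ i)) Y F hF1 hF0 (by
    intro w hw
    refine ⟨Y.filter fun x => wd (fun i => dg (σ i)) w x ≠ x, fun x => by rw [mem_filter], ?_⟩
    rw [hYcard]
    have h1 := hrel w hw
    set Bw : Finset V := univ.filter fun x => wd σ w x ≠ x with hBw
    have h2 : (Y.filter fun x => wd (fun i => dg (σ i)) w x ≠ x).card ≤ Bw.card + Bw.card := by
      have h3 : (Y.filter fun x => wd (fun i => dg (σ i)) w x ≠ x) ⊆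
          (Bw.image fun a => (a, θ a)) ∪ (Bw.image fun b => (θ.symm b, b)) := by
        intro x hx
        rw [mem_filter, hY, wd_dg, dg_apply] at hx
        rw [mem_union, mem_image, mem_image]
        by_cases h4 : wd σ w x.1 = x.1
        · right
          refine ⟨x.2, ?_, ?_⟩
          · rw [hBw, mem_filter]
            refine ⟨mem_univ _, fun h5 => hx.2 ?_⟩
            rw [h4, h5]
          · rw [← hx.1, θ.symm_apply_apply, hx.1]
        · left
          refine ⟨x.1, ?_, ?_⟩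
          · rw [hBw, mem_filter]
            exact ⟨mem_univ _, h4⟩
          · rw [hx.1]
      exact (card_le_card h3).trans ((card_union_le _ _).trans
        (add_le_add card_image_le card_image_le))
    have h5 : ((Y.filter fun x => wd (fun i => dg (σ i)) w x ≠ x).card : ℝ) ≤
        Bw.card + Bw.card := by exact_mod_cast h2
    have h6 : (Bw.card : ℝ) ≤ β / 2 * Fintype.card V := h1
    linarith)
  obtain ⟨h0, h1, h2⟩ := ds_iter σ hDS m
  rw [hYcard] at hbd hNc
  refine ⟨P, ?_, ?_, ?_, ?_⟩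
  · intro a b b' hb hb'
    by_contra hne
    rw [hP] at hb hb'
    have h3 : ∑ x ∈ ({b, b'} : Finset V), ((MK (fun i => dg (σ i)))^[m] F) (a, x) ≤
        ∑ x : V, ((MK (fun i => dg (σ i)))^[m] F) (a, x) :=
      Finset.sum_le_sum_of_subset_of_nonneg (subset_univ _) (fun x _ _ => h0 _)
    rw [Finset.sum_pair hne, h1 a] at h3
    linarith
  · intro a a' b ha ha'
    by_contra hne
    rw [hP] at ha ha'
    have h3 : ∑ x ∈ ({a, a'} : Finset V), ((MK (fun i => dg (σ i)))^[m] F) (x, b) ≤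
        ∑ x : V, ((MK (fun i => dg (σ i)))^[m] F) (x, b) :=
      Finset.sum_le_sum_of_subset_of_nonneg (subset_univ _) (fun x _ _ => h0 _)
    rw [Finset.sum_pair hne, h2 b] at h3
    linarith
  · have e : (∑ i, (P.filter fun x => (σ i x.1, σ i x.2) ∉ P).card : ℕ) =
        bd (fun i => dg (σ i)) P := by
      rw [bd_dec]
      rfl
    rw [e]
    exact hbd
  · have e1 : (univ.filter fun a => (a, θ a) ∉ P).card = N.card := by
      rw [← card_map ⟨fun a : V => (a, θ a), hinj⟩]
      congr 1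
      ext x
      rw [hN, hY]
      simp only [Finset.mem_map, mem_filter, mem_univ, true_and, Function.Embedding.coeFn_mk]
      constructor
      · rintro ⟨a, ha, rfl⟩
        refine ⟨rfl, ?_⟩
        rw [hP] at ha
        exact not_lt.1 ha
      · rintro ⟨h3, h4⟩
        refine ⟨x.1, ?_, Prod.ext rfl h3⟩
        rw [hP, h3]
        exact not_lt.2 h4
    have e2 : bd (fun i => dg (σ i)) Y = dfc σ σ θ := by
      unfold dfc
      rw [bd_dec]
      refine Finset.sum_congr rfl fun i _ => ?_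
      rw [← card_map ⟨fun a : V => (a, θ a), hinj⟩]
      congr 1
      ext x
      simp only [Finset.mem_map, mem_filter, mem_univ, true_and, Function.Embedding.coeFn_mk]
      constructor
      · rintro ⟨h3, h4⟩
        rw [hY] at h3 h4
        refine ⟨x.1, ?_, Prod.ext rfl h3⟩
        rw [h3]
        exact h4
      · rintro ⟨a, ha, rfl⟩
        rw [hY, hY]
        exact ⟨rfl, ha⟩
    rw [e1, ← e2]
    exact hNc

end

end Pool.Agent.helper987_SE.B3
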