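import Pool.Agent.helper987_SE.Stm

/-!
# Project SE, part B4 (Lemma 7), by helper758
-/

set_option autoImplicit false
set_option maxHeartbeats 400000

open Filter Topology Finset
open scoped Classical

namespace Pool.Agent.helper987_SE.B4

open Helper418 Pool.Agent.helper987_SE

theorem main : B4P := by
  intro V V' _ _ k σ σ' η ε hE p q h
  refine hE (univ.filter fun x => p x = q x) (le_trans ?_ h)
  have : bd σ (univ.filter fun x => p x = q x) ≤ dfc σ σ' p + dfc σ σ' q := by
    unfold bd dfc
    rw [← Finset.sum_add_distrib]
    refine Finset.sum_le_sum fun i _ => ?_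
    refine le_trans (Finset.card_le_card (t := (univ.filter fun x => p (σ i x) ≠ σ' i (p x)) ∪
      (univ.filter fun x => q (σ i x) ≠ σ' i (q x))) ?_) (Finset.card_union_le _ _)
    intro x hx
    simp only [mem_filter, mem_univ, true_and, mem_union] at hx ⊢
    by_contra hcon
    push Not at hcon
    apply hx.2
    rw [hcon.1, hcon.2, hx.1]
  exact_mod_cast this

end Pool.Agent.helper987_SE.B4
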