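import Pool.Agent.helper987_SE.Stm

/-!
# Project SE, part B6 (Lemma 9, existence), by helper758
-/

set_option autoImplicit false
set_option maxHeartbeats 400000

open Filter Topology Finset
open scoped Classical

namespace Pool.Agent.helper987_SE.B6

open Helper418 Pool.Agent.helper987_SE

/-- number of points sent by a permutation to a set -/
theorem card_perm {V : Type} [Fintype V] (θ : Equiv.Perm V) (Q : V → Prop)
    {h1 : DecidablePred Q} {h2 : DecidablePred fun x => Q (θ x)} :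
    (@Finset.filter V (fun x => Q (θ x)) h2 univ).card = (@Finset.filter V Q h1 univ).card := by
  refine Finset.card_bij (fun a _ => θ a) ?_ ?_ ?_
  · intro a ha; simpa using ha
  · intro a _ b _ hab; exact θ.injective hab
  · intro b hb
    exact ⟨θ.symm b, by simpa using hb, by simp⟩

/-- defect of a composition -/
theorem dfc_comp {V V' : Type} [Fintype V] {k : ℕ} (σ : Fin k → Equiv.Perm V)
    (σ' : Fin k → Equiv.Perm V') (θ : Equiv.Perm V) (s : V → V') :
    dfc σ σ' (fun x => s (θ x)) ≤ dfc σ σ θ + dfc σ σ' s := by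
  unfold dfc
  rw [← Finset.sum_add_distrib]
  refine Finset.sum_le_sum fun i _ => ?_
  have hc : (univ.filter fun x => s (σ i x) ≠ σ' i (s x)).card =
      (univ.filter fun x => s (σ i (θ x)) ≠ σ' i (s (θ x))).card :=
    (card_perm θ (fun x => s (σ i x) ≠ σ' i (s x))).symm
  rw [hc]
  refine le_trans (Finset.card_le_card (t := (univ.filter fun x => θ (σ i x) ≠ σ i (θ x)) ∪
      (univ.filter fun x => s (σ i (θ x)) ≠ σ' i (s (θ x)))) ?_) (Finset.card_union_le _ _)
  intro x hx
  simp only [mem_filter, mem_univ, true_and, mem_union] at hx ⊢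
  by_contra hcon
  push Not at hcon
  apply hx
  rw [hcon.1, hcon.2]

theorem dfc_one {V : Type} [Fintype V] {k : ℕ} (σ : Fin k → Equiv.Perm V) :
    dfc σ σ (1 : Equiv.Perm V) = 0 := by
  unfold dfc
  refine Finset.sum_eq_zero fun i _ => ?_
  simp

theorem main : B6P := by
  intro V _ k σ δ η hδ h τ hτ
  have key : ∀ θ : Equiv.Perm V, (dfc σ σ θ : ℝ) ≤ δ * Fintype.card V →
      ∃ θ' : Equiv.Perm V, (dfc σ σ θ' : ℝ) ≤ δ * Fintype.card V ∧
        ((univ.filter fun x => θ' x ≠ τ (θ x)).card : ℝ) ≤ η * Fintype.card V := by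
    intro θ hθ
    have h1 : (dfc σ σ (τ * θ : Equiv.Perm V) : ℝ) ≤ 3 * δ * Fintype.card V := by
      have h2 : dfc σ σ (τ * θ : Equiv.Perm V) ≤ dfc σ σ θ + dfc σ σ τ :=
        dfc_comp σ σ θ τ
      have h3 : (dfc σ σ (τ * θ : Equiv.Perm V) : ℝ) ≤ dfc σ σ θ + dfc σ σ τ := by
        exact_mod_cast h2
      have h4 : 0 ≤ δ * Fintype.card V := by positivity
      nlinarith
    obtain ⟨θ', h2, h3⟩ := h (τ * θ) h1
    exact ⟨θ', h2, by simpa using h3⟩
  choose! g hg1 hg2 using key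
  let Θ : ℕ → {θ : Equiv.Perm V // (dfc σ σ θ : ℝ) ≤ δ * Fintype.card V} := fun m =>
    Nat.rec ⟨1, by rw [dfc_one]; simp; positivity⟩ (fun _ θ => ⟨g θ.1, hg1 θ.1 θ.2⟩) m
  refine ⟨fun m => (Θ m).1, ?_, ?_, ?_⟩
  · rfl
  · intro m
    exact (Θ m).2
  · intro m
    exact hg2 (Θ m).1 (Θ m).2

end Pool.Agent.helper987_SE.B6
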