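import Pool.Agent.helper987_SE.Stm
import Pool.Agent.helper987_SE.B6

/-!
# Project SE, part B7 (Lemma 9, multiplicativity), by helper758
-/

set_option autoImplicit false
set_option maxHeartbeats 400000

open Filter Topology Finset
open scoped Classical

namespace Pool.Agent.helper987_SE.B7

open Helper418 Pool.Agent.helper987_SE Pool.Agent.helper987_SE.B6

/-- complement -/
theorem card_ne {V V' : Type} [Fintype V] (p q : V → V') :
    ((univ.filter fun x => p x = q x).card : ℝ) =
      Fintype.card V - (univ.filter fun x => p x ≠ q x).card := by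
  have h := Finset.card_filter_add_card_filter_not (s := (univ : Finset V)) (fun x => p x = q x)
  rw [Finset.card_univ] at h
  have h' : ((univ.filter fun x => p x = q x).card : ℝ) +
      (univ.filter fun x => ¬ p x = q x).card = Fintype.card V := by exact_mod_cast h
  have h2 : (univ.filter fun x => ¬ p x = q x) = (univ.filter fun x => p x ≠ q x) := rfl
  rw [h2] at h'
  linarith

/-- Lemma 7 in the form we use -/
theorem close {V V' : Type} [Fintype V] [Fintype V'] [Nonempty V] (B4 : B4P) {k : ℕ}
    (σ : Fin k → Equiv.Perm V)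
    (σ' : Fin k → Equiv.Perm V') (η ε : ℝ) (hE : Erg σ η ε) (p q : V → V')
    (h : (dfc σ σ' p : ℝ) + dfc σ σ' q ≤ ε * Fintype.card V) {c : ℝ}
    (hc : ((univ.filter fun x => p x ≠ q x).card : ℝ) ≤ c * Fintype.card V) (hc' : c + η < 1) :
    ((univ.filter fun x => p x ≠ q x).card : ℝ) ≤ η * Fintype.card V := by
  have hpos : (0 : ℝ) < Fintype.card V := by exact_mod_cast Fintype.card_pos
  rcases B4 V V' k σ σ' η ε hE p q h with h1 | h1
  · rw [card_ne] at h1
    exfalso
    nlinarith
  · rw [card_ne] at h1
    linarith

theorem main (B4 : B4P) : B7P := by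
  intro V _ _ k σ δ η ε hδ hη hη' hδε hE τ θ hS m m'
  have hpos : (0 : ℝ) < Fintype.card V := by exact_mod_cast Fintype.card_pos
  induction m with
  | zero =>
    have : (univ.filter fun x => θ (0 + m') x ≠ θ 0 (θ m' x)) = ∅ := by
      ext x
      simp [hS.zero]
    rw [this]
    simp
    positivity
  | succ m ih =>
    refine close B4 σ σ η ε hE (θ (m + 1 + m')) (fun x => θ (m + 1) (θ m' x)) ?_ (c := 3 * η) ?_
      (by linarith)
    · have h1 := hS.df (m + 1 + m')
      have h2 : (dfc σ σ (fun x => θ (m + 1) (θ m' x)) : ℝ) ≤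
          dfc σ σ (θ m') + dfc σ σ (θ (m + 1)) := by
        exact_mod_cast dfc_comp σ σ (θ m') (θ (m + 1))
      have h3 := hS.df (m + 1)
      have h4 := hS.df m'
      nlinarith
    · have h1 := hS.step (m + m')
      have h2 := hS.step m
      have hc : (univ.filter fun x => θ (m + 1) x ≠ τ (θ m x)).card =
          (univ.filter fun x => θ (m + 1) (θ m' x) ≠ τ (θ m (θ m' x))).card :=
        (card_perm (θ m') (fun x => θ (m + 1) x ≠ τ (θ m x))).symm
      rw [hc] at h2
      have h3 : (univ.filter fun x => θ (m + 1 + m') x ≠ θ (m + 1) (θ m' x)).card ≤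
          (univ.filter fun x => θ (m + m' + 1) x ≠ τ (θ (m + m') x)).card +
          (univ.filter fun x => θ (m + m') x ≠ θ m (θ m' x)).card +
          (univ.filter fun x => θ (m + 1) (θ m' x) ≠ τ (θ m (θ m' x))).card := by
        refine le_trans (Finset.card_le_card
          (t := ((univ.filter fun x => θ (m + m' + 1) x ≠ τ (θ (m + m') x)) ∪
          (univ.filter fun x => θ (m + m') x ≠ θ m (θ m' x))) ∪
          (univ.filter fun x => θ (m + 1) (θ m' x) ≠ τ (θ m (θ m' x)))) ?_)
          (le_trans (Finset.card_union_le _ _) (Nat.add_le_add_right (Finset.card_union_le _ _) _))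
        intro x hx
        simp only [mem_filter, mem_univ, true_and, mem_union] at hx ⊢
        by_contra hcon
        push Not at hcon
        obtain ⟨⟨a1, a2⟩, a3⟩ := hcon
        apply hx
        rw [show m + 1 + m' = m + m' + 1 by ring, a1, a2, a3]
      have h4 : ((univ.filter fun x => θ (m + 1 + m') x ≠ θ (m + 1) (θ m' x)).card : ℝ) ≤
          (univ.filter fun x => θ (m + m' + 1) x ≠ τ (θ (m + m') x)).card +
          (univ.filter fun x => θ (m + m') x ≠ θ m (θ m' x)).card +
          (univ.filter fun x => θ (m + 1) (θ m' x) ≠ τ (θ m (θ m' x))).card := by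
        exact_mod_cast h3
      linarith

end Pool.Agent.helper987_SE.B7
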