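import Pool.Agent.helper987_SE.Stm
import Pool.Agent.helper987_SE.B7

/-!
# Project SE, part B5 (Lemma 8), by helper758
-/

set_option autoImplicit false
set_option maxHeartbeats 400000

open Filter Topology Finset
open scoped Classical

namespace Pool.Agent.helper987_SE.B5

open Helper418 Pool.Agent.helper987_SE Pool.Agent.helper987_SE.B6 Pool.Agent.helper987_SE.B7

/-- a partial matching of a finite set extends to a permutation -/
theorem exists_perm {V : Type} [Fintype V] (P : Finset (V × V))
    (h1 : ∀ a b b', (a, b) ∈ P → (a, b') ∈ P → b = b')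
    (h2 : ∀ a a' b, (a, b) ∈ P → (a', b) ∈ P → a = a') :
    ∃ θ : Equiv.Perm V, ∀ a b, (a, b) ∈ P → θ a = b := by
  let f : V → V := fun a => if h : ∃ b, (a, b) ∈ P then h.choose else a
  have hf : ∀ a b, (a, b) ∈ P → f a = b := by
    intro a b hab
    have h : ∃ b, (a, b) ∈ P := ⟨b, hab⟩
    have : f a = h.choose := by simp only [f]; rw [dif_pos h]
    rw [this]
    exact h1 a _ _ h.choose_spec hab
  have hinj : Set.InjOn f (P.image Prod.fst : Finset V) := by
    intro a ha a' ha' haa
    simp only [coe_image, Set.mem_image, mem_coe, Prod.exists, exists_and_right,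
      exists_eq_right] at ha ha'
    obtain ⟨b, hb⟩ := ha
    obtain ⟨b', hb'⟩ := ha'
    rw [hf a b hb, hf a' b' hb'] at haa
    subst haa
    exact h2 a a' b hb hb'
  obtain ⟨g, hg⟩ := Finset.exists_equiv_extend_of_card_eq (t := (univ : Finset V))
    (by simp) (f := f) (s := P.image Prod.fst) (Finset.subset_univ _) hinj
  refine ⟨g.trans (Equiv.subtypeUnivEquiv (fun x => Finset.mem_univ x)), ?_⟩
  intro a b hab
  have h3 := hg a (by simp only [mem_image, Prod.exists, exists_and_right, exists_eq_right]; exact ⟨b, hab⟩)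
  rw [hf a b hab] at h3
  simpa using h3

theorem main (B3 : B3P) (B4 : B4P) : B5P := by
  intro T _ k γ hT e he η hη hη'
  obtain ⟨C, hC, h3⟩ := B3 T k γ hT
  have hk0 : (0 : ℝ) ≤ k := Nat.cast_nonneg k
  obtain ⟨δ, hδ0, hδη, hδe, hδC⟩ : ∃ δ : ℝ, 0 < δ ∧ δ ≤ η ∧ 6 * δ ≤ e η ∧ C * (3 * δ) ≤ 1 / 8 := by
    refine ⟨min η (min (e η / 6) (1 / (24 * C))), ?_, min_le_left _ _, ?_, ?_⟩
    · have := he η hη
      positivity
    · have : min η (min (e η / 6) (1 / (24 * C))) ≤ e η / 6 :=
        le_trans (min_le_right _ _) (min_le_left _ _)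
      linarith
    · have h1 : min η (min (e η / 6) (1 / (24 * C))) ≤ 1 / (24 * C) :=
        le_trans (min_le_right _ _) (min_le_right _ _)
      have h2 := mul_le_mul_of_nonneg_left h1 hC.le
      have h4 : C * (1 / (24 * C)) = 1 / 24 := by field_simp
      rw [h4] at h2
      linarith
  obtain ⟨η', hη0, hη1, hη2⟩ : ∃ η' : ℝ, 0 < η' ∧ η' ≤ 1 / 10 ∧ k * η' ≤ δ / 4 := by
    refine ⟨min (1 / 10) (δ / (4 * k + 4)), ?_, min_le_left _ _, ?_⟩
    · have : 0 < δ / (4 * (k : ℝ) + 4) := by positivity
      positivity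
    · have h1 : min (1 / 10) (δ / (4 * (k : ℝ) + 4)) ≤ δ / (4 * k + 4) := min_le_right _ _
      have h2 := mul_le_mul_of_nonneg_left h1 hk0
      have h4 : (k : ℝ) * (δ / (4 * k + 4)) ≤ δ / 4 := by
        rw [mul_div_assoc', div_le_div_iff₀ (by positivity) (by norm_num)]
        nlinarith
      linarith
  obtain ⟨δ', hd0, hd1, hd2, hd3⟩ : ∃ δ' : ℝ, 0 < δ' ∧ δ' ≤ δ / 2 ∧ δ' ≤ e η' ∧ δ' ≤ 1 / 8 := by
    refine ⟨min (δ / 2) (min (e η') (1 / 8)), ?_, min_le_left _ _,
      le_trans (min_le_right _ _) (min_le_left _ _),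
      le_trans (min_le_right _ _) (min_le_right _ _)⟩
    have := he η' hη0
    positivity
  obtain ⟨β, hβ, R, hR, h4⟩ := h3 δ' hd0
  refine ⟨δ, β, η', hδ0, hδη, hδe, hβ, hη0, by linarith, R, hR, ?_⟩
  intro V _ _ σ hE hE' hV θ hθ
  have hpos : (0 : ℝ) < Fintype.card V := by exact_mod_cast Fintype.card_pos
  obtain ⟨P, hP1, hP2, hP3, hP4⟩ := h4 V σ hV θ
  obtain ⟨θ', hθ'⟩ := exists_perm P hP1 hP2
  -- the domain of `P`
  set dom : Finset V := P.image Prod.fst with hdom
  have hmem : ∀ x, x ∈ dom → (x, θ' x) ∈ P := by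
    intro x hx
    simp only [hdom, mem_image, Prod.exists, exists_and_right, exists_eq_right] at hx
    obtain ⟨b, hb⟩ := hx
    rw [hθ' x b hb]
    exact hb
  have hmem' : ∀ x b, (x, b) ∈ P → x ∈ dom := by
    intro x b hb
    simp only [hdom, mem_image, Prod.exists, exists_and_right, exists_eq_right]
    exact ⟨b, hb⟩
  -- the bad edges
  have hbad : ∀ i : Fin k, (univ.filter fun x => x ∈ dom ∧ (σ i x, σ i (θ' x)) ∉ P).card ≤
      (P.filter fun x => (σ i x.1, σ i x.2) ∉ P).card := by
    intro i
    refine Finset.card_le_card_of_injOn (fun x => (x, θ' x)) ?_ ?_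
    · intro x hx
      simp only [coe_filter, mem_univ, true_and, Set.mem_ofPred_eq] at hx ⊢
      exact ⟨hmem x hx.1, hx.2⟩
    · intro x _ y _ hxy
      exact (Prod.mk.inj hxy).1
  have hbd : bd σ dom ≤ ∑ i, (P.filter fun x => (σ i x.1, σ i x.2) ∉ P).card := by
    unfold bd
    refine Finset.sum_le_sum fun i _ => le_trans (Finset.card_le_card ?_) (hbad i)
    intro x hx
    simp only [mem_filter, mem_univ, true_and] at hx ⊢
    exact ⟨hx.1, fun h => hx.2 (hmem' _ _ h)⟩
  have hbd' : (bd σ dom : ℝ) ≤ δ' * Fintype.card V :=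
    le_trans (by exact_mod_cast hbd) hP3
  -- size of the domain
  have hgood : ((univ.filter fun a => (a, θ a) ∉ P).card : ℝ) ≤ 1 / 4 * Fintype.card V := by
    have h5 : C * (dfc σ σ θ : ℝ) ≤ C * (3 * δ * Fintype.card V) :=
      mul_le_mul_of_nonneg_left hθ hC.le
    have h6 : C * (3 * δ * Fintype.card V) = C * (3 * δ) * Fintype.card V := by ring
    have h7 : C * (3 * δ) * Fintype.card V ≤ 1 / 8 * Fintype.card V :=
      mul_le_mul_of_nonneg_right hδC hpos.le
    have h8 : δ' * Fintype.card V ≤ 1 / 8 * Fintype.card V :=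
      mul_le_mul_of_nonneg_right hd3 hpos.le
    linarith
  have hcompl : ((univ.filter fun x => x ∉ dom).card : ℝ) + dom.card = Fintype.card V := by
    have h5 := Finset.card_filter_add_card_filter_not (s := (univ : Finset V)) (fun x => x ∉ dom)
    rw [Finset.card_univ] at h5
    have h6 : (univ.filter fun x => ¬ x ∉ dom) = dom := by
      ext x
      simp
    rw [h6] at h5
    exact_mod_cast h5
  have hsub : ((univ.filter fun x => x ∉ dom).card : ℝ) ≤
      (univ.filter fun a => (a, θ a) ∉ P).card := by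
    have : (univ.filter fun x => x ∉ dom).card ≤
      (univ.filter fun a => (a, θ a) ∉ P).card := by
      refine Finset.card_le_card ?_
      intro x hx
      simp only [mem_filter, mem_univ, true_and] at hx ⊢
      exact fun h => hx (hmem' _ _ h)
    exact_mod_cast this
  have hdomc : ((univ.filter fun x => x ∉ dom).card : ℝ) ≤ η' * Fintype.card V := by
    have h5 : δ' * Fintype.card V ≤ e η' * Fintype.card V :=
      mul_le_mul_of_nonneg_right hd2 hpos.le
    rcases hE' dom (le_trans hbd' h5) with h6 | h6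
    · exfalso
      have h7 : η' * Fintype.card V ≤ 1 / 10 * Fintype.card V :=
        mul_le_mul_of_nonneg_right hη1 hpos.le
      nlinarith
    · linarith
  -- the defect of `θ'`
  have hdf : (dfc σ σ θ' : ℝ) ≤ δ * Fintype.card V := by
    have h5 : dfc σ σ θ' ≤ ∑ i, (P.filter fun x => (σ i x.1, σ i x.2) ∉ P).card +
        k * (univ.filter fun x => x ∉ dom).card := by
      have hk : k * (univ.filter fun x => x ∉ dom).card =
          ∑ i : Fin k, (univ.filter fun x => x ∉ dom).card := by
        simp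
      rw [hk]
      unfold dfc
      rw [← Finset.sum_add_distrib]
      refine Finset.sum_le_sum fun i _ => ?_
      refine le_trans (Finset.card_le_card
        (t := (univ.filter fun x => x ∈ dom ∧ (σ i x, σ i (θ' x)) ∉ P) ∪
          (univ.filter fun x => x ∉ dom)) ?_)
        (le_trans (Finset.card_union_le _ _) (Nat.add_le_add_right (hbad i) _))
      intro x hx
      simp only [mem_filter, mem_univ, true_and, mem_union] at hx ⊢
      by_contra hcon
      push Not at hcon
      exact hx (hθ' _ _ (hcon.1 hcon.2))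
    have h6 : (dfc σ σ θ' : ℝ) ≤ ((∑ i, (P.filter fun x => (σ i x.1, σ i x.2) ∉ P).card : ℕ) : ℝ) +
        k * (univ.filter fun x => x ∉ dom).card := by
      exact_mod_cast h5
    have h7 : (k : ℝ) * (univ.filter fun x => x ∉ dom).card ≤ k * (η' * Fintype.card V) :=
      mul_le_mul_of_nonneg_left hdomc hk0
    have h8 : (k : ℝ) * (η' * Fintype.card V) = k * η' * Fintype.card V := by ring
    have h9 : k * η' * Fintype.card V ≤ δ / 4 * Fintype.card V :=
      mul_le_mul_of_nonneg_right hη2 hpos.le
    have h10 : δ' * Fintype.card V ≤ δ / 2 * Fintype.card V :=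
      mul_le_mul_of_nonneg_right hd1 hpos.le
    have h11 : 0 < δ * Fintype.card V := by positivity
    linarith
  refine ⟨θ', hdf, ?_⟩
  refine close B4 σ σ η (e η) hE θ' θ ?_ (c := 1 / 4) ?_ (by linarith)
  · have h5 : 6 * δ * Fintype.card V ≤ e η * Fintype.card V :=
      mul_le_mul_of_nonneg_right hδe hpos.le
    have h11 : 0 < δ * Fintype.card V := by positivity
    linarith
  · refine le_trans ?_ hgood
    have : (univ.filter fun x => θ' x ≠ θ x).card ≤
      (univ.filter fun a => (a, θ a) ∉ P).card := by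
      refine Finset.card_le_card ?_
      intro x hx
      simp only [mem_filter, mem_univ, true_and] at hx ⊢
      exact fun h => hx (hθ' _ _ h)
    exact_mod_cast this

end Pool.Agent.helper987_SE.B5
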