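import Pool.Agent.helper987_SE.Stm
import Pool.Agent.helper987_SE.B7

/-!
# Project SE, part B8 (two parts), by helper758
-/

set_option autoImplicit false
set_option maxHeartbeats 400000

open Filter Topology Finset
open scoped Classical

namespace Pool.Agent.helper987_SE.B8

open Helper418 Pool.Agent.helper987_SE Pool.Agent.helper987_SE.B6 Pool.Agent.helper987_SE.B7

/-- preimages under an almost injective map -/
theorem card_pre {V V' : Type} [Fintype V] [Fintype V'] (s : V → V') (Q : V' → Prop)
    {h1 : DecidablePred Q} {h2 : DecidablePred fun x => Q (s x)} :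
    (@Finset.filter V (fun x => Q (s x)) h2 univ).card ≤ (@Finset.filter V' Q h1 univ).card +
      (univ.filter fun x => ∃ y, y ≠ x ∧ s y = s x).card := by
  have h1 : (univ.filter fun x => Q (s x)) ⊆
      (univ.filter fun x => Q (s x) ∧ ¬ ∃ y, y ≠ x ∧ s y = s x) ∪
      (univ.filter fun x => ∃ y, y ≠ x ∧ s y = s x) := by
    intro x hx
    simp only [mem_filter, mem_univ, true_and, mem_union] at hx ⊢
    by_cases h : ∃ y, y ≠ x ∧ s y = s x
    · exact Or.inr h
    · exact Or.inl ⟨hx, h⟩
  refine le_trans (Finset.card_le_card h1) (le_trans (Finset.card_union_le _ _) ?_)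
  refine Nat.add_le_add_right ?_ _
  refine Finset.card_le_card_of_injOn s ?_ ?_
  · intro x hx
    simp only [coe_filter, mem_univ, true_and, Set.mem_ofPred_eq] at hx ⊢
    exact hx.1
  · intro x hx y hy hxy
    simp only [coe_filter, mem_univ, true_and, Set.mem_ofPred_eq] at hx hy
    by_contra hne
    exact hy.2 ⟨x, hne, hxy⟩

theorem main (B4 : B4P) : B8P := by
  intro V V' _ _ _ k σ σ' δ η ε κ hδ hη hη' hκ hκη hε hE hcard τ θ τ' θ' hS hS' s hs1 hs2 hs3 m
  have hpos : (0 : ℝ) < Fintype.card V := by exact_mod_cast Fintype.card_pos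
  have hκV : 0 ≤ κ * Fintype.card V := by positivity
  have hδV : 0 ≤ δ * Fintype.card V := by positivity
  have hηV : 0 ≤ η * Fintype.card V := by positivity
  have hk0 : (0 : ℝ) ≤ k := Nat.cast_nonneg k
  have hkκ : 0 ≤ k * κ * Fintype.card V := by positivity
  induction m with
  | zero =>
    have : (univ.filter fun x => s (θ 0 x) ≠ θ' 0 (s x)) = ∅ := by
      ext x
      simp [hS.zero, hS'.zero]
    rw [this]
    simp
    positivity
  | succ m ih =>
    refine close B4 σ σ' η ε hE (fun x => s (θ (m + 1) x)) (fun x => θ' (m + 1) (s x)) ?_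
      (c := 6 * η) ?_ (by linarith)
    · have h1 : (dfc σ σ' (fun x => s (θ (m + 1) x)) : ℝ) ≤ dfc σ σ (θ (m + 1)) + dfc σ σ' s := by
        exact_mod_cast dfc_comp σ σ' (θ (m + 1)) s
      have h2 := hS.df (m + 1)
      have h3 : dfc σ σ' (fun x => θ' (m + 1) (s x)) ≤
          dfc σ σ' s + dfc σ' σ' (θ' (m + 1)) +
            k * (univ.filter fun x => ∃ y, y ≠ x ∧ s y = s x).card := by
        have hk : k * (univ.filter fun x => ∃ y, y ≠ x ∧ s y = s x).card =
            ∑ i : Fin k, (univ.filter fun x => ∃ y, y ≠ x ∧ s y = s x).card := by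
          simp
        rw [hk]
        unfold dfc
        rw [← Finset.sum_add_distrib, ← Finset.sum_add_distrib]
        refine Finset.sum_le_sum fun i _ => ?_
        have h4 : (univ.filter fun x => θ' (m + 1) (σ' i (s x)) ≠ σ' i (θ' (m + 1) (s x))).card ≤
            (univ.filter fun y => θ' (m + 1) (σ' i y) ≠ σ' i (θ' (m + 1) y)).card +
            (univ.filter fun x => ∃ y, y ≠ x ∧ s y = s x).card :=
          card_pre s (fun y => θ' (m + 1) (σ' i y) ≠ σ' i (θ' (m + 1) y))
        have h5 : (univ.filter fun x => θ' (m + 1) (s (σ i x)) ≠ σ' i (θ' (m + 1) (s x))).card ≤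
            (univ.filter fun x => s (σ i x) ≠ σ' i (s x)).card +
            (univ.filter fun x => θ' (m + 1) (σ' i (s x)) ≠ σ' i (θ' (m + 1) (s x))).card := by
          refine le_trans (Finset.card_le_card
            (t := (univ.filter fun x => s (σ i x) ≠ σ' i (s x)) ∪
            (univ.filter fun x => θ' (m + 1) (σ' i (s x)) ≠ σ' i (θ' (m + 1) (s x)))) ?_)
            (Finset.card_union_le _ _)
          intro x hx
          simp only [mem_filter, mem_univ, true_and, mem_union] at hx ⊢
          by_contra hcon
          push Not at hcon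
          apply hx
          rw [hcon.1, hcon.2]
        exact le_trans h5 (by rw [add_assoc]; exact Nat.add_le_add_left h4 _)
      have h3' : (dfc σ σ' (fun x => θ' (m + 1) (s x)) : ℝ) ≤
          dfc σ σ' s + dfc σ' σ' (θ' (m + 1)) +
            k * (univ.filter fun x => ∃ y, y ≠ x ∧ s y = s x).card := by
        exact_mod_cast h3
      have h4 := hS'.df (m + 1)
      have h5 : (k : ℝ) * (univ.filter fun x => ∃ y, y ≠ x ∧ s y = s x).card ≤
          k * (κ * Fintype.card V) := mul_le_mul_of_nonneg_left hs2 hk0
      have h6 : δ * Fintype.card V' ≤ δ * (2 * Fintype.card V) :=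
        mul_le_mul_of_nonneg_left hcard hδ
      have h7 : (4 * δ + 4 * (k + 1) * κ) * Fintype.card V ≤ ε * Fintype.card V :=
        mul_le_mul_of_nonneg_right hε hpos.le
      have h8 : (4 * δ + 4 * (k + 1) * κ) * Fintype.card V = 4 * (δ * Fintype.card V) +
        4 * (k * κ * Fintype.card V) + 4 * (κ * Fintype.card V) := by ring
      nlinarith
    · have h1 := hS.step m
      have hc3 : (univ.filter fun x => s (τ x) ≠ τ' (s x)).card =
          (univ.filter fun x => s (τ (θ m x)) ≠ τ' (s (θ m x))).card :=
        (card_perm (θ m) (fun x => s (τ x) ≠ τ' (s x))).symm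
      have h3 := hs3
      rw [hc3] at h3
      have h4 := hS'.step m
      have h5 : (univ.filter fun x => θ' (m + 1) (s x) ≠ τ' (θ' m (s x))).card ≤
        (univ.filter fun y => θ' (m + 1) y ≠ τ' (θ' m y)).card +
        (univ.filter fun x => ∃ y, y ≠ x ∧ s y = s x).card :=
          card_pre s (fun y => θ' (m + 1) y ≠ τ' (θ' m y))
      have h5' : ((univ.filter fun x => θ' (m + 1) (s x) ≠ τ' (θ' m (s x))).card : ℝ) ≤
        (univ.filter fun y => θ' (m + 1) y ≠ τ' (θ' m y)).card +
        (univ.filter fun x => ∃ y, y ≠ x ∧ s y = s x).card := by exact_mod_cast h5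
      have h6 : (univ.filter fun x => s (θ (m + 1) x) ≠ θ' (m + 1) (s x)).card ≤
          (univ.filter fun x => θ (m + 1) x ≠ τ (θ m x)).card +
          (univ.filter fun x => s (τ (θ m x)) ≠ τ' (s (θ m x))).card +
          (univ.filter fun x => s (θ m x) ≠ θ' m (s x)).card +
          (univ.filter fun x => θ' (m + 1) (s x) ≠ τ' (θ' m (s x))).card := by
        refine le_trans (Finset.card_le_card
          (t := (((univ.filter fun x => θ (m + 1) x ≠ τ (θ m x)) ∪
          (univ.filter fun x => s (τ (θ m x)) ≠ τ' (s (θ m x)))) ∪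
          (univ.filter fun x => s (θ m x) ≠ θ' m (s x))) ∪
          (univ.filter fun x => θ' (m + 1) (s x) ≠ τ' (θ' m (s x)))) ?_)
          (le_trans (Finset.card_union_le _ _) (Nat.add_le_add_right
            (le_trans (Finset.card_union_le _ _)
              (Nat.add_le_add_right (Finset.card_union_le _ _) _)) _))
        intro x hx
        simp only [mem_filter, mem_univ, true_and, mem_union] at hx ⊢
        by_contra hcon
        push Not at hcon
        obtain ⟨⟨⟨a1, a2⟩, a3⟩, a4⟩ := hcon
        apply hx
        rw [a1, a2, a3, a4]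
      have h7 : ((univ.filter fun x => s (θ (m + 1) x) ≠ θ' (m + 1) (s x)).card : ℝ) ≤
          (univ.filter fun x => θ (m + 1) x ≠ τ (θ m x)).card +
          (univ.filter fun x => s (τ (θ m x)) ≠ τ' (s (θ m x))).card +
          (univ.filter fun x => s (θ m x) ≠ θ' m (s x)).card +
          (univ.filter fun x => θ' (m + 1) (s x) ≠ τ' (θ' m (s x))).card := by
        exact_mod_cast h6
      have h8 : η * Fintype.card V' ≤ η * (2 * Fintype.card V) :=
        mul_le_mul_of_nonneg_left hcard hη.le
      have h9 : κ * Fintype.card V ≤ η * Fintype.card V :=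
        mul_le_mul_of_nonneg_right hκη hpos.le
      linarith

end Pool.Agent.helper987_SE.B8
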