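import Pool.Agent.helper987_SE.Stm
import Pool.Agent.Helper418_Sofic.Lef

/-!
# Project SE: part B9, restriction to the parts of a labelling
-/

set_option autoImplicit false
set_option maxHeartbeats 1000000

open Filter Topology Finset
open scoped Classical

namespace Pool.Agent.helper987_SE.B9

open Helper418

noncomputable section

/-- extension of a partial permutation -/
theorem exists_ext' {X : Type} [Fintype X] (φ : Equiv.Perm X) (f : X → ℕ) (c : ℕ) :
    ∃ g : Equiv.Perm {a // f a = c}, ∀ a : {a // f a = c}, f (φ a.1) = c →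
      (g a).1 = φ a.1 := by
  let p : {a // f a = c} → Prop := fun a => f (φ a.1) = c
  let q : {a // f a = c} → Prop := fun a => f (φ.symm a.1) = c
  let e : {a // p a} ≃ {a // q a} :=
    { toFun := fun a => ⟨⟨φ a.1.1, a.2⟩, by
        show f (φ.symm (φ a.1.1)) = c
        rw [Equiv.symm_apply_apply]; exact a.1.2⟩
      invFun := fun a => ⟨⟨φ.symm a.1.1, a.2⟩, by
        show f (φ (φ.symm a.1.1)) = c
        rw [Equiv.apply_symm_apply]; exact a.1.2⟩
      left_inv := fun a => by ext; simp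
      right_inv := fun a => by ext; simp }
  refine ⟨e.extendSubtype, fun a ha => ?_⟩
  rw [Equiv.extendSubtype_apply_of_mem e a ha]
  rfl

theorem card_part {X : Type} [Fintype X] (f : X → ℕ) (x : X) :
    (Fintype.card {a : X // f a = f x}) = sz f x := by
  unfold sz
  rw [Fintype.card_subtype]

/-- a permutation preserves the size of preimages -/
theorem card_pre {X : Type} [Fintype X] (τ : Equiv.Perm X) (P : X → Prop) :
    (univ.filter fun a => P (τ a)).card = (univ.filter fun a => P a).card := by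
  refine Finset.card_bij (fun a _ => τ a) ?_ ?_ ?_
  · intro a ha; simpa using ha
  · intro a _ b _ hab; exact τ.injective hab
  · intro b hb
    exact ⟨τ.symm b, by simpa using hb, by simp⟩

/-- the subtype version of `ae_parts` -/
theorem ae_parts' {A : ℕ → Type} [∀ n, Fintype (A n)] {P : ∀ n, A n → Prop}
    (h : ∀ᶠ x in ae A, P x.1 x.2) (f : ∀ n, A n → ℕ) {η : ℝ} (hη : 0 < η) :
    ∀ᶠ x in ae A, ((univ.filter fun y : {a : A x.1 // f x.1 a = f x.1 x.2} =>
      ¬ P x.1 y.1).card : ℝ) ≤ η * Fintype.card {a : A x.1 // f x.1 a = f x.1 x.2} := by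
  filter_upwards [Lef.ae_parts h f hη] with x hx
  rw [card_part]
  refine le_trans ?_ hx
  refine Nat.cast_le.2 ?_
  rw [← Finset.card_map (Function.Embedding.subtype (fun a => f x.1 a = f x.1 x.2))]
  apply Finset.card_le_card
  intro a ha
  rw [Finset.mem_map] at ha
  obtain ⟨b, hb, rfl⟩ := ha
  simp only [Finset.mem_filter, Finset.mem_univ, true_and] at hb ⊢
  exact ⟨hb, b.2⟩

/-- transfer of the boundary -/
theorem bd_transfer' {ι : Type} [Fintype ι] {X : Type} [Fintype X] (τ : ι → Equiv.Perm X)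
    (f : X → ℕ) (c : ℕ) (P : X → Prop) (σ : ι → Equiv.Perm {a // f a = c})
    (hσ : ∀ i, ∀ a : {a // f a = c}, P a.1 → (σ i a).1 = τ i a.1)
    (W : Finset {a // f a = c}) :
    bd τ (W.map (Function.Embedding.subtype _)) ≤ bd σ W +
      Fintype.card ι * (univ.filter fun a : {a // f a = c} => ¬ P a.1).card := by
  unfold bd
  have : ∀ i ∈ (univ : Finset ι), ((W.map (Function.Embedding.subtype _)).filter fun x =>
      τ i x ∉ W.map (Function.Embedding.subtype _)).card ≤
      (W.filter fun x => σ i x ∉ W).card +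
        (univ.filter fun a : {a // f a = c} => ¬ P a.1).card := by
    intro i _
    have hsub : ((W.map (Function.Embedding.subtype _)).filter fun x =>
      τ i x ∉ W.map (Function.Embedding.subtype _)) ⊆
      ((W.filter fun x => σ i x ∉ W) ∪
        (univ.filter fun a : {a // f a = c} => ¬ P a.1)).map (Function.Embedding.subtype _) := by
      intro x hx
      rw [Finset.mem_filter] at hx
      obtain ⟨hx1, hx2⟩ := hx
      rw [Finset.mem_map] at hx1
      obtain ⟨a, ha, rfl⟩ := hx1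
      rw [Finset.mem_map]
      refine ⟨a, ?_, rfl⟩
      rw [Finset.mem_union]
      by_cases haE : P a.1
      · left
        rw [Finset.mem_filter]
        refine ⟨ha, fun hW => hx2 ?_⟩
        rw [Finset.mem_map]
        exact ⟨σ i a, hW, hσ i a haE⟩
      · right; simpa using haE
    refine (Finset.card_le_card hsub).trans ?_
    rw [Finset.card_map]
    exact Finset.card_union_le _ _
  refine (Finset.sum_le_sum this).trans ?_
  rw [Finset.sum_add_distrib, Finset.sum_const, Finset.card_univ, smul_eq_mul]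
  refine le_of_eq (congrArg₂ _ (Finset.sum_congr rfl fun i _ => ?_) rfl)
  refine congrArg _ (Finset.ext fun a => ?_)
  simp only [Finset.mem_filter]

/-- the bad set of a word on a part -/
abbrev Bd {T : Type} [Group T] {k : ℕ} (γ : FreeGroup (Fin k) →* T) {X : Type} [Fintype X]
    (φ : T → Equiv.Perm X) (f : X → ℕ) (c : ℕ) (σ : Fin k → Equiv.Perm {a // f a = c})
    (w : FreeGroup (Fin k)) : ℕ :=
  (univ.filter fun y : {a // f a = c} => (wd σ w y).1 ≠ φ (γ w) y.1).card

theorem bd_mul {T : Type} [Group T] {k : ℕ} (γ : FreeGroup (Fin k) →* T) {X : Type} [Fintype X]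
    (φ : T → Equiv.Perm X) (f : X → ℕ) (c : ℕ) (σ : Fin k → Equiv.Perm {a // f a = c})
    (w w' : FreeGroup (Fin k)) :
    Bd γ φ f c σ (w * w') ≤ Bd γ φ f c σ w + Bd γ φ f c σ w' +
      (univ.filter fun y : {a // f a = c} =>
        ¬ φ (γ w * γ w') y.1 = φ (γ w) (φ (γ w') y.1)).card := by
  have h1 : Bd γ φ f c σ w = (univ.filter fun y : {a // f a = c} =>
      (wd σ w (wd σ w' y)).1 ≠ φ (γ w) (wd σ w' y).1).card := by
    convert (card_pre (wd σ w') (fun y => (wd σ w y).1 ≠ φ (γ w) y.1)).symm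
  rw [h1]
  have hsub : (univ.filter fun y : {a // f a = c} =>
      (wd σ (w * w') y).1 ≠ φ (γ (w * w')) y.1) ⊆
      ((univ.filter fun y : {a // f a = c} =>
        (wd σ w (wd σ w' y)).1 ≠ φ (γ w) (wd σ w' y).1) ∪
      (univ.filter fun y : {a // f a = c} => (wd σ w' y).1 ≠ φ (γ w') y.1)) ∪
      (univ.filter fun y : {a // f a = c} =>
        ¬ φ (γ w * γ w') y.1 = φ (γ w) (φ (γ w') y.1)) := by
    intro y hy
    simp only [Finset.mem_filter, Finset.mem_univ, true_and, Finset.mem_union] at hy ⊢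
    by_contra hcon
    push Not at hcon
    obtain ⟨⟨h1, h2⟩, h3⟩ := hcon
    apply hy
    have e1 : wd σ (w * w') y = wd σ w (wd σ w' y) := by
      show (FreeGroup.lift σ (w * w')) y = _
      rw [map_mul]; rfl
    rw [e1, h1, h2, map_mul, h3]
  refine (Finset.card_le_card hsub).trans ((Finset.card_union_le _ _).trans ?_)
  exact Nat.add_le_add_right (Finset.card_union_le _ _) _

theorem bd_inv {T : Type} [Group T] {k : ℕ} (γ : FreeGroup (Fin k) →* T) {X : Type} [Fintype X]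
    (φ : T → Equiv.Perm X) (f : X → ℕ) (c : ℕ) (σ : Fin k → Equiv.Perm {a // f a = c})
    (w : FreeGroup (Fin k)) :
    Bd γ φ f c σ w⁻¹ ≤ Bd γ φ f c σ w +
      (univ.filter fun y : {a // f a = c} =>
        ¬ φ ((γ w)⁻¹) (φ (γ w) y.1) = y.1).card := by
  have h1 : Bd γ φ f c σ w⁻¹ = (univ.filter fun y : {a // f a = c} =>
      (wd σ w⁻¹ (wd σ w y)).1 ≠ φ (γ w⁻¹) (wd σ w y).1).card := by
    convert (card_pre (wd σ w) (fun y => (wd σ w⁻¹ y).1 ≠ φ (γ w⁻¹) y.1)).symm
  rw [h1]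
  have hsub : (univ.filter fun y : {a // f a = c} =>
      (wd σ w⁻¹ (wd σ w y)).1 ≠ φ (γ w⁻¹) (wd σ w y).1) ⊆
      (univ.filter fun y : {a // f a = c} => (wd σ w y).1 ≠ φ (γ w) y.1) ∪
      (univ.filter fun y : {a // f a = c} =>
        ¬ φ ((γ w)⁻¹) (φ (γ w) y.1) = y.1) := by
    intro y hy
    simp only [Finset.mem_filter, Finset.mem_univ, true_and, Finset.mem_union] at hy ⊢
    by_contra hcon
    push Not at hcon
    obtain ⟨h2, h3⟩ := hcon
    apply hy
    have e1 : wd σ w⁻¹ (wd σ w y) = y := by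
      show (FreeGroup.lift σ w⁻¹) ((FreeGroup.lift σ w) y) = y
      rw [map_inv]; exact Equiv.symm_apply_apply _ _
    rw [e1, h2, map_inv, h3]
  exact (Finset.card_le_card hsub).trans (Finset.card_union_le _ _)

section Gd
variable {T : Type} [Group T] {k : ℕ} (γ : FreeGroup (Fin k) →* T)
  {A : ℕ → Type} [∀ n, Fintype (A n)] (Φ : Approx T A) (f : ∀ n, A n → ℕ)
  (σ : ∀ n c, Fin k → Equiv.Perm {a : A n // f n a = c})

/-- the word `w` is good on almost every part -/
def Gd (w : FreeGroup (Fin k)) : Prop := ∀ κ : ℝ, 0 < κ → ∀ᶠ x in ae A,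
  (Bd γ (Φ.φ x.1) (f x.1) (f x.1 x.2) (σ x.1 (f x.1 x.2)) w : ℝ) ≤
    κ * Fintype.card {a : A x.1 // f x.1 a = f x.1 x.2}

theorem gd_one : Gd γ Φ f σ 1 := by
  intro κ hκ
  filter_upwards [ae_parts' (P := fun n a => Φ.φ n 1 a = a) (Lef.ae_one Φ) f hκ] with x hx
  refine le_trans (Nat.cast_le.2 (Finset.card_le_card ?_)) hx
  intro y hy
  rw [Finset.mem_filter] at hy ⊢
  refine ⟨Finset.mem_univ _, fun h => hy.2 ?_⟩
  rw [map_one γ, h]
  show ((FreeGroup.lift (σ x.1 (f x.1 x.2)) 1) y).1 = y.1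
  rw [map_one]
  rfl

theorem gd_of {P : ∀ n, A n → Prop} (hP : ∀ᶠ x in ae A, P x.1 x.2)
    (hσP : ∀ n c i, ∀ a : {a // f n a = c}, P n a.1 →
      (σ n c i a).1 = Φ.φ n (γ (FreeGroup.of i)) a.1) (i : Fin k) :
    Gd γ Φ f σ (FreeGroup.of i) := by
  intro κ hκ
  filter_upwards [ae_parts' hP f hκ] with x hx
  refine le_trans (Nat.cast_le.2 (Finset.card_le_card ?_)) hx
  intro y hy
  rw [Finset.mem_filter] at hy ⊢
  refine ⟨Finset.mem_univ _, fun hPy => hy.2 ?_⟩
  show (FreeGroup.lift (σ x.1 (f x.1 x.2)) (FreeGroup.of i) y).1 = _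
  rw [FreeGroup.lift_apply_of]
  exact hσP x.1 (f x.1 x.2) i y hPy

theorem gd_inv {w : FreeGroup (Fin k)} (ih : Gd γ Φ f σ w) : Gd γ Φ f σ w⁻¹ := by
  intro κ hκ
  have hinv : ∀ᶠ x in ae A, Φ.φ x.1 (γ w)⁻¹ (Φ.φ x.1 (γ w) x.2) = x.2 := by
    filter_upwards [Φ.mul (γ w)⁻¹ (γ w), Lef.ae_one Φ] with x h1 h2
    rw [← h1, inv_mul_cancel, h2]
  filter_upwards [ih (κ / 2) (half_pos hκ), ae_parts' (P := fun n a =>
    Φ.φ n (γ w)⁻¹ (Φ.φ n (γ w) a) = a) hinv f (half_pos hκ)] with x h1 h2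
  have h3 := (Nat.cast_le (α := ℝ)).2 (bd_inv γ (Φ.φ x.1) (f x.1) (f x.1 x.2)
    (σ x.1 (f x.1 x.2)) w)
  rw [Nat.cast_add] at h3
  linarith

theorem gd_mul {w w' : FreeGroup (Fin k)} (ih : Gd γ Φ f σ w) (ih' : Gd γ Φ f σ w') :
    Gd γ Φ f σ (w * w') := by
  intro κ hκ
  have hm := Φ.mul (γ w) (γ w')
  have hκ3 : 0 < κ / 3 := by positivity
  filter_upwards [ih (κ / 3) hκ3, ih' (κ / 3) hκ3,
    ae_parts' (P := fun n a => Φ.φ n (γ w * γ w') a = Φ.φ n (γ w) (Φ.φ n (γ w') a))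
      hm f hκ3] with x h1 h2 h3
  have h4 := (Nat.cast_le (α := ℝ)).2 (bd_mul γ (Φ.φ x.1) (f x.1) (f x.1 x.2)
    (σ x.1 (f x.1 x.2)) w w')
  rw [Nat.cast_add, Nat.cast_add] at h4
  linarith

theorem gd_all {P : ∀ n, A n → Prop} (hP : ∀ᶠ x in ae A, P x.1 x.2)
    (hσP : ∀ n c i, ∀ a : {a // f n a = c}, P n a.1 →
      (σ n c i a).1 = Φ.φ n (γ (FreeGroup.of i)) a.1) (w : FreeGroup (Fin k)) :
    Gd γ Φ f σ w :=
  FreeGroup.induction_on (C := Gd γ Φ f σ) w (gd_one γ Φ f σ) (gd_of γ Φ f σ hP hσP)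
    (fun _ h => gd_inv γ Φ f σ h) (fun _ _ h h' => gd_mul γ Φ f σ h h')

end Gd

theorem main : B9P := by
  intro T _ k γ A _ _ Φ hσ f hfs hf
  have herg := fun η (hη : 0 < η) (hη' : η < 1 / 2) => ergodic_parts hσ hf hη hη'
  choose! ε hεpos hεerg using herg
  let e : ℝ → ℝ := fun η => if 0 < η ∧ η < 1 / 2 then ε η / 2 else 1
  have he : ∀ η, 0 < η → 0 < e η := by
    intro η hη
    by_cases h2 : η < 1 / 2
    · have : e η = ε η / 2 := if_pos ⟨hη, h2⟩
      rw [this]
      exact half_pos (hεpos η hη h2)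
    · have : e η = 1 := if_neg (fun h => h2 h.2)
      rw [this]
      exact one_pos
  have he2 : ∀ η, 0 < η → η < 1 / 2 → 2 * e η = ε η := by
    intro η hη h2
    have : e η = ε η / 2 := if_pos ⟨hη, h2⟩
    rw [this]; ring
  choose σ hσe using fun n c i => exists_ext' (Φ.φ n (γ (FreeGroup.of i))) (f n) c
  -- the good event
  have hP0 : ∀ᶠ x in ae A, ∀ i : Fin k,
      f x.1 (Φ.φ x.1 (γ (FreeGroup.of i)) x.2) = f x.1 x.2 :=
    Filter.eventually_all.2 hfs
  obtain ⟨P, hPdef⟩ : ∃ P : ∀ n, A n → Prop, ∀ n a, P n a ↔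
    ∀ i : Fin k, f n (Φ.φ n (γ (FreeGroup.of i)) a) = f n a := ⟨_, fun _ _ => Iff.rfl⟩
  have hP : ∀ᶠ x in ae A, P x.1 x.2 := by
    filter_upwards [hP0] with x hx
    exact (hPdef _ _).2 hx
  have hσP : ∀ n c i, ∀ a : {a // f n a = c}, P n a.1 →
      (σ n c i a).1 = Φ.φ n (γ (FreeGroup.of i)) a.1 := by
    intro n c i a ha
    exact hσe n c i a (((hPdef _ _).1 ha i).trans a.2)
  refine ⟨σ, e, he, ?_, ?_⟩
  · intro η hη hη'
    have hN : (0 : ℝ) < (k : ℝ) + 1 := by positivity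
    have hβ' : 0 < e η / ((k : ℝ) + 1) := div_pos (he η hη) hN
    filter_upwards [ae_parts' hP f hβ', hεerg η hη hη'] with x hx1 hx2
    intro W hW
    have hbt := bd_transfer' (fun i => Φ.φ x.1 (γ (FreeGroup.of i))) (f x.1) (f x.1 x.2)
      (P x.1) (σ x.1 (f x.1 x.2)) (hσP x.1 (f x.1 x.2)) W
    have hbt' : (bd (fun i => Φ.φ x.1 (γ (FreeGroup.of i)))
        (W.map (Function.Embedding.subtype _)) : ℝ) ≤
      (bd (σ x.1 (f x.1 x.2)) W : ℝ) + (k : ℝ) *
        ((univ.filter fun a : {a // f x.1 a = f x.1 x.2} => ¬ P x.1 a.1).card : ℝ) := by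
      have := (Nat.cast_le (α := ℝ)).2 hbt
      rw [Fintype.card_fin] at this
      push_cast at this
      convert this using 2
    have hVnn : (0 : ℝ) ≤ Fintype.card {a // f x.1 a = f x.1 x.2} := Nat.cast_nonneg _
    have := hx2 (W.map (Function.Embedding.subtype _)) (by
      intro y hy
      rw [Finset.mem_map] at hy
      obtain ⟨b, _, rfl⟩ := hy
      exact b.2) (by
      refine hbt'.trans ?_
      rw [← he2 η hη hη', ← card_part]
      have h1 : (k : ℝ) *
        ((univ.filter fun a : {a // f x.1 a = f x.1 x.2} => ¬ P x.1 a.1).card : ℝ) ≤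
          (k : ℝ) * (e η / ((k : ℝ) + 1) * Fintype.card {a // f x.1 a = f x.1 x.2}) :=
        mul_le_mul_of_nonneg_left hx1 (Nat.cast_nonneg _)
      have h2 : (k : ℝ) * (e η / ((k : ℝ) + 1)) ≤ e η := by
        rw [← mul_div_assoc, div_le_iff₀ hN]
        have := he η hη
        nlinarith
      have h3 : (k : ℝ) * (e η / ((k : ℝ) + 1) * Fintype.card {a // f x.1 a = f x.1 x.2}) ≤
          e η * Fintype.card {a // f x.1 a = f x.1 x.2} := by
        rw [← mul_assoc]
        exact mul_le_mul_of_nonneg_right h2 hVnn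
      linarith)
    rw [Finset.card_map, ← card_part] at this
    exact this
  · intro w
    exact gd_all γ Φ f σ hP hσP w

end

end Pool.Agent.helper987_SE.B9
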