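import Pool.Agent.helper987_SE.Stm

/-!
# Part C1: the spectral measure of two commuting unitaries
-/

set_option autoImplicit false

open MeasureTheory Filter Topology Finset
open scoped NNReal ENNReal

namespace Pool.Agent.helper987_SE.C1

open Pool.Agent.helper987_SE

/-! ### monomials on the torus -/

/-- the monomials -/
noncomputable def chi (a b : ℤ) : C(Tor, ℂ) :=
  ⟨fun z => fourier a z.1 * fourier b z.2,
    ((fourier a).continuous.comp continuous_fst).mul
      ((fourier b).continuous.comp continuous_snd)⟩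

theorem chi_apply (a b : ℤ) (z : Tor) : chi a b z = fourier a z.1 * fourier b z.2 := rfl

theorem chi_mul (a b c d : ℤ) (z : Tor) : chi a b z * chi c d z = chi (a + c) (b + d) z := by
  rw [chi_apply, chi_apply, chi_apply, fourier_add, fourier_add]
  ring

theorem chi_zero (z : Tor) : chi 0 0 z = 1 := by
  rw [chi_apply, fourier_zero, fourier_zero, mul_one]

theorem chi_conj (a b : ℤ) (z : Tor) : (starRingEnd ℂ) (chi a b z) = chi (-a) (-b) z := by
  rw [chi_apply, chi_apply, fourier_neg, fourier_neg, map_mul]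

/-- Haar measure on the torus -/
noncomputable def lam : Measure Tor :=
  (AddCircle.haarAddCircle (T := (1 : ℝ))).prod (AddCircle.haarAddCircle (T := (1 : ℝ)))

instance : IsProbabilityMeasure lam := by
  unfold lam
  infer_instance

theorem int_fourier (n : ℤ) :
    ∫ x : UnitAddCircle, (fourier n x : ℂ) ∂(AddCircle.haarAddCircle (T := (1 : ℝ))) =
      if n = 0 then 1 else 0 := by
  by_cases h : n = 0
  · subst h
    rw [if_pos rfl]
    simp
  · rw [if_neg h]
    exact integral_eq_zero_of_add_right_eq_neg (μ := AddCircle.haarAddCircle)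
      (fourier_add_half_inv_index h one_pos)

theorem int_chi (a b : ℤ) : ∫ z, chi a b z ∂lam = if a = 0 ∧ b = 0 then 1 else 0 := by
  have h : ∫ z, chi a b z ∂lam =
      (∫ x : UnitAddCircle, (fourier a x : ℂ) ∂(AddCircle.haarAddCircle (T := (1 : ℝ)))) *
      ∫ x : UnitAddCircle, (fourier b x : ℂ) ∂(AddCircle.haarAddCircle (T := (1 : ℝ))) :=
    integral_prod_mul (fun x : UnitAddCircle => (fourier a x : ℂ))
      (fun x : UnitAddCircle => (fourier b x : ℂ))
  rw [h, int_fourier, int_fourier]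
  by_cases ha : a = 0 <;> by_cases hb : b = 0 <;> simp [ha, hb]

theorem integrable_cont (F : C(Tor, ℂ)) : Integrable (fun z => F z) lam := by
  have := (BoundedContinuousFunction.mkOfCompact F).integrable lam
  exact this

/-! ### counting -/

/-- the index set -/
def SN (N : ℕ) : Finset (ℕ × ℕ) := range N ×ˢ range N

/-- number of pairs of indices with a given difference -/
noncomputable def KN (N : ℕ) (s t : ℤ) : ℕ :=
  ((SN N).filter fun p => ∃ q ∈ SN N, (q.1 : ℤ) = p.1 + s ∧ (q.2 : ℤ) = p.2 + t).card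

theorem KN_le (N : ℕ) (s t : ℤ) : KN N s t ≤ N * N := by
  unfold KN SN
  refine (card_filter_le _ _).trans ?_
  rw [card_product, card_range]

theorem KN_ge (N : ℕ) (s t : ℤ) : N * N ≤ KN N s t + (s.natAbs + t.natAbs) * N := by
  have h1 : (SN N).card = N * N := by
    unfold SN
    rw [card_product, card_range]
  have h2 := card_filter_add_card_filter_not (s := SN N)
    (fun p => ∃ q ∈ SN N, (q.1 : ℤ) = p.1 + s ∧ (q.2 : ℤ) = p.2 + t)
  have h3 : ((SN N).filter fun p => ¬ ∃ q ∈ SN N, (q.1 : ℤ) = p.1 + s ∧ (q.2 : ℤ) = p.2 + t).card ≤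
      (s.natAbs + t.natAbs) * N := by
    have hbad : ∀ u : ℤ, ((range N).filter fun a : ℕ => ¬ (0 ≤ (a : ℤ) + u ∧ (a : ℤ) + u < N)).card ≤
        u.natAbs := by
      intro u
      by_cases hu : 0 ≤ u
      · have : ((range N).filter fun a : ℕ => ¬ (0 ≤ (a : ℤ) + u ∧ (a : ℤ) + u < N)) ⊆
            Ico (N - u.natAbs) N := by
          intro a ha
          rw [mem_filter, mem_range] at ha
          rw [mem_Ico]
          omega
        refine (card_le_card this).trans ?_
        rw [Nat.card_Ico]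
        omega
      · have : ((range N).filter fun a : ℕ => ¬ (0 ≤ (a : ℤ) + u ∧ (a : ℤ) + u < N)) ⊆
            range u.natAbs := by
          intro a ha
          rw [mem_filter, mem_range] at ha
          rw [mem_range]
          omega
        refine (card_le_card this).trans ?_
        rw [card_range]
    have hsub : ((SN N).filter fun p => ¬ ∃ q ∈ SN N, (q.1 : ℤ) = p.1 + s ∧ (q.2 : ℤ) = p.2 + t) ⊆
        (((range N).filter fun a : ℕ => ¬ (0 ≤ (a : ℤ) + s ∧ (a : ℤ) + s < N)) ×ˢ range N) ∪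
        (range N ×ˢ ((range N).filter fun a : ℕ => ¬ (0 ≤ (a : ℤ) + t ∧ (a : ℤ) + t < N))) := by
      intro p hp
      unfold SN at hp
      rw [mem_filter, mem_product, mem_range, mem_range] at hp
      rw [mem_union, mem_product, mem_product, mem_filter, mem_filter, mem_range, mem_range]
      by_contra hcon
      apply hp.2
      refine ⟨(((p.1 : ℤ) + s).toNat, ((p.2 : ℤ) + t).toNat), ?_, ?_, ?_⟩
      · rw [mem_product, mem_range, mem_range]
        constructor
        · simp only
          omega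
        · simp only
          omega
      · simp only
        omega
      · simp only
        omega
    refine (card_le_card hsub).trans ((card_union_le _ _).trans ?_)
    rw [card_product, card_product, card_range]
    have e1 := hbad s
    have e2 := hbad t
    nlinarith
  rw [h1] at h2
  unfold KN
  omega

theorem KN_tendsto (s t : ℤ) :
    Tendsto (fun N : ℕ => (KN N s t : ℝ) / ((N : ℝ) * N)) atTop (𝓝 1) := by
  have h1 : Tendsto (fun N : ℕ => 1 - ((s.natAbs + t.natAbs : ℕ) : ℝ) / (N : ℝ)) atTop (𝓝 1) := by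
    have := (tendsto_const_div_atTop_nhds_zero_nat ((s.natAbs + t.natAbs : ℕ) : ℝ)).const_sub 1
    rwa [sub_zero] at this
  refine tendsto_of_tendsto_of_tendsto_of_le_of_le' h1 tendsto_const_nhds ?_ ?_
  · filter_upwards [eventually_gt_atTop 0] with N hN
    have hN' : (0 : ℝ) < N := by exact_mod_cast hN
    have h2 : ((N * N : ℕ) : ℝ) ≤ ((KN N s t + (s.natAbs + t.natAbs) * N : ℕ) : ℝ) := by
      exact_mod_cast KN_ge N s t
    rw [le_div_iff₀ (by positivity)]
    have h3 : (1 - ((s.natAbs + t.natAbs : ℕ) : ℝ) / (N : ℝ)) * ((N : ℝ) * N) =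
        (N : ℝ) * N - ((s.natAbs + t.natAbs : ℕ) : ℝ) * N := by
      field_simp
    rw [h3]
    push_cast at h2 ⊢
    linarith
  · filter_upwards [eventually_gt_atTop 0] with N hN
    have hN' : (0 : ℝ) < N := by exact_mod_cast hN
    rw [div_le_one (by positivity)]
    exact_mod_cast KN_le N s t

/-! ### the densities -/

section spec

variable {H : Type} [NormedAddCommGroup H] [InnerProductSpace ℂ H] [CompleteSpace H]
  (U V : unitary (H →L[ℂ] H)) (v : H)

/-- the vectors `U^a V^b v` -/
noncomputable def vec (a b : ℤ) : H := ((U ^ a * V ^ b : unitary (H →L[ℂ] H)) : H →L[ℂ] H) v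

theorem inner_unitary (W : unitary (H →L[ℂ] H)) (x y : H) :
    inner ℂ ((W : H →L[ℂ] H) x) ((W : H →L[ℂ] H) y) = inner ℂ x y := by
  rw [← ContinuousLinearMap.adjoint_inner_right]
  have h : (star (W : H →L[ℂ] H)) * (W : H →L[ℂ] H) = 1 := Unitary.coe_star_mul_self W
  have h2 : (ContinuousLinearMap.adjoint (W : H →L[ℂ] H)) ((W : H →L[ℂ] H) y) = y := by
    have := congrArg (fun T : H →L[ℂ] H => T y) h
    exact this
  rw [h2]

theorem inner_vec (hUV : U * V = V * U) (a b c d : ℤ) :
    inner ℂ (vec U V v a b) (vec U V v c d) = inner ℂ v (vec U V v (c - a) (d - b)) := by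
  have hc : Commute U V := hUV
  have h1 : U ^ c * V ^ d = (U ^ a * V ^ b) * (U ^ (c - a) * V ^ (d - b)) := by
    have h2 : U ^ c = U ^ a * U ^ (c - a) := by rw [← zpow_add]; congr 1; ring
    have h3 : V ^ d = V ^ b * V ^ (d - b) := by rw [← zpow_add]; congr 1; ring
    have h4 : V ^ b * U ^ (c - a) = U ^ (c - a) * V ^ b := ((hc.zpow_zpow (c - a) b).eq).symm
    rw [h2, h3]
    calc U ^ a * U ^ (c - a) * (V ^ b * V ^ (d - b))
        = U ^ a * (U ^ (c - a) * V ^ b) * V ^ (d - b) := by group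
      _ = U ^ a * (V ^ b * U ^ (c - a)) * V ^ (d - b) := by rw [h4]
      _ = U ^ a * V ^ b * (U ^ (c - a) * V ^ (d - b)) := by group
  unfold vec
  rw [h1]
  exact inner_unitary (U ^ a * V ^ b) v _

/-- the trigonometric polynomials with vector coefficients -/
noncomputable def gN (N : ℕ) (z : Tor) : H :=
  ∑ p ∈ SN N, chi (-(p.1 : ℤ)) (-(p.2 : ℤ)) z • vec U V v p.1 p.2

theorem gN_cont (N : ℕ) : Continuous (gN U V v N) := by
  unfold gN
  refine continuous_finset_sum _ fun p _ => ?_
  exact (chi (-(p.1 : ℤ)) (-(p.2 : ℤ))).continuous.smul continuous_const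

theorem gN_sq (hUV : U * V = V * U) (N : ℕ) (z : Tor) :
    ((‖gN U V v N z‖ ^ 2 : ℝ) : ℂ) = ∑ p ∈ SN N, ∑ q ∈ SN N,
      chi (p.1 - q.1) (p.2 - q.2) z *
        inner ℂ v (vec U V v ((q.1 : ℤ) - p.1) ((q.2 : ℤ) - p.2)) := by
  have h1 : ((‖gN U V v N z‖ ^ 2 : ℝ) : ℂ) = inner ℂ (gN U V v N z) (gN U V v N z) := by
    rw [inner_self_eq_norm_sq_to_K]
    norm_cast
  rw [h1]
  unfold gN
  rw [sum_inner]
  refine sum_congr rfl fun p _ => ?_
  rw [inner_sum]
  refine sum_congr rfl fun q _ => ?_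
  rw [inner_smul_left, inner_smul_right, inner_vec U V v hUV, chi_conj, ← mul_assoc, chi_mul,
    neg_neg, neg_neg]
  rfl

/-- the density -/
noncomputable def fN (N : ℕ) (z : Tor) : ℝ≥0 := ‖gN U V v N z‖₊ ^ 2 / ((N : ℝ≥0) * N)

theorem fN_cont (N : ℕ) : Continuous (fN U V v N) := by
  unfold fN
  exact ((gN_cont U V v N).nnnorm.pow 2).div_const _

/-- the approximating measures -/
noncomputable def muN (N : ℕ) : Measure Tor := lam.withDensity fun z => (fN U V v N z : ℝ≥0∞)

theorem muN_int (hUV : U * V = V * U) (N : ℕ) (s t : ℤ) :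
    ∫ z, chi s t z ∂(muN U V v N) =
      (((KN N s t : ℝ) / ((N : ℝ) * N) : ℝ) : ℂ) * inner ℂ v (vec U V v s t) := by
  unfold muN
  rw [integral_withDensity_eq_integral_smul (fN_cont U V v N).measurable]
  have h1 : ∀ z, (fN U V v N z) • chi s t z = (((N : ℝ) * N)⁻¹ : ℂ) * ∑ p ∈ SN N, ∑ q ∈ SN N,
      (inner ℂ v (vec U V v ((q.1 : ℤ) - p.1) ((q.2 : ℤ) - p.2))) *
        chi (p.1 - q.1 + s) (p.2 - q.2 + t) z := by
    intro z
    have h2 : (fN U V v N z) • chi s t z = (((‖gN U V v N z‖ ^ 2 : ℝ) : ℂ) /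
        (((N : ℝ) * N : ℝ) : ℂ)) * chi s t z := by
      rw [NNReal.smul_def]
      rw [Complex.real_smul]
      congr 1
      unfold fN
      push_cast
      rfl
    rw [h2, gN_sq U V v hUV, div_mul_eq_mul_div, div_eq_mul_inv, mul_comm _ (((N : ℝ) * N : ℝ) : ℂ)⁻¹,
      sum_mul]
    push_cast
    congr 1
    refine sum_congr rfl fun p _ => ?_
    rw [sum_mul]
    refine sum_congr rfl fun q _ => ?_
    rw [← chi_mul]
    push_cast
    ring
  simp_rw [h1]
  rw [integral_const_mul, integral_finset_sum]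
  swap
  · intro p _
    refine integrable_finset_sum _ fun q _ => ?_
    exact (integrable_cont _).const_mul _
  have h3 : ∀ p ∈ SN N, ∫ z, ∑ q ∈ SN N,
      (inner ℂ v (vec U V v ((q.1 : ℤ) - p.1) ((q.2 : ℤ) - p.2))) *
        chi (p.1 - q.1 + s) (p.2 - q.2 + t) z ∂lam =
      if (∃ q ∈ SN N, (q.1 : ℤ) = p.1 + s ∧ (q.2 : ℤ) = p.2 + t) then
        inner ℂ v (vec U V v s t) else 0 := by
    intro p _
    rw [integral_finset_sum]
    swap
    · intro q _
      exact (integrable_cont _).const_mul _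
    have h4 : ∀ q ∈ SN N, ∫ z,
        (inner ℂ v (vec U V v ((q.1 : ℤ) - p.1) ((q.2 : ℤ) - p.2))) *
          chi (p.1 - q.1 + s) (p.2 - q.2 + t) z ∂lam =
        if ((q.1 : ℤ) = p.1 + s ∧ (q.2 : ℤ) = p.2 + t) then inner ℂ v (vec U V v s t) else 0 := by
      intro q _
      rw [integral_const_mul, int_chi]
      by_cases h5 : (q.1 : ℤ) = p.1 + s ∧ (q.2 : ℤ) = p.2 + t
      · rw [if_pos h5, if_pos (by omega), mul_one]
        have e1 : (q.1 : ℤ) - p.1 = s := by omega
        have e2 : (q.2 : ℤ) - p.2 = t := by omega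
        rw [e1, e2]
      · rw [if_neg h5, if_neg (by omega), mul_zero]
    rw [sum_congr rfl h4]
    by_cases h6 : ∃ q ∈ SN N, (q.1 : ℤ) = p.1 + s ∧ (q.2 : ℤ) = p.2 + t
    · rw [if_pos h6]
      obtain ⟨q, hq, hq2⟩ := h6
      rw [sum_eq_single q]
      · rw [if_pos hq2]
      · intro q' _ hne
        rw [if_neg]
        intro h7
        apply hne
        apply Prod.ext
        · have := h7.1
          have := hq2.1
          omega
        · have := h7.2
          have := hq2.2
          omega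
      · intro h
        exact absurd hq h
    · rw [if_neg h6]
      refine sum_eq_zero fun q hq => ?_
      rw [if_neg]
      intro h7
      exact h6 ⟨q, hq, h7⟩
  rw [sum_congr rfl h3, ← sum_filter, sum_const, nsmul_eq_mul]
  unfold KN
  push_cast
  rw [← mul_assoc]
  congr 1
  rw [div_eq_mul_inv, mul_comm]

theorem finite_muN (N : ℕ) : IsFiniteMeasure (muN U V v N) := by
  refine ⟨?_⟩
  unfold muN
  rw [withDensity_apply _ MeasurableSet.univ, Measure.restrict_univ]
  exact (BoundedContinuousFunction.mkOfCompact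
    (⟨fN U V v N, fN_cont U V v N⟩ : C(Tor, ℝ≥0))).lintegral_lt_top_of_nnreal lam

/-- the approximating measures as finite measures -/
noncomputable def muF (N : ℕ) : FiniteMeasure Tor := ⟨muN U V v N, finite_muN U V v N⟩

theorem vec_zero : vec U V v 0 0 = v := by
  unfold vec
  rw [zpow_zero, zpow_zero, one_mul]
  rfl

theorem mass_le (hUV : U * V = V * U) (N : ℕ) : (muF U V v N).mass ≤ ‖v‖₊ ^ 2 := by
  have h := muN_int U V v hUV N 0 0
  simp_rw [chi_zero] at h
  rw [integral_const, vec_zero, inner_self_eq_norm_sq_to_K, Complex.real_smul, mul_one] at h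
  have h2 : (muN U V v N).real Set.univ = (KN N 0 0 : ℝ) / ((N : ℝ) * N) * ‖v‖ ^ 2 := by
    have h3 : (((muN U V v N).real Set.univ : ℝ) : ℂ) =
        (((KN N 0 0 : ℝ) / ((N : ℝ) * N) * ‖v‖ ^ 2 : ℝ) : ℂ) := by
      rw [h]
      push_cast
      rfl
    exact_mod_cast h3
  have h4 : (KN N 0 0 : ℝ) / ((N : ℝ) * N) ≤ 1 := by
    apply div_le_one_of_le₀
    · exact_mod_cast KN_le N 0 0
    · positivity
  rw [← NNReal.coe_le_coe]
  have h5 : (((muF U V v N).mass : ℝ≥0) : ℝ) = (muN U V v N).real Set.univ := rfl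
  rw [h5, h2]
  push_cast
  nlinarith [sq_nonneg ‖v‖]

end spec

theorem main : C1P := by
  intro H _ _ _ U V hUV v
  have hcomp := isCompact_setOfPred_finiteMeasure_le_of_compactSpace Tor (‖v‖₊ ^ 2)
  let F : Ultrafilter ℕ := Ultrafilter.of atTop
  have hF : (F : Filter ℕ) ≤ atTop := Ultrafilter.of_le _
  obtain ⟨μ, hμ, hlim⟩ := hcomp.ultrafilter_le_nhds (F.map (muF U V v)) (by
    rw [le_principal_iff, Ultrafilter.coe_map, Filter.mem_map]
    exact Filter.univ_mem' fun k => mass_le U V v hUV k)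
  have htend : Tendsto (muF U V v) F (𝓝 μ) := hlim
  refine ⟨(μ : Measure Tor), inferInstance, fun a b => ?_⟩
  have h1 := (FiniteMeasure.tendsto_iff_forall_integral_rclike_tendsto ℂ).mp htend
    (BoundedContinuousFunction.mkOfCompact (chi a b))
  have h2 : ∀ N, ∫ z, (BoundedContinuousFunction.mkOfCompact (chi a b)) z
      ∂(muF U V v N : Measure Tor) =
      (((KN N a b : ℝ) / ((N : ℝ) * N) : ℝ) : ℂ) * inner ℂ v (vec U V v a b) :=
    fun N => muN_int U V v hUV N a b
  simp_rw [h2] at h1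
  have h3 : Tendsto (fun N : ℕ => (((KN N a b : ℝ) / ((N : ℝ) * N) : ℝ) : ℂ) *
      inner ℂ v (vec U V v a b)) F (𝓝 (((1 : ℝ) : ℂ) * inner ℂ v (vec U V v a b))) :=
    (((Complex.continuous_ofReal.tendsto _).comp (KN_tendsto a b)).mul_const _).mono_left hF
  have h4 := tendsto_nhds_unique h1 h3
  rw [Complex.ofReal_one, one_mul] at h4
  exact h4

end Pool.Agent.helper987_SE.C1
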