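import Pool.Agent.helper987_SE.Stm

set_option autoImplicit false

/-!
# Project SE (helper987), part C3: ping-pong on the torus
-/

open MeasureTheory Set

namespace Pool.Agent.helper987_SE.C3

/-- the representative in `(-1/2, 1/2]` -/
noncomputable def rp (x : UnitAddCircle) : ℝ :=
  (AddCircle.measurableEquivIoc 1 (-1 / 2) x : ℝ)

theorem rp_mem (x : UnitAddCircle) : -1 / 2 < rp x ∧ rp x ≤ 1 / 2 := by
  have h := (AddCircle.measurableEquivIoc 1 (-1 / 2) x).2
  refine ⟨h.1, h.2.trans (by norm_num)⟩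

theorem coe_rp (x : UnitAddCircle) : ((rp x : ℝ) : UnitAddCircle) = x :=
  AddCircle.coe_equivIoc (p := (1 : ℝ)) (a := -1 / 2) (y := x)

theorem rp_coe {t : ℝ} (h1 : -1 / 2 < t) (h2 : t ≤ 1 / 2) : rp (t : UnitAddCircle) = t := by
  have h := AddCircle.equivIoc_coe_of_mem (p := (1 : ℝ)) (a := -1 / 2) (y := t)
    ⟨h1, h2.trans (by norm_num)⟩
  exact h

theorem measurable_rp : Measurable rp :=
  measurable_subtype_coe.comp (AddCircle.measurableEquivIoc 1 (-1 / 2)).measurable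

theorem rp_add {x y : UnitAddCircle} (h1 : -1 / 2 < rp x + rp y) (h2 : rp x + rp y ≤ 1 / 2) :
    rp (x + y) = rp x + rp y := by
  have h := rp_coe h1 h2
  rwa [AddCircle.coe_add, coe_rp, coe_rp] at h

theorem rp_sub {x y : UnitAddCircle} (h1 : -1 / 2 < rp x - rp y) (h2 : rp x - rp y ≤ 1 / 2) :
    rp (x - y) = rp x - rp y := by
  have h := rp_coe h1 h2
  rwa [AddCircle.coe_sub, coe_rp, coe_rp] at h

theorem rp_zero : rp 0 = 0 := by
  have h := rp_coe (t := 0) (by norm_num) (by norm_num)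
  rwa [AddCircle.coe_zero] at h

theorem rp_eq_zero {x : UnitAddCircle} (h : rp x = 0) : x = 0 := by
  rw [← coe_rp x, h, AddCircle.coe_zero]

theorem fourier_big {x : UnitAddCircle} (h : 1 / 8 ≤ |rp x|) :
    (1 / 2 : ℝ) ≤ ‖(fourier 1 x : ℂ) - 1‖ ^ 2 := by
  obtain ⟨h1, h2⟩ := rp_mem x
  have e1 : (fourier 1 x : ℂ) = Complex.exp ((2 * Real.pi * rp x : ℝ) * Complex.I) := by
    conv_lhs => rw [← coe_rp x]
    rw [fourier_coe_apply]
    congr 1
    push_cast
    ring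
  have e2 : ‖(fourier 1 x : ℂ) - 1‖ ^ 2 = 2 - 2 * Real.cos (2 * Real.pi * rp x) := by
    rw [e1, ← Complex.normSq_eq_norm_sq, Complex.normSq_apply, Complex.sub_re, Complex.sub_im,
      Complex.exp_ofReal_mul_I_re, Complex.exp_ofReal_mul_I_im, Complex.one_re, Complex.one_im]
    have := Real.sin_sq_add_cos_sq (2 * Real.pi * rp x)
    nlinarith
  have e3 : Real.cos (2 * Real.pi * rp x) = Real.cos (2 * Real.pi * |rp x|) := by
    rcases abs_cases (rp x) with ⟨h, _⟩ | ⟨h, _⟩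
    · rw [h]
    · rw [h, mul_neg, Real.cos_neg]
  have hpi := Real.pi_pos
  have h3 : |rp x| ≤ 1 / 2 := abs_le.2 ⟨by linarith, h2⟩
  have e4 : Real.cos (2 * Real.pi * |rp x|) ≤ Real.cos (Real.pi / 4) := by
    apply Real.cos_le_cos_of_nonneg_of_le_pi
    · positivity
    · nlinarith
    · nlinarith
  rw [Real.cos_pi_div_four] at e4
  have h5 : √2 ≤ 3 / 2 := by
    rw [Real.sqrt_le_left (by norm_num)]
    norm_num
  rw [e2, e3]
  linarith

/-- Chebyshev -/
theorem far {m : Measure Tor} [IsProbabilityMeasure m] {η : ℝ} (f : Tor → UnitAddCircle)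
    (hf : Continuous f) (h : ∫ z : Tor, ‖(fourier 1 (f z) : ℂ) - 1‖ ^ 2 ∂m ≤ η ^ 2) :
    m.real {z | 1 / 8 ≤ |rp (f z)|} ≤ 2 * η ^ 2 := by
  have hc : Continuous fun z : Tor => ‖(fourier 1 (f z) : ℂ) - 1‖ ^ 2 :=
    ((((fourier 1).continuous.comp hf).sub continuous_const).norm).pow 2
  have hi : Integrable (fun z : Tor => ‖(fourier 1 (f z) : ℂ) - 1‖ ^ 2) m :=
    hc.integrable_of_hasCompactSupport (HasCompactSupport.of_compactSpace _)
  have h1 := mul_meas_ge_le_integral_of_nonneg (μ := m) (Filter.Eventually.of_forall fun z => by positivity)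
    hi (1 / 2)
  have h2 : m.real {z | 1 / 8 ≤ |rp (f z)|} ≤
      m.real {z | (1 / 2 : ℝ) ≤ ‖(fourier 1 (f z) : ℂ) - 1‖ ^ 2} :=
    measureReal_mono fun z hz => fourier_big hz
  linarith

theorem main : C3P := by
  intro m hm η hη hη1 hS h1 h2
  have hx := far (m := m) (fun z : Tor => z.1) continuous_fst h1
  have hy := far (m := m) (fun z : Tor => z.2) continuous_snd h2
  have hη2 : η ^ 2 ≤ η := by nlinarith
  set f : Tor → ℝ := fun z => rp z.1 with hf
  set g : Tor → ℝ := fun z => rp z.2 with hg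
  have fm : Measurable f := measurable_rp.comp measurable_fst
  have gm : Measurable g := measurable_rp.comp measurable_snd
  have fb : ∀ z, -1 / 2 < f z ∧ f z ≤ 1 / 2 := fun z => rp_mem z.1
  have gb : ∀ z, -1 / 2 < g z ∧ g z ≤ 1 / 2 := fun z => rp_mem z.2
  set B : Set Tor := {z | |f z| < 1 / 8 ∧ |g z| < 1 / 8} with hB
  have hBc : m.real Bᶜ ≤ 4 * η := by
    have h3 : Bᶜ ⊆ {z : Tor | 1 / 8 ≤ |rp z.1|} ∪ {z : Tor | 1 / 8 ≤ |rp z.2|} := by
      intro z hz
      by_contra h4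
      simp only [mem_union, mem_ofPred_eq, not_or, not_le] at h4
      exact hz h4
    have h4 := (measureReal_mono (μ := m) h3).trans (measureReal_union_le _ _)
    linarith
  set P : Set Tor := {z | z ∈ B ∧ 0 < f z * g z} with hP
  set N : Set Tor := {z | z ∈ B ∧ f z * g z < 0} with hN
  -- the maps
  have mF : Measurable fun z : Tor => ((z.1, z.2 + z.1) : Tor) := by fun_prop
  have mG : Measurable fun z : Tor => ((z.1 + z.2, z.2) : Tor) := by fun_prop
  have hF : ∀ E : Set Tor, MeasurableSet E →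
      m.real ((fun z : Tor => ((z.1, z.2 + z.1) : Tor)) ⁻¹' E) ≤ m.real E + 3 * η := by
    intro E hE
    have h3 := (hS _ (mF hE)).1
    have h4 : (fun z : Tor => ((z.1, z.2 - z.1) : Tor)) ⁻¹'
        ((fun z : Tor => ((z.1, z.2 + z.1) : Tor)) ⁻¹' E) = E := by
      ext z; simp
    rw [h4] at h3
    have := (abs_le.1 h3).1
    linarith
  have hG : ∀ E : Set Tor, MeasurableSet E →
      m.real ((fun z : Tor => ((z.1 + z.2, z.2) : Tor)) ⁻¹' E) ≤ m.real E + 3 * η := by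
    intro E hE
    have h3 := (hS _ (mG hE)).2
    have h4 : (fun z : Tor => ((z.1 - z.2, z.2) : Tor)) ⁻¹'
        ((fun z : Tor => ((z.1 + z.2, z.2) : Tor)) ⁻¹' E) = E := by
      ext z; simp
    rw [h4] at h3
    have := (abs_le.1 h3).1
    linarith
  have hF' : ∀ E : Set Tor, MeasurableSet E →
      m.real ((fun z : Tor => ((z.1, z.2 - z.1) : Tor)) ⁻¹' E) ≤ m.real E + 3 * η := by
    intro E hE
    have := (abs_le.1 (hS _ hE).1).2
    linarith
  have hG' : ∀ E : Set Tor, MeasurableSet E →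
      m.real ((fun z : Tor => ((z.1 - z.2, z.2) : Tor)) ⁻¹' E) ≤ m.real E + 3 * η := by
    intro E hE
    have := (abs_le.1 (hS _ hE).2).2
    linarith
  -- measurable sets
  have mP0 : MeasurableSet {z | 0 < f z * g z} := measurableSet_lt measurable_const (fm.mul gm)
  have mN0 : MeasurableSet {z | f z * g z < 0} := measurableSet_lt (fm.mul gm) measurable_const
  have mfg : MeasurableSet {z | |f z| < |g z|} := measurableSet_lt fm.abs gm.abs
  have mgf : MeasurableSet {z | |g z| < |f z|} := measurableSet_lt gm.abs fm.abs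
  -- values in `B`
  have key : ∀ z ∈ B, (f ((z.1, z.2 + z.1) : Tor) = f z ∧ g ((z.1, z.2 + z.1) : Tor) = g z + f z) ∧
      (f ((z.1 + z.2, z.2) : Tor) = f z + g z ∧ g ((z.1 + z.2, z.2) : Tor) = g z) ∧
      (f ((z.1, z.2 - z.1) : Tor) = f z ∧ g ((z.1, z.2 - z.1) : Tor) = g z - f z) ∧
      (f ((z.1 - z.2, z.2) : Tor) = f z - g z ∧ g ((z.1 - z.2, z.2) : Tor) = g z) := by
    rintro z ⟨b1, b2⟩
    obtain ⟨b3, b4⟩ := abs_lt.1 b1
    obtain ⟨b5, b6⟩ := abs_lt.1 b2
    simp only [hf, hg] at b3 b4 b5 b6 ⊢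
    refine ⟨⟨trivial, rp_add ?_ ?_⟩, ⟨rp_add ?_ ?_, trivial⟩, ⟨trivial, rp_sub ?_ ?_⟩,
      ⟨rp_sub ?_ ?_, trivial⟩⟩ <;> linarith
  -- `P`
  have hP0 : m.real {z | 0 < f z * g z} ≤ m.real P + 4 * η := by
    have h3 : {z | 0 < f z * g z} ⊆ P ∪ Bᶜ := by
      intro z hz
      by_cases hz2 : z ∈ B
      · exact Or.inl ⟨hz2, hz⟩
      · exact Or.inr hz2
    have h4 := (measureReal_mono (μ := m) h3).trans (measureReal_union_le _ _)
    linarith
  have hN0 : m.real {z | f z * g z < 0} ≤ m.real N + 4 * η := by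
    have h3 : {z | f z * g z < 0} ⊆ N ∪ Bᶜ := by
      intro z hz
      by_cases hz2 : z ∈ B
      · exact Or.inl ⟨hz2, hz⟩
      · exact Or.inr hz2
    have h4 := (measureReal_mono (μ := m) h3).trans (measureReal_union_le _ _)
    linarith
  have hPle : m.real P ≤ 10 * η := by
    have a1 : P ⊆ (fun z : Tor => ((z.1, z.2 + z.1) : Tor)) ⁻¹'
        ({z | 0 < f z * g z} ∩ {z | |f z| < |g z|}) := by
      rintro z ⟨hz, hz2⟩
      obtain ⟨⟨k1, k2⟩, -⟩ := key z hz
      simp only [mem_preimage, mem_inter_iff, mem_ofPred_eq]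
      rw [k1, k2]
      rcases pos_and_pos_or_neg_and_neg_of_mul_pos hz2 with ⟨p1, p2⟩ | ⟨p1, p2⟩
      · refine ⟨by positivity, ?_⟩
        rw [abs_of_pos p1, abs_of_pos (by linarith)]
        linarith
      · refine ⟨mul_pos_of_neg_of_neg p1 (by linarith), ?_⟩
        rw [abs_of_neg p1, abs_of_neg (by linarith)]
        linarith
    have a2 : P ⊆ (fun z : Tor => ((z.1 + z.2, z.2) : Tor)) ⁻¹'
        ({z | 0 < f z * g z} ∩ {z | |g z| < |f z|}) := by
      rintro z ⟨hz, hz2⟩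
      obtain ⟨-, ⟨k1, k2⟩, -⟩ := key z hz
      simp only [mem_preimage, mem_inter_iff, mem_ofPred_eq]
      rw [k1, k2]
      rcases pos_and_pos_or_neg_and_neg_of_mul_pos hz2 with ⟨p1, p2⟩ | ⟨p1, p2⟩
      · refine ⟨by positivity, ?_⟩
        rw [abs_of_pos p2, abs_of_pos (by linarith)]
        linarith
      · refine ⟨mul_pos_of_neg_of_neg (by linarith) p2, ?_⟩
        rw [abs_of_neg p2, abs_of_neg (by linarith)]
        linarith
    have a3 := (measureReal_mono (μ := m) a1).trans (hF _ (mP0.inter mfg))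
    have a4 := (measureReal_mono (μ := m) a2).trans (hG _ (mP0.inter mgf))
    have a5 : Disjoint ({z | 0 < f z * g z} ∩ {z | |f z| < |g z|})
        ({z | 0 < f z * g z} ∩ {z | |g z| < |f z|}) := by
      rw [Set.disjoint_left]
      rintro z ⟨-, b1⟩ ⟨-, b2⟩
      rw [mem_ofPred_eq] at b1 b2
      exact lt_asymm b1 b2
    have a6 := measureReal_union (μ := m) a5 (mP0.inter mgf)
    have a7 : m.real (({z | 0 < f z * g z} ∩ {z | |f z| < |g z|}) ∪
        ({z | 0 < f z * g z} ∩ {z | |g z| < |f z|})) ≤ m.real {z | 0 < f z * g z} :=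
      measureReal_mono (union_subset inter_subset_left inter_subset_left)
    linarith
  have hNle : m.real N ≤ 10 * η := by
    have a1 : N ⊆ (fun z : Tor => ((z.1, z.2 - z.1) : Tor)) ⁻¹'
        ({z | f z * g z < 0} ∩ {z | |f z| < |g z|}) := by
      rintro z ⟨hz, hz2⟩
      obtain ⟨-, -, ⟨k1, k2⟩, -⟩ := key z hz
      simp only [mem_preimage, mem_inter_iff, mem_ofPred_eq]
      rw [k1, k2]
      rcases mul_neg_iff.1 hz2 with ⟨p1, p2⟩ | ⟨p1, p2⟩
      · refine ⟨mul_neg_of_pos_of_neg p1 (by linarith), ?_⟩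
        rw [abs_of_pos p1, abs_of_neg (by linarith)]
        linarith
      · refine ⟨mul_neg_of_neg_of_pos p1 (by linarith), ?_⟩
        rw [abs_of_neg p1, abs_of_pos (by linarith)]
        linarith
    have a2 : N ⊆ (fun z : Tor => ((z.1 - z.2, z.2) : Tor)) ⁻¹'
        ({z | f z * g z < 0} ∩ {z | |g z| < |f z|}) := by
      rintro z ⟨hz, hz2⟩
      obtain ⟨-, -, -, ⟨k1, k2⟩⟩ := key z hz
      simp only [mem_preimage, mem_inter_iff, mem_ofPred_eq]
      rw [k1, k2]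
      rcases mul_neg_iff.1 hz2 with ⟨p1, p2⟩ | ⟨p1, p2⟩
      · refine ⟨mul_neg_of_pos_of_neg (by linarith) p2, ?_⟩
        rw [abs_of_neg p2, abs_of_pos (by linarith)]
        linarith
      · refine ⟨mul_neg_of_neg_of_pos (by linarith) p2, ?_⟩
        rw [abs_of_pos p2, abs_of_neg (by linarith)]
        linarith
    have a3 := (measureReal_mono (μ := m) a1).trans (hF' _ (mN0.inter mfg))
    have a4 := (measureReal_mono (μ := m) a2).trans (hG' _ (mN0.inter mgf))
    have a5 : Disjoint ({z | f z * g z < 0} ∩ {z | |f z| < |g z|})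
        ({z | f z * g z < 0} ∩ {z | |g z| < |f z|}) := by
      rw [Set.disjoint_left]
      rintro z ⟨-, b1⟩ ⟨-, b2⟩
      rw [mem_ofPred_eq] at b1 b2
      exact lt_asymm b1 b2
    have a6 := measureReal_union (μ := m) a5 (mN0.inter mgf)
    have a7 : m.real (({z | f z * g z < 0} ∩ {z | |f z| < |g z|}) ∪
        ({z | f z * g z < 0} ∩ {z | |g z| < |f z|})) ≤ m.real {z | f z * g z < 0} :=
      measureReal_mono (union_subset inter_subset_left inter_subset_left)
    linarith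
  -- the axes
  have hA1 : m.real {z | z ∈ B ∧ f z ≠ 0 ∧ g z = 0} ≤ 17 * η := by
    have a1 : {z | z ∈ B ∧ f z ≠ 0 ∧ g z = 0} ⊆ (fun z : Tor => ((z.1, z.2 + z.1) : Tor)) ⁻¹'
        {z | 0 < f z * g z} := by
      rintro z ⟨hz, hz2, hz3⟩
      obtain ⟨⟨k1, k2⟩, -⟩ := key z hz
      simp only [mem_preimage, mem_ofPred_eq]
      rw [k1, k2, hz3, zero_add]
      exact mul_self_pos.2 hz2
    have a3 := (measureReal_mono (μ := m) a1).trans (hF _ mP0)
    linarith
  have hA2 : m.real {z | z ∈ B ∧ f z = 0 ∧ g z ≠ 0} ≤ 17 * η := by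
    have a1 : {z | z ∈ B ∧ f z = 0 ∧ g z ≠ 0} ⊆ (fun z : Tor => ((z.1 + z.2, z.2) : Tor)) ⁻¹'
        {z | 0 < f z * g z} := by
      rintro z ⟨hz, hz2, hz3⟩
      obtain ⟨-, ⟨k1, k2⟩, -⟩ := key z hz
      simp only [mem_preimage, mem_ofPred_eq]
      rw [k1, k2, hz2, zero_add]
      exact mul_self_pos.2 hz3
    have a3 := (measureReal_mono (μ := m) a1).trans (hG _ mP0)
    linarith
  have hcov : {z : Tor | z ≠ 0} ⊆ Bᶜ ∪ (P ∪ (N ∪ ({z | z ∈ B ∧ f z ≠ 0 ∧ g z = 0} ∪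
      {z | z ∈ B ∧ f z = 0 ∧ g z ≠ 0}))) := by
    intro z hz
    by_cases hzB : z ∈ B
    · right
      rcases lt_trichotomy (f z * g z) 0 with h3 | h3 | h3
      · exact Or.inr (Or.inl ⟨hzB, h3⟩)
      · right; right
        rcases mul_eq_zero.1 h3 with h4 | h4
        · right
          refine ⟨hzB, h4, fun h5 => hz ?_⟩
          exact Prod.ext (rp_eq_zero h4) (rp_eq_zero h5)
        · left
          refine ⟨hzB, fun h5 => hz ?_, h4⟩
          exact Prod.ext (rp_eq_zero h5) (rp_eq_zero h4)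
      · exact Or.inl ⟨hzB, h3⟩
    · exact Or.inl hzB
  have c1 := measureReal_mono (μ := m) hcov
  have c2 := measureReal_union_le (μ := m) Bᶜ (P ∪ (N ∪ ({z | z ∈ B ∧ f z ≠ 0 ∧ g z = 0} ∪
      {z | z ∈ B ∧ f z = 0 ∧ g z ≠ 0})))
  have c3 := measureReal_union_le (μ := m) P (N ∪ ({z | z ∈ B ∧ f z ≠ 0 ∧ g z = 0} ∪
      {z | z ∈ B ∧ f z = 0 ∧ g z ≠ 0}))
  have c4 := measureReal_union_le (μ := m) N ({z | z ∈ B ∧ f z ≠ 0 ∧ g z = 0} ∪
      {z | z ∈ B ∧ f z = 0 ∧ g z ≠ 0})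
  have c5 := measureReal_union_le (μ := m) {z | z ∈ B ∧ f z ≠ 0 ∧ g z = 0}
      {z | z ∈ B ∧ f z = 0 ∧ g z ≠ 0}
  linarith

end Pool.Agent.helper987_SE.C3
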