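import Pool.Agent.helper987_SE.Stm

set_option autoImplicit false

/-!
# Project SE (helper987), part C4: relative property (T)
-/

open MeasureTheory Set
open scoped NNReal ENNReal

namespace Pool.Agent.helper987_SE.C4

/-- the characters of the torus -/
noncomputable def ee (a b : ℤ) (z : Tor) : ℂ := fourier a z.1 * fourier b z.2

theorem ee_cont (a b : ℤ) : Continuous (ee a b) := by
  unfold ee
  exact ((fourier a).continuous.comp continuous_fst).mul ((fourier b).continuous.comp continuous_snd)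

theorem ee_int (a b : ℤ) (μ : Measure Tor) [IsFiniteMeasure μ] : Integrable (ee a b) μ :=
  (ee_cont a b).integrable_of_hasCompactSupport (HasCompactSupport.of_compactSpace _)

theorem fourier_norm' (a : ℤ) (x : UnitAddCircle) : ‖(fourier a x : ℂ)‖ = 1 := by
  rw [fourier_apply]
  exact Circle.norm_coe _

theorem ee_norm (a b : ℤ) (z : Tor) : ‖ee a b z‖ = 1 := by
  rw [ee, norm_mul, fourier_norm', fourier_norm', one_mul]

theorem ee_zero (z : Tor) : ee 0 0 z = 1 := by
  rw [ee, fourier_zero, fourier_zero, one_mul]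

theorem ee_at (a b : ℤ) : ee a b 0 = 1 := by
  show (fourier a (0 : UnitAddCircle) * fourier b (0 : UnitAddCircle) : ℂ) = 1
  rw [fourier_eval_zero, fourier_eval_zero, one_mul]

theorem ee_X (a b : ℤ) (z : Tor) : ee a b (z.1, z.2 - z.1) = ee (a - b) b z := by
  have h : ∀ x y : UnitAddCircle, (fourier b (x - y) : ℂ) = fourier b x * fourier (-b) y := by
    intro x y
    rw [fourier_apply, fourier_apply, fourier_apply, smul_sub, sub_eq_add_neg, AddCircle.toCircle_add,
      neg_smul]
    rfl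
  show (fourier a z.1 * fourier b (z.2 - z.1) : ℂ) = fourier (a - b) z.1 * fourier b z.2
  rw [h, sub_eq_add_neg, fourier_add]
  ring

theorem ee_Y (a b : ℤ) (z : Tor) : ee a b (z.1 - z.2, z.2) = ee a (b - a) z := by
  have h : ∀ x y : UnitAddCircle, (fourier a (x - y) : ℂ) = fourier a x * fourier (-a) y := by
    intro x y
    rw [fourier_apply, fourier_apply, fourier_apply, smul_sub, sub_eq_add_neg, AddCircle.toCircle_add,
      neg_smul]
    rfl
  show (fourier a (z.1 - z.2) * fourier b z.2 : ℂ) = fourier a z.1 * fourier (b - a) z.2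
  rw [h, sub_eq_add_neg b a, fourier_add]
  ring

variable {H : Type} [NormedAddCommGroup H] [InnerProductSpace ℂ H] [CompleteSpace H]

theorem inner_un (T : unitary (H →L[ℂ] H)) (x y : H) :
    inner ℂ ((T : H →L[ℂ] H) x) ((T : H →L[ℂ] H) y) = inner ℂ x y :=
  T.val.inner_map_map_of_mem_unitary T.property x y

theorem norm_un (T : unitary (H →L[ℂ] H)) (x : H) : ‖(T : H →L[ℂ] H) x‖ = ‖x‖ :=
  T.val.norm_map_of_mem_unitary T.property x

/-- matrix coefficient after conjugation -/
theorem coefX {X T T' : unitary (H →L[ℂ] H)} (h : X * T = T' * X) (v : H) :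
    inner ℂ ((X : H →L[ℂ] H) v) ((T' : H →L[ℂ] H) ((X : H →L[ℂ] H) v)) =
      inner ℂ v ((T : H →L[ℂ] H) v) := by
  have h1 : (T' : H →L[ℂ] H) ((X : H →L[ℂ] H) v) = (X : H →L[ℂ] H) ((T : H →L[ℂ] H) v) := by
    have h2 := congrArg (fun Z : unitary (H →L[ℂ] H) => (Z : H →L[ℂ] H) v) h
    exact h2.symm
  rw [h1, inner_un]

theorem norm_sub_un (T : unitary (H →L[ℂ] H)) (v : H) :
    ‖(T : H →L[ℂ] H) v - v‖ ^ 2 = 2 * ‖v‖ ^ 2 - 2 * (inner ℂ v ((T : H →L[ℂ] H) v)).re := by
  rw [@norm_sub_sq ℂ, norm_un]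
  have h : RCLike.re (inner ℂ ((T : H →L[ℂ] H) v) v) = (inner ℂ v ((T : H →L[ℂ] H) v)).re :=
    inner_re_symm _ _
  rw [h]
  ring

/-- the spectral measures of all vectors -/
structure Spec (U V : unitary (H →L[ℂ] H)) (M : H → Measure Tor) : Prop where
  fin : ∀ v, IsFiniteMeasure (M v)
  coef : ∀ v a b, ∫ z, ee a b z ∂(M v) =
    inner ℂ v (((U ^ a * V ^ b : unitary (H →L[ℂ] H)) : H →L[ℂ] H) v)

theorem Spec.mass {U V : unitary (H →L[ℂ] H)} {M : H → Measure Tor} (h : Spec U V M) (v : H) :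
    (M v).real univ = ‖v‖ ^ 2 := by
  have h1 := h.coef v 0 0
  simp_rw [ee_zero] at h1
  rw [zpow_zero, zpow_zero, mul_one] at h1
  have h2 : (((1 : unitary (H →L[ℂ] H)) : H →L[ℂ] H) v) = v := rfl
  rw [h2, integral_const, inner_self_eq_norm_sq_to_K] at h1
  have h3 := congrArg Complex.re h1
  simpa [← Complex.ofReal_pow] using h3

/-- the comparison inequality -/
theorem Spec.cmp (hC2 : C2P) {U V : unitary (H →L[ℂ] H)} {M : H → Measure Tor} (h : Spec U V M)
    (v w : H) {η : ℝ} (hη : 0 < η) (hη1 : η ≤ 1) (hw : ‖w‖ = 1) (hvw : ‖v - w‖ ≤ η)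
    (E : Set Tor) : (M v).real E ≤ (M w).real E + 3 * η := by
  have := h.fin
  set s : ℝ := √η with hs
  have hs0 : 0 < s := Real.sqrt_pos.2 hη
  have hs2 : s ^ 2 = η := Real.sq_sqrt hη.le
  set d : H := v - w with hd
  set x : H := (s : ℂ) • w - ((s⁻¹ : ℝ) : ℂ) • d with hx
  obtain ⟨c1, hc1⟩ : ∃ c : ℝ≥0, (c : ℝ) = 1 + η :=
    ⟨Real.toNNReal (1 + η), Real.coe_toNNReal _ (by positivity)⟩
  obtain ⟨c2, hc2'⟩ : ∃ c : ℝ≥0, (c : ℝ) = 1 + η⁻¹ :=
    ⟨Real.toNNReal (1 + η⁻¹), Real.coe_toNNReal _ (by positivity)⟩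
  have hmeas : M v + M x = c1 • M w + c2 • M d := by
    refine hC2 _ _ inferInstance inferInstance fun a b => ?_
    have e1 := integral_add_measure (ee_int a b (M v)) (ee_int a b (M x))
    have e2 := integral_add_measure (ee_int a b (c1 • M w)) (ee_int a b (c2 • M d))
    refine (e1.trans ?_).trans e2.symm
    rw [integral_smul_nnreal_measure, integral_smul_nnreal_measure, h.coef, h.coef, h.coef, h.coef]
    set T : H →L[ℂ] H := ((U ^ a * V ^ b : unitary (H →L[ℂ] H)) : H →L[ℂ] H) with hT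
    have hv : v = w + d := by rw [hd]; abel
    have hc : ((s : ℝ) : ℂ) * ((s⁻¹ : ℝ) : ℂ) = 1 := by
      rw [← Complex.ofReal_mul, mul_inv_cancel₀ hs0.ne', Complex.ofReal_one]
    have hc2 : ((s : ℝ) : ℂ) * ((s : ℝ) : ℂ) = (η : ℂ) := by
      rw [← Complex.ofReal_mul, ← sq, hs2]
    have hc3 : ((s⁻¹ : ℝ) : ℂ) * ((s⁻¹ : ℝ) : ℂ) = ((η⁻¹ : ℝ) : ℂ) := by
      rw [← Complex.ofReal_mul, ← mul_inv, ← sq, hs2]
    have e3 : inner ℂ x (T x) = (η : ℂ) * inner ℂ w (T w) - inner ℂ w (T d) - inner ℂ d (T w) +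
        ((η⁻¹ : ℝ) : ℂ) * inner ℂ d (T d) := by
      rw [hx, map_sub, map_smul, map_smul, inner_sub_left, inner_sub_right, inner_sub_right,
        inner_smul_left, inner_smul_left, inner_smul_right, inner_smul_right, inner_smul_left,
        inner_smul_left, inner_smul_right, inner_smul_right, Complex.conj_ofReal,
        Complex.conj_ofReal]
      linear_combination (inner ℂ w (T w)) * hc2 + (inner ℂ d (T d)) * hc3 -
        (inner ℂ w (T d) + inner ℂ d (T w)) * hc
    have e4 : inner ℂ v (T v) = inner ℂ w (T w) + inner ℂ w (T d) + inner ℂ d (T w) +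
        inner ℂ d (T d) := by
      rw [hv, map_add, inner_add_left, inner_add_right, inner_add_right]
      ring
    rw [e3, e4]
    have e5 : c1 • (inner ℂ w (T w) : ℂ) = ((1 + η : ℝ) : ℂ) * inner ℂ w (T w) := by
      rw [← hc1]; rfl
    have e6 : c2 • (inner ℂ d (T d) : ℂ) = ((1 + η⁻¹ : ℝ) : ℂ) * inner ℂ d (T d) := by
      rw [← hc2']; rfl
    rw [e5, e6]
    push_cast
    ring
  have h1 : (M v).real E ≤ (M v + M x).real E := by
    apply ENNReal.toReal_mono (measure_ne_top _ _)
    rw [Measure.add_apply]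
    exact le_self_add
  rw [hmeas] at h1
  have h2 : (c1 • M w + c2 • M d).real E =
      (1 + η) * (M w).real E + (1 + η⁻¹) * (M d).real E := by
    rw [measureReal_add_apply, measureReal_nnreal_smul_apply, measureReal_nnreal_smul_apply,
      hc1, hc2']
  rw [h2] at h1
  have h3 : (M w).real E ≤ 1 := by
    refine (measureReal_mono (subset_univ E)).trans ?_
    rw [h.mass, hw]; norm_num
  have h4 : (M d).real E ≤ η ^ 2 := by
    refine (measureReal_mono (subset_univ E)).trans ?_
    rw [h.mass]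
    exact pow_le_pow_left₀ (norm_nonneg _) hvw 2
  have h5 : (1 + η⁻¹) * (M d).real E ≤ (1 + η⁻¹) * η ^ 2 :=
    mul_le_mul_of_nonneg_left h4 (by positivity)
  have h6 : (1 + η⁻¹) * η ^ 2 = η ^ 2 + η := by
    field_simp
  have h7 : η * (M w).real E ≤ η * 1 := mul_le_mul_of_nonneg_left h3 hη.le
  nlinarith

/-- displacement of a vector -/
theorem Spec.disp {U V : unitary (H →L[ℂ] H)} {M : H → Measure Tor} (h : Spec U V M) (v : H)
    (a b : ℤ) : ∫ z, ‖ee a b z - 1‖ ^ 2 ∂(M v) =
      ‖((U ^ a * V ^ b : unitary (H →L[ℂ] H)) : H →L[ℂ] H) v - v‖ ^ 2 := by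
  have := h.fin v
  have h1 : ∀ z, ‖ee a b z - 1‖ ^ 2 = 2 - 2 * (ee a b z).re := by
    intro z
    have h2 : Complex.normSq (ee a b z) = 1 := by
      rw [Complex.normSq_eq_norm_sq, ee_norm, one_pow]
    rw [← Complex.normSq_eq_norm_sq, Complex.normSq_sub, h2]
    simp
    ring
  simp_rw [h1]
  have hre : Integrable (fun z => (ee a b z).re) (M v) := (ee_int a b (M v)).re
  rw [integral_sub (integrable_const _) (hre.const_mul 2), integral_const, integral_const_mul,
    norm_sub_un, h.mass]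
  have h3 : ∫ z, (ee a b z).re ∂(M v) = (∫ z, ee a b z ∂(M v)).re :=
    integral_re (ee_int a b (M v))
  rw [h3, h.coef, smul_eq_mul]
  ring

/-- a symmetry of the spectral measure -/
theorem Spec.push (hC2 : C2P) {U V : unitary (H →L[ℂ] H)} {M : H → Measure Tor} (h : Spec U V M)
    (X : unitary (H →L[ℂ] H)) (S : Tor → Tor) (hS : Continuous S) (a' b' : ℤ → ℤ → ℤ)
    (h1 : ∀ a b z, ee a b (S z) = ee (a' a b) (b' a b) z)
    (h2 : ∀ a b, X * (U ^ (a' a b) * V ^ (b' a b)) = (U ^ a * V ^ b) * X) (v : H) :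
    M ((X : H →L[ℂ] H) v) = (M v).map S := by
  have := h.fin
  have hf : IsFiniteMeasure ((M v).map S) := inferInstance
  refine hC2 _ _ inferInstance hf fun a b => ?_
  have e1 : ∫ z, ee a b z ∂((M v).map S) = ∫ z, ee a b (S z) ∂(M v) :=
    integral_map hS.aemeasurable (ee_cont a b).aestronglyMeasurable
  refine Eq.trans ?_ e1.symm
  simp_rw [h1]
  rw [h.coef]
  refine (h.coef _ a b).trans ?_
  exact coefX (h2 a b) v

theorem main (hC1 : C1P) (hC2 : C2P) (hC3 : C3P) : C4P := by
  intro H _ _ _ U V X Y hUV hXU hXV hYV hYU v η hv hη hη1 hUv hVv hXv hYv a b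
  have hex := hC1 H U V hUV
  choose M hM using hex
  have h : Spec U V M := ⟨fun v => (hM v).1, fun v a b => (hM v).2 a b⟩
  have hfin := h.fin
  have hcUV : Commute U V := hUV
  -- the two shears
  have pX : M ((X : H →L[ℂ] H) v) = (M v).map (fun z : Tor => ((z.1, z.2 - z.1) : Tor)) := by
    refine h.push hC2 X _ (by fun_prop) (fun a b => a - b) (fun _ b => b) ee_X ?_ v
    intro a b
    have s1 : SemiconjBy X U U := hXU
    have s2 : SemiconjBy X V (U * V) := hXV
    have s3 := (s1.zpow_right (a - b)).mul_right (s2.zpow_right b)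
    have s4 : U ^ (a - b) * (U * V) ^ b = U ^ a * V ^ b := by
      rw [hcUV.mul_zpow, ← mul_assoc, ← zpow_add, sub_add_cancel]
    rw [s4] at s3
    exact s3
  have pY : M ((Y : H →L[ℂ] H) v) = (M v).map (fun z : Tor => ((z.1 - z.2, z.2) : Tor)) := by
    refine h.push hC2 Y _ (by fun_prop) (fun a _ => a) (fun a b => b - a) ee_Y ?_ v
    intro a b
    have s1 : SemiconjBy Y U (V * U) := hYU
    have s2 : SemiconjBy Y V V := hYV
    have s3 := (s1.zpow_right a).mul_right (s2.zpow_right (b - a))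
    have s4 : (V * U) ^ a * V ^ (b - a) = U ^ a * V ^ b := by
      rw [← hUV, hcUV.mul_zpow, mul_assoc, ← zpow_add, add_sub_cancel]
    rw [s4] at s3
    exact s3
  have hprob : IsProbabilityMeasure (M v) := by
    constructor
    have h1 := h.mass v
    rw [hv, one_pow, measureReal_def] at h1
    rw [← ENNReal.ofReal_toReal (measure_ne_top (M v) univ), h1, ENNReal.ofReal_one]
  have hXn : ‖(X : H →L[ℂ] H) v‖ = 1 := by rw [norm_un, hv]
  have hYn : ‖(Y : H →L[ℂ] H) v‖ = 1 := by rw [norm_un, hv]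
  have h3 := hC3 (M v) hprob η hη hη1 (by
    intro E hE
    constructor
    · have e1 : (M v).real ((fun z : Tor => ((z.1, z.2 - z.1) : Tor)) ⁻¹' E) =
          (M ((X : H →L[ℂ] H) v)).real E := by
        rw [pX, map_measureReal_apply (by fun_prop) hE]
      rw [e1, abs_le]
      have e2 := h.cmp hC2 v ((X : H →L[ℂ] H) v) hη hη1 hXn (by rwa [norm_sub_rev]) E
      have e3 := h.cmp hC2 ((X : H →L[ℂ] H) v) v hη hη1 hv hXv E
      constructor <;> linarith
    · have e1 : (M v).real ((fun z : Tor => ((z.1 - z.2, z.2) : Tor)) ⁻¹' E) =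
          (M ((Y : H →L[ℂ] H) v)).real E := by
        rw [pY, map_measureReal_apply (by fun_prop) hE]
      rw [e1, abs_le]
      have e2 := h.cmp hC2 v ((Y : H →L[ℂ] H) v) hη hη1 hYn (by rwa [norm_sub_rev]) E
      have e3 := h.cmp hC2 ((Y : H →L[ℂ] H) v) v hη hη1 hv hYv E
      constructor <;> linarith)
    (by
      have e1 := h.disp v 1 0
      have e2 : ∀ z : Tor, ee 1 0 z = fourier 1 z.1 := by
        intro z
        rw [ee, fourier_zero, mul_one]
      simp_rw [e2] at e1
      rw [e1, zpow_one, zpow_zero, mul_one]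
      exact pow_le_pow_left₀ (norm_nonneg _) hUv 2)
    (by
      have e1 := h.disp v 0 1
      have e2 : ∀ z : Tor, ee 0 1 z = fourier 1 z.2 := by
        intro z
        rw [ee, fourier_zero, one_mul]
      simp_rw [e2] at e1
      rw [e1, zpow_one, zpow_zero, one_mul]
      exact pow_le_pow_left₀ (norm_nonneg _) hVv 2)
  rw [← h.disp v a b]
  have h4 : ∫ z, ‖ee a b z - 1‖ ^ 2 ∂(M v) ≤
      ∫ z, ({z : Tor | z ≠ 0}).indicator (fun _ => (4 : ℝ)) z ∂(M v) := by
    have hms : MeasurableSet {z : Tor | z ≠ 0} := (measurableSet_singleton (0 : Tor)).compl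
    apply integral_mono
    · exact ((((ee_cont a b).sub continuous_const).norm).pow 2).integrable_of_hasCompactSupport
        (HasCompactSupport.of_compactSpace _)
    · exact (integrable_const _).indicator hms
    · intro z
      by_cases hz : z = 0
      · rw [hz, indicator_of_notMem (by simp)]
        simp only [ee_at, sub_self, norm_zero]
        norm_num
      · rw [indicator_of_mem (by exact hz)]
        have h5 : ‖ee a b z - 1‖ ≤ 2 := by
          refine (norm_sub_le _ _).trans ?_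
          rw [ee_norm, norm_one]; norm_num
        have h6 := pow_le_pow_left₀ (norm_nonneg _) h5 2
        show ‖ee a b z - 1‖ ^ 2 ≤ 4
        linarith
  have h5 : ∫ z, ({z : Tor | z ≠ 0}).indicator (fun _ => (4 : ℝ)) z ∂(M v) =
      4 * (M v).real {z : Tor | z ≠ 0} := by
    have hms : MeasurableSet {z : Tor | z ≠ 0} := (measurableSet_singleton (0 : Tor)).compl
    rw [integral_indicator_const _ hms, smul_eq_mul, mul_comm]
  rw [h5] at h4
  linarith

end Pool.Agent.helper987_SE.C4
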