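import Pool.Agent.helper987_SE.Stm

/-!
# Project SE, part C5: three subspaces (Lemma 13)
-/

set_option autoImplicit false

namespace Pool.Agent.helper987_SE.C5

open Submodule

noncomputable section

lemma inner_q {H : Type} [NormedAddCommGroup H] [InnerProductSpace ℂ H]
    (S : Submodule ℂ H) [S.HasOrthogonalProjection] (g f : H) :
    inner ℂ (g - S.starProjection g) f =
      inner ℂ (g - S.starProjection g) (f - S.starProjection f) := by
  rw [inner_sub_right, starProjection_inner_eq_zero _ _ (S.starProjection_apply_mem f), sub_zero]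

theorem main : C5P := by
  intro H _ _ _ S _ _ e he he2 hang f
  have hκ : 0 < 1 - 2 * e := by linarith
  set κ := 1 - 2 * e with hκdef
  let q : Fin 3 → H → H := fun i g => g - (S i).starProjection g
  let B : H →L[ℂ] H := ∑ i, (1 - (S i).starProjection)
  have hB : ∀ g, B g = ∑ i, q i g := by
    intro g
    simp [B, q]
  have hqin : ∀ i g h, inner ℂ (q i g) h = inner ℂ (q i g) (q i h) := fun i g h => inner_q (S i) g h
  have hBin : ∀ g h, inner ℂ (B g) h = ∑ i, inner ℂ (q i g) (q i h) := by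
    intro g h
    rw [hB, sum_inner]
    exact Finset.sum_congr rfl fun i _ => hqin i g h
  have key1 : ∀ g, κ * ∑ i, ‖q i g‖ ^ 2 ≤ ‖B g‖ ^ 2 := by
    intro g
    have h01 := hang 0 1 (by decide) g
    have h02 := hang 0 2 (by decide) g
    have h12 := hang 1 2 (by decide) g
    have e1 : ‖B g‖ ^ 2 = ‖q 0 g‖ ^ 2 + ‖q 1 g‖ ^ 2 + ‖q 2 g‖ ^ 2 + 2 * (inner ℂ (q 0 g) (q 1 g)).re +
        2 * (inner ℂ (q 0 g) (q 2 g)).re + 2 * (inner ℂ (q 1 g) (q 2 g)).re := by
      rw [hB, Fin.sum_univ_three]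
      have e2 := @norm_add_sq ℂ H _ _ _ (q 0 g + q 1 g) (q 2 g)
      have e3 := @norm_add_sq ℂ H _ _ _ (q 0 g) (q 1 g)
      rw [inner_add_left] at e2
      simp only [RCLike.re_to_complex, Complex.add_re] at e2 e3
      rw [e2, e3]; ring
    rw [e1, Fin.sum_univ_three]
    simp only [q] at *
    rw [hκdef]
    linarith
  have key2 : ∀ g, κ * ‖B g‖ ^ 2 ≤ ∑ i, ‖q i (B g)‖ ^ 2 := by
    intro g
    set h := B g with hh
    have h1 : ‖h‖ ^ 2 ≤ ∑ i, ‖q i g‖ * ‖q i h‖ := by
      have h2 := hBin g h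
      rw [← hh] at h2
      have h3 : ‖h‖ ^ 2 = (inner ℂ h h).re := by
        have := @inner_self_eq_norm_sq ℂ H _ _ _ h
        simpa using this.symm
      rw [h3, h2, Complex.re_sum]
      refine Finset.sum_le_sum fun i _ => ?_
      have := @re_inner_le_norm ℂ H _ _ _ (q i g) (q i h)
      simpa using this
    have h4 : (∑ i, ‖q i g‖ * ‖q i h‖) ^ 2 ≤ (∑ i, ‖q i g‖ ^ 2) * ∑ i, ‖q i h‖ ^ 2 :=
      Finset.sum_mul_sq_le_sq_mul_sq _ _ _
    have h5 := key1 g
    rw [← hh] at h5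
    set a := ∑ i, ‖q i g‖ ^ 2
    set b := ∑ i, ‖q i h‖ ^ 2
    have ha : 0 ≤ a := Finset.sum_nonneg fun i _ => sq_nonneg _
    have hb : 0 ≤ b := Finset.sum_nonneg fun i _ => sq_nonneg _
    rcases (sq_nonneg ‖h‖).eq_or_lt with h6 | h6
    · rw [← h6, mul_zero]; exact hb
    · have h7 : (‖h‖ ^ 2) ^ 2 ≤ a * b := (pow_le_pow_left₀ (sq_nonneg _) h1 2).trans h4
      have h8 : κ * (‖h‖ ^ 2) ^ 2 ≤ ‖h‖ ^ 2 * b := by
        calc κ * (‖h‖ ^ 2) ^ 2 ≤ κ * (a * b) := mul_le_mul_of_nonneg_left h7 hκ.le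
          _ = (κ * a) * b := by ring
          _ ≤ ‖h‖ ^ 2 * b := mul_le_mul_of_nonneg_right h5 hb
      have h9 : ‖h‖ ^ 2 * (κ * ‖h‖ ^ 2) ≤ ‖h‖ ^ 2 * b := by
        calc _ = κ * (‖h‖ ^ 2) ^ 2 := by ring
          _ ≤ _ := h8
      exact le_of_mul_le_mul_left h9 h6
  let M : Submodule ℂ H := LinearMap.range (B : H →ₗ[ℂ] H)
  have key3 : ∀ h ∈ M.topologicalClosure, κ * ‖h‖ ^ 2 ≤ ∑ i, ‖q i h‖ ^ 2 := by
    have hcl : IsClosed {h : H | κ * ‖h‖ ^ 2 ≤ ∑ i, ‖q i h‖ ^ 2} := by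
      apply isClosed_le
      · fun_prop
      · simp only [q]
        fun_prop
    have hsub : (M : Set H) ⊆ {h : H | κ * ‖h‖ ^ 2 ≤ ∑ i, ‖q i h‖ ^ 2} := by
      rintro _ ⟨g, rfl⟩
      exact key2 g
    intro h hh
    exact closure_minimal hsub hcl hh
  have key4 : Mᗮ ≤ ⨅ i, S i := by
    intro h hh
    rw [Submodule.mem_iInf]
    have h1 : inner ℂ (B h) h = 0 := by
      exact (Submodule.mem_orthogonal M h).1 hh (B h) ⟨h, rfl⟩
    rw [hBin] at h1
    have h2 : ∑ i, ‖q i h‖ ^ 2 = 0 := by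
      have h3 := congrArg Complex.re h1
      rw [Complex.re_sum] at h3
      simp only [Complex.zero_re] at h3
      rw [← h3]
      refine Finset.sum_congr rfl fun i _ => ?_
      have := @inner_self_eq_norm_sq ℂ H _ _ _ (q i h)
      simpa using this.symm
    intro i
    have h3 := (Finset.sum_eq_zero_iff_of_nonneg (fun i _ => sq_nonneg ‖q i h‖)).1 h2 i (Finset.mem_univ i)
    have h4 : q i h = 0 := by simpa using h3
    have h5 : (S i).starProjection h = h := (sub_eq_zero.1 h4).symm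
    exact starProjection_eq_self_iff.1 h5
  have key5 : (⨅ i, S i)ᗮ ≤ M.topologicalClosure := by
    rw [← Submodule.orthogonal_orthogonal_eq_closure]
    exact Submodule.orthogonal_le key4
  have h6 := key3 _ (key5 (sub_starProjection_mem_orthogonal (K := ⨅ i, S i) f))
  refine h6.trans (le_of_eq ?_)
  refine Finset.sum_congr rfl fun i _ => ?_
  have hPi : (⨅ i, S i).starProjection f ∈ S i :=
    (Submodule.mem_iInf S).1 (starProjection_apply_mem (⨅ i, S i) f) i
  have h7 : (S i).starProjection ((⨅ i, S i).starProjection f) = (⨅ i, S i).starProjection f :=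
    starProjection_eq_self_iff.2 hPi
  simp only [q]
  rw [map_sub, h7]
  congr 2
  abel

end

end Pool.Agent.helper987_SE.C5
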