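import Pool.Agent.helper987_SE.Stm

/-!
# Project SE, part C6: the angle inequality (Lemma 14)
-/

set_option autoImplicit false

namespace Pool.Agent.helper987_SE.C6

open Submodule

noncomputable section

variable {H : Type} [NormedAddCommGroup H] [InnerProductSpace ℂ H]

/-- real part of the inner product -/
def ri (x y : H) : ℝ := (inner ℂ x y).re

lemma ri_add_left (x y z : H) : ri (x + y) z = ri x z + ri y z := by
  simp [ri]
lemma ri_add_right (x y z : H) : ri x (y + z) = ri x y + ri x z := by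
  simp [ri]
lemma ri_sub_left (x y z : H) : ri (x - y) z = ri x z - ri y z := by
  simp [ri]
lemma ri_sub_right (x y z : H) : ri x (y - z) = ri x y - ri x z := by
  simp [ri]
lemma ri_self (x : H) : ri x x = ‖x‖ ^ 2 := by
  have := @inner_self_eq_norm_sq ℂ H _ _ _ x
  simpa [ri] using this
lemma ri_comm (x y : H) : ri x y = ri y x := by
  unfold ri
  rw [← inner_conj_symm, Complex.conj_re]
lemma ri_le (x y : H) : ri x y ≤ ‖x‖ * ‖y‖ := by
  have := @re_inner_le_norm ℂ H _ _ _ x y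
  simpa [ri] using this
lemma ri_neg_left (x y : H) : ri (-x) y = - ri x y := by
  simp [ri]
lemma ri_ge (x y : H) : - (‖x‖ * ‖y‖) ≤ ri x y := by
  have := ri_le (-x) y
  rw [ri_neg_left, norm_neg] at this
  linarith

lemma ri_P (S : Submodule ℂ H) [S.HasOrthogonalProjection] (x y : H) :
    ri (S.starProjection x) y = ri x (S.starProjection y) := by
  unfold ri
  rw [inner_starProjection_left_eq_right]

lemma PP (S : Submodule ℂ H) [S.HasOrthogonalProjection] (x : H) :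
    S.starProjection (S.starProjection x) = S.starProjection x :=
  starProjection_eq_self_iff.2 (starProjection_apply_mem _ _)

lemma ri_PP (S : Submodule ℂ H) [S.HasOrthogonalProjection] (x : H) :
    ri (S.starProjection x) x = ‖S.starProjection x‖ ^ 2 := by
  rw [← ri_self, ri_P, ri_P, PP]

/-- the case of the range of `R` -/
lemma caseA (S₁ S₂ : Submodule ℂ H) [S₁.HasOrthogonalProjection] [S₂.HasOrthogonalProjection]
    (f : H) (h : S₁.starProjection (S₂.starProjection f) = S₂.starProjection (S₁.starProjection f)) :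
    0 ≤ ri (f - S₁.starProjection f) (f - S₂.starProjection f) := by
  set P := S₁.starProjection with hP
  set Q := S₂.starProjection with hQ
  have h1 : ri (f - P f) (f - Q f) = ‖f - P f - Q (f - P f)‖ ^ 2 := by
    rw [← ri_self]
    have eP : ∀ x y, ri (P x) y = ri x (P y) := fun x y => ri_P S₁ x y
    have eQ : ∀ x y, ri (Q x) y = ri x (Q y) := fun x y => ri_P S₂ x y
    have pp : ∀ x, P (P x) = P x := fun x => PP S₁ x
    have qq : ∀ x, Q (Q x) = Q x := fun x => PP S₂ x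
    have h2 : P (Q (P f)) = Q (P f) := by
      rw [← h, pp]
    simp only [ri_sub_left, ri_sub_right, eP, eQ, map_sub, pp, qq, h, h2]
    ring
  rw [h1]; positivity

/-- the case of the kernel of `R` -/
lemma caseB (S₁ S₂ : Submodule ℂ H) [S₁.HasOrthogonalProjection] [S₂.HasOrthogonalProjection]
    (e : ℝ) (he : 0 ≤ e) (he1 : e ≤ 1) (f : H)
    (h : ‖S₁.starProjection (S₂.starProjection (S₂.starProjection f))‖ ≤ e * ‖S₂.starProjection f‖) :
    - e * (‖f - S₁.starProjection f‖ ^ 2 + ‖f - S₂.starProjection f‖ ^ 2) ≤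
      2 * ri (f - S₁.starProjection f) (f - S₂.starProjection f) := by
  rw [PP] at h
  set P := S₁.starProjection with hP
  set Q := S₂.starProjection with hQ
  have eP : ∀ x y, ri (P x) y = ri x (P y) := fun x y => ri_P S₁ x y
  have eQ : ∀ x y, ri (Q x) y = ri x (Q y) := fun x y => ri_P S₂ x y
  have pp : ∀ x, P (P x) = P x := fun x => PP S₁ x
  have qq : ∀ x, Q (Q x) = Q x := fun x => PP S₂ x
  set p := ‖P f‖ with hp
  set r := ‖Q f‖ with hr
  set n := ‖f‖ with hn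
  set c := 2 * ri (P f) (Q f) with hc
  have hp0 : 0 ≤ p := norm_nonneg _
  have hr0 : 0 ≤ r := norm_nonneg _
  have hn0 : 0 ≤ n := norm_nonneg _
  have ePf : ri (P f) f = p ^ 2 := ri_PP S₁ f
  have eQf : ri (Q f) f = r ^ 2 := ri_PP S₂ f
  have eff : ri f f = n ^ 2 := ri_self f
  -- |c| ≤ e s
  have c0 : ri (P f) (Q f) = ri (P f) (P (Q f)) := by
    rw [← eP, pp]
  have c1 : c ≤ e * (p ^ 2 + r ^ 2) := by
    have h1 := ri_le (P f) (P (Q f))
    rw [← c0] at h1
    have h2 : ‖P f‖ * ‖P (Q f)‖ ≤ p * (e * r) := mul_le_mul_of_nonneg_left h hp0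
    have h3 : 2 * (p * (e * r)) ≤ e * (p ^ 2 + r ^ 2) := by
      have h4 : 0 ≤ e * (p - r) ^ 2 := mul_nonneg he (sq_nonneg _)
      nlinarith
    linarith
  have c2 : - (e * (p ^ 2 + r ^ 2)) ≤ c := by
    have h1 := ri_ge (P f) (P (Q f))
    rw [← c0] at h1
    have h2 : ‖P f‖ * ‖P (Q f)‖ ≤ p * (e * r) := mul_le_mul_of_nonneg_left h hp0
    have h3 : 2 * (p * (e * r)) ≤ e * (p ^ 2 + r ^ 2) := by
      have h4 : 0 ≤ e * (p - r) ^ 2 := mul_nonneg he (sq_nonneg _)
      nlinarith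
    linarith
  set s := p ^ 2 + r ^ 2 with hs
  have hs0 : 0 ≤ s := by positivity
  have s1 : s ^ 2 ≤ (s + c) * n ^ 2 := by
    have h1 := ri_le (P f + Q f) f
    rw [ri_add_left, ePf, eQf] at h1
    have h2 : ‖P f + Q f‖ ^ 2 = s + c := by
      rw [← ri_self]
      simp only [ri_add_left, ri_add_right]
      rw [ri_self, ri_self, ri_comm (Q f) (P f)]
      rw [hs, hc]; ring
    have h3 : s ^ 2 ≤ (‖P f + Q f‖ * n) ^ 2 := pow_le_pow_left₀ hs0 h1 2
    rw [mul_pow, h2] at h3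
    exact h3
  have s2 : s ≤ (1 + e) * n ^ 2 := by
    rcases hs0.eq_or_lt with h1 | h1
    · rw [← h1]; positivity
    · have h2 : s * s ≤ s * ((1 + e) * n ^ 2) := by
        have h3 : (s + c) * n ^ 2 ≤ (s + e * s) * n ^ 2 :=
          mul_le_mul_of_nonneg_right (by linarith) (sq_nonneg n)
        nlinarith
      exact le_of_mul_le_mul_left h2 h1
  have l1 : ‖f - P f‖ ^ 2 = n ^ 2 - p ^ 2 := by
    rw [← ri_self]
    simp only [ri_sub_left, ri_sub_right]
    rw [eff, ri_comm f (P f), ePf, ri_self]; ring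
  have l2 : ‖f - Q f‖ ^ 2 = n ^ 2 - r ^ 2 := by
    rw [← ri_self]
    simp only [ri_sub_left, ri_sub_right]
    rw [eff, ri_comm f (Q f), eQf, ri_self]; ring
  have l3 : 2 * ri (f - P f) (f - Q f) = 2 * n ^ 2 - 2 * s + c := by
    simp only [ri_sub_left, ri_sub_right]
    rw [eff, ri_comm f (Q f), eQf, ePf, hs, hc]; ring
  rw [l1, l2, l3]
  have hgoal : 0 ≤ 2 * n ^ 2 - 2 * s + c + e * (2 * n ^ 2 - s) := by
    rcases (sq_nonneg n).eq_or_lt with h1 | h1
    · have h2 : s = 0 := by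
        have : s ≤ 0 := by rw [← h1] at s2; linarith
        linarith
      have h3 : c = 0 := by rw [h2] at c1 c2; linarith
      rw [h2, h3, ← h1]; simp
    · have h2 : 0 ≤ n ^ 2 * (2 * n ^ 2 - 2 * s + c + e * (2 * n ^ 2 - s)) := by
        have h3 : 0 ≤ (2 * n ^ 2 - s) * ((1 + e) * n ^ 2 - s) := by
          apply mul_nonneg
          · have : (1 + e) * n ^ 2 ≤ 2 * n ^ 2 := mul_le_mul_of_nonneg_right (by linarith) (sq_nonneg n)
            linarith
          · linarith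
        nlinarith
      exact nonneg_of_mul_nonneg_right h2 h1
  have : e * (n ^ 2 - p ^ 2 + (n ^ 2 - r ^ 2)) = e * (2 * n ^ 2 - s) := by rw [hs]; ring
  linarith

theorem main : C6P := by
  intro H _ _ _ S₁ S₂ S₃ _ _ _ e he he1 h13 h23 h12 hb f
  set P := S₁.starProjection with hP
  set Q := S₂.starProjection with hQ
  set R := S₃.starProjection with hR
  have eR : ∀ x y, ri (R x) y = ri x (R y) := fun x y => ri_P S₃ x y
  have rr : ∀ x, R (R x) = R x := fun x => PP S₃ x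
  set f₁ := R f with hf₁
  set f₂ := f - R f with hf₂
  have hf : f = f₁ + f₂ := by rw [hf₁, hf₂]; abel
  have hR2 : R f₂ = 0 := by rw [hf₂, map_sub, rr, sub_self]
  have hR1 : R f₁ = f₁ := by rw [hf₁, rr]
  -- ranges
  have a1 : R (f₁ - P f₁) = f₁ - P f₁ := by rw [map_sub, ← h13, hR1]
  have a2 : R (f₁ - Q f₁) = f₁ - Q f₁ := by rw [map_sub, ← h23, hR1]
  have b1 : R (f₂ - P f₂) = 0 := by rw [map_sub, ← h13, hR2, map_zero, sub_zero]
  have b2 : R (f₂ - Q f₂) = 0 := by rw [map_sub, ← h23, hR2, map_zero, sub_zero]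
  have orth : ∀ x y : H, R x = x → R y = 0 → ri x y = 0 := by
    intro x y hx hy
    rw [← hx, eR, hy]; simp [ri]
  have orth' : ∀ x y : H, R x = x → R y = 0 → ri y x = 0 := by
    intro x y hx hy
    rw [ri_comm]; exact orth x y hx hy
  have s1 : f - P f = (f₁ - P f₁) + (f₂ - P f₂) := by rw [hf, map_add]; abel
  have s2 : f - Q f = (f₁ - Q f₁) + (f₂ - Q f₂) := by rw [hf, map_add]; abel
  have n1 : ‖f - P f‖ ^ 2 = ‖f₁ - P f₁‖ ^ 2 + ‖f₂ - P f₂‖ ^ 2 := by
    rw [← ri_self, s1]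
    simp only [ri_add_left, ri_add_right (_ : H) (_ : H) (_ : H)]
    rw [ri_self, ri_self, orth _ _ a1 b1, orth' _ _ a1 b1]; ring
  have n2 : ‖f - Q f‖ ^ 2 = ‖f₁ - Q f₁‖ ^ 2 + ‖f₂ - Q f₂‖ ^ 2 := by
    rw [← ri_self, s2]
    simp only [ri_add_left, ri_add_right (_ : H) (_ : H) (_ : H)]
    rw [ri_self, ri_self, orth _ _ a2 b2, orth' _ _ a2 b2]; ring
  have n3 : ri (f - P f) (f - Q f) = ri (f₁ - P f₁) (f₁ - Q f₁) + ri (f₂ - P f₂) (f₂ - Q f₂) := by
    rw [s1, s2]
    simp only [ri_add_left, ri_add_right (_ : H) (_ : H) (_ : H)]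
    rw [orth _ _ a1 b2, orth' _ _ a2 b1]; ring
  have hA : 0 ≤ ri (f₁ - P f₁) (f₁ - Q f₁) :=
    caseA S₁ S₂ f₁ (h12 f₁ (starProjection_apply_mem _ _))
  have hB := caseB S₁ S₂ e he he1 f₂ (by
    have h1 : R (Q f₂) = 0 := by rw [← h23, hR2, map_zero]
    have h2 := hb (Q f₂) h1
    exact h2)
  show - e * (‖f - P f‖ ^ 2 + ‖f - Q f‖ ^ 2) ≤ 2 * ri (f - P f) (f - Q f)
  rw [n1, n2, n3]
  have hpos : 0 ≤ e * (‖f₁ - P f₁‖ ^ 2 + ‖f₁ - Q f₁‖ ^ 2) := by positivity
  have hB' : - e * (‖f₂ - P f₂‖ ^ 2 + ‖f₂ - Q f₂‖ ^ 2) ≤ 2 * ri (f₂ - P f₂) (f₂ - Q f₂) := hB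
  linarith

end

end Pool.Agent.helper987_SE.C6
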