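import Pool.Agent.helper987_SE.C7d

/-!
# Project SE, part C7: Theorem 15
-/

set_option autoImplicit false

namespace Pool.Agent.helper987_SE.C7

noncomputable section

section
variable {ι G : Type} [Group G] (P : SpRel ι G)

lemma EE1 {i j k : ι} (h1 : i ≠ j) (h2 : j ≠ k) (h3 : i ≠ k) :
    P.E i j 1 * P.E j k 1 = P.E i k 1 * P.E j k 1 * P.E i j 1 := by
  have h := P.EE i j k 1 1 h1 h2 h3
  have e : (1 : ℤ) * 1 = 1 := rfl
  rwa [e] at h

lemma EN1 {i j k : ι} (h1 : i ≠ j) (h2 : k ≠ i) (h3 : k ≠ j) :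
    P.E i j 1 * P.N j k 1 = P.N i k 1 * P.N j k 1 * P.E i j 1 := by
  have h := P.EN i j k 1 1 h1 h2 h3
  have e : (1 : ℤ) * 1 = 1 := rfl
  rw [e] at h
  rw [h, (P.NN_comm j k i k 1 1).eq]

lemma ENi1 {i j : ι} (h1 : i ≠ j) :
    P.E i j 1 * P.N j i 1 = P.N i i 2 * P.N j i 1 * P.E i j 1 := by
  have h := P.EN_i i j 1 1 h1
  have e : (2 : ℤ) * 1 * 1 = 2 := rfl
  rw [e] at h
  rw [h, (P.NN_comm j i i i 1 2).eq]

lemma N_two (i : ι) : P.N i i 1 * P.N i i 1 = P.N i i 2 := by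
  have h := P.N_add i i 1 1
  rw [← h]; rfl

variable {D I J K : Finset ι}

lemma mem_pq {p q : ι} (hp : p ∈ D) (hq : q ∈ D) (h : p ≠ q) : P.E p q 1 ∈ TT P D I J K :=
  Subgroup.subset_closure (Or.inl ⟨p, hp, q, hq, h, rfl⟩)

lemma mem_ip {i p : ι} (hi : i ∈ I) (hp : p ∈ D) : P.E i p 1 ∈ TT P D I J K :=
  Subgroup.subset_closure (Or.inr (Or.inl ⟨i, hi, p, hp, rfl⟩))

lemma mem_pj {p j : ι} (hp : p ∈ D) (hj : j ∈ J) : P.E p j 1 ∈ TT P D I J K :=
  Subgroup.subset_closure (Or.inr (Or.inr (Or.inl ⟨p, hp, j, hj, rfl⟩)))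

lemma mem_pk {p k : ι} (hp : p ∈ D) (hk : k ∈ K) : P.N p k 1 ∈ TT P D I J K :=
  Subgroup.subset_closure (Or.inr (Or.inr (Or.inr (Or.inl ⟨p, hp, k, hk, rfl⟩))))

lemma mem_ij {i j : ι} (hi : i ∈ I) (hj : j ∈ J) : P.E i j 1 ∈ TT P D I J K :=
  Subgroup.subset_closure (Or.inr (Or.inr (Or.inr (Or.inr (Or.inl ⟨i, hi, j, hj, rfl⟩)))))

lemma mem_ik {i k : ι} (hi : i ∈ I) (hk : k ∈ K) : P.N i k 1 ∈ TT P D I J K :=
  Subgroup.subset_closure (Or.inr (Or.inr (Or.inr (Or.inr (Or.inr ⟨i, hi, k, hk, rfl⟩)))))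

lemma cen_of_gens {z : G} (h : ∀ g ∈ gens P D I J K, Commute z g) :
    ∀ g ∈ TT P D I J K, Commute z g := by
  intro g hg
  have hle : TT P D I J K ≤ Subgroup.centralizer {z} := by
    refine (Subgroup.closure_le _).2 ?_
    intro g hg
    rw [SetLike.mem_coe, Subgroup.mem_centralizer_iff]
    intro y hy
    rw [Set.mem_singleton_iff.1 hy]
    exact (h g hg).eq
  have := hle hg
  rw [Subgroup.mem_centralizer_iff] at this
  exact this z rfl

variable (hA : Adm D I J K)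
include hA

lemma hDI {p i : ι} (hp : p ∈ D) (hi : i ∈ I) : p ≠ i := Finset.disjoint_iff_ne.1 hA.DI p hp i hi
lemma hDJ {p i : ι} (hp : p ∈ D) (hi : i ∈ J) : p ≠ i := Finset.disjoint_iff_ne.1 hA.DJ p hp i hi
lemma hDK {p i : ι} (hp : p ∈ D) (hi : i ∈ K) : p ≠ i := Finset.disjoint_iff_ne.1 hA.DK p hp i hi
lemma hIJ {p i : ι} (hp : p ∈ I) (hi : i ∈ J) : p ≠ i := Finset.disjoint_iff_ne.1 hA.IJ p hp i hi
lemma hJK {p i : ι} (hp : p ∈ J) (hi : i ∈ K) : p ≠ i := Finset.disjoint_iff_ne.1 hA.JK p hp i hi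

lemma cen_ij {i j : ι} (hi : i ∈ I) (hj : j ∈ J) : ∀ g ∈ TT P D I J K, Commute (P.E i j 1) g := by
  have hij := hIJ hA hi hj
  apply cen_of_gens
  rintro g (⟨p, hp, q, hq, h, rfl⟩ | ⟨i', hi', p, hp, rfl⟩ | ⟨p, hp, j', hj', rfl⟩ |
    ⟨p, hp, k, hk, rfl⟩ | ⟨i', hi', j', hj', rfl⟩ | ⟨i', hi', k, hk, rfl⟩)
  · exact P.EE_comm _ _ _ _ _ _ hij h (hDJ hA hp hj).symm (hDI hA hq hi).symm
  · exact P.EE_comm _ _ _ _ _ _ hij (hDI hA hp hi').symm (hIJ hA hi' hj).symm (hDI hA hp hi).symm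
  · exact P.EE_comm _ _ _ _ _ _ hij (hDJ hA hp hj') (hDJ hA hp hj).symm (hIJ hA hi hj')
  · exact P.EN_comm _ _ _ _ _ _ hij (hDJ hA hp hj).symm (hJK hA hj hk)
  · exact P.EE_comm _ _ _ _ _ _ hij (hIJ hA hi' hj') (hIJ hA hi' hj).symm (hIJ hA hi hj')
  · exact P.EN_comm _ _ _ _ _ _ hij (hIJ hA hi' hj).symm (hJK hA hj hk)

lemma cen_ik {i k : ι} (hi : i ∈ I) (hk : k ∈ K) (a : ℤ) :
    ∀ g ∈ TT P D I J K, Commute (P.N i k a) g := by
  apply cen_of_gens
  rintro g (⟨p, hp, q, hq, h, rfl⟩ | ⟨i', hi', p, hp, rfl⟩ | ⟨p, hp, j', hj', rfl⟩ |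
    ⟨p, hp, k', hk', rfl⟩ | ⟨i', hi', j', hj', rfl⟩ | ⟨i', hi', k', hk', rfl⟩)
  · exact (P.EN_comm _ _ _ _ _ _ h (hDI hA hq hi) (hDK hA hq hk)).symm
  · exact (P.EN_comm _ _ _ _ _ _ (hDI hA hp hi').symm (hDI hA hp hi) (hDK hA hp hk)).symm
  · exact (P.EN_comm _ _ _ _ _ _ (hDJ hA hp hj') (hIJ hA hi hj').symm (hJK hA hj' hk)).symm
  · exact P.NN_comm _ _ _ _ _ _
  · exact (P.EN_comm _ _ _ _ _ _ (hIJ hA hi' hj') (hIJ hA hi hj').symm (hJK hA hj' hk)).symm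
  · exact P.NN_comm _ _ _ _ _ _

end

section
variable {ι G : Type} [Group G] (P : SpRel ι G) {D I J K : Finset ι} (hA : Adm D I J K)

open scoped Classical in
/-- enumeration of `D` -/
def en : DD ≃ {p // p ∈ D} :=
  (finProdFinEquiv (m := 3) (n := 3)).trans (Finset.equivFinOfCardEq hA.card).symm

lemma en_ne {p q : DD} (h : p ≠ q) : ((en hA p : {p // p ∈ D}) : ι) ≠ (en hA q : {p // p ∈ D}) := by
  intro hh
  exact h ((en hA).injective (Subtype.ext hh))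

open scoped Classical in
/-- the elements `E_pq` -/
def sE (p q : DD) : TT P D I J K :=
  if h : p ≠ q then ⟨P.E (en hA p) (en hA q) 1, mem_pq P (en hA p).2 (en hA q).2 (en_ne hA h)⟩ else 1

lemma sE_coe {p q : DD} (h : p ≠ q) :
    ((sE P hA p q : TT P D I J K) : G) = P.E (en hA p) (en hA q) 1 := by
  unfold sE
  rw [dif_pos h]

/-- the elements `E_ip` -/
def xE (a : {i // i ∈ I}) (p : DD) : TT P D I J K :=
  ⟨P.E a (en hA p) 1, mem_ip P a.2 (en hA p).2⟩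

/-- the elements `E_pj`, `N_pk` -/
def yE (p : DD) (b : {j // j ∈ J} ⊕ {k // k ∈ K}) : TT P D I J K :=
  match b with
  | Sum.inl j => ⟨P.E (en hA p) j 1, mem_pj P (en hA p).2 j.2⟩
  | Sum.inr k => ⟨P.N (en hA p) k 1, mem_pk P (en hA p).2 k.2⟩

open scoped Classical in
/-- the central elements -/
def wE (P : SpRel ι G) (D I J K : Finset ι) (a : {i // i ∈ I}) (b : {j // j ∈ J} ⊕ {k // k ∈ K}) :
    TT P D I J K :=
  match b with
  | Sum.inl j => ⟨P.E a j 1, mem_ij P a.2 j.2⟩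
  | Sum.inr k => if (a : ι) = k then ⟨P.N a k 1, mem_ik P a.2 k.2⟩ * ⟨P.N a k 1, mem_ik P a.2 k.2⟩
      else ⟨P.N a k 1, mem_ik P a.2 k.2⟩

/-- the elements `N_ii` -/
def tE (P : SpRel ι G) (D I J K : Finset ι) (c : {i // i ∈ I ∧ i ∈ K}) : TT P D I J K :=
  ⟨P.N c c 1, mem_ik P c.2.1 c.2.2⟩

open scoped Classical in
/-- the abstract data -/
def td : TD (TT P D I J K) {i // i ∈ I} ({j // j ∈ J} ⊕ {k // k ∈ K}) {i // i ∈ I ∧ i ∈ K} where
  s := sE P hA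
  x := xE P hA
  y := yE P hA
  w := wE P D I J K
  t := tE P D I J K
  ss := by
    intro p q r hpq hqr hpr
    apply Subtype.ext
    simp only [Subgroup.coe_mul, sE_coe P hA hpq, sE_coe P hA hqr, sE_coe P hA hpr]
    exact EE1 P (en_ne hA hpq) (en_ne hA hqr) (en_ne hA hpr)
  ss_comm := by
    intro p q r u hpq hru hqr hpu
    apply Subtype.ext
    simp only [Subgroup.coe_mul, sE_coe P hA hpq, sE_coe P hA hru]
    exact (P.EE_comm _ _ _ _ _ _ (en_ne hA hpq) (en_ne hA hru) (en_ne hA hqr) (en_ne hA hpu)).eq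
  xs := by
    intro a p q hpq
    apply Subtype.ext
    simp only [Subgroup.coe_mul, sE_coe P hA hpq, xE]
    exact EE1 P (hDI hA (en hA p).2 a.2).symm (en_ne hA hpq) (hDI hA (en hA q).2 a.2).symm
  xs_comm := by
    intro a r p q hpq hrp
    apply Subtype.ext
    simp only [Subgroup.coe_mul, sE_coe P hA hpq, xE]
    exact (P.EE_comm _ _ _ _ _ _ (hDI hA (en hA r).2 a.2).symm (en_ne hA hpq) (en_ne hA hrp)
      (hDI hA (en hA q).2 a.2).symm).eq
  xx_comm := by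
    intro a p b q
    apply Subtype.ext
    simp only [Subgroup.coe_mul, xE]
    exact (P.EE_comm _ _ _ _ _ _ (hDI hA (en hA p).2 a.2).symm (hDI hA (en hA q).2 b.2).symm
      (hDI hA (en hA p).2 b.2) (hDI hA (en hA q).2 a.2).symm).eq
  sy := by
    intro p q b hpq
    apply Subtype.ext
    rcases b with j | k
    · simp only [Subgroup.coe_mul, sE_coe P hA hpq, yE]
      exact EE1 P (en_ne hA hpq) (hDJ hA (en hA q).2 j.2) (hDJ hA (en hA p).2 j.2)
    · simp only [Subgroup.coe_mul, sE_coe P hA hpq, yE]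
      exact EN1 P (en_ne hA hpq) (hDK hA (en hA p).2 k.2).symm (hDK hA (en hA q).2 k.2).symm
  sy_comm := by
    intro p q r b hpq hrq
    apply Subtype.ext
    rcases b with j | k
    · simp only [Subgroup.coe_mul, sE_coe P hA hpq, yE]
      exact (P.EE_comm _ _ _ _ _ _ (en_ne hA hpq) (hDJ hA (en hA r).2 j.2) (en_ne hA hrq.symm)
        (hDJ hA (en hA p).2 j.2)).eq
    · simp only [Subgroup.coe_mul, sE_coe P hA hpq, yE]
      exact (P.EN_comm _ _ _ _ _ _ (en_ne hA hpq) (en_ne hA hrq.symm) (hDK hA (en hA q).2 k.2)).eq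
  yy_comm := by
    intro p b q c
    apply Subtype.ext
    rcases b with j | k <;> rcases c with j' | k'
    · simp only [Subgroup.coe_mul, yE]
      exact (P.EE_comm _ _ _ _ _ _ (hDJ hA (en hA p).2 j.2) (hDJ hA (en hA q).2 j'.2)
        (hDJ hA (en hA q).2 j.2).symm (hDJ hA (en hA p).2 j'.2)).eq
    · simp only [Subgroup.coe_mul, yE]
      exact (P.EN_comm _ _ _ _ _ _ (hDJ hA (en hA p).2 j.2) (hDJ hA (en hA q).2 j.2).symm
        (hJK hA j.2 k'.2)).eq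
    · simp only [Subgroup.coe_mul, yE]
      exact (P.EN_comm _ _ _ _ _ _ (hDJ hA (en hA q).2 j'.2) (hDJ hA (en hA p).2 j'.2).symm
        (hJK hA j'.2 k.2)).symm.eq
    · simp only [Subgroup.coe_mul, yE]
      exact (P.NN_comm _ _ _ _ _ _).eq
  xy := by
    intro a p b
    apply Subtype.ext
    rcases b with j | k
    · simp only [Subgroup.coe_mul, xE, yE, wE]
      exact EE1 P (hDI hA (en hA p).2 a.2).symm (hDJ hA (en hA p).2 j.2) (hIJ hA a.2 j.2)
    · by_cases hak : (a : ι) = k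
      · simp only [Subgroup.coe_mul, xE, yE, wE, if_pos hak]
        rw [← hak, N_two]
        exact ENi1 P (hDI hA (en hA p).2 a.2).symm
      · simp only [Subgroup.coe_mul, xE, yE, wE, if_neg hak]
        exact EN1 P (hDI hA (en hA p).2 a.2).symm (fun h => hak h.symm)
          (hDK hA (en hA p).2 k.2).symm
  xy_comm := by
    intro a p q b hpq
    apply Subtype.ext
    rcases b with j | k
    · simp only [Subgroup.coe_mul, xE, yE]
      exact (P.EE_comm _ _ _ _ _ _ (hDI hA (en hA p).2 a.2).symm (hDJ hA (en hA q).2 j.2)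
        (en_ne hA hpq) (hIJ hA a.2 j.2)).eq
    · simp only [Subgroup.coe_mul, xE, yE]
      exact (P.EN_comm _ _ _ _ _ _ (hDI hA (en hA p).2 a.2).symm (en_ne hA hpq)
        (hDK hA (en hA p).2 k.2)).eq
  w_cen := by
    intro a b g
    apply Subtype.ext
    rcases b with j | k
    · simp only [Subgroup.coe_mul, wE]
      exact (cen_ij P hA a.2 j.2 g g.2).eq
    · by_cases hak : (a : ι) = k
      · simp only [Subgroup.coe_mul, wE, if_pos hak]
        exact ((cen_ik P hA a.2 k.2 1 g g.2).mul_left (cen_ik P hA a.2 k.2 1 g g.2)).eq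
      · simp only [Subgroup.coe_mul, wE, if_neg hak]
        exact (cen_ik P hA a.2 k.2 1 g g.2).eq
  t_cen := by
    intro c g
    apply Subtype.ext
    simp only [Subgroup.coe_mul, tE]
    exact (cen_ik P hA c.2.1 c.2.2 1 g g.2).eq
  t_sq := by
    intro c
    refine ⟨⟨c, c.2.1⟩, Sum.inr ⟨c, c.2.2⟩, ?_⟩
    apply Subtype.ext
    simp only [Subgroup.coe_mul, tE, wE, if_true]
  gen := by
    intro L hs hx hy hw ht g
    have hle : TT P D I J K ≤ L.map (TT P D I J K).subtype := by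
      refine (Subgroup.closure_le _).2 ?_
      rintro g (⟨p, hp, q, hq, h, rfl⟩ | ⟨i, hi, p, hp, rfl⟩ | ⟨p, hp, j, hj, rfl⟩ |
        ⟨p, hp, k, hk, rfl⟩ | ⟨i, hi, j, hj, rfl⟩ | ⟨i, hi, k, hk, rfl⟩)
      · have ep : ((en hA ((en hA).symm ⟨p, hp⟩) : {p // p ∈ D}) : ι) = p := by simp
        have eq : ((en hA ((en hA).symm ⟨q, hq⟩) : {p // p ∈ D}) : ι) = q := by simp
        have hne : (en hA).symm ⟨p, hp⟩ ≠ (en hA).symm ⟨q, hq⟩ := by
          intro hh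
          exact h (congrArg Subtype.val ((en hA).symm.injective hh))
        refine ⟨_, hs _ _ hne, ?_⟩
        show ((sE P hA _ _ : TT P D I J K) : G) = _
        rw [sE_coe P hA hne, ep, eq]
      · have ep : ((en hA ((en hA).symm ⟨p, hp⟩) : {p // p ∈ D}) : ι) = p := by simp
        refine ⟨_, hx ⟨i, hi⟩ ((en hA).symm ⟨p, hp⟩), ?_⟩
        show P.E i (en hA ((en hA).symm ⟨p, hp⟩)) 1 = _
        rw [ep]
      · have ep : ((en hA ((en hA).symm ⟨p, hp⟩) : {p // p ∈ D}) : ι) = p := by simp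
        refine ⟨_, hy ((en hA).symm ⟨p, hp⟩) (Sum.inl ⟨j, hj⟩), ?_⟩
        show P.E (en hA ((en hA).symm ⟨p, hp⟩)) j 1 = _
        rw [ep]
      · have ep : ((en hA ((en hA).symm ⟨p, hp⟩) : {p // p ∈ D}) : ι) = p := by simp
        refine ⟨_, hy ((en hA).symm ⟨p, hp⟩) (Sum.inr ⟨k, hk⟩), ?_⟩
        show P.N (en hA ((en hA).symm ⟨p, hp⟩)) k 1 = _
        rw [ep]
      · exact ⟨_, hw ⟨i, hi⟩ (Sum.inl ⟨j, hj⟩), rfl⟩
      · by_cases hik : i = k
        · subst hik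
          exact ⟨_, ht ⟨i, hi, hk⟩, rfl⟩
        · refine ⟨_, hw ⟨i, hi⟩ (Sum.inr ⟨k, hk⟩), ?_⟩
          simp only [wE, if_neg hik]
          rfl
    obtain ⟨x, hx1, hx2⟩ := hle g.2
    have : x = g := Subtype.ext hx2
    rw [← this]
    exact hx1

end

open scoped Classical in
theorem main (c4 : C4P) (c5 : C5P) (c6 : C6P) : CP := by
  intro ι G _ P D I J K hA
  have : Fintype {i // i ∈ I ∧ i ∈ K} :=
    Fintype.ofInjective (fun c => (⟨c.1, c.2.1⟩ : {i // i ∈ I})) (by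
      intro a b hab
      exact Subtype.ext (congrArg (fun z : {i // i ∈ I} => z.1) hab))
  exact abstr (td P hA) c4 c5 c6

end

end Pool.Agent.helper987_SE.C7
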