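import Pool.Agent.helper987_SE.Stm

/-!
# Project SE (helper987), part D1 (helper348): the power homomorphisms of the groups `T_I^D(J,K)`
-/

set_option autoImplicit false
set_option maxHeartbeats 400000

open Filter Topology Finset

namespace Pool.Agent.helper987_SE.D1

open Pool.Agent.helper987_SE

theorem gens_finite {ι : Type} {G : Type} [Group G] (P : SpRel ι G) (D I J K : Finset ι) :
    (gens P D I J K).Finite := by
  classical
  have h : gens P D I J K ⊆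
      ((fun x : ι × ι => P.E x.1 x.2 1) '' ((D ×ˢ D : Finset (ι × ι)) : Set (ι × ι))) ∪
      ((fun x : ι × ι => P.E x.1 x.2 1) '' ((I ×ˢ D : Finset (ι × ι)) : Set (ι × ι))) ∪
      ((fun x : ι × ι => P.E x.1 x.2 1) '' ((D ×ˢ J : Finset (ι × ι)) : Set (ι × ι))) ∪
      ((fun x : ι × ι => P.N x.1 x.2 1) '' ((D ×ˢ K : Finset (ι × ι)) : Set (ι × ι))) ∪
      ((fun x : ι × ι => P.E x.1 x.2 1) '' ((I ×ˢ J : Finset (ι × ι)) : Set (ι × ι))) ∪
      ((fun x : ι × ι => P.N x.1 x.2 1) '' ((I ×ˢ K : Finset (ι × ι)) : Set (ι × ι))) := by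
    rintro g (⟨p, hp, q, hq, -, rfl⟩ | ⟨i, hi, p, hp, rfl⟩ | ⟨p, hp, j, hj, rfl⟩ |
      ⟨p, hp, k, hk, rfl⟩ | ⟨i, hi, j, hj, rfl⟩ | ⟨i, hi, k, hk, rfl⟩)
    · exact Or.inl (Or.inl (Or.inl (Or.inl (Or.inl ⟨(p, q), by simp [hp, hq], rfl⟩))))
    · exact Or.inl (Or.inl (Or.inl (Or.inl (Or.inr ⟨(i, p), by simp [hi, hp], rfl⟩))))
    · exact Or.inl (Or.inl (Or.inl (Or.inr ⟨(p, j), by simp [hp, hj], rfl⟩)))
    · exact Or.inl (Or.inl (Or.inr ⟨(p, k), by simp [hp, hk], rfl⟩))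
    · exact Or.inl (Or.inr ⟨(i, j), by simp [hi, hj], rfl⟩)
    · exact Or.inr ⟨(i, k), by simp [hi, hk], rfl⟩
  refine Set.Finite.subset ?_ h
  exact (((((Finset.finite_toSet _).image _).union ((Finset.finite_toSet _).image _)).union
    ((Finset.finite_toSet _).image _)).union ((Finset.finite_toSet _).image _)).union
    ((Finset.finite_toSet _).image _) |>.union ((Finset.finite_toSet _).image _)

theorem exists_gamma {ι : Type} {G : Type} [Group G] (P : SpRel ι G) (D I J K : Finset ι) :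
    ∃ (k : ℕ) (γ : FreeGroup (Fin k) →* TT P D I J K), Function.Surjective γ := by
  have h1 : Group.FG (TT P D I J K) := by
    rw [Group.fg_iff_subgroup_fg]
    obtain ⟨S, hS⟩ := (gens_finite P D I J K).exists_finset_coe
    exact ⟨S, by rw [hS]; rfl⟩
  obtain ⟨α, hα, φ, hφ⟩ := Group.fg_iff_exists_freeGroup_hom_surjective_finite.1 h1
  obtain ⟨n, ⟨e⟩⟩ := Finite.exists_equiv_fin α
  refine ⟨n, φ.comp (FreeGroup.freeGroupCongr e).symm.toMonoidHom, ?_⟩
  exact hφ.comp (FreeGroup.freeGroupCongr e).symm.surjective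

theorem main (hA4 : A4P) (hB : BP) (hC : CP) : PwP := by
  intro A _ _ G _ P α D I J K hadm v hv hcen
  obtain ⟨k, γ, hγ⟩ := exists_gamma P D I J K
  have hT : TPres (TT P D I J K) k γ := ⟨hC _ G P D I J K hadm, hγ⟩
  obtain ⟨r, hr1, hr2, hr3, hr4⟩ := hB (TT P D I J K) k γ hT A (rst α (TT P D I J K)) ⟨v, hv⟩
    (fun t => Subtype.ext (hcen t.1 t.2))
  refine ⟨r, hr1, hr2, ?_, ?_, ?_⟩
  · intro m t ht
    exact hr3 m ⟨t, ht⟩
  · intro s hs m
    exact hr4 m s fun t => hs t.1 t.2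
  · intro r' hr' h1 h2
    funext m
    exact (hA4 A (TT P D I J K) (rst α (TT P D I J K)) r r' hr1 hr' hr3
      (fun m t => h2 m t.1 t.2) hr4 (hr2.trans h1.symm) m).symm

end Pool.Agent.helper987_SE.D1
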