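import Pool.Agent.helper987_SE.D3a

/-!
# Project SE: auxiliary group identities for Section 4
-/

set_option autoImplicit false
set_option maxHeartbeats 400000

namespace Pool.Agent.helper987_SE.D3

theorem add_aux {H : Type} [Group H] (e N M : (ℕ → ℤ) → H) (he : ∀ a b, e (a + b) = e a * e b)
    (hN : ∀ a b, N (a + b) = N a * N b) (hM : ∀ a b, M (a + b) = M a * M b)
    (cEM : ∀ x y, Commute (e x) (M y)) (cNM : ∀ x y, Commute (N x) (M y))
    (hR : ∀ l m, e l * N m * (e l)⁻¹ = N m * M (2 * l * m)) (a b : ℕ → ℤ) :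
    e (a + b) * N (-(a + b)) * M ((a + b) * (a + b)) =
      (e a * N (-a) * M (a * a)) * (e b * N (-b) * M (b * b)) := by
  have hM0 : M 0 = 1 := by
    have := hM 0 0
    rw [add_zero] at this
    exact left_eq_mul.mp this
  have h1 : e b * N (-a) = N (-a) * M (2 * b * (-a)) * e b := by
    rw [← hR]; group
  have h2 : M (2 * b * (-a)) * M (2 * a * b) = 1 := by
    rw [← hM, ← hM0]
    congr 1
    ring
  have h3 : N (-a) * e b = e b * N (-a) * M (2 * a * b) := by
    rw [h1, mul_assoc, (cEM b (2 * a * b)).eq, ← mul_assoc, mul_assoc (N (-a)), h2, mul_one]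
  have e1 : (a + b) * (a + b) = 2 * a * b + a * a + b * b := by ring
  have e2 : -(a + b) = -a + -b := by ring
  symm
  calc (e a * N (-a) * M (a * a)) * (e b * N (-b) * M (b * b))
      = e a * N (-a) * (M (a * a) * e b) * N (-b) * M (b * b) := by simp only [mul_assoc]
    _ = e a * (N (-a) * e b) * (M (a * a) * N (-b)) * M (b * b) := by
        rw [(cEM b (a * a)).eq.symm]; simp only [mul_assoc]
    _ = e a * (e b * N (-a) * M (2 * a * b)) * (N (-b) * M (a * a)) * M (b * b) := by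
        rw [h3, (cNM (-b) (a * a)).eq]
    _ = e a * e b * N (-a) * (M (2 * a * b) * N (-b)) * M (a * a) * M (b * b) := by
        simp only [mul_assoc]
    _ = e a * e b * (N (-a) * N (-b)) * (M (2 * a * b) * M (a * a) * M (b * b)) := by
        rw [(cNM (-b) (2 * a * b)).eq.symm]; simp only [mul_assoc]
    _ = _ := by rw [e1, e2, he, hN, hM, hM]

/-- the computation with `k = E p j · N p j(-1) · N p p` in (C2) -/
theorem k_aux {H : Type} [Group H] {x y z w E N1 N2 : H} (hzE : Commute z E) (hz1 : Commute z N1)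
    (hz2 : Commute z N2) (hyE : y * E * y⁻¹ = w * E) (hy1 : Commute y N1) (hy2 : Commute y N2)
    (hxE : Commute x E) (hx1 : x * N1 * x⁻¹ = N1 * w⁻¹) (hx2 : Commute x N2)
    (hxw : Commute x w) (hwE : Commute w E) (hw1 : Commute w N1) (hw2 : Commute w N2) :
    Commute (x * y * z) (E * N1 * N2) := by
  have h1 : z * (E * N1 * N2) * z⁻¹ = E * N1 * N2 := by
    have : Commute z (E * N1 * N2) := (hzE.mul_right hz1).mul_right hz2
    rw [this.eq]; group
  have h2 : y * (E * N1 * N2) * y⁻¹ = w * (E * N1 * N2) := by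
    have e1 : y * (E * N1 * N2) * y⁻¹ = (y * E * y⁻¹) * (y * N1 * y⁻¹) * (y * N2 * y⁻¹) := by
      group
    rw [e1, hyE, hy1.eq, hy2.eq]; group
  have h3 : x * (w * (E * N1 * N2)) * x⁻¹ = E * N1 * N2 := by
    have e1 : x * (w * (E * N1 * N2)) * x⁻¹ =
        (x * w * x⁻¹) * (x * E * x⁻¹) * (x * N1 * x⁻¹) * (x * N2 * x⁻¹) := by group
    rw [e1, hxw.eq, hxE.eq, hx1, hx2.eq]
    have e2 : w * x * x⁻¹ * (E * x * x⁻¹) * (N1 * w⁻¹) * (N2 * x * x⁻¹) =
        w * (E * N1) * w⁻¹ * N2 := by group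
    rw [e2, (hwE.mul_right hw1).eq]
    group
  have h4 : x * y * z * (E * N1 * N2) * (x * y * z)⁻¹ = E * N1 * N2 := by
    calc x * y * z * (E * N1 * N2) * (x * y * z)⁻¹
        = x * (y * (z * (E * N1 * N2) * z⁻¹) * y⁻¹) * x⁻¹ := by group
      _ = E * N1 * N2 := by rw [h1, h2, h3]
  exact mul_inv_eq_iff_eq_mul.1 h4

end Pool.Agent.helper987_SE.D3
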