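import Pool.Agent.helper987_SE.D3d
import Pool.Agent.helper987_SE.D3x

/-!
# Project SE: Section 4, the nonstandard relations
-/

set_option autoImplicit false
set_option maxHeartbeats 400000

open Filter Topology Finset
open scoped Classical

namespace Pool.Agent.helper987_SE.D3

open Helper418 Pool.Agent.helper987_SE

section
variable {A : ℕ → Type} [∀ n, Fintype (A n)] [∀ n, Nonempty (A n)] {G : Type} [Group G]
  (P : SpRel (Fin 26) G) (α : G →* SS A) (hP : PwP)
include hP

/-- the powers of `E i j 1` do not depend on the auxiliary block -/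
theorem eAB {i j : Fin 26} (hi : i ∈ RR) (hj : j ∈ RR) (hij : i ≠ j) :
    eP P α DA i j = eP P α DB i j := by
  refine (eP_spec P α hP pairA (RR_DA hi) (RR_DA hj) hij).eq₂
    (eP_spec P α hP pairB (RR_DB hi) (RR_DB hj) hij) ?_
  exact EC_TT P (admE pairA (RR_DA hi) (RR_DA hj) hij) (admE pairB (RR_DB hi) (RR_DB hj) hij)
    disj_AB (disj_sing (RR_DA hi)) (disj_sing (RR_DA hj)) (by simp)
    (sing_disj' (RR_DB hi)) (sing_disj' (RR_DB hj)) (by simp) (sing_disj hij)
    (sing_disj hij.symm) (by simp) (by simp)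

/-- the powers of `N i j 1` do not depend on the auxiliary block -/
theorem nAB {i j : Fin 26} (hi : i ∈ RR) (hj : j ∈ RR) :
    nP P α DB DA i j = nP P α DA DB i j := by
  refine (nP_spec' P α hP pairB (mem_union_left _ hi) (mem_union_left _ hj)).eq₂
    (nP_spec' P α hP pairA (mem_union_left _ hi) (mem_union_left _ hj)) ?_
  exact EC_TT P (admN pairB (RR_DB hi) (RR_DB hj)) (admN pairA (RR_DA hi) (RR_DA hj))
    disj_BA (disj_sing (RR_DB hi)) (by simp) (disj_sing (RR_DB hj))
    (sing_disj' (RR_DA hi)) (by simp) (sing_disj' (RR_DA hj)) (by simp) (by simp) (by simp)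
    (by simp)

/-- (A) -/
theorem rA {i j a b : Fin 26} (hi : i ∈ RR) (hj : j ∈ RR) (ha : a ∈ RR) (hb : b ∈ RR)
    (hij : i ≠ j) (hja : j ≠ a) (hjb : j ≠ b) (l m : ℕ → ℤ) :
    Commute (eP P α DA i j l) (nP P α DB DA a b m) := by
  refine (eP_spec P α hP pairA (RR_DA hi) (RR_DA hj) hij).comm₂
    (nP_spec' P α hP pairB (mem_union_left _ ha) (mem_union_left _ hb)) ?_ l m
  exact EC_TT P (admE pairA (RR_DA hi) (RR_DA hj) hij) (admN pairB (RR_DB ha) (RR_DB hb))
    disj_AB (disj_sing (RR_DA ha)) (by simp) (disj_sing (RR_DA hb))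
    (sing_disj' (RR_DB hi)) (sing_disj' (RR_DB hj)) (by simp) (by simp)
    (sing_disj hja) (sing_disj hjb) (by simp)

/-- `nP DB DA a b`, `a, b ∈ RR`, commutes with the images of the elements of both big groups -/
theorem n_cenB {a b : Fin 26} (ha : a ∈ RR) (hb : b ∈ RR) (m : ℕ → ℤ) :
    ∀ t ∈ TT P DB (RR ∪ DA) ∅ (RR ∪ DA), Commute (nP P α DB DA a b m) (α t) :=
  (nP_spec P α hP pairB (mem_union_left _ ha) (mem_union_left _ hb)).cen m

theorem n_cenA {a b : Fin 26} (ha : a ∈ RR) (hb : b ∈ RR) (m : ℕ → ℤ) :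
    ∀ t ∈ TT P DA (RR ∪ DB) ∅ (RR ∪ DB), Commute (nP P α DB DA a b m) (α t) := by
  rw [nAB P α hP ha hb]
  exact (nP_spec P α hP pairA (mem_union_left _ ha) (mem_union_left _ hb)).cen m

/-- commutation of the powers of the `N a b` (block `DB`) with those of `N i q`, `q ∈ DB` -/
theorem n_commq {a b i q : Fin 26} (ha : a ∈ RR) (hb : b ∈ RR) (hi : i ∈ RR) (hq : q ∈ DB)
    (l m : ℕ → ℤ) : Commute (nP P α DB DA a b m) (nP P α DA DB i q l) := by
  rw [nAB P α hP ha hb]
  exact nn_comm P α hP pairA (mem_union_left _ ha) (mem_union_left _ hb) (mem_union_left _ hi)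
    (mem_union_right _ hq) m l

/-- the general step for (B), (B'), (C) -/
theorem step {i j a : Fin 26} (hi : i ∈ RR) (hj : j ∈ RR) (ha : a ∈ RR) (hij : i ≠ j)
    (l : ℕ → ℤ) (r : (ℕ → ℤ) → SS A) (hr : IsI r)
    (h0 : ∀ m, ∀ p ∈ DB, ∀ q ∈ DB, p ≠ q → Commute (r m) (α (P.E p q 1)))
    (h1 : ∀ m, ∀ q ∈ DB, Commute (r m)
      (eP P α DA i j l * α (P.E a q 1) * (eP P α DA i j l)⁻¹))
    (h2 : ∀ m, ∀ q ∈ DB, Commute (r m) (nP P α DA DB i q l * α (P.N j q 1)))
    (h3 : r (fun _ => 1) = eP P α DA i j l * α (P.N a j 1) * (eP P α DA i j l)⁻¹)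
    (m : ℕ → ℤ) :
    eP P α DA i j l * nP P α DB DA a j m * (eP P α DA i j l)⁻¹ = r m := by
  have hS := nP_spec' P α hP pairB (i := a) (j := j) (mem_union_left _ ha) (mem_union_left _ hj)
  refine hS.twist hr h3 (fun m => comm_closure (fun t ht => ?_)) m
  rcases ht with ⟨p, hp, q, hq, hpq, rfl⟩ | ⟨i', hi', q, hq, rfl⟩ | ⟨p, hp, j', hj', rfl⟩ |
    ⟨q, hq, k, hk, rfl⟩ | ⟨i', hi', j', hj', rfl⟩ | ⟨i', hi', k, hk, rfl⟩
  · have e1 : eP P α DA i j l * α (P.E p q 1) * (eP P α DA i j l)⁻¹ = α (P.E p q 1) := by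
      rw [eAB P α hP hi hj hij]
      have := (eP_spec P α hP pairB (RR_DB hi) (RR_DB hj) hij).cen l _
        (mem_EDD P hp hq hpq)
      rw [this.eq]; group
    rw [e1]
    exact h0 m p hp q hq hpq
  · rw [mem_singleton] at hi'
    rw [hi']
    exact h1 m q hq
  · simp at hj'
  · rw [mem_singleton] at hk
    rw [hk, P.N_symm q j 1]
    rw [rB1 P α hP pairA hi hj (mem_union_right _ hq) hij (ne_of_mem hi (DB_RR hq)).symm
      (ne_of_mem hj (DB_RR hq)).symm l]
    exact h2 m q hq
  · simp at hj'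
  · rw [mem_singleton] at hi' hk
    rw [hi', hk, ← h3]
    show r m * r (fun _ => 1) = r (fun _ => 1) * r m
    rw [← hr.1, ← hr.1, add_comm]

omit hP in
theorem E_pq_mem {p q : Fin 26} (hp : p ∈ DB) (hq : q ∈ DB) (h : p ≠ q) :
    P.E p q 1 ∈ TT P DB (RR ∪ DA) ∅ (RR ∪ DA) := mem_EDD P hp hq h

/-- (B) -/
theorem rB {i j b : Fin 26} (hi : i ∈ RR) (hj : j ∈ RR) (hb : b ∈ RR) (hij : i ≠ j)
    (hbi : b ≠ i) (hbj : b ≠ j) (l m : ℕ → ℤ) :
    eP P α DA i j l * nP P α DB DA b j m * (eP P α DA i j l)⁻¹ =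
      nP P α DB DA b j m * nP P α DB DA i b (l * m) := by
  have hcc := fun a b c d (ha : a ∈ RR) (hb : b ∈ RR) (hc : c ∈ RR) (hd : d ∈ RR) =>
    nn_comm P α hP pairB (mem_union_left DA ha) (mem_union_left DA hb) (mem_union_left DA hc)
      (mem_union_left DA hd)
  have hspec := fun a b (ha : a ∈ RR) (hb : b ∈ RR) =>
    nP_spec P α hP pairB (mem_union_left DA ha) (mem_union_left DA hb)
  refine step P α hP hi hj hb hij l
    (fun m => nP P α DB DA b j m * nP P α DB DA i b (l * m))
    ((hspec b j hb hj).int.mul ((hspec i b hi hb).int.smul l)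
      fun x y => hcc b j i b hb hj hi hb x _) ?_ ?_ ?_ ?_ m
  · intro m p hp q hq hpq
    exact (n_cenB P α hP hb hj m _ (E_pq_mem P hp hq hpq)).mul_left
      (n_cenB P α hP hi hb _ _ (E_pq_mem P hp hq hpq))
  · intro m q hq
    have e1 : eP P α DA i j l * α (P.E b q 1) * (eP P α DA i j l)⁻¹ = α (P.E b q 1) := by
      have := (eP_spec P α hP pairA (RR_DA hi) (RR_DA hj) hij).comm (g := P.E b q 1)
        (comm_E P (admE pairA (RR_DA hi) (RR_DA hj) hij) (ne_of_mem hb (DB_RR hq)) (RR_DA hb) (DB_DA hq)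
          (by simpa using (ne_of_mem hi (DB_RR hq)).symm) (by simpa using hbj) (by simp) 1) l
      rw [this.eq]; group
    rw [e1]
    have h := mem_EID P (I := RR ∪ DA) (J := ∅) (K := RR ∪ DA) (mem_union_left DA hb) hq
    exact (n_cenB P α hP hb hj m _ h).mul_left (n_cenB P α hP hi hb _ _ h)
  · intro m q hq
    have h := mem_NIK P (D := DA) (J := ∅) (mem_union_left DB hj) (mem_union_right RR hq)
    refine Commute.mul_right ?_ ?_
    · exact (n_commq P α hP hb hj hi hq l m).mul_left (n_commq P α hP hi hb hi hq l _)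
    · exact (n_cenA P α hP hb hj m _ h).mul_left (n_cenA P α hP hi hb _ _ h)
  · show nP P α DB DA b j (fun _ => 1) * nP P α DB DA i b (l * fun _ => 1) = _
    rw [P.N_symm b j 1, rB1 P α hP pairA hi hj (mem_union_left _ hb) hij hbi hbj l,
      (hspec b j hb hj).one, P.N_symm b j 1, ← nAB P α hP hi hb]
    have h := mem_NIK P (D := DB) (J := ∅) (mem_union_left DA hj) (mem_union_left DA hb)
    rw [show (l * fun _ => 1 : ℕ → ℤ) = l by funext n; simp]
    exact ((n_cenB P α hP hi hb l _ h).symm).eq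

/-- (B') -/
theorem rB' {i j : Fin 26} (hi : i ∈ RR) (hj : j ∈ RR) (hij : i ≠ j) (l m : ℕ → ℤ) :
    eP P α DA i j l * nP P α DB DA i j m * (eP P α DA i j l)⁻¹ =
      nP P α DB DA i j m * nP P α DB DA i i (2 * l * m) := by
  have hcc := fun a b c d (ha : a ∈ RR) (hb : b ∈ RR) (hc : c ∈ RR) (hd : d ∈ RR) =>
    nn_comm P α hP pairB (mem_union_left DA ha) (mem_union_left DA hb) (mem_union_left DA hc)
      (mem_union_left DA hd)
  have hspec := fun a b (ha : a ∈ RR) (hb : b ∈ RR) =>
    nP_spec P α hP pairB (mem_union_left DA ha) (mem_union_left DA hb)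
  refine step P α hP hi hj hi hij l
    (fun m => nP P α DB DA i j m * nP P α DB DA i i (2 * l * m))
    ((hspec i j hi hj).int.mul ((hspec i i hi hi).int.smul (2 * l))
      fun x y => hcc i j i i hi hj hi hi x _) ?_ ?_ ?_ ?_ m
  · intro m p hp q hq hpq
    exact (n_cenB P α hP hi hj m _ (E_pq_mem P hp hq hpq)).mul_left
      (n_cenB P α hP hi hi _ _ (E_pq_mem P hp hq hpq))
  · intro m q hq
    have e1 : eP P α DA i j l * α (P.E i q 1) * (eP P α DA i j l)⁻¹ = α (P.E i q 1) := by
      rw [eAB P α hP hi hj hij]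
      have := (eP_spec P α hP pairB (RR_DB hi) (RR_DB hj) hij).cen l _
        (mem_EID P (mem_singleton_self i) hq)
      rw [this.eq]; group
    rw [e1]
    have h := mem_EID P (I := RR ∪ DA) (J := ∅) (K := RR ∪ DA) (mem_union_left DA hi) hq
    exact (n_cenB P α hP hi hj m _ h).mul_left (n_cenB P α hP hi hi _ _ h)
  · intro m q hq
    have h := mem_NIK P (D := DA) (J := ∅) (mem_union_left DB hj) (mem_union_right RR hq)
    refine Commute.mul_right ?_ ?_
    · exact (n_commq P α hP hi hj hi hq l m).mul_left (n_commq P α hP hi hi hi hq l _)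
    · exact (n_cenA P α hP hi hj m _ h).mul_left (n_cenA P α hP hi hi _ _ h)
  · show nP P α DB DA i j (fun _ => 1) * nP P α DB DA i i (2 * l * fun _ => 1) = _
    rw [P.N_symm i j 1, rB3 P α hP pairA hi hj hij l,
      (hspec i j hi hj).one, P.N_symm i j 1, ← nAB P α hP hi hi]
    have h := mem_NIK P (D := DB) (J := ∅) (mem_union_left DA hj) (mem_union_left DA hi)
    rw [show (2 * l * fun _ => 1 : ℕ → ℤ) = 2 * l by funext n; simp]
    exact ((n_cenB P α hP hi hi (2 * l) _ h).symm).eq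

/-- (C2) -/
theorem rC2 {i j : Fin 26} (hi : i ∈ RR) (hj : j ∈ RR) (hij : i ≠ j) (l : ℕ → ℤ) :
    α (P.N j j 1) * eP P α DA i j l * (α (P.N j j 1))⁻¹ =
      eP P α DA i j l * nP P α DB DA i j (-l) * nP P α DB DA i i (l * l) := by
  have hspec := fun a b (ha : a ∈ RR) (hb : b ∈ RR) =>
    nP_spec P α hP pairB (mem_union_left DA ha) (mem_union_left DA hb)
  have hE := eP_spec P α hP pairA (RR_DA hi) (RR_DA hj) hij
  have hE' := eP_spec P α hP pairB (RR_DB hi) (RR_DB hj) hij
  have hcc := fun a b c d (ha : a ∈ RR) (hb : b ∈ RR) (hc : c ∈ RR) (hd : d ∈ RR) =>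
    nn_comm P α hP pairB (mem_union_left DA ha) (mem_union_left DA hb) (mem_union_left DA hc)
      (mem_union_left DA hd)
  -- `g` is an internal homomorphism
  have hgI : IsI fun l : ℕ → ℤ =>
      eP P α DA i j l * nP P α DB DA i j (-l) * nP P α DB DA i i (l * l) := by
    refine ⟨fun a b => ?_, ?_⟩
    · exact add_aux (eP P α DA i j) (nP P α DB DA i j) (nP P α DB DA i i) hE.int.1
        (hspec i j hi hj).int.1 (hspec i i hi hi).int.1
        (fun x y => rA P α hP hi hj hi hi hij hij.symm hij.symm x y)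
        (fun x y => hcc i j i i hi hj hi hi x y) (fun l m => rB' P α hP hi hj hij l m) a b
    · exact (hE.int.itl.mul ((hspec i j hi hj).int.itl.comp fun _ x => -x)).mul
        ((hspec i i hi hi).int.itl.comp fun _ x => x * x)
  have h11 : (fun l : ℕ → ℤ =>
      eP P α DA i j l * nP P α DB DA i j (-l) * nP P α DB DA i i (l * l)) (fun _ => 1) =
      α (P.N j j 1) * α (P.E i j 1) * (α (P.N j j 1))⁻¹ := by
    show eP P α DA i j (fun _ => 1) * nP P α DB DA i j (-fun _ => 1) *
      nP P α DB DA i i ((fun _ => 1) * fun _ => 1) = _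
    rw [(hspec i j hi hj).int.neg, show ((fun _ => 1) * fun _ => 1 : ℕ → ℤ) = fun _ => 1 by
      funext n; simp, hE.one, (hspec i j hi hj).one, (hspec i i hi hi).one, ← map_inv, ← map_inv,
      ← map_mul, ← map_mul, ← map_mul, ← map_mul, conj_N_E'' P hij, N_neg]
  refine hE.twist hgI h11 (fun m => comm_closure (fun t ht => ?_)) l
  rcases ht with ⟨p, hp, q, hq, hpq, rfl⟩ | ⟨i', hi', p, hp, rfl⟩ | ⟨p, hp, j', hj', rfl⟩ |
    ⟨q, hq, k, hk, rfl⟩ | ⟨i', hi', j', hj', rfl⟩ | ⟨i', hi', k, hk, rfl⟩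
  · -- `E p q` with `p, q ∈ DA`
    have hc : Commute (P.E p q 1) (P.N j j 1) :=
      P.EN_comm p q j j 1 1 hpq (ne_of_mem hq (RR_DA hj)) (ne_of_mem hq (RR_DA hj))
    have e1 : α (P.N j j 1) * α (P.E p q 1) * (α (P.N j j 1))⁻¹ = α (P.E p q 1) := by
      rw [(hc.map α).eq.symm]; group
    rw [e1]
    have h := mem_EDD P (D := DA) (I := RR ∪ DB) (J := ∅) (K := RR ∪ DB) hp hq hpq
    exact ((hE.cen m _ (mem_EDD P hp hq hpq)).mul_left (n_cenA P α hP hi hj _ _ h)).mul_left
      (n_cenA P α hP hi hi _ _ h)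
  · -- `E i p`
    rw [mem_singleton] at hi'
    rw [hi']
    have hip : i ≠ p := (ne_of_mem hp (RR_DA hi)).symm
    have hc : Commute (P.E i p 1) (P.N j j 1) :=
      P.EN_comm i p j j 1 1 hip (ne_of_mem hp (RR_DA hj)) (ne_of_mem hp (RR_DA hj))
    have e1 : α (P.N j j 1) * α (P.E i p 1) * (α (P.N j j 1))⁻¹ = α (P.E i p 1) := by
      rw [(hc.map α).eq.symm]; group
    rw [e1]
    have h := mem_EID P (D := DA) (I := RR ∪ DB) (J := ∅) (K := RR ∪ DB)
      (mem_union_left DB hi) hp
    exact ((hE.cen m _ (mem_EID P (mem_singleton_self i) hp)).mul_left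
      (n_cenA P α hP hi hj _ _ h)).mul_left (n_cenA P α hP hi hi _ _ h)
  · -- `E p j`
    rw [mem_singleton] at hj'
    rw [hj']
    have hpR := DA_RR hp
    have hpj : p ≠ j := ne_of_mem hp (RR_DA hj)
    have hpi : p ≠ i := ne_of_mem hp (RR_DA hi)
    have hwS := nP_spec P α hP pairB (i := i) (j := p) (mem_union_left DA hi)
      (mem_union_right RR hp)
    have hwS' := nP_spec' P α hP pairB (i := i) (j := p) (mem_union_left DA hi)
      (mem_union_right RR hp)
    have e1 : α (P.N j j 1) * α (P.E p j 1) * (α (P.N j j 1))⁻¹ =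
        α (P.E p j 1) * α (P.N p j (-1)) * α (P.N p p 1) := by
      rw [← map_inv, ← map_mul, ← map_mul, conj_N_E'' P hpj, map_mul, map_mul]
    rw [e1]
    have hN1 : P.N p j (-1) ∈ TT P DB (RR ∪ DA) ∅ (RR ∪ DA) := by
      rw [N_neg]
      exact (TT P DB (RR ∪ DA) ∅ (RR ∪ DA)).inv_mem
        (mem_NIK P (mem_union_right RR hp) (mem_union_left DA hj))
    have hN2 : P.N p p 1 ∈ TT P DB (RR ∪ DA) ∅ (RR ∪ DA) :=
      mem_NIK P (mem_union_right RR hp) (mem_union_right RR hp)
    have hxE : Commute (eP P α DA i j m) (α (P.E p j 1)) :=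
      hE.cen m _ (mem_EDJ P hp (mem_singleton_self j))
    refine k_aux (w := nP P α DB DA i p m) ?_ ?_ ?_ ?_ ?_ ?_ hxE ?_ ?_ ?_ ?_ ?_ ?_
    · exact (nP_spec' P α hP pairB (i := i) (j := i) (mem_union_left DA hi)
        (mem_union_left DA hi)).comm (comm_E P (admN pairB (RR_DB hi) (RR_DB hi)) hpj (DA_DB hp) (RR_DB hj) (by simpa using hij.symm)
          (by simp) (by simpa using hij.symm) 1) _
    · exact n_cenB P α hP hi hi _ _ hN1
    · exact n_cenB P α hP hi hi _ _ hN2
    · have := rN2 P α hP pairB hi hj hp hij hpR (-m)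
      rw [hwS.int.neg, inv_inv] at this
      exact this
    · exact n_cenB P α hP hi hj _ _ hN1
    · exact n_cenB P α hP hi hj _ _ hN2
    · have h1 := rB1 P α hP pairB hi hj (mem_union_right RR hp) hij hpi hpj m
      rw [← eAB P α hP hi hj hij] at h1
      rw [N_neg, map_inv, P.N_symm p j 1]
      have h2 : eP P α DA i j m * (α (P.N j p 1))⁻¹ * (eP P α DA i j m)⁻¹ =
          (eP P α DA i j m * α (P.N j p 1) * (eP P α DA i j m)⁻¹)⁻¹ := by group
      rw [h2, h1, mul_inv_rev]
    · rw [eAB P α hP hi hj hij]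
      exact hE'.comm (comm_N P (admE pairB (RR_DB hi) (RR_DB hj) hij) (DA_DB hp) (DA_DB hp) (by simpa using hpj) (by simpa using hpj) 1) m
    · -- both are powers in one group
      have h1 := admT pairB (RR_DB hi) (RR_DB hj) (DA_DB hp) hij hpj.symm
      have hT := pwr_TT P α hP h1
      have hv : CenIn (TT P DB {i} {j} {p}) (P.E i j 1) := cenE P h1 (by simp) (by simp)
      have hw : CenIn (TT P DB {i} {j} {p}) (P.N i p 1) := cenN P h1 (by simp) (by simp)
      have e1 : pw α (TT P DB {i} {j} {p}) (P.E i j 1) = eP P α DB i j :=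
        (pw_spec hT hv).mono hE' (TT_mono P subset_rfl subset_rfl subset_rfl (by simp))
      have e2 : pw α (TT P DB {i} {j} {p}) (P.N i p 1) = nP P α DB DA i p :=
        (pw_spec hT hw).mono hwS' (TT_mono P subset_rfl subset_rfl (by simp) subset_rfl)
      rw [eAB P α hP hi hj hij, ← e1, ← e2]
      exact (pw_spec hT hv).comm₁ (pw_spec hT hw) m m
    · exact hwS'.comm (comm_E P (admN pairB (RR_DB hi) (DA_DB hp)) hpj (DA_DB hp) (RR_DB hj) (by simpa using hij.symm) (by simp)
        (by simpa using hpj.symm) 1) m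
    · exact hwS.cen m _ hN1
    · exact hwS.cen m _ hN2
  · simp at hk
  · rw [mem_singleton] at hi' hj'
    rw [hi', hj', ← h11]
    show (fun l : ℕ → ℤ => _) m * (fun l : ℕ → ℤ => _) (fun _ => 1) =
      (fun l : ℕ → ℤ => _) (fun _ => 1) * (fun l : ℕ → ℤ => _) m
    rw [← hgI.1, ← hgI.1, add_comm]
  · simp at hk

/-- (C) -/
theorem rC {i j : Fin 26} (hi : i ∈ RR) (hj : j ∈ RR) (hij : i ≠ j) (l m : ℕ → ℤ) :
    eP P α DA i j l * nP P α DB DA j j m * (eP P α DA i j l)⁻¹ =
      nP P α DB DA j j m * nP P α DB DA i j (l * m) * nP P α DB DA i i (l * l * m) := by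
  have hcc := fun a b c d (ha : a ∈ RR) (hb : b ∈ RR) (hc : c ∈ RR) (hd : d ∈ RR) =>
    nn_comm P α hP pairB (mem_union_left DA ha) (mem_union_left DA hb) (mem_union_left DA hc)
      (mem_union_left DA hd)
  have hspec := fun a b (ha : a ∈ RR) (hb : b ∈ RR) =>
    nP_spec P α hP pairB (mem_union_left DA ha) (mem_union_left DA hb)
  have hE := eP_spec P α hP pairA (RR_DA hi) (RR_DA hj) hij
  -- everything which commutes with the three families commutes with `r`
  have hall : ∀ (x : SS A), (∀ m, Commute (nP P α DB DA j j m) x) →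
      (∀ m, Commute (nP P α DB DA i j m) x) → (∀ m, Commute (nP P α DB DA i i m) x) → ∀ m,
      Commute (nP P α DB DA j j m * nP P α DB DA i j (l * m) * nP P α DB DA i i (l * l * m)) x :=
    fun x h1 h2 h3 m => ((h1 m).mul_left (h2 _)).mul_left (h3 _)
  refine step P α hP hi hj hj hij l
    (fun m => nP P α DB DA j j m * nP P α DB DA i j (l * m) * nP P α DB DA i i (l * l * m))
    (((hspec j j hj hj).int.mul ((hspec i j hi hj).int.smul l)
      fun x y => hcc j j i j hj hj hi hj x _).mul ((hspec i i hi hi).int.smul (l * l))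
      fun x y => (hcc j j i i hj hj hi hi x _).mul_left (hcc i j i i hi hj hi hi _ _))
      ?_ ?_ ?_ ?_ m
  · intro m p hp q hq hpq
    have h := E_pq_mem P hp hq hpq
    exact hall _ (fun m => n_cenB P α hP hj hj m _ h) (fun m => n_cenB P α hP hi hj m _ h)
      (fun m => n_cenB P α hP hi hi m _ h) m
  · intro m q hq
    have hqR := DB_RR hq
    have hiq : i ≠ q := ne_of_mem hi hqR
    rw [rC1 P α hP pairA hi hj hq hij hqR l]
    have hEq := eP_spec P α hP pairA (RR_DA hi) (DB_DA hq) hiq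
    -- the powers of `N a b` commute with `e_iq(l)`
    have key : ∀ a ∈ RR, ∀ b ∈ RR, ∀ m, Commute (nP P α DB DA a b m) (eP P α DA i q l) := by
      intro a ha b hb m
      refine (hEq.dbl _ (fun t ht => ?_) l).symm
      have hgen : ∀ t ∈ gens P DA {i} {q} ∅,
          Commute (nP P α DB DA a b m) (1 * α t * (1 : SS A)⁻¹) := by
        intro t ht
        rw [one_mul, inv_one, mul_one]
        rcases ht with ⟨p, hp, p', hp', hpp, rfl⟩ | ⟨i', hi', p, hp, rfl⟩ |
          ⟨p, hp, j', hj', rfl⟩ | ⟨p, hp, k, hk, rfl⟩ | ⟨i', hi', j', hj', rfl⟩ |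
          ⟨i', hi', k, hk, rfl⟩
        · exact n_cenA P α hP ha hb m _ (mem_EDD P hp hp' hpp)
        · rw [mem_singleton] at hi'
          rw [hi']
          exact n_cenA P α hP ha hb m _ (mem_EID P (mem_union_left DB hi) hp)
        · rw [mem_singleton] at hj'
          rw [hj']
          exact n_cenB P α hP ha hb m _ (mem_EID P (mem_union_right RR hp) hq)
        · simp at hk
        · rw [mem_singleton] at hi' hj'
          rw [hi', hj']
          exact n_cenB P α hP ha hb m _ (mem_EID P (mem_union_left DA hi) hq)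
        · simp at hk
      have := comm_closure (α := α) hgen t ht
      simpa using this
    have h := mem_EID P (D := DB) (I := RR ∪ DA) (J := ∅) (K := RR ∪ DA)
      (mem_union_left DA hj) hq
    exact hall _ (fun m => (key j hj j hj m).mul_right (n_cenB P α hP hj hj m _ h))
      (fun m => (key i hi j hj m).mul_right (n_cenB P α hP hi hj m _ h))
      (fun m => (key i hi i hi m).mul_right (n_cenB P α hP hi hi m _ h)) m
  · intro m q hq
    have h := mem_NIK P (D := DA) (J := ∅) (mem_union_left DB hj) (mem_union_right RR hq)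
    exact hall _ (fun m => (n_commq P α hP hj hj hi hq l m).mul_right
        (n_cenA P α hP hj hj m _ h))
      (fun m => (n_commq P α hP hi hj hi hq l m).mul_right (n_cenA P α hP hi hj m _ h))
      (fun m => (n_commq P α hP hi hi hi hq l m).mul_right (n_cenA P α hP hi hi m _ h)) m
  · show nP P α DB DA j j (fun _ => 1) * nP P α DB DA i j (l * fun _ => 1) *
      nP P α DB DA i i (l * l * fun _ => 1) = _
    rw [show (l * fun _ => 1 : ℕ → ℤ) = l by funext n; simp,
      show (l * l * fun _ => 1 : ℕ → ℤ) = l * l by funext n; simp, (hspec j j hj hj).one]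
    have h1 := rC2 P α hP hi hj hij (-l)
    rw [hE.int.neg, neg_neg, show (-l) * (-l) = l * l by ring] at h1
    have hN : P.N j j 1 ∈ TT P DB (RR ∪ DA) ∅ (RR ∪ DA) :=
      mem_NIK P (mem_union_left DA hj) (mem_union_left DA hj)
    have c1 := n_cenB P α hP hi hj l _ hN
    have c2 := n_cenB P α hP hi hi (l * l) _ hN
    have h2 : eP P α DA i j l * α (P.N j j 1) * (eP P α DA i j l)⁻¹ =
        (nP P α DB DA i j l * nP P α DB DA i i (l * l)) * α (P.N j j 1) := by
      have : α (P.N j j 1) * (eP P α DA i j l)⁻¹ = (eP P α DA i j l)⁻¹ *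
          nP P α DB DA i j l * nP P α DB DA i i (l * l) * α (P.N j j 1) := by
        rw [← h1]; group
      rw [mul_assoc, this]; group
    rw [h2, (c1.mul_left c2).eq, mul_assoc]

/-- Section 4: the nonstandard root elements. -/
theorem exists_NS : Nonempty (NS P α) := by
  have hspec := fun a b (ha : a ∈ RR) (hb : b ∈ RR) =>
    nP_spec P α hP pairB (mem_union_left DA ha) (mem_union_left DA hb)
  have hE := fun i j (hi : i ∈ RR) (hj : j ∈ RR) (hij : i ≠ j) =>
    eP_spec P α hP pairA (RR_DA hi) (RR_DA hj) hij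
  have hsymm : ∀ i j, nP P α DB DA i j = nP P α DB DA j i := by
    intro i j
    unfold nP
    rw [P.N_symm]
  refine ⟨⟨eP P α DA, nP P α DB DA, ?_, ?_, ?_, ?_, ?_, ?_, ?_, ?_, ?_, ?_, ?_, ?_, ?_⟩⟩
  · exact fun i hi j hj hij => (hE i j hi hj hij).int
  · exact fun i hi j hj hij => (hE i j hi hj hij).one
  · exact fun i hi j hj hij => (hE i j hi hj hij).cen
  · exact fun i hi j hj hij r h1 h2 h3 => (hE i j hi hj hij).uni r h1 h2 h3
  · exact fun i hi j hj hij s hs m => (hE i j hi hj hij).dbl s (fun t _ => hs t) m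
  · exact fun i hi j hj => (hspec i j hi hj).int
  · exact fun i hi j hj => (hspec i j hi hj).one
  · exact fun i _ j _ => hsymm i j
  · exact fun i hi j hj a ha b hb l m =>
      nn_comm P α hP pairB (mem_union_left DA hi) (mem_union_left DA hj) (mem_union_left DA ha)
        (mem_union_left DA hb) l m
  · exact fun i hi j hj a ha b hb hij hja hjb l m => rA P α hP hi hj ha hb hij hja hjb l m
  · intro i hi j hj b hb hij hbi hbj l m
    have := rB P α hP hi hj hb hij hbi hbj l m
    rw [hsymm j b, ← this]; group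
  · intro i hi j hj hij l m
    have := rB' P α hP hi hj hij l m
    rw [hsymm j i, ← this]; group
  · intro i hi j hj hij l m
    have := rC P α hP hi hj hij l m
    rw [pow_two, ← this]; group

end

theorem main (h : PwP) : D3P := fun _ _ _ _ _ P α => exists_NS P α h

end Pool.Agent.helper987_SE.D3
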