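import Pool.Agent.helper987_SE.Stm

/-!
# Project SE (helper987), part D4: Sections 4 (Cor 16) and 5 of the paper, by helper409
-/

set_option autoImplicit false

open Matrix

namespace Pool.Agent.helper987_SE.D4

/-! ## The symmetric matrices -/

section act

variable {ι R Γ : Type} [Fintype ι] [DecidableEq ι] [CommRing R] [Group Γ]

/-- root elements of the abelian part, with the action of the elementary matrices -/
structure Act (ι R Γ : Type) [CommRing R] [Group Γ] where
  e : ι → ι → R → Γ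
  n : ι → ι → R → Γ
  n_add : ∀ i j a b, n i j (a + b) = n i j a * n i j b
  n_symm : ∀ i j, n i j = n j i
  n_comm : ∀ i j a b l m, Commute (n i j l) (n a b m)
  relA : ∀ i j a b, i ≠ j → j ≠ a → j ≠ b → ∀ l m, Commute (e i j l) (n a b m)
  relB : ∀ i j b, i ≠ j → b ≠ i → b ≠ j → ∀ l m,
    e i j l * n j b m = n j b m * n i b (l * m) * e i j l
  relB' : ∀ i j, i ≠ j → ∀ l m,
    e i j l * n j i m = n j i m * n i i (2 * l * m) * e i j l
  relC : ∀ i j, i ≠ j → ∀ l m,
    e i j l * n j j m = n j j m * n i j (l * m) * n i i (l ^ 2 * m) * e i j l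

variable (X : Act ι R Γ) (o : ι → ℕ)

/-- one-parameter subgroup -/
def nh (i j : ι) : Multiplicative R →* Γ where
  toFun m := X.n i j m.toAdd
  map_one' := by
    have h := X.n_add i j 0 0
    rw [add_zero] at h
    show X.n i j 0 = 1
    simpa using h
  map_mul' a b := X.n_add i j a.toAdd b.toAdd

theorem nh_comm : Pairwise fun p q : ι × ι => ∀ (x y : Multiplicative R),
    Commute ((nh X p.1 p.2) x) ((nh X q.1 q.2) y) :=
  fun p q _ x y => X.n_comm p.1 p.2 q.1 q.2 x.toAdd y.toAdd

/-- the homomorphism from symmetric matrices; only the entries `(a, b)` with `o a ≤ o b` count -/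
def nS (S : Matrix ι ι R) : Γ :=
  MonoidHom.noncommPiCoprod (fun p : ι × ι => nh X p.1 p.2)
    (nh_comm X) (fun p => Multiplicative.ofAdd (if o p.1 ≤ o p.2 then S p.1 p.2 else 0))

theorem nS_add (S T : Matrix ι ι R) : nS X o (S + T) = nS X o S * nS X o T := by
  unfold nS
  rw [← map_mul]
  congr 1
  funext p
  rw [Pi.mul_apply, ← ofAdd_add]
  congr 1
  split_ifs
  · rfl
  · simp

theorem nS_zero : nS X o 0 = 1 := by
  have h := nS_add X o 0 0
  rw [add_zero] at h
  simpa using h

theorem nS_neg (S : Matrix ι ι R) : nS X o (-S) = (nS X o S)⁻¹ := by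
  have h := nS_add X o (-S) S
  rw [neg_add_cancel, nS_zero] at h
  exact eq_inv_of_mul_eq_one_left h.symm

theorem nS_comm (S T : Matrix ι ι R) : Commute (nS X o S) (nS X o T) := by
  show _ * _ = _ * _
  rw [← nS_add, ← nS_add, add_comm]

theorem nS_single (a b : ι) (m : R) :
    nS X o (Matrix.single a b m) = if o a ≤ o b then X.n a b m else 1 := by
  have h1 : (fun p : ι × ι => Multiplicative.ofAdd
      (if o p.1 ≤ o p.2 then Matrix.single a b m p.1 p.2 else 0)) =
      Pi.mulSingle (a, b) (Multiplicative.ofAdd (if o a ≤ o b then m else 0)) := by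
    funext p
    by_cases hp : p = (a, b)
    · subst hp
      simp
    · rw [Pi.mulSingle_eq_of_ne hp]
      have : ¬ (a = p.1 ∧ b = p.2) := by
        rintro ⟨h1, h2⟩
        exact hp (Prod.ext h1.symm h2.symm)
      rw [Matrix.single_apply_of_ne _ _ _ _ _ this, ite_self]
      rfl
  unfold nS
  rw [h1, MonoidHom.noncommPiCoprod_mulSingle]
  show X.n a b (if o a ≤ o b then m else 0) = _
  split_ifs
  · rfl
  · exact (nh X a b).map_one

/-- elementary symmetric matrix -/
def F (a b : ι) (m : R) : Matrix ι ι R :=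
  if a = b then Matrix.single a a m else Matrix.single a b m + Matrix.single b a m

theorem F_symm (a b : ι) (m : R) : F a b m = F b a m := by
  unfold F
  by_cases h : a = b
  · subst h; rfl
  · rw [if_neg h, if_neg (Ne.symm h), add_comm]

variable {o} (ho : Function.Injective o)

include ho in
theorem nS_F (a b : ι) (m : R) : nS X o (F a b m) = X.n a b m := by
  unfold F
  by_cases h : a = b
  · subst h
    rw [if_pos rfl, nS_single, if_pos le_rfl]
  · rw [if_neg h, nS_add, nS_single, nS_single]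
    have hne : o a ≠ o b := fun h' => h (ho h')
    rcases lt_or_gt_of_ne hne with h1 | h1
    · rw [if_pos h1.le, if_neg (not_le.2 h1), mul_one]
    · rw [if_neg (not_le.2 h1), if_pos h1.le, one_mul, X.n_symm]

include ho in
/-- a symmetric matrix is a sum of elementary ones -/
theorem sum_F (S : Matrix ι ι R) (hS : S.IsSymm) :
    S = ∑ a, ∑ b, if o a ≤ o b then F a b (S a b) else 0 := by
  ext c d
  have h1 : ∀ a b, (if o a ≤ o b then F a b (S a b) else 0 : Matrix ι ι R) c d =
      (if a = c ∧ b = d then (if o c ≤ o d then S c d else 0) else 0) +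
      (if a = d ∧ b = c then (if o d < o c then S c d else 0) else 0) := by
    intro a b
    have hs : S d c = S c d := hS.apply c d
    by_cases h : o a ≤ o b
    · rw [if_pos h]
      unfold F
      by_cases hab : a = b
      · subst hab
        rw [if_pos rfl]
        by_cases h2 : a = c ∧ a = d
        · obtain ⟨rfl, rfl⟩ := h2
          simp
        · have h3 : ¬ (a = d ∧ a = c) := fun h => h2 ⟨h.2, h.1⟩
          rw [Matrix.single_apply_of_ne _ _ _ _ _ h2, if_neg h2, if_neg h3, add_zero]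
      · have hlt : o a < o b := lt_of_le_of_ne h (fun h' => hab (ho h'))
        rw [if_neg hab, Matrix.add_apply]
        by_cases h2 : a = c ∧ b = d
        · obtain ⟨rfl, rfl⟩ := h2
          have h3 : ¬ (b = a ∧ a = b) := fun h => hab h.2
          have h4 : ¬ (a = b ∧ b = a) := fun h => hab h.1
          rw [Matrix.single_apply_same, Matrix.single_apply_of_ne _ _ _ _ _ h3, if_pos ⟨rfl, rfl⟩,
            if_pos h, if_neg h4]
        · rw [Matrix.single_apply_of_ne _ _ _ _ _ h2, if_neg h2, zero_add, zero_add]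
          by_cases h3 : a = d ∧ b = c
          · obtain ⟨rfl, rfl⟩ := h3
            rw [Matrix.single_apply_same, if_pos ⟨rfl, rfl⟩, if_pos hlt, hs]
          · have h4 : ¬ (b = c ∧ a = d) := fun h => h3 ⟨h.2, h.1⟩
            rw [Matrix.single_apply_of_ne _ _ _ _ _ h4, if_neg h3]
    · rw [if_neg h, Matrix.zero_apply]
      by_cases h2 : a = c ∧ b = d
      · obtain ⟨rfl, rfl⟩ := h2
        have h4 : ¬ (a = b ∧ b = a) := by
          rintro ⟨rfl, _⟩
          exact h le_rfl
        rw [if_pos ⟨rfl, rfl⟩, if_neg h, if_neg h4, add_zero]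
      · rw [if_neg h2, zero_add]
        by_cases h3 : a = d ∧ b = c
        · obtain ⟨rfl, rfl⟩ := h3
          rw [if_pos ⟨rfl, rfl⟩, if_neg]
          exact fun h' => h h'.le
        · rw [if_neg h3]
  rw [Matrix.sum_apply]
  simp only [Matrix.sum_apply, h1, Finset.sum_add_distrib, ite_and]
  simp only [Finset.sum_ite_eq', Finset.mem_univ, if_true, Finset.sum_const_zero,
    Finset.sum_ite_irrel]
  by_cases h : o c ≤ o d
  · rw [if_pos h, if_neg (not_lt.2 h), add_zero]
  · rw [if_neg h, if_pos (not_le.1 h), zero_add]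

/-- `g` acts on the abelian part as `M` -/
def Rl (o : ι → ℕ) (g : Γ) (M : Matrix ι ι R) : Prop :=
  ∀ S : Matrix ι ι R, S.IsSymm → g * nS X o S * g⁻¹ = nS X o (M * S * Mᵀ)

include ho in
theorem rl_of_F (g : Γ) (M : Matrix ι ι R)
    (h : ∀ a b m, g * X.n a b m * g⁻¹ = nS X o (M * F a b m * Mᵀ)) : Rl X o g M := by
  let K : AddSubgroup (Matrix ι ι R) :=
    { carrier := {S | g * nS X o S * g⁻¹ = nS X o (M * S * Mᵀ)}
      zero_mem' := by
        show g * nS X o 0 * g⁻¹ = nS X o (M * 0 * Mᵀ)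
        rw [Matrix.mul_zero, Matrix.zero_mul, nS_zero]
        group
      add_mem' := by
        intro S T hS hT
        show g * nS X o (S + T) * g⁻¹ = nS X o (M * (S + T) * Mᵀ)
        have hS' : g * nS X o S * g⁻¹ = nS X o (M * S * Mᵀ) := hS
        have hT' : g * nS X o T * g⁻¹ = nS X o (M * T * Mᵀ) := hT
        rw [Matrix.mul_add, Matrix.add_mul, nS_add, nS_add, ← hS', ← hT']
        group
      neg_mem' := by
        intro S hS
        show g * nS X o (-S) * g⁻¹ = nS X o (M * (-S) * Mᵀ)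
        have hS' : g * nS X o S * g⁻¹ = nS X o (M * S * Mᵀ) := hS
        rw [Matrix.mul_neg, Matrix.neg_mul, nS_neg, nS_neg, ← hS']
        group }
  intro S hS
  have : S ∈ K := by
    rw [sum_F ho S hS]
    refine K.sum_mem fun a _ => K.sum_mem fun b _ => ?_
    split_ifs
    · show g * nS X o (F a b _) * g⁻¹ = _
      rw [nS_F X ho]
      exact h _ _ _
    · exact K.zero_mem
  exact this

theorem rl_mul {g h : Γ} {M M' : Matrix ι ι R} (hg : Rl X o g M) (hh : Rl X o h M') :
    Rl X o (g * h) (M * M') := by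
  intro S hS
  have h1 := hh S hS
  have h2 := hg (M' * S * M'ᵀ) (by
    unfold Matrix.IsSymm
    rw [Matrix.transpose_mul, Matrix.transpose_mul, Matrix.transpose_transpose, hS.eq,
      Matrix.mul_assoc])
  rw [← h1] at h2
  calc g * h * nS X o S * (g * h)⁻¹ = g * (h * nS X o S * h⁻¹) * g⁻¹ := by group
    _ = nS X o (M * (M' * S * M'ᵀ) * Mᵀ) := h2
    _ = _ := by rw [Matrix.transpose_mul]; simp only [Matrix.mul_assoc]

theorem rl_one : Rl X o 1 (1 : Matrix ι ι R) := by
  intro S _
  simp

/-- the elementary matrix `1 + l e_ij` -/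
def tv (i j : ι) (l : R) : Matrix ι ι R := 1 + Matrix.single i j l

theorem tv_single (i j a b : ι) (l m : R) :
    tv i j l * Matrix.single a b m * (tv i j l)ᵀ = Matrix.single a b m +
      (if j = a then Matrix.single i b (l * m) else 0) +
      (if j = b then Matrix.single a i (l * m) else 0) +
      (if j = a ∧ j = b then Matrix.single i i (l * l * m) else 0) := by
  unfold tv
  rw [Matrix.transpose_add, Matrix.transpose_one, Matrix.transpose_single, Matrix.add_mul,
    Matrix.one_mul, Matrix.mul_add, Matrix.mul_one, Matrix.add_mul]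
  by_cases ha : j = a
  · subst ha
    by_cases hb : j = b
    · subst hb
      simp only [Matrix.single_mul_single_same, if_true, and_self]
      have e1 : m * l = l * m := mul_comm _ _
      have e2 : l * m * l = l * l * m := by ring
      rw [e1, e2]
      abel
    · have hb' : b ≠ j := Ne.symm hb
      simp only [Matrix.single_mul_single_same, if_true, if_neg hb, hb, and_false, if_false]
      rw [Matrix.single_mul_single_of_ne _ _ _ _ hb', Matrix.single_mul_single_of_ne _ _ _ _ hb']
      abel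
  · by_cases hb : j = b
    · subst hb
      simp only [Matrix.single_mul_single_same, if_true, if_neg ha, ha, false_and, if_false]
      rw [Matrix.single_mul_single_of_ne _ _ _ _ ha]
      have e1 : m * l = l * m := mul_comm _ _
      rw [e1]
      simp
    · have hb' : b ≠ j := Ne.symm hb
      simp only [if_neg ha, if_neg hb, ha, false_and, if_false]
      rw [Matrix.single_mul_single_of_ne _ _ _ _ ha, Matrix.single_mul_single_of_ne _ _ _ _ hb']
      simp

include ho in
/-- Cor 16 -/
theorem rl_tv (i j : ι) (hij : i ≠ j) (l : R) : Rl X o (X.e i j l) (tv i j l) := by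
  have hB : ∀ b m, b ≠ j → X.e i j l * X.n j b m * (X.e i j l)⁻¹ =
      nS X o (tv i j l * F j b m * (tv i j l)ᵀ) := by
    intro b m hb
    have e1 : tv i j l * F j b m * (tv i j l)ᵀ =
        if b = i then F j i m + F i i (2 * l * m) else F j b m + F i b (l * m) := by
      unfold F
      rw [if_neg (Ne.symm hb), Matrix.mul_add, Matrix.add_mul, tv_single, tv_single]
      have hb' : j ≠ b := Ne.symm hb
      simp only [if_true, hb', false_and, and_false, if_false, add_zero, if_neg hb']
      by_cases hbi : b = i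
      · subst hbi
        simp only [if_true, if_neg hb']
        have e2 : Matrix.single b b (2 * l * m) =
            Matrix.single b b (l * m) + Matrix.single b b (l * m) := by
          rw [← Matrix.single_add]
          congr 1
          ring
        rw [e2]
        abel
      · have hbi' : i ≠ b := Ne.symm hbi
        simp only [if_neg hbi, if_neg hbi']
        abel
    rw [e1]
    by_cases hbi : b = i
    · subst hbi
      rw [if_pos rfl, nS_add, nS_F X ho, nS_F X ho, X.relB' b j hij]
      group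
    · rw [if_neg hbi, nS_add, nS_F X ho, nS_F X ho, X.relB i j b hij hbi hb]
      group
  apply rl_of_F X ho
  intro a b m
  by_cases ha : a = j
  · subst ha
    by_cases hb : b = a
    · subst hb
      have e1 : tv i b l * F b b m * (tv i b l)ᵀ = F b b m + F i b (l * m) + F i i (l ^ 2 * m) := by
        unfold F
        rw [if_pos rfl, if_neg hij, if_pos rfl, tv_single]
        simp only [if_true, and_self]
        rw [sq]
        abel
      rw [e1, nS_add, nS_add, nS_F X ho, nS_F X ho, nS_F X ho, X.relC i b hij]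
      group
    · exact hB b m hb
  · by_cases hb : b = j
    · subst hb
      rw [X.n_symm, F_symm]
      exact hB a m ha
    · have e1 : tv i j l * F a b m * (tv i j l)ᵀ = F a b m := by
        have ha' : j ≠ a := Ne.symm ha
        have hb' : j ≠ b := Ne.symm hb
        unfold F
        by_cases hab : a = b
        · subst hab
          rw [if_pos rfl, tv_single]
          simp [ha']
        · rw [if_neg hab, Matrix.mul_add, Matrix.add_mul, tv_single, tv_single]
          simp [ha', hb']
      rw [e1, nS_F X ho, (X.relA i j a b hij (Ne.symm ha) (Ne.symm hb) l m).eq]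
      group

theorem nS_torsion (q : R) (h : ∀ a b m, X.n a b (q * m) = 1) (S : Matrix ι ι R) :
    nS X o (q • S) = 1 := by
  let K : AddSubmonoid (Matrix ι ι R) :=
    { carrier := {S | nS X o S = 1}
      zero_mem' := nS_zero X o
      add_mem' := by
        intro S T hS hT
        have hS' : nS X o S = 1 := hS
        have hT' : nS X o T = 1 := hT
        show nS X o (S + T) = 1
        rw [nS_add, hS', hT', one_mul] }
  have : q • S ∈ K := by
    rw [Matrix.matrix_eq_sum_single (q • S)]
    refine K.sum_mem fun a _ => K.sum_mem fun b _ => ?_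
    show nS X o (Matrix.single a b ((q • S) a b)) = 1
    rw [nS_single]
    split_ifs
    · exact h a b _
    · rfl
  exact this

theorem nS_list (l : List (Matrix ι ι R)) : nS X o l.sum = (l.map (nS X o)).prod := by
  induction l with
  | nil => exact nS_zero X o
  | cons a l ih => rw [List.sum_cons, nS_add, ih, List.map_cons, List.prod_cons]

end act

/-! ## Section 5 -/

section kill

variable {R Γ : Type} [CommRing R] [Group Γ]

/-- the index set of the first block -/
abbrev J8 : Type := Fin 4 ⊕ Fin 4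

/-- `M` (with inverse `M'`) lifts to an element which acts on both abelian parts and commutes
with `z` -/
def PP (X X' : Act J8 R Γ) (o : J8 → ℕ) (z : Γ) (M M' : Matrix J8 J8 R) : Prop :=
  M * M' = 1 ∧ ∃ g : Γ, Rl X o g M ∧ Rl X' o g M'ᵀ ∧ Commute g z

variable {X X' : Act J8 R Γ} {o : J8 → ℕ} {z : Γ}

theorem PP_mul {M M' N N' : Matrix J8 J8 R} (h : PP X X' o z M M') (h' : PP X X' o z N N') :
    PP X X' o z (M * N) (N' * M') := by
  obtain ⟨h1, g, h2, h3, h4⟩ := h
  obtain ⟨k1, k, k2, k3, k4⟩ := h'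
  refine ⟨?_, g * k, rl_mul X h2 k2, ?_, h4.mul_left k4⟩
  · calc M * N * (N' * M') = M * (N * N') * M' := by simp only [Matrix.mul_assoc]
      _ = 1 := by rw [k1, Matrix.mul_one, h1]
  · rw [Matrix.transpose_mul]
    exact rl_mul X' h3 k3

theorem PP_one : PP X X' o z 1 1 := by
  refine ⟨Matrix.mul_one 1, 1, rl_one X, ?_, Commute.one_left z⟩
  rw [Matrix.transpose_one]
  exact rl_one X'

variable (ho : Function.Injective o)
  (he : ∀ i j, i ≠ j → ∀ l, X'.e j i (-l) = X.e i j l)
  (hz : ∀ i j, i ≠ j → ∀ l, Commute (X.e i j l) z)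

include ho he hz

theorem PP_tv (i j : J8) (hij : i ≠ j) (l : R) : PP X X' o z (tv i j l) (tv i j (-l)) := by
  refine ⟨?_, X.e i j l, rl_tv X ho i j hij l, ?_, hz i j hij l⟩
  · unfold tv
    rw [Matrix.add_mul, Matrix.one_mul, Matrix.mul_add, Matrix.mul_one,
      Matrix.single_mul_single_of_ne _ _ _ _ (Ne.symm hij), ← Matrix.single_neg]
    abel
  · have e1 : (tv i j (-l))ᵀ = tv j i (-l) := by
      unfold tv
      rw [Matrix.transpose_add, Matrix.transpose_one, Matrix.transpose_single]
    rw [e1, ← he i j hij l]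
    exact rl_tv X' ho j i (Ne.symm hij) (-l)

theorem PP_up (L : Matrix (Fin 4) (Fin 4) R) :
    PP X X' o z (Matrix.fromBlocks 1 L 0 1) (Matrix.fromBlocks 1 (-L) 0 1) := by
  let K : AddSubmonoid (Matrix (Fin 4) (Fin 4) R) :=
    { carrier := {L | PP X X' o z (Matrix.fromBlocks 1 L 0 1) (Matrix.fromBlocks 1 (-L) 0 1)}
      zero_mem' := by
        show PP X X' o z (Matrix.fromBlocks 1 0 0 1) (Matrix.fromBlocks 1 (-0) 0 1)
        rw [neg_zero, Matrix.fromBlocks_one]
        exact PP_one
      add_mem' := by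
        intro S T hS hT
        have h := PP_mul hS hT
        rw [Matrix.fromBlocks_multiply, Matrix.fromBlocks_multiply] at h
        simp only [Matrix.mul_zero, Matrix.zero_mul, Matrix.mul_one, Matrix.one_mul, add_zero,
          zero_add] at h
        show PP X X' o z (Matrix.fromBlocks 1 (S + T) 0 1) (Matrix.fromBlocks 1 (-(S + T)) 0 1)
        rw [neg_add, add_comm S T]
        exact h }
  have hs : ∀ i j l, Matrix.fromBlocks 1 (Matrix.single i j l) 0 1 =
      (tv (Sum.inl i) (Sum.inr j) l : Matrix J8 J8 R) := by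
    intro i j l
    unfold tv
    ext (a | a) (b | b) <;> simp [Matrix.one_apply, Matrix.single_apply]
  have : L ∈ K := by
    rw [Matrix.matrix_eq_sum_single L]
    refine K.sum_mem fun a _ => K.sum_mem fun b _ => ?_
    show PP X X' o z (Matrix.fromBlocks 1 (Matrix.single a b (L a b)) 0 1)
      (Matrix.fromBlocks 1 (-(Matrix.single a b (L a b))) 0 1)
    rw [Matrix.single_neg, hs, hs]
    exact PP_tv ho he hz _ _ (by simp) _
  exact this

theorem PP_lo (L : Matrix (Fin 4) (Fin 4) R) :
    PP X X' o z (Matrix.fromBlocks 1 0 L 1) (Matrix.fromBlocks 1 0 (-L) 1) := by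
  let K : AddSubmonoid (Matrix (Fin 4) (Fin 4) R) :=
    { carrier := {L | PP X X' o z (Matrix.fromBlocks 1 0 L 1) (Matrix.fromBlocks 1 0 (-L) 1)}
      zero_mem' := by
        show PP X X' o z (Matrix.fromBlocks 1 0 0 1) (Matrix.fromBlocks 1 0 (-0) 1)
        rw [neg_zero, Matrix.fromBlocks_one]
        exact PP_one
      add_mem' := by
        intro S T hS hT
        have h := PP_mul hS hT
        rw [Matrix.fromBlocks_multiply, Matrix.fromBlocks_multiply] at h
        simp only [Matrix.mul_zero, Matrix.zero_mul, Matrix.mul_one, Matrix.one_mul, add_zero,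
          zero_add] at h
        show PP X X' o z (Matrix.fromBlocks 1 0 (S + T) 1) (Matrix.fromBlocks 1 0 (-(S + T)) 1)
        rw [neg_add, add_comm (-S) (-T)]
        exact h }
  have hs : ∀ i j l, Matrix.fromBlocks 1 0 (Matrix.single i j l) 1 =
      (tv (Sum.inr i) (Sum.inl j) l : Matrix J8 J8 R) := by
    intro i j l
    unfold tv
    ext (a | a) (b | b) <;> simp [Matrix.one_apply, Matrix.single_apply]
  have : L ∈ K := by
    rw [Matrix.matrix_eq_sum_single L]
    refine K.sum_mem fun a _ => K.sum_mem fun b _ => ?_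
    show PP X X' o z (Matrix.fromBlocks 1 0 (Matrix.single a b (L a b)) 1)
      (Matrix.fromBlocks 1 0 (-(Matrix.single a b (L a b))) 1)
    rw [Matrix.single_neg, hs, hs]
    exact PP_tv ho he hz _ _ (by simp) _
  exact this

theorem kill (q : R) (L : Matrix (Fin 4) (Fin 4) R) (h1 : L * Lᵀ = (q - 1) • 1)
    (h2 : Lᵀ * L = (q - 1) • 1) (hq : ∀ a b m, X.n a b (q * m) = 1)
    (hq' : ∀ a b m, X'.n a b (q * m) = 1)
    (hW : (nS X o 1 * nS X' o (-1) * nS X o 1) ^ 4 = z ^ (-8 : ℤ)) : z ^ 16 = 1 := by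
  have hP := PP_mul (PP_mul (PP_up ho he hz L) (PP_lo ho he hz Lᵀ)) (PP_up ho he hz L)
  set A : Matrix J8 J8 R := Matrix.fromBlocks 1 L 0 1 * Matrix.fromBlocks 1 0 Lᵀ 1 *
    Matrix.fromBlocks 1 L 0 1 with hA
  set A' : Matrix J8 J8 R := Matrix.fromBlocks 1 (-L) 0 1 * (Matrix.fromBlocks 1 0 (-Lᵀ) 1 *
    Matrix.fromBlocks 1 (-L) 0 1) with hA'
  obtain ⟨hAA, g, hg, hg', hgz⟩ := hP
  have hA1 : A = Matrix.fromBlocks (q • 1) ((q + 1) • L) Lᵀ (q • 1) := by
    rw [hA, Matrix.fromBlocks_multiply, Matrix.fromBlocks_multiply]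
    simp only [Matrix.mul_zero, Matrix.zero_mul, Matrix.mul_one, Matrix.one_mul, add_zero,
      zero_add, h1, h2]
    congr 1
    · module
    · rw [Matrix.add_mul, Matrix.one_mul, Matrix.smul_mul, Matrix.one_mul]
      module
    · module
  have hAT : Aᵀ = Matrix.fromBlocks (q • 1) L ((q + 1) • Lᵀ) (q • 1) := by
    rw [hA1, Matrix.fromBlocks_transpose]
    simp only [Matrix.transpose_smul, Matrix.transpose_one, Matrix.transpose_transpose]
  obtain ⟨K, hK⟩ : ∃ K, A * Aᵀ = -1 + q • K := by
    refine ⟨Matrix.fromBlocks ((q ^ 2 + 2 * q - 1) • 1) ((q + 2) • L) ((q + 2) • Lᵀ)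
      ((q + 1) • 1), ?_⟩
    rw [hAT, hA1, Matrix.fromBlocks_multiply, Matrix.fromBlocks_smul, ← Matrix.fromBlocks_one,
      Matrix.fromBlocks_neg, Matrix.fromBlocks_add]
    simp only [Matrix.smul_mul, Matrix.mul_smul, Matrix.mul_one, Matrix.one_mul, h1, h2, smul_smul]
    congr 1 <;> module
  have hA'A : A' * A = 1 := mul_eq_one_comm.1 hAA
  have hB : A'ᵀ * A' * (A * Aᵀ) = 1 := by
    calc A'ᵀ * A' * (A * Aᵀ) = A'ᵀ * (A' * A) * Aᵀ := by simp only [Matrix.mul_assoc]
      _ = (A * A')ᵀ := by rw [hA'A, Matrix.mul_one, Matrix.transpose_mul A A']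
      _ = 1 := by rw [hAA, Matrix.transpose_one]
  have hB2 : A'ᵀ * (-1) * A'ᵀᵀ = 1 + q • (-(A'ᵀ * A' * K)) := by
    rw [hK, Matrix.mul_add, Matrix.mul_neg, Matrix.mul_one, Matrix.mul_smul] at hB
    rw [Matrix.transpose_transpose, Matrix.mul_neg, Matrix.mul_one, Matrix.neg_mul, smul_neg,
      ← hB]
    abel
  have hsym1 : (1 : Matrix J8 J8 R).IsSymm := Matrix.isSymm_one
  have hsym2 : (-1 : Matrix J8 J8 R).IsSymm := by
    unfold Matrix.IsSymm
    rw [Matrix.transpose_neg, Matrix.transpose_one]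
  have e1 : g * nS X o 1 * g⁻¹ = (nS X o 1)⁻¹ := by
    rw [hg 1 hsym1, Matrix.mul_one, hK, nS_add, nS_torsion X q hq, mul_one, nS_neg]
  have e2 : g * nS X' o (-1) * g⁻¹ = (nS X' o (-1))⁻¹ := by
    rw [hg' (-1) hsym2, hB2, nS_add, nS_torsion X' q hq', mul_one, nS_neg, inv_inv]
  set a := nS X o 1
  set b := nS X' o (-1)
  have e3 : g * (a * b * a) * g⁻¹ = (a * b * a)⁻¹ := by
    calc g * (a * b * a) * g⁻¹ = (g * a * g⁻¹) * (g * b * g⁻¹) * (g * a * g⁻¹) := by group
      _ = (a * b * a)⁻¹ := by rw [e1, e2]; group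
  have e4 : g * (a * b * a) ^ 4 * g⁻¹ = ((a * b * a) ^ 4)⁻¹ := by
    rw [← conj_pow, e3, inv_pow]
  rw [hW] at e4
  have e5 : g * z ^ (-8 : ℤ) * g⁻¹ = z ^ (-8 : ℤ) := by
    rw [(hgz.zpow_right (-8)).eq]
    group
  rw [e5] at e4
  have e6 : z ^ (16 : ℤ) = 1 := by
    have h : z ^ (-8 : ℤ) * (z ^ (-8 : ℤ)) = 1 := by
      nth_rewrite 1 [e4]
      exact inv_mul_cancel _
    have h' : z ^ (16 : ℤ) = (z ^ (-8 : ℤ) * (z ^ (-8 : ℤ)))⁻¹ := by group
    rw [h', h, inv_one]
  exact_mod_cast e6

omit [Group Γ] ho he hz in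
/-- left multiplication by a quaternion -/
theorem quat (x y u v : R) : ∃ L : Matrix (Fin 4) (Fin 4) R,
    L * Lᵀ = (x ^ 2 + y ^ 2 + u ^ 2 + v ^ 2) • 1 ∧ Lᵀ * L = (x ^ 2 + y ^ 2 + u ^ 2 + v ^ 2) • 1 := by
  have h : ∀ M : Matrix (Fin 4) (Fin 4) R, M = !![x, -y, -u, -v; y, x, -v, u; u, v, x, -y;
      v, -u, y, x] → M * Mᵀ = (x ^ 2 + y ^ 2 + u ^ 2 + v ^ 2) • 1 := by
    rintro _ rfl
    ext i j
    fin_cases i <;> fin_cases j <;>
      simp [Matrix.mul_apply, Fin.sum_univ_four, Matrix.one_apply] <;> ring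
  refine ⟨_, h _ rfl, ?_⟩
  ext i j
  fin_cases i <;> fin_cases j <;>
    simp [Matrix.mul_apply, Fin.sum_univ_four, Matrix.one_apply] <;> ring

end kill

/-! ## The main theorem -/

section main

open Helper418

variable {A : ℕ → Type} [∀ n, Fintype (A n)] {G : Type} [Group G]

/-- the index of an element of the first block -/
def ix (a : J8) : Fin 26 := Fin.castLE (by norm_num) (finSumFinEquiv a : Fin (4 + 4))

theorem ix_mem (a : J8) : ix a ∈ RR := by
  unfold ix RR
  rw [Finset.mem_filter]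
  refine ⟨Finset.mem_univ _, ?_⟩
  rw [Fin.val_castLE]
  exact (finSumFinEquiv a : Fin (4 + 4)).2

theorem ix_inj : Function.Injective ix := by
  intro a b h
  unfold ix at h
  exact finSumFinEquiv.injective (Fin.castLE_injective _ h)

theorem ix_ne {a b : J8} (h : a ≠ b) : ix a ≠ ix b := fun h' => h (ix_inj h')

/-- order of the indices -/
def od (a : J8) : ℕ := (finSumFinEquiv a : Fin (4 + 4))

theorem od_inj : Function.Injective od := by
  intro a b h
  exact finSumFinEquiv.injective (Fin.ext h)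

/-- the action in `SS A` -/
def toAct {P : SpRel (Fin 26) G} {α : G →* SS A} (N : NS P α) : Act J8 (ℕ → ℤ) (SS A) where
  e i j := N.e (ix i) (ix j)
  n i j := N.n (ix i) (ix j)
  n_add i j a b := (N.n_int _ (ix_mem i) _ (ix_mem j)).1 a b
  n_symm i j := N.n_symm _ (ix_mem i) _ (ix_mem j)
  n_comm i j a b l m := N.n_comm _ (ix_mem i) _ (ix_mem j) _ (ix_mem a) _ (ix_mem b) l m
  relA i j a b hij hja hjb l m := N.relA _ (ix_mem i) _ (ix_mem j) _ (ix_mem a) _ (ix_mem b)
    (ix_ne hij) (ix_ne hja) (ix_ne hjb) l m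
  relB i j b hij hbi hbj l m := N.relB _ (ix_mem i) _ (ix_mem j) _ (ix_mem b)
    (ix_ne hij) (ix_ne hbi) (ix_ne hbj) l m
  relB' i j hij l m := N.relB' _ (ix_mem i) _ (ix_mem j) (ix_ne hij) l m
  relC i j hij l m := N.relC _ (ix_mem i) _ (ix_mem j) (ix_ne hij) l m

theorem prod8_nS {P : SpRel (Fin 26) G} {α : G →* SS A} (N : NS P α) (x : ℕ → ℤ) (f : Fin 26 → G)
    (hf : ∀ i ∈ RR, α (f i) = N.n i i x) :
    α (prod8 f) = nS (toAct N) od (x • 1) := by
  have h1 : (x • 1 : Matrix J8 J8 (ℕ → ℤ)) = (List.ofFn fun i : Fin (4 + 4) =>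
      Matrix.single (finSumFinEquiv.symm i) (finSumFinEquiv.symm i) x).sum := by
    rw [List.sum_ofFn, Equiv.sum_comp (finSumFinEquiv (m := 4) (n := 4)).symm
      (fun a : J8 => Matrix.single a a x)]
    refine Matrix.ext fun a b => ?_
    rw [Matrix.sum_apply]
    simp only [Matrix.smul_apply, Matrix.one_apply, Matrix.single_apply]
    by_cases hab : a = b
    · subst hab
      simp only [and_self, Finset.sum_ite_eq', Finset.mem_univ, if_true, smul_eq_mul, mul_one]
    · rw [if_neg hab, smul_zero]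
      symm
      apply Finset.sum_eq_zero
      intro c _
      rw [if_neg]
      rintro ⟨rfl, rfl⟩
      exact hab rfl
  rw [h1, nS_list, List.map_ofFn]
  unfold prod8
  rw [map_list_prod, List.map_ofFn]
  congr 2
  funext i
  simp only [Function.comp]
  rw [nS_single, if_pos le_rfl]
  have h2 : ix (finSumFinEquiv.symm i) = Fin.castLE (by norm_num) i := by
    unfold ix
    rw [Equiv.apply_symm_apply]
  show _ = N.n (ix (finSumFinEquiv.symm i)) (ix (finSumFinEquiv.symm i)) x
  rw [← hf _ (ix_mem _), h2]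

theorem main (A3 : A3P) (D3 : D3P) : DP := by
  intro A _ _ G _ P P' hE u hu hW α
  obtain ⟨N⟩ := D3 A G P α
  obtain ⟨N'⟩ := D3 A G P' α
  -- torsion
  have ht : ∀ a b : J8, ∃ o : ℕ → ℤ, (∀ n, 0 < o n) ∧ ∀ m, N.n (ix a) (ix b) (o * m) = 1 :=
    fun a b => A3 A _ (N.n_int _ (ix_mem a) _ (ix_mem b))
  have ht' : ∀ a b : J8, ∃ o : ℕ → ℤ, (∀ n, 0 < o n) ∧ ∀ m, N'.n (ix a) (ix b) (o * m) = 1 :=
    fun a b => A3 A _ (N'.n_int _ (ix_mem a) _ (ix_mem b))
  choose o ho1 ho2 using ht
  choose o' ho1' ho2' using ht'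
  let q : ℕ → ℤ := ∏ p : J8 × J8, (o p.1 p.2 * o' p.1 p.2)
  have hqpos : ∀ k, 0 < q k := by
    intro k
    simp only [q]
    rw [Finset.prod_apply]
    exact Finset.prod_pos fun p _ => mul_pos (ho1 _ _ _) (ho1' _ _ _)
  have hq : ∀ a b m, (toAct N).n a b (q * m) = 1 := by
    intro a b m
    have h1 : o a b ∣ q := Dvd.dvd.trans (Dvd.intro _ rfl)
      (Finset.dvd_prod_of_mem (fun p : J8 × J8 => o p.1 p.2 * o' p.1 p.2) (Finset.mem_univ (a, b)))
    obtain ⟨c, hc⟩ := h1
    rw [hc, mul_assoc]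
    exact ho2 a b _
  have hq' : ∀ a b m, (toAct N').n a b (q * m) = 1 := by
    intro a b m
    have h1 : o' a b ∣ q := Dvd.dvd.trans (Dvd.intro_left _ rfl)
      (Finset.dvd_prod_of_mem (fun p : J8 × J8 => o p.1 p.2 * o' p.1 p.2) (Finset.mem_univ (a, b)))
    obtain ⟨c, hc⟩ := h1
    rw [hc, mul_assoc]
    exact ho2' a b _
  -- Lagrange
  obtain ⟨x, y, v, w, hxy⟩ : ∃ x y v w : ℕ → ℤ, x ^ 2 + y ^ 2 + v ^ 2 + w ^ 2 = q - 1 := by
    have h1 : ∀ k, ∃ a b c d : ℤ, a ^ 2 + b ^ 2 + c ^ 2 + d ^ 2 = q k - 1 := by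
      intro k
      obtain ⟨a, b, c, d, h⟩ := Nat.sum_four_squares (q k - 1).toNat
      refine ⟨a, b, c, d, ?_⟩
      have h2 : ((q k - 1).toNat : ℤ) = q k - 1 := Int.toNat_of_nonneg (by have := hqpos k; omega)
      rw [← h2, ← h]
      push_cast
      ring
    choose a b c d h using h1
    exact ⟨a, b, c, d, funext h⟩
  obtain ⟨L, hL1, hL2⟩ := quat x y v w
  rw [hxy] at hL1 hL2
  -- the second system
  have hEneg : ∀ i j, i ≠ j → P.E i j (-1) = (P.E i j 1)⁻¹ := by
    intro i j hij
    have h0 : P.E i j 0 = 1 := by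
      have h := P.E_add i j 0 0 hij
      rw [add_zero] at h
      simpa using h
    have h := P.E_add i j (-1) 1 hij
    rw [neg_add_cancel, h0] at h
    exact eq_inv_of_mul_eq_one_left h.symm
  have hTT : ∀ i ∈ RR, ∀ j ∈ RR, i ≠ j → TT P' DA {i} {j} ∅ ≤ TT P DA {j} {i} ∅ := by
    intro i hi j hj hij
    have hne : ∀ a ∈ RR, ∀ p ∈ DA, a ≠ p := by
      intro a ha p hp h
      subst h
      unfold RR at ha
      unfold DA at hp
      simp only [Finset.mem_filter, Finset.mem_univ, true_and] at ha hp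
      omega
    unfold TT
    rw [Subgroup.closure_le]
    rintro g hg
    rcases hg with ⟨p, hp, r, hr, hpr, rfl⟩ | ⟨a, ha, p, hp, rfl⟩ | ⟨p, hp, b, hb, rfl⟩ |
      ⟨p, hp, k, hk, rfl⟩ | ⟨a, ha, b, hb, rfl⟩ | ⟨a, ha, k, hk, rfl⟩
    · rw [hE, hEneg _ _ (Ne.symm hpr)]
      exact inv_mem (Subgroup.subset_closure (Or.inl ⟨r, hr, p, hp, Ne.symm hpr, rfl⟩))
    · rw [Finset.mem_singleton] at ha
      subst ha
      rw [hE, hEneg _ _ (Ne.symm (hne a hi p hp))]
      exact inv_mem (Subgroup.subset_closure (Or.inr (Or.inr (Or.inl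
        ⟨p, hp, a, Finset.mem_singleton_self a, rfl⟩))))
    · rw [Finset.mem_singleton] at hb
      subst hb
      rw [hE, hEneg _ _ (hne b hj p hp)]
      exact inv_mem (Subgroup.subset_closure (Or.inr (Or.inl
        ⟨b, Finset.mem_singleton_self b, p, hp, rfl⟩)))
    · exact absurd hk (Finset.notMem_empty _)
    · rw [Finset.mem_singleton] at ha hb
      subst ha
      subst hb
      rw [hE, hEneg _ _ (Ne.symm hij)]
      exact inv_mem (Subgroup.subset_closure (Or.inr (Or.inr (Or.inr (Or.inr (Or.inl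
        ⟨b, Finset.mem_singleton_self b, a, Finset.mem_singleton_self a, rfl⟩))))))
    · exact absurd hk (Finset.notMem_empty _)
  have he0 : ∀ i ∈ RR, ∀ j ∈ RR, i ≠ j → (fun m => N.e j i (-m)) = N'.e i j := by
    intro i hi j hj hij
    have hint := N.e_int j hj i hi (Ne.symm hij)
    refine N'.e_uni i hi j hj hij (fun m => N.e j i (-m)) ⟨?_, ?_⟩ ?_ ?_
    · intro a b
      show N.e j i (-(a + b)) = N.e j i (-a) * N.e j i (-b)
      rw [neg_add, hint.1]
    · obtain ⟨ψ, hψ⟩ := hint.2
      refine ⟨fun n z => ψ n (-z), fun a => ?_⟩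
      show N.e j i (-a) = _
      rw [hψ]
      rfl
    · show N.e j i (-(fun _ => 1)) = α (P'.E i j 1)
      have h0 : N.e j i 0 = 1 := by
        have h := hint.1 0 0
        rw [add_zero] at h
        simpa using h
      have h := hint.1 (-(fun _ => 1)) (fun _ => 1)
      rw [neg_add_cancel, h0] at h
      rw [eq_inv_of_mul_eq_one_left h.symm, N.e_one j hj i hi (Ne.symm hij), hE,
        hEneg _ _ (Ne.symm hij), map_inv]
    · intro m t ht
      exact N.e_cen j hj i hi (Ne.symm hij) (-m) t (hTT i hi j hj hij ht)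
  have he : ∀ i j : J8, i ≠ j → ∀ l, (toAct N').e j i (-l) = (toAct N).e i j l := by
    intro i j hij l
    show N'.e (ix j) (ix i) (-l) = N.e (ix i) (ix j) l
    rw [← he0 (ix j) (ix_mem j) (ix i) (ix_mem i) (ix_ne (Ne.symm hij))]
    show N.e (ix i) (ix j) (- -l) = _
    rw [neg_neg]
  have hz : ∀ i j : J8, i ≠ j → ∀ l, Commute ((toAct N).e i j l) (α u) := by
    intro i j hij l
    refine N.e_glob (ix i) (ix_mem i) (ix j) (ix_mem j) (ix_ne hij) (α u) (fun g => ?_) l
    show α u * α g = α g * α u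
    rw [← map_mul, ← map_mul, hu]
  -- the Weyl element
  have hw1 : α (prod8 fun i => P.N i i 1) = nS (toAct N) od 1 := by
    have h := prod8_nS N (fun _ => 1) (fun i => P.N i i 1) (fun i hi => (N.n_one i hi i hi).symm)
    have h2 : ((fun _ => 1 : ℕ → ℤ) • 1 : Matrix J8 J8 (ℕ → ℤ)) = 1 := one_smul _ _
    rw [h, h2]
  have hw2 : α (prod8 fun i => P'.N i i (-1)) = nS (toAct N') od (-1) := by
    have h := prod8_nS N' (-1) (fun i => P'.N i i (-1)) (fun i hi => ?_)
    · rw [h, neg_smul, one_smul]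
    · have hint := N'.n_int i hi i hi
      have h0 : N'.n i i 0 = 1 := by
        have h := hint.1 0 0
        rw [add_zero] at h
        simpa using h
      have h := hint.1 (-1) (fun _ => 1)
      have e : (-1 : ℕ → ℤ) + (fun _ => 1) = 0 := neg_add_cancel (1 : ℕ → ℤ)
      rw [e, h0] at h
      have g0 : P'.N i i 0 = 1 := by
        have h := P'.N_add i i 0 0
        rw [add_zero] at h
        simpa using h
      have g1 := P'.N_add i i (-1) 1
      rw [neg_add_cancel, g0] at g1
      rw [eq_inv_of_mul_eq_one_left h.symm, eq_inv_of_mul_eq_one_left g1.symm, map_inv,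
        N'.n_one i hi i hi]
  have hWW : (nS (toAct N) od 1 * nS (toAct N') od (-1) * nS (toAct N) od 1) ^ 4 =
      (α u) ^ (-8 : ℤ) := by
    rw [← hw1, ← hw2, ← map_mul, ← map_mul, ← map_pow, ← map_zpow, ← hW]
    rfl
  exact kill od_inj he hz q L hL1 hL2 hq hq' hWW

end main

end Pool.Agent.helper987_SE.D4
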