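import Pool.Agent.helper987_SE.Stm

/-!
# Project SE (helper987), part E2: the relations, abstract part
-/

set_option autoImplicit false
set_option maxHeartbeats 400000

namespace Pool.Agent.helper987_SE.E2

/-! ## Products over lists of pairwise commuting triples -/

section Lists

variable {G : Type} [Group G] {ι : Type} (a b : ι → G)

/-- the Weyl element of one index -/
def wt (i : ι) : G := a i * b i * a i

variable {a b}

theorem commute_prod {x : G} {l : List ι} {f : ι → G} (h : ∀ j ∈ l, Commute x (f j)) :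
    Commute x (l.map f).prod := by
  induction l with
  | nil => simp
  | cons k t ih =>
    rw [List.map_cons, List.prod_cons]
    exact (h k (by simp)).mul_right (ih fun j hj => h j (by simp [hj]))

theorem wt_conj (i : ι) (br : a i * b i * a i = b i * a i * b i) :
    wt a b i * a i * (wt a b i)⁻¹ = b i := by
  have h : wt a b i * a i = b i * wt a b i := by
    unfold wt
    calc a i * b i * a i * a i = (b i * a i * b i) * a i := by rw [br]
      _ = b i * (a i * b i * a i) := by simp only [mul_assoc]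
  rw [h, mul_assoc, mul_inv_cancel, mul_one]

theorem triple_prod (caa : ∀ i j, Commute (a i) (a j)) (cab : ∀ i j, i ≠ j → Commute (a i) (b j))
    (l : List ι) (hl : l.Nodup) :
    (l.map a).prod * (l.map b).prod * (l.map a).prod = (l.map (wt a b)).prod := by
  induction l with
  | nil => simp
  | cons k t ih =>
    rw [List.nodup_cons] at hl
    have ih' := ih hl.2
    simp only [List.map_cons, List.prod_cons]
    rw [← ih']
    set A := (t.map a).prod
    set B := (t.map b).prod
    have hne : ∀ j ∈ t, k ≠ j := fun j hj h => hl.1 (h ▸ hj)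
    have c1 : Commute (b k) A := commute_prod fun j hj => (cab j k (hne j hj).symm).symm
    have c2 : Commute (a k) B := commute_prod fun j hj => cab k j (hne j hj)
    have c3 : Commute (a k) A := commute_prod fun j _ => caa k j
    have e1 : A * (b k * B) = b k * (A * B) := by
      rw [← mul_assoc, ← c1.eq, mul_assoc]
    have e2 : (A * B) * (a k * A) = a k * (A * B * A) := by
      rw [← mul_assoc, ← (c3.mul_right c2).eq, mul_assoc]
    calc a k * A * (b k * B) * (a k * A) = a k * (A * (b k * B)) * (a k * A) := by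
          simp only [mul_assoc]
      _ = a k * b k * ((A * B) * (a k * A)) := by rw [e1]; simp only [mul_assoc]
      _ = a k * b k * a k * (A * B * A) := by rw [e2]; simp only [mul_assoc]

theorem wt_comm (caa : ∀ i j, Commute (a i) (a j)) (cab : ∀ i j, i ≠ j → Commute (a i) (b j))
    (cbb : ∀ i j, Commute (b i) (b j)) (i j : ι) (h : i ≠ j) :
    Commute (wt a b i) (wt a b j) := by
  have h1 : Commute (a i) (wt a b j) :=
    ((caa i j).mul_right (cab i j h)).mul_right (caa i j)
  have h2 : Commute (b i) (wt a b j) :=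
    (((cab j i h.symm).symm).mul_right (cbb i j)).mul_right (cab j i h.symm).symm
  exact (h1.mul_left h2).mul_left h1

theorem conj_prod (caa : ∀ i j, Commute (a i) (a j)) (cab : ∀ i j, i ≠ j → Commute (a i) (b j))
    (cbb : ∀ i j, Commute (b i) (b j)) (br : ∀ i, a i * b i * a i = b i * a i * b i)
    (l : List ι) (hl : l.Nodup) (i : ι) (hi : i ∈ l) :
    (l.map (wt a b)).prod * a i * ((l.map (wt a b)).prod)⁻¹ = b i := by
  induction l with
  | nil => simp at hi
  | cons k t ih =>
    rw [List.nodup_cons] at hl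
    simp only [List.map_cons, List.prod_cons]
    set W := (t.map (wt a b)).prod
    by_cases h : i = k
    · subst h
      have c : Commute (a i) W := commute_prod fun j hj => by
        have hne : i ≠ j := fun h => hl.1 (h ▸ hj)
        exact ((caa i j).mul_right (cab i j hne)).mul_right (caa i j)
      have e : W * a i * W⁻¹ = a i := by rw [← c.eq, mul_assoc, mul_inv_cancel, mul_one]
      calc wt a b i * W * a i * (wt a b i * W)⁻¹ = wt a b i * (W * a i * W⁻¹) * (wt a b i)⁻¹ := by
            rw [mul_inv_rev]; simp only [mul_assoc]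
        _ = b i := by rw [e, wt_conj i (br i)]
    · have hi' : i ∈ t := by
        rcases List.mem_cons.1 hi with h' | h'
        · exact absurd h' h
        · exact h'
      have e := ih hl.2 hi'
      have c : Commute (b i) (wt a b k) :=
        (((cab k i (Ne.symm h)).symm).mul_right (cbb i k)).mul_right (cab k i (Ne.symm h)).symm
      calc wt a b k * W * a i * (wt a b k * W)⁻¹ = wt a b k * (W * a i * W⁻¹) * (wt a b k)⁻¹ := by
            rw [mul_inv_rev]; simp only [mul_assoc]
        _ = b i := by rw [e, ← c.eq, mul_assoc, mul_inv_cancel, mul_one]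

theorem prod_pow4 {c : G} (caa : ∀ i j, Commute (a i) (a j))
    (cab : ∀ i j, i ≠ j → Commute (a i) (b j))
    (cbb : ∀ i j, Commute (b i) (b j)) (w4 : ∀ i, wt a b i ^ 4 = c)
    (l : List ι) (hl : l.Nodup) :
    (l.map (wt a b)).prod ^ 4 = c ^ l.length := by
  induction l with
  | nil => simp
  | cons k t ih =>
    rw [List.nodup_cons] at hl
    simp only [List.map_cons, List.prod_cons, List.length_cons]
    have c1 : Commute (wt a b k) (t.map (wt a b)).prod := commute_prod fun j hj =>
      wt_comm caa cab cbb k j fun h => hl.1 (h ▸ hj)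
    rw [c1.mul_pow, w4, ih hl.2, pow_succ']

end Lists

/-! ## The second set of root elements -/

section Spr

variable {G : Type} [Group G] {ι : Type}

/-- Conjugation of a system of root elements, with the sign of `N` changed; `E` may be given
separately. -/
def conjRel (P : SpRel ι G) (x : G) (F : ι → ι → ℤ → G)
    (hF : ∀ i j a, i ≠ j → F i j a = x * P.E i j a * x⁻¹) : SpRel ι G where
  E := F
  N := fun i j a => x * P.N i j (-a) * x⁻¹
  E_add := by
    intro i j a b h
    rw [hF i j _ h, hF i j _ h, hF i j _ h, P.E_add i j a b h]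
    group
  N_add := by
    intro i j a b
    rw [neg_add, P.N_add]
    group
  N_symm := by
    intro i j a
    rw [P.N_symm]
  EE := by
    intro i j k a b h1 h2 h3
    rw [hF i j _ h1, hF j k _ h2, hF i k _ h3]
    have h := P.EE i j k a b h1 h2 h3
    calc x * P.E i j a * x⁻¹ * (x * P.E j k b * x⁻¹) = x * (P.E i j a * P.E j k b) * x⁻¹ := by group
      _ = x * (P.E i k (a * b) * P.E j k b * P.E i j a) * x⁻¹ := by rw [h]
      _ = _ := by group
  EE_comm := by
    intro i j k l a b h1 h2 h3 h4
    rw [hF i j _ h1, hF k l _ h2]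
    have h := (P.EE_comm i j k l a b h1 h2 h3 h4).eq
    show x * P.E i j a * x⁻¹ * (x * P.E k l b * x⁻¹) = x * P.E k l b * x⁻¹ * (x * P.E i j a * x⁻¹)
    calc x * P.E i j a * x⁻¹ * (x * P.E k l b * x⁻¹) = x * (P.E i j a * P.E k l b) * x⁻¹ := by group
      _ = x * (P.E k l b * P.E i j a) * x⁻¹ := by rw [h]
      _ = _ := by group
  NN_comm := by
    intro i j k l a b
    have h := (P.NN_comm i j k l (-a) (-b)).eq
    show x * P.N i j (-a) * x⁻¹ * (x * P.N k l (-b) * x⁻¹) =
      x * P.N k l (-b) * x⁻¹ * (x * P.N i j (-a) * x⁻¹)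
    calc x * P.N i j (-a) * x⁻¹ * (x * P.N k l (-b) * x⁻¹) =
          x * (P.N i j (-a) * P.N k l (-b)) * x⁻¹ := by group
      _ = x * (P.N k l (-b) * P.N i j (-a)) * x⁻¹ := by rw [h]
      _ = _ := by group
  EN_comm := by
    intro i j k l a b h1 h2 h3
    rw [hF i j _ h1]
    have h := (P.EN_comm i j k l a (-b) h1 h2 h3).eq
    show x * P.E i j a * x⁻¹ * (x * P.N k l (-b) * x⁻¹) =
      x * P.N k l (-b) * x⁻¹ * (x * P.E i j a * x⁻¹)
    calc x * P.E i j a * x⁻¹ * (x * P.N k l (-b) * x⁻¹) =
          x * (P.E i j a * P.N k l (-b)) * x⁻¹ := by group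
      _ = x * (P.N k l (-b) * P.E i j a) * x⁻¹ := by rw [h]
      _ = _ := by group
  EN := by
    intro i j k a b h1 h2 h3
    rw [hF i j _ h1]
    have h := P.EN i j k a (-b) h1 h2 h3
    rw [show a * -b = -(a * b) by ring] at h
    calc x * P.E i j a * x⁻¹ * (x * P.N j k (-b) * x⁻¹) =
          x * (P.E i j a * P.N j k (-b)) * x⁻¹ := by group
      _ = x * (P.N j k (-b) * P.N i k (-(a * b)) * P.E i j a) * x⁻¹ := by rw [h]
      _ = _ := by group
  EN_i := by
    intro i j a b h1
    rw [hF i j _ h1]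
    have h := P.EN_i i j a (-b) h1
    rw [show 2 * a * -b = -(2 * a * b) by ring] at h
    calc x * P.E i j a * x⁻¹ * (x * P.N j i (-b) * x⁻¹) =
          x * (P.E i j a * P.N j i (-b)) * x⁻¹ := by group
      _ = x * (P.N j i (-b) * P.N i i (-(2 * a * b)) * P.E i j a) * x⁻¹ := by rw [h]
      _ = _ := by group
  EN_j := by
    intro i j a b h1
    rw [hF i j _ h1]
    have h := P.EN_j i j a (-b) h1
    rw [show a * -b = -(a * b) by ring, show a ^ 2 * -b = -(a ^ 2 * b) by ring] at h
    calc x * P.E i j a * x⁻¹ * (x * P.N j j (-b) * x⁻¹) =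
          x * (P.E i j a * P.N j j (-b)) * x⁻¹ := by group
      _ = x * (P.N j j (-b) * P.N i j (-(a * b)) * P.N i i (-(a ^ 2 * b)) * P.E i j a) * x⁻¹ := by
          rw [h]
      _ = _ := by group

/-- The commutator trick: an equality modulo central elements between root elements is exact. -/
theorem exact_of_mod (P : SpRel (Fin 26) G) (x : G) (Z : Subgroup G)
    (hZ : ∀ z ∈ Z, ∀ g, z * g = g * z)
    (h : ∀ i j a, i ≠ j → ∃ z ∈ Z, x * P.E i j a * x⁻¹ = z * P.E j i (-a)) :
    ∀ i j a, i ≠ j → P.E j i (-a) = x * P.E i j a * x⁻¹ := by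
  intro i j a hij
  obtain ⟨k, hki, hkj⟩ : ∃ k : Fin 26, k ≠ i ∧ k ≠ j := by
    by_contra hcon
    push Not at hcon
    have h0 := hcon 0
    have h1 := hcon 1
    have h2 := hcon 2
    by_cases c0 : (0 : Fin 26) = i
    · have e1 := h1 (by rw [← c0]; decide)
      have e2 := h2 (by rw [← c0]; decide)
      rw [← e2] at e1
      exact absurd e1 (by decide)
    · have e0 := h0 c0
      by_cases c1 : (1 : Fin 26) = i
      · have e2 := h2 (by rw [← c1]; decide)
        rw [← e2] at e0
        exact absurd e0 (by decide)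
      · have e1 := h1 c1
        rw [← e1] at e0
        exact absurd e0 (by decide)
  obtain ⟨z1, hz1, e1⟩ := h i k a hki.symm
  obtain ⟨z2, hz2, e2⟩ := h k j 1 hkj
  -- E_ij(a) = [E_ik(a), E_kj(1)]
  have r1 := P.EE i k j a 1 hki.symm hkj hij
  rw [mul_one] at r1
  -- E_ki(-a), E_jk(-1): commutator
  have r2 := P.EE j k i (-1) (-a) hkj.symm hki hij.symm
  rw [show (-1 : ℤ) * -a = a by ring] at r2
  -- r2 : E_jk(-1) E_ki(-a) = E_ji(a) E_ki(-a) E_jk(-1)
  have s1 : P.E i j a = P.E i k a * P.E k j 1 * (P.E i k a)⁻¹ * (P.E k j 1)⁻¹ := by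
    rw [r1]; group
  have s2 : P.E j i (-a) = P.E k i (-a) * P.E j k (-1) * (P.E k i (-a))⁻¹ * (P.E j k (-1))⁻¹ := by
    have e : P.E j i (-a) = (P.E j i a)⁻¹ := by
      have h0 : P.E j i 0 = 1 := by
        have := P.E_add j i 0 0 hij.symm
        rw [add_zero] at this
        exact left_eq_mul.1 this
      have := P.E_add j i a (-a) hij.symm
      rw [add_neg_cancel, h0] at this
      exact eq_inv_of_mul_eq_one_right this.symm
    have e' : P.E j i a = P.E j k (-1) * P.E k i (-a) * (P.E j k (-1))⁻¹ * (P.E k i (-a))⁻¹ := by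
      rw [r2]; group
    rw [e, e']
    group
  have t : x * P.E i j a * x⁻¹ = (x * P.E i k a * x⁻¹) * (x * P.E k j 1 * x⁻¹) *
      (x * P.E i k a * x⁻¹)⁻¹ * (x * P.E k j 1 * x⁻¹)⁻¹ := by
    rw [s1]; group
  rw [t, e1, e2, s2]
  have c1 := hZ z1 hz1
  have c2 := hZ z2 hz2
  set A := P.E k i (-a)
  set B := P.E j k (-1)
  have k1 : z1 * A * (z2 * B) = z1 * z2 * (A * B) := by
    calc z1 * A * (z2 * B) = z1 * (A * z2) * B := by simp only [mul_assoc]
      _ = z1 * (z2 * A) * B := by rw [c2]
      _ = _ := by simp only [mul_assoc]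
  have k2 : (z1 * A)⁻¹ * (z2 * B)⁻¹ = (z1 * z2)⁻¹ * (A⁻¹ * B⁻¹) := by
    have : (z2 * B) * (z1 * A) = (B * A) * (z1 * z2) := by
      calc (z2 * B) * (z1 * A) = z2 * (B * z1) * A := by simp only [mul_assoc]
        _ = z2 * (z1 * B) * A := by rw [c1]
        _ = z2 * (z1 * (B * A)) := by simp only [mul_assoc]
        _ = z2 * (B * A * z1) := by rw [c1]
        _ = (z2 * (B * A)) * z1 := by simp only [mul_assoc]
        _ = (B * A * z2) * z1 := by rw [c2]
        _ = B * A * (z2 * z1) := by simp only [mul_assoc]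
        _ = B * A * (z1 * z2) := by rw [c1 z2]
    rw [← mul_inv_rev, this]
    group
  have c12 : ∀ g, z1 * z2 * g = g * (z1 * z2) := by
    intro g
    rw [mul_assoc, c2, ← mul_assoc, c1, mul_assoc]
  calc A * B * A⁻¹ * B⁻¹ = (A * B) * (A⁻¹ * B⁻¹) := by simp only [mul_assoc]
    _ = (A * B) * ((z1 * z2) * (z1 * z2)⁻¹) * (A⁻¹ * B⁻¹) := by
        rw [mul_inv_cancel, mul_one]
    _ = ((A * B) * (z1 * z2)) * ((z1 * z2)⁻¹ * (A⁻¹ * B⁻¹)) := by simp only [mul_assoc]
    _ = (z1 * z2 * (A * B)) * ((z1 * z2)⁻¹ * (A⁻¹ * B⁻¹)) := by rw [c12]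
    _ = (z1 * A * (z2 * B)) * ((z1 * A)⁻¹ * (z2 * B)⁻¹) := by rw [k1, k2]
    _ = _ := by simp only [mul_assoc]

end Spr

/-! ## The abstract form of `EP` -/

theorem prod8_eq {G : Type} [Group G] (f : Fin 26 → G) :
    prod8 f = (((List.finRange 8).map (Fin.castLE (by norm_num : 8 ≤ 26))).map f).prod := by
  unfold prod8
  rw [List.map_map, List.ofFn_eq_map]
  rfl

theorem EP_of (G : Type) [hG : Group G] (u : G) (P : SpRel (Fin 26) G) (b : Fin 26 → G)
    (φ : G →* Matrix.GeneralLinearGroup (Fin 26 ⊕ Fin 26) ℤ)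
    (hu : ∀ g, u * g = g * u) (hinf : ∀ n : ℤ, u ^ n = 1 → n = 0)
    (hker : φ.ker = Subgroup.zpowers u)
    (br : ∀ i, P.N i i 1 * b i * P.N i i 1 = b i * P.N i i 1 * b i)
    (cab : ∀ i j, i ≠ j → Commute (P.N i i 1) (b j))
    (cbb : ∀ i j, Commute (b i) (b j))
    (w4 : ∀ i, (P.N i i 1 * b i * P.N i i 1) ^ 4 = u⁻¹)
    (hJ : ∀ i j a, i ≠ j →
      φ (((List.finRange 26).map (wt (fun i => P.N i i 1) b)).prod * P.E i j a *
        (((List.finRange 26).map (wt (fun i => P.N i i 1) b)).prod)⁻¹) = φ (P.E j i (-a))) :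
    EP := by
  set a : Fin 26 → G := fun i => P.N i i 1 with ha
  set x : G := ((List.finRange 26).map (wt a b)).prod with hx
  have caa : ∀ i j, Commute (a i) (a j) := fun i j => P.NN_comm i i j j 1 1
  have hF : ∀ i j c, i ≠ j → P.E j i (-c) = x * P.E i j c * x⁻¹ := by
    refine exact_of_mod P x φ.ker ?_ ?_
    · intro z hz g
      rw [hker] at hz
      obtain ⟨n, rfl⟩ := Subgroup.mem_zpowers_iff.1 hz
      exact ((show Commute u g from hu g).zpow_left n).eq
    · intro i j c hij
      refine ⟨x * P.E i j c * x⁻¹ * (P.E j i (-c))⁻¹, ?_, by group⟩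
      rw [MonoidHom.mem_ker, map_mul, map_inv, hJ i j c hij, mul_inv_cancel]
  refine ⟨G, hG, u, P, conjRel P x (fun i j c => P.E j i (-c)) hF, φ, fun _ _ _ => rfl, hu, hinf,
    ?_, hker⟩
  have hb : ∀ i, x * P.N i i (-(-1)) * x⁻¹ = b i := by
    intro i
    rw [neg_neg]
    exact conj_prod caa cab cbb br _ (List.nodup_finRange 26) i (List.mem_finRange i)
  have hW : WW P (conjRel P x (fun i j c => P.E j i (-c)) hF) =
      (((List.finRange 8).map (Fin.castLE (by norm_num : 8 ≤ 26))).map (wt a b)).prod := by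
    unfold WW
    have e : (fun i => (conjRel P x (fun i j c => P.E j i (-c)) hF).N i i (-1)) = b := by
      funext i
      exact hb i
    rw [e, prod8_eq, prod8_eq]
    refine triple_prod caa cab _ ?_
    exact (List.nodup_finRange 8).map (Fin.castLE_injective _)
  rw [hW, prod_pow4 caa cab cbb w4 _ ((List.nodup_finRange 8).map (Fin.castLE_injective _))]
  rw [List.length_map, List.length_finRange, inv_pow, zpow_neg]
  norm_cast

end Pool.Agent.helper987_SE.E2
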