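import Pool.Agent.helper987_SE.E1Defs
import Pool.Agent.helper987_SE.E2A

/-!
# Project SE (helper987), part E2: the root elements in the group `GG`
-/

set_option autoImplicit false
set_option maxHeartbeats 400000
set_option linter.unusedSimpArgs false

open Matrix Complex

namespace Pool.Agent.helper987_SE.E2

open Pool.Agent.helper987_SE.E1

noncomputable section

variable {n : Type} [Fintype n] [DecidableEq n]

/-! ## Blocks -/

theorem blocks_of {M : symplecticGroup n ℤ} {A B C D : Matrix n n ℤ}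
    (h : M.1 = fromBlocks A B C D) :
    bA M = A.map (Int.castRingHom ℂ) ∧ bB M = B.map (Int.castRingHom ℂ) ∧
    bC M = C.map (Int.castRingHom ℂ) ∧ bD M = D.map (Int.castRingHom ℂ) := by
  unfold bA bB bC bD
  rw [h, fromBlocks_map]
  simp

/-! ## Matrices -/

def mN (S : Matrix n n ℤ) (hS : Sᵀ = S) : symplecticGroup n ℤ :=
  ⟨fromBlocks 1 S 0 1, by rw [SymplecticGroup.fromBlocks_mem_iff]; simp [hS]⟩

def mE (A D : Matrix n n ℤ) (h : Aᵀ * D = 1) : symplecticGroup n ℤ :=
  ⟨fromBlocks A 0 0 D, by rw [SymplecticGroup.fromBlocks_mem_iff]; simp [h]⟩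

def mB (C : Matrix n n ℤ) (hC : Cᵀ = C) : symplecticGroup n ℤ :=
  ⟨fromBlocks 1 0 C 1, by rw [SymplecticGroup.fromBlocks_mem_iff]; simp [hC]⟩

theorem jf_upper {M : symplecticGroup n ℤ} {A B D : Matrix n n ℤ}
    (h : M.1 = fromBlocks A B 0 D) (hD : D.det = 1) (τ : Hg n) : jf M τ = 1 := by
  obtain ⟨-, -, h3, h4⟩ := blocks_of h
  unfold jf den
  rw [h3, h4, Matrix.map_zero _ (map_zero _), zero_mul, zero_add, ← RingHom.mapMatrix_apply,
    ← RingHom.map_det, hD, map_one]

/-- elements with zero phase -/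
def gU (M : symplecticGroup n ℤ) (A B D : Matrix n n ℤ)
    (h : M.1 = fromBlocks A B 0 D) (hD : D.det = 1) : GG n :=
  ⟨M, ⟨fun _ => 0, continuous_const⟩, fun τ => by
    show Complex.exp 0 = _
    rw [Complex.exp_zero, jf_upper h hD]⟩

theorem ext0 {g h : GG n} (h1 : g.M.1 = h.M.1) (h2 : ∀ τ, g.ph τ = 0) (h3 : ∀ τ, h.ph τ = 0) :
    g = h := GG.ext' (Subtype.ext h1) fun τ => by rw [h2, h3]

theorem mul_Mv (g h : GG n) : (g * h).M.1 = g.M.1 * h.M.1 := rfl

theorem mul_ph0 {g h : GG n} (h2 : ∀ τ, g.ph τ = 0) (h3 : ∀ τ, h.ph τ = 0) (τ : Hg n) :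
    (g * h).ph τ = 0 := by rw [mul_ph, h2, h3, add_zero]

/-! ## Root elements -/

theorem s0 {j k : n} (h : j ≠ k) (i l : n) (a b : ℤ) :
    (single i j a * single k l b : Matrix n n ℤ) = 0 := by
  ext p q
  simp only [Matrix.mul_apply, Matrix.single_apply, Matrix.zero_apply]
  refine Finset.sum_eq_zero fun x _ => ?_
  by_cases h1 : j = x
  · subst h1
    have : k ≠ j := h.symm
    simp [this]
  · simp [h1]

theorem s1 (i j k : n) (a b : ℤ) :
    (single i j a * single j k b : Matrix n n ℤ) = single i k (a * b) := by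
  simp

/-- symmetric matrices -/
def sy (i j : n) (a : ℤ) : Matrix n n ℤ :=
  if i = j then single i i a else single i j a + single j i a

omit [Fintype n] in
theorem sy_same (i : n) (a : ℤ) : sy i i a = single i i a := by
  unfold sy
  rw [if_pos rfl]

omit [Fintype n] in
theorem sy_ne {i j : n} (h : i ≠ j) (a : ℤ) : sy i j a = single i j a + single j i a := by
  unfold sy
  rw [if_neg h]

omit [Fintype n] in
theorem sy_T (i j : n) (a : ℤ) : (sy i j a)ᵀ = sy i j a := by
  unfold sy
  split_ifs with h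
  · simp
  · rw [Matrix.transpose_add]
    simp [add_comm]

def rN (i j : n) (a : ℤ) : GG n :=
  gU (mN (sy i j a) (sy_T i j a)) 1 (sy i j a) 1 rfl Matrix.det_one

theorem rE_aux (i j : n) (a : ℤ) (h : i ≠ j) :
    (1 + single i j a : Matrix n n ℤ)ᵀ * (1 - single j i a) = 1 := by
  rw [Matrix.transpose_add]
  simp only [Matrix.transpose_one, transpose_single]
  rw [add_mul, mul_sub, mul_sub, s0 h]
  simp

theorem rE_det (i j : n) (a : ℤ) (h : i ≠ j) : (1 - single j i a : Matrix n n ℤ).det = 1 := by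
  have := Matrix.det_transvection_of_ne j i h.symm (-a)
  rw [Matrix.transvection] at this
  rw [← this]
  congr 1
  rw [sub_eq_add_neg]
  congr 1
  rw [Matrix.single_neg]

def rE (i j : n) (a : ℤ) : GG n :=
  if h : i = j then 1 else
    gU (mE (1 + single i j a) (1 - single j i a) (rE_aux i j a h)) (1 + single i j a) 0
      (1 - single j i a) rfl (rE_det i j a h)

theorem rN_M (i j : n) (a : ℤ) : (rN i j a).M.1 = fromBlocks 1 (sy i j a) 0 1 := rfl

theorem rN_ph (i j : n) (a : ℤ) (τ : Hg n) : (rN i j a).ph τ = 0 := rfl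

theorem rE_M {i j : n} (h : i ≠ j) (a : ℤ) :
    (rE i j a).M.1 = fromBlocks (1 + single i j a) 0 0 (1 - single j i a) := by
  unfold rE
  rw [dif_neg h]
  rfl

theorem rE_ph (i j : n) (a : ℤ) (τ : Hg n) : (rE i j a).ph τ = 0 := by
  unfold rE
  split_ifs
  · rfl
  · rfl

/-- The system of root elements. -/
def PP : SpRel n (GG n) where
  E := rE
  N := rN
  E_add := by
    intro i j a b h
    refine ext0 ?_ (rE_ph _ _ _) (mul_ph0 (rE_ph _ _ _) (rE_ph _ _ _))
    rw [mul_Mv, rE_M h, rE_M h, rE_M h, fromBlocks_multiply]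
    congr 1
    · rw [mul_add, add_mul, add_mul, s0 h.symm, single_add]
      simp
      abel
    · simp
    · simp
    · rw [mul_sub, sub_mul, sub_mul, s0 h, single_add]
      simp
      abel
  N_add := by
    intro i j a b
    refine ext0 ?_ (rN_ph _ _ _) (mul_ph0 (rN_ph _ _ _) (rN_ph _ _ _))
    rw [mul_Mv, rN_M, rN_M, rN_M, fromBlocks_multiply]
    congr 1
    · simp
    · unfold sy
      split_ifs
      · simp [single_add, add_comm]
      · simp only [single_add, one_mul, mul_one]
        abel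
    · simp
    · simp
  N_symm := by
    intro i j a
    refine ext0 ?_ (rN_ph _ _ _) (rN_ph _ _ _)
    rw [rN_M, rN_M]
    congr 1
    unfold sy
    by_cases h : i = j
    · subst h; rfl
    · rw [if_neg h, if_neg (Ne.symm h), add_comm]
  EE := by
    intro i j k a b h1 h2 h3
    refine ext0 ?_ (mul_ph0 (rE_ph _ _ _) (rE_ph _ _ _))
      (mul_ph0 (mul_ph0 (rE_ph _ _ _) (rE_ph _ _ _)) (rE_ph _ _ _))
    rw [mul_Mv, mul_Mv, mul_Mv, rE_M h1, rE_M h2, rE_M h3, fromBlocks_multiply,
      fromBlocks_multiply, fromBlocks_multiply]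
    congr 1
    · simp only [mul_add, add_mul, mul_one, one_mul, s1,
        s0 h1, s0 h1.symm,
        s0 h2, s0 h2.symm,
        s0 h3, s0 h3.symm,
        mul_zero, zero_mul, add_zero, zero_add]
      abel
    · simp
    · simp
    · simp only [mul_add, add_mul, mul_sub, sub_mul, mul_one, one_mul, s1,
        s0 h1, s0 h1.symm,
        s0 h2, s0 h2.symm,
        s0 h3, s0 h3.symm,
        mul_zero, zero_mul, add_zero, zero_add, sub_zero, mul_comm b a]
      abel
  EE_comm := by
    intro i j k l a b h1 h2 h3 h4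
    refine ext0 ?_ (mul_ph0 (rE_ph _ _ _) (rE_ph _ _ _)) (mul_ph0 (rE_ph _ _ _) (rE_ph _ _ _))
    rw [mul_Mv, mul_Mv, rE_M h1, rE_M h2, fromBlocks_multiply, fromBlocks_multiply]
    congr 1
    · simp only [mul_add, add_mul, mul_one, one_mul, s0 h3,
        s0 h4.symm, add_zero]
      simp only [mul_zero, add_zero]
      abel
    · simp
    · simp
    · simp only [mul_sub, sub_mul, mul_one, one_mul, s0 h4,
        s0 h3.symm, sub_zero]
      simp only [mul_zero, zero_add]
      abel
  NN_comm := by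
    intro i j k l a b
    refine ext0 ?_ (mul_ph0 (rN_ph _ _ _) (rN_ph _ _ _)) (mul_ph0 (rN_ph _ _ _) (rN_ph _ _ _))
    rw [mul_Mv, mul_Mv, rN_M, rN_M, fromBlocks_multiply, fromBlocks_multiply]
    congr 1
    · simp
    · rw [one_mul, mul_one, one_mul, mul_one, add_comm]
    · simp
  EN_comm := by
    intro i j k l a b h1 h2 h3
    refine ext0 ?_ (mul_ph0 (rE_ph _ _ _) (rN_ph _ _ _)) (mul_ph0 (rN_ph _ _ _) (rE_ph _ _ _))
    rw [mul_Mv, mul_Mv, rN_M, rE_M h1, fromBlocks_multiply, fromBlocks_multiply]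
    congr 1
    · simp
    · by_cases hkl : k = l
      · subst hkl
        rw [sy_same]
        simp only [mul_add, add_mul, mul_sub, sub_mul, mul_one, one_mul,
          s0 h2, s0 h2.symm]
        simp
      · rw [sy_ne hkl]
        simp only [mul_add, add_mul, mul_sub, sub_mul, mul_one, one_mul,
          s0 h2, s0 h2.symm,
          s0 h3, s0 h3.symm]
        simp
    · simp
    · simp
  EN := by
    intro i j k a b h1 h2 h3
    refine ext0 ?_ (mul_ph0 (rE_ph _ _ _) (rN_ph _ _ _))
      (mul_ph0 (mul_ph0 (rN_ph _ _ _) (rN_ph _ _ _)) (rE_ph _ _ _))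
    rw [mul_Mv, mul_Mv, mul_Mv, rN_M, rN_M, rE_M h1, fromBlocks_multiply, fromBlocks_multiply,
      fromBlocks_multiply]
    congr 1
    · simp
    · rw [sy_ne h3.symm, sy_ne h2.symm]
      simp only [mul_add, add_mul, mul_sub, sub_mul, mul_one, one_mul, s1,
        s0 h1, s0 h1.symm,
        s0 h2, s0 h2.symm,
        s0 h3, s0 h3.symm,
        mul_zero, zero_mul, add_zero, zero_add, sub_zero, mul_comm b a]
      abel
    · simp
    · simp
  EN_i := by
    intro i j a b h1
    refine ext0 ?_ (mul_ph0 (rE_ph _ _ _) (rN_ph _ _ _))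
      (mul_ph0 (mul_ph0 (rN_ph _ _ _) (rN_ph _ _ _)) (rE_ph _ _ _))
    rw [mul_Mv, mul_Mv, mul_Mv, rN_M, rN_M, rE_M h1, fromBlocks_multiply, fromBlocks_multiply,
      fromBlocks_multiply]
    congr 1
    · simp
    · rw [sy_ne h1.symm, sy_same, show 2 * a * b = a * b + b * a by ring, single_add]
      simp only [mul_add, add_mul, mul_sub, sub_mul, mul_one, one_mul, s1,
        s0 h1, s0 h1.symm,
        mul_zero, zero_mul, add_zero, zero_add, sub_zero]
      abel
    · simp
    · simp
  EN_j := by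
    intro i j a b h1
    refine ext0 ?_ (mul_ph0 (rE_ph _ _ _) (rN_ph _ _ _))
      (mul_ph0 (mul_ph0 (mul_ph0 (rN_ph _ _ _) (rN_ph _ _ _)) (rN_ph _ _ _)) (rE_ph _ _ _))
    rw [mul_Mv, mul_Mv, mul_Mv, mul_Mv, rN_M, rN_M, rN_M, rE_M h1, fromBlocks_multiply,
      fromBlocks_multiply, fromBlocks_multiply, fromBlocks_multiply]
    congr 1
    · simp
    · rw [sy_ne h1, sy_same, sy_same, show a ^ 2 * b = a * b * a by ring]
      simp only [mul_add, add_mul, mul_sub, sub_mul, mul_one, one_mul, s1,
        s0 h1, s0 h1.symm,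
        mul_zero, zero_mul, add_zero, zero_add, sub_zero, mul_comm b a]
      abel
    · simp
    · simp

/-! ## The lower triangular elements -/

theorem im_pos (τ : Hg n) (i : n) : 0 < (τ.1 i i).im := by
  have h := τ.2.2 (Pi.single i 1) (by
    intro h
    have := congrFun h i
    simp at this)
  have e : star (Pi.single i (1 : ℂ)) ⬝ᵥ (τ.1 *ᵥ Pi.single i (1 : ℂ)) = τ.1 i i := by
    rw [Matrix.mulVec_single_one]
    have : star (Pi.single i (1 : ℂ)) = (Pi.single i (1 : ℂ) : n → ℂ) := by
      ext j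
      by_cases hj : j = i
      · subst hj; simp
      · simp [Pi.single_eq_of_ne hj]
    rw [this, single_one_dotProduct]
    rfl
  rwa [e] at h

theorem slit (τ : Hg n) (i : n) : 1 - τ.1 i i ∈ Complex.slitPlane := by
  rw [Complex.mem_slitPlane_iff]
  right
  rw [Complex.sub_im, Complex.one_im]
  have := im_pos τ i
  linarith

theorem det_low (τ : Matrix n n ℂ) (i : n) : (1 - single i i 1 * τ : Matrix n n ℂ).det =
    1 - τ i i := by
  have e : (single i i 1 * τ : Matrix n n ℂ) =
      (Matrix.of fun (p : n) (_ : Unit) => (if p = i then 1 else 0 : ℂ)) *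
        (Matrix.of fun (_ : Unit) (q : n) => τ i q) := by
    ext p q
    rw [Matrix.mul_apply, Matrix.mul_apply]
    simp only [Matrix.single_apply, Matrix.of_apply, Finset.univ_unique, Finset.sum_singleton]
    by_cases hp : p = i
    · subst hp
      simp
    · have : i ≠ p := fun h => hp h.symm
      simp [hp, this]
  rw [e, Matrix.det_one_sub_mul_comm, Matrix.det_unique]
  rw [Matrix.sub_apply, Matrix.mul_apply]
  simp

omit [Fintype n] in
theorem bB_T (i : n) : (-single i i 1 : Matrix n n ℤ)ᵀ = -single i i 1 := by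
  rw [Matrix.transpose_neg, transpose_single]

omit [Fintype n] in
theorem map_single (i : n) :
    (-single i i 1 : Matrix n n ℤ).map (Int.castRingHom ℂ) = -single i i 1 := by
  ext p q
  simp only [Matrix.map_apply, Matrix.neg_apply, Matrix.single_apply]
  split_ifs <;> simp

theorem den_low (i : n) (τ : Matrix n n ℂ) :
    den (mB (-single i i 1) (bB_T i)) τ = 1 - single i i 1 * τ := by
  obtain ⟨-, -, h3, h4⟩ := blocks_of (M := mB (-single i i 1) (bB_T i)) rfl
  unfold den
  rw [h3, h4, map_single]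
  rw [Matrix.map_one _ (map_zero _) (map_one _), neg_mul, neg_add_eq_sub]

theorem num_low (i : n) (τ : Matrix n n ℂ) :
    num (mB (-single i i 1) (bB_T i)) τ = τ := by
  obtain ⟨h1, h2, -, -⟩ := blocks_of (M := mB (-single i i 1) (bB_T i)) rfl
  unfold num
  rw [h1, h2, Matrix.map_one _ (map_zero _) (map_one _), Matrix.map_zero _ (map_zero _), one_mul,
    add_zero]

def rB (i : n) : GG n :=
  ⟨mB (-single i i 1) (bB_T i), ⟨fun τ => Complex.log (1 - τ.1 i i), by
    refine Continuous.clog ?_ fun τ => slit τ i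
    exact continuous_const.sub
      ((continuous_apply i).comp ((continuous_apply i).comp continuous_subtype_val))⟩, fun τ => by
    show Complex.exp (Complex.log (1 - τ.1 i i)) = (den _ τ.1).det
    rw [den_low, det_low, Complex.exp_log (Complex.slitPlane_ne_zero (slit τ i))]⟩

theorem rB_M (i : n) : (rB i).M.1 = fromBlocks 1 0 (-single i i 1) 1 := rfl

theorem rB_ph (i : n) (τ : Hg n) : (rB i).ph τ = Complex.log (1 - τ.1 i i) := rfl

/-! ## The action on diagonal matrices -/

theorem act_eq {M : symplecticGroup n ℤ} {τ : Hg n} {X : Matrix n n ℂ}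
    (h : X * den M τ.1 = num M τ.1) : (M • τ).1 = X := by
  rw [smul_val]
  unfold actM
  rw [← h, Matrix.mul_assoc,
    Matrix.mul_nonsing_inv _ (isUnit_iff_ne_zero.2 (det_den_ne M τ.2)), Matrix.mul_one]

theorem actA {τ : Hg n} {t : n → ℂ} (h : τ.1 = diagonal t) (i : n) :
    ((rN i i 1 : GG n).M • τ).1 = diagonal (Function.update t i (t i + 1)) := by
  refine act_eq ?_
  obtain ⟨h1, h2, h3, h4⟩ := blocks_of (M := (rN i i 1 : GG n).M) rfl
  unfold num den
  rw [h1, h2, h3, h4, sy_same, h, Matrix.map_one _ (map_zero _) (map_one _),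
    Matrix.map_zero _ (map_zero _), zero_mul, zero_add, mul_one, one_mul]
  ext p q
  by_cases hpq : p = q
  · subst hpq
    by_cases hp : p = i
    · subst hp
      simp
    · have : i ≠ p := fun h => hp h.symm
      simp [hp, this]
  · by_cases hp : i = p
    · subst hp
      simp [Matrix.diagonal_apply_ne _ hpq, Matrix.single_apply, hpq]
    · simp [Matrix.diagonal_apply_ne _ hpq, Matrix.single_apply, hp]

theorem actB {τ : Hg n} {t : n → ℂ} (h : τ.1 = diagonal t) (i : n) :
    ((rB i : GG n).M • τ).1 = diagonal (Function.update t i (t i / (1 - t i))) := by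
  refine act_eq ?_
  show _ * den (mB (-single i i 1) (bB_T i)) τ.1 = num (mB (-single i i 1) (bB_T i)) τ.1
  rw [den_low, num_low]
  have hne : 1 - t i ≠ 0 := by
    have := Complex.slitPlane_ne_zero (slit τ i)
    rwa [h, Matrix.diagonal_apply_eq] at this
  rw [h]
  have e : (1 - single i i 1 * diagonal t : Matrix n n ℂ) =
      diagonal (Function.update (fun _ => 1) i (1 - t i)) := by
    ext p q
    by_cases hpq : p = q
    · subst hpq
      by_cases hp : p = i
      · subst hp
        simp
      · have : i ≠ p := fun h => hp h.symm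
        simp [hp, this]
    · by_cases hp : i = p
      · subst hp
        simp [Matrix.diagonal_apply_ne _ hpq, Matrix.single_apply, hpq]
      · simp [Matrix.diagonal_apply_ne _ hpq, Matrix.single_apply, hp, hpq]
  rw [e, Matrix.diagonal_mul_diagonal]
  congr 1
  funext p
  by_cases hp : p = i
  · subst hp
    simp only [Function.update_self]
    field_simp
  · simp [hp]

theorem i1_val : (i1 n).1 = diagonal fun _ => I := by
  show (I : ℂ) • (1 : Matrix n n ℂ) = _
  rw [Matrix.smul_one_eq_diagonal]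

end

end Pool.Agent.helper987_SE.E2
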