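import Pool.Agent.helper987_SE.E1
import Pool.Agent.helper987_SE.E2B

/-!
# Project SE (helper987), part E2: the relations in the group `GG`
-/

set_option autoImplicit false
set_option maxHeartbeats 400000
set_option linter.unusedSimpArgs false

open Matrix Complex

namespace Pool.Agent.helper987_SE.E2

open Pool.Agent.helper987_SE.E1

noncomputable section

variable {n : Type} [Fintype n] [DecidableEq n]

theorem cbb (i j : n) : Commute (rB i : GG n) (rB j) := by
  by_cases hij : i = j
  · subst hij
    exact Commute.refl _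
  refine ext_i1 (Subtype.ext ?_) ?_
  · rw [mul_Mv, mul_Mv, rB_M, rB_M, fromBlocks_multiply, fromBlocks_multiply]
    congr 1
    · simp
    · rw [mul_one, mul_one, one_mul, one_mul, add_comm]
    · simp
  · rw [mul_ph, mul_ph, rB_ph, rB_ph, rB_ph, rB_ph, actB i1_val, actB i1_val, i1_val]
    have h1 : Function.update (fun _ : n => I) j (I / (1 - I)) i = I :=
      Function.update_of_ne hij _ _
    have h2 : Function.update (fun _ : n => I) i (I / (1 - I)) j = I :=
      Function.update_of_ne (Ne.symm hij) _ _
    simp only [Matrix.diagonal_apply_eq]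
    rw [h1, h2]

theorem cab (i j : n) (hij : i ≠ j) : Commute (rN i i 1 : GG n) (rB j) := by
  refine ext_i1 (Subtype.ext ?_) ?_
  · rw [mul_Mv, mul_Mv, rB_M, rN_M, sy_same, fromBlocks_multiply, fromBlocks_multiply]
    congr 1
    · rw [mul_neg, s0 hij]
      simp
    · simp
    · simp
    · rw [neg_mul, s0 (Ne.symm hij)]
      simp
  · rw [mul_ph, mul_ph, rN_ph, rN_ph, rB_ph, rB_ph, actA i1_val, i1_val]
    have h1 : Function.update (fun _ : n => I) i (I + 1) j = I :=
      Function.update_of_ne (Ne.symm hij) _ _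
    simp only [Matrix.diagonal_apply_eq]
    rw [h1, zero_add, add_zero]

/-- the Weyl element of one index -/
def ww (i : n) : GG n := wt (fun i => rN i i 1) rB i

theorem ww_eq (i : n) : (ww i : GG n) = rN i i 1 * rB i * rN i i 1 := rfl

theorem ww_M (i : n) : (ww i : GG n).M.1 = fromBlocks (1 - single i i 1) (single i i 1)
    (-single i i 1) (1 - single i i 1) := by
  rw [ww_eq, mul_Mv, mul_Mv, rN_M, rB_M, sy_same, fromBlocks_multiply, fromBlocks_multiply]
  congr 1
  · simp only [one_mul, mul_one, zero_mul, mul_zero, add_zero, zero_add, add_mul, neg_mul, mul_neg,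
      s1]
    abel
  · simp only [one_mul, mul_one, zero_mul, mul_zero, add_zero, zero_add, add_mul, neg_mul, mul_neg,
      s1]
    abel
  · simp only [one_mul, mul_one, zero_mul, mul_zero, add_zero, zero_add, add_mul, neg_mul, mul_neg,
      s1]
  · simp only [one_mul, mul_one, zero_mul, mul_zero, add_zero, zero_add, add_mul, neg_mul, mul_neg,
      s1]
    abel

theorem Ine : (1 - (I + 1) : ℂ) ≠ 0 := by
  simp

theorem one_sub_I_ne : (1 - I : ℂ) ≠ 0 := by
  intro h
  have := congrArg Complex.re h
  simp at this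

theorem aux1 : (I + 1) / (1 - (I + 1)) + 1 = I := by
  have h := Ine
  field_simp
  ring_nf
  simp

theorem aux2 : I / (1 - I) + 1 = (1 + I) / 2 := by
  have h := one_sub_I_ne
  field_simp
  ring_nf
  rw [Complex.I_sq]
  norm_num

theorem arg_bd {z : ℂ} (h : 0 < z.re) : -(Real.pi / 2) < z.arg ∧ z.arg < Real.pi / 2 :=
  abs_lt.1 (Complex.abs_arg_lt_pi_div_two_iff.2 (Or.inl h))

theorem aux3 : Complex.log ((1 - I) / 2) + Complex.log (1 - I) = -(Real.pi / 2) * I := by
  have h1 : 0 < ((1 - I) / 2 : ℂ).re := by
    have : ((1 - I) / 2 : ℂ).re = 1 / 2 := by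
      simp
    rw [this]; norm_num
  have h2 : 0 < (1 - I : ℂ).re := by simp
  have n1 : ((1 - I) / 2 : ℂ) ≠ 0 := by
    intro h
    rw [h] at h1
    simp at h1
  have n2 := one_sub_I_ne
  obtain ⟨a1, a2⟩ := arg_bd h1
  obtain ⟨b1, b2⟩ := arg_bd h2
  rw [← Complex.log_mul n1 n2 ⟨by linarith, by linarith⟩]
  have e : (1 - I) / 2 * (1 - I) = -I := by
    have : (1 - I) / 2 * (1 - I) = (1 - 2 * I + I ^ 2) / 2 := by ring
    rw [this, Complex.I_sq]
    ring
  rw [e, Complex.log_neg_I]

theorem ww_fix (i : n) : (ww i : GG n).M • i1 n = i1 n := by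
  apply Subtype.ext
  rw [ww_eq, mul_M, mul_M, mul_smul, mul_smul, actA (actB (actA i1_val i) i) i, i1_val]
  congr 1
  simp only [Function.update_self, Function.update_idem]
  rw [aux1]
  exact Function.update_eq_self i _

theorem ww_ph (i : n) : (ww i : GG n).ph (i1 n) = -(Real.pi / 2) * I := by
  rw [ww_eq, mul_ph, mul_ph, rN_ph, rN_ph, rB_ph, actA i1_val]
  simp only [Matrix.diagonal_apply_eq, Function.update_self]
  have e : (1 - (I + 1) : ℂ) = -I := by ring
  rw [e, Complex.log_neg_I]
  ring

theorem br (i : n) : (rN i i 1 : GG n) * rB i * rN i i 1 = rB i * rN i i 1 * rB i := by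
  refine ext_i1 (Subtype.ext ?_) ?_
  · rw [← ww_eq, ww_M, mul_Mv, mul_Mv, rN_M, rB_M, sy_same, fromBlocks_multiply,
      fromBlocks_multiply]
    congr 1
    · simp only [one_mul, mul_one, zero_mul, mul_zero, add_zero, zero_add, add_mul, neg_mul,
        mul_neg, s1]
      abel
    · simp only [one_mul, mul_one, zero_mul, mul_zero, add_zero, zero_add, add_mul, neg_mul,
        mul_neg, s1]
    · simp only [one_mul, mul_one, zero_mul, mul_zero, add_zero, zero_add, add_mul, neg_mul,
        mul_neg, s1]
      abel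
    · simp only [one_mul, mul_one, zero_mul, mul_zero, add_zero, zero_add, add_mul, neg_mul,
        mul_neg, s1]
      abel
  · have e : ((rN i i 1 : GG n).M • (rB i : GG n).M • i1 n).1 i i = (1 + I) / 2 := by
      rw [actA (actB i1_val i) i, Matrix.diagonal_apply_eq]
      simp only [Function.update_self]
      exact aux2
    have e' : (i1 n).1 i i = I := by
      rw [i1_val, Matrix.diagonal_apply_eq]
    have e3 : (1 - (1 + I) / 2 : ℂ) = (1 - I) / 2 := by ring
    rw [← ww_eq, ww_ph, mul_ph, mul_ph, rN_ph, rB_ph, rB_ph, e, e', e3, add_zero, aux3]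

theorem w4 (i : n) : (ww i : GG n) ^ 4 = uu⁻¹ := by
  have h2 : ((ww i : GG n) * ww i).M.1 = fromBlocks (1 - single i i 2) 0 0 (1 - single i i 2) := by
    rw [mul_Mv, ww_M, fromBlocks_multiply]
    have e : (single i i 2 : Matrix n n ℤ) = single i i 1 + single i i 1 := by
      rw [← single_add]; rfl
    congr 1
    · simp only [sub_mul, mul_sub, mul_neg, s1, mul_one, one_mul, e]
      abel
    · simp only [sub_mul, mul_sub, mul_neg, s1, mul_one, one_mul]
      abel
    · simp only [sub_mul, mul_sub, mul_neg, neg_mul, s1, mul_one, one_mul]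
      abel
    · simp only [sub_mul, mul_sub, mul_neg, neg_mul, s1, mul_one, one_mul, e]
      abel
  have h4 : (ww i : GG n) ^ 4 = (ww i * ww i) * (ww i * ww i) := by
    rw [← pow_two, ← pow_two, ← pow_mul]
  rw [h4]
  refine ext_i1 (Subtype.ext ?_) ?_
  · rw [mul_Mv, h2, fromBlocks_multiply, inv_M, uu_M, inv_one]
    have e : (1 - single i i 2 : Matrix n n ℤ) * (1 - single i i 2) = 1 := by
      simp only [sub_mul, mul_sub, s1, mul_one, one_mul]
      have : (single i i (2 * 2) : Matrix n n ℤ) = single i i 2 + single i i 2 := by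
        rw [← single_add]; rfl
      rw [this]
      abel
    rw [e]
    simp
  · have p : ((ww i : GG n) * ww i).ph (i1 n) = -(Real.pi / 2) * I + -(Real.pi / 2) * I := by
      rw [mul_ph, ww_fix, ww_ph]
    have f : ((ww i : GG n) * ww i).M • i1 n = i1 n := by
      rw [mul_M, mul_smul, ww_fix, ww_fix]
    rw [mul_ph, f, p, inv_ph, uu_ph]
    ring

/-- indicator matrices -/
def dl (l : List n) : Matrix n n ℤ := diagonal fun i => if i ∈ l then 1 else 0

theorem prod_M (l : List n) (hl : l.Nodup) : ((l.map (ww : n → GG n)).prod).M.1 =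
    fromBlocks (1 - dl l) (dl l) (-dl l) (1 - dl l) := by
  induction l with
  | nil =>
    have e : (dl [] : Matrix n n ℤ) = 0 := by
      unfold dl
      simp
    rw [e]
    simp [one_M]
  | cons k t ih =>
    rw [List.nodup_cons] at hl
    rw [List.map_cons, List.prod_cons, mul_Mv, ih hl.2, ww_M, fromBlocks_multiply]
    have e1 : (single k k 1 : Matrix n n ℤ) * dl t = 0 := by
      unfold dl
      ext p q
      rw [Matrix.mul_diagonal, Matrix.zero_apply, Matrix.single_apply]
      by_cases h : k = p ∧ k = q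
      · rw [← h.2, if_neg hl.1, mul_zero]
      · rw [if_neg h, zero_mul]
    have e2 : dl (k :: t) = single k k 1 + dl t := by
      unfold dl
      ext p q
      rw [Matrix.add_apply, Matrix.single_apply]
      by_cases hpq : p = q
      · subst hpq
        rw [Matrix.diagonal_apply_eq, Matrix.diagonal_apply_eq]
        by_cases hp : k = p
        · subst hp
          simp [hl.1]
        · simp [hp, Ne.symm hp]
      · rw [Matrix.diagonal_apply_ne _ hpq, Matrix.diagonal_apply_ne _ hpq]
        rw [if_neg]
        · rfl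
        · rintro ⟨h1, h2⟩
          exact hpq (h1.symm.trans h2)
    rw [e2]
    congr 1
    · simp only [sub_mul, mul_sub, mul_neg, neg_mul, e1, mul_one, one_mul]
      abel
    · simp only [sub_mul, mul_sub, mul_neg, neg_mul, e1, mul_one, one_mul]
      abel
    · simp only [sub_mul, mul_sub, mul_neg, neg_mul, e1, mul_one, one_mul]
      abel
    · simp only [sub_mul, mul_sub, mul_neg, neg_mul, e1, mul_one, one_mul]
      abel

theorem hJ (l : List n) (hl : l.Nodup) (hall : ∀ i, i ∈ l) (i j : n) (a : ℤ) (hij : i ≠ j) :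
    toGL ((l.map (ww : n → GG n)).prod * rE i j a * ((l.map (ww : n → GG n)).prod)⁻¹) =
      toGL (rE j i (-a)) := by
  have h1 : (l.map (ww : n → GG n)).prod.M * (rE i j a).M =
      (rE j i (-a)).M * (l.map (ww : n → GG n)).prod.M := by
    apply Subtype.ext
    rw [Submonoid.coe_mul, Submonoid.coe_mul, prod_M l hl, rE_M hij, rE_M (Ne.symm hij)]
    have e : dl l = 1 := by
      unfold dl
      simp [hall]
    rw [e, fromBlocks_multiply, fromBlocks_multiply]
    simp [single_neg, sub_eq_add_neg]
  apply Units.ext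
  rw [toGL_apply, toGL_apply, mul_M, mul_M, inv_M, h1, mul_assoc, mul_inv_cancel, mul_one]

theorem main : EP := by
  refine EP_of (GG (Fin 26)) uu PP rB toGL uu_comm uu_zpow_eq_one toGL_ker br cab cbb w4 ?_
  intro i j a hij
  exact hJ _ (List.nodup_finRange 26) (List.mem_finRange) i j a hij

end

end Pool.Agent.helper987_SE.E2
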