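import Pool.Agent.helper987_SE.Stm

/-!
# Part F1: groups which embed into `GL_n(ℤ)` are sofic
-/

set_option autoImplicit false

namespace Pool.Agent.helper987_SE.F1

open Pool.Agent.helper987_SE

/-- Groups whose finite sets are separated by finite quotients are sofic. -/
theorem sof_of_fin {G : Type} [Group G] (h : ∀ F : Finset G, ∃ (Q : Type) (_ : Group Q)
    (_ : Finite Q) (q : G →* Q), ∀ g ∈ F, g ≠ 1 → q g ≠ 1) : Sof G := by
  intro F ε hε
  obtain ⟨Q, hQ, hfin, q, hq⟩ := h F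
  let _ : Fintype Q := Fintype.ofFinite Q
  let e : Q ≃ Fin (Fintype.card Q) := Fintype.equivFin Q
  have hpos : (0 : ℝ) < Fintype.card Q := by exact_mod_cast Fintype.card_pos
  refine ⟨Fintype.card Q, fun g => e.permCongr (Equiv.mulLeft (q g)), ?_, ?_⟩
  · intro x _ y _
    rw [Finset.filter_false_of_mem]
    · simp only [Finset.card_empty, Nat.cast_zero]
      exact mul_pos hε hpos
    · intro i _
      simp [Equiv.permCongr_apply, mul_assoc]
  · intro x hx hx1
    have h1 : ∀ i ∈ (Finset.univ : Finset (Fin (Fintype.card Q))),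
        e.permCongr (Equiv.mulLeft (q x)) i ≠ i := by
      intro i _ h1
      rw [Equiv.permCongr_apply, Equiv.apply_eq_iff_eq_symm_apply] at h1
      have h2 : q x * e.symm i = e.symm i := h1
      exact hq x hx hx1 (mul_eq_right.1 h2)
    rw [Finset.filter_true_of_mem h1, Finset.card_univ, Fintype.card_fin]
    nlinarith

theorem main : F1P := by
  intro G _ n _ _ φ hφ
  apply sof_of_fin
  intro F
  classical
  set B : ℕ := ∑ g ∈ F, ∑ i, ∑ j, ((φ g).1 i j - (1 : Matrix n n ℤ) i j).natAbs with hB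
  have hne : NeZero (B + 1) := ⟨Nat.succ_ne_zero B⟩
  refine ⟨Matrix.GeneralLinearGroup n (ZMod (B + 1)), inferInstance, inferInstance,
    (Matrix.GeneralLinearGroup.map (Int.castRingHom (ZMod (B + 1)))).comp φ, ?_⟩
  intro g hg hg1 hmap
  apply hg1
  apply hφ
  rw [map_one]
  apply Units.ext
  apply Matrix.ext
  intro i j
  have h1 := congrArg (fun M : Matrix.GeneralLinearGroup n (ZMod (B + 1)) => M.1 i j) hmap
  have h2 : (((φ g).1 i j : ℤ) : ZMod (B + 1)) = (((1 : Matrix n n ℤ) i j : ℤ) : ZMod (B + 1)) := by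
    have h3 : (1 : Matrix n n (ZMod (B + 1))) i j = (((1 : Matrix n n ℤ) i j : ℤ) : ZMod (B + 1)) := by
      rw [Matrix.one_apply, Matrix.one_apply]
      split <;> simp
    rw [← h3]
    exact h1
  have h4 : (((φ g).1 i j - (1 : Matrix n n ℤ) i j : ℤ) : ZMod (B + 1)) = 0 := by
    rw [Int.cast_sub, h2, sub_self]
  rw [ZMod.intCast_zmod_eq_zero_iff_dvd] at h4
  have h5 : ((φ g).1 i j - (1 : Matrix n n ℤ) i j).natAbs ≤ B := by
    have a1 : ∑ i, ∑ j, ((φ g).1 i j - (1 : Matrix n n ℤ) i j).natAbs ≤ B :=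
      Finset.single_le_sum (f := fun g => ∑ i, ∑ j, ((φ g).1 i j - (1 : Matrix n n ℤ) i j).natAbs)
        (fun _ _ => Nat.zero_le _) hg
    have a2 : ∑ j, ((φ g).1 i j - (1 : Matrix n n ℤ) i j).natAbs ≤
        ∑ i, ∑ j, ((φ g).1 i j - (1 : Matrix n n ℤ) i j).natAbs :=
      Finset.single_le_sum (f := fun i => ∑ j, ((φ g).1 i j - (1 : Matrix n n ℤ) i j).natAbs)
        (fun _ _ => Nat.zero_le _) (Finset.mem_univ i)
    have a3 : ((φ g).1 i j - (1 : Matrix n n ℤ) i j).natAbs ≤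
        ∑ j, ((φ g).1 i j - (1 : Matrix n n ℤ) i j).natAbs :=
      Finset.single_le_sum (f := fun j => ((φ g).1 i j - (1 : Matrix n n ℤ) i j).natAbs)
        (fun _ _ => Nat.zero_le _) (Finset.mem_univ j)
    omega
  have h6 := Int.eq_zero_of_abs_lt_dvd h4 (by
    rw [Int.abs_eq_natAbs]
    exact_mod_cast Nat.lt_succ_of_le h5)
  show (φ g).1 i j = (1 : Matrix n n ℤ) i j
  omega

end Pool.Agent.helper987_SE.F1
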