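import Pool.Agent.helper987_SE.Stm

/-!
# Part F2: countable sofic groups embed into `SS A`
-/

set_option autoImplicit false

open Filter Topology

namespace Pool.Agent.helper987_SE.F2

open Pool.Agent.helper987_SE Helper418

theorem cls_eq {A : ℕ → Type} [∀ n, Fintype (A n)] {s t : ∀ n, Equiv.Perm (A n)}
    (h : ∀ᶠ x in ae A, s x.1 x.2 = t x.1 x.2) : cls s = cls t := by
  unfold cls
  rw [QuotientGroup.eq]
  show Nul (s⁻¹ * t)
  unfold Nul
  filter_upwards [h] with x hx
  rw [Pi.mul_apply, Pi.inv_apply, Equiv.Perm.mul_apply, ← hx]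
  exact Equiv.symm_apply_apply _ _

theorem nul_of_cls_eq_one {A : ℕ → Type} [∀ n, Fintype (A n)] {s : ∀ n, Equiv.Perm (A n)}
    (h : cls s = 1) : ∀ᶠ x in ae A, s x.1 x.2 = x.2 := by
  unfold cls at h
  rw [QuotientGroup.eq_one_iff] at h
  exact h

theorem main : F2P := by
  intro G _ _ hG
  classical
  obtain ⟨enum, henum⟩ := exists_surjective_nat G
  set S : ℕ → Finset G := fun n => (Finset.range (n + 1)).image enum with hS
  have hev : ∀ g : G, ∀ᶠ n in atTop, g ∈ S n := by
    intro g
    obtain ⟨k, hk⟩ := henum g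
    filter_upwards [eventually_ge_atTop k] with n hn
    exact Finset.mem_image.2 ⟨k, Finset.mem_range.2 (by omega), hk⟩
  have hε : ∀ n : ℕ, (0 : ℝ) < 1 / ((n : ℝ) + 1) := fun n => by positivity
  choose m φ hφm hφf using fun n : ℕ => hG (S n) (1 / ((n : ℝ) + 1)) (hε n)
  have hm : ∀ n, 0 < m n := by
    intro n
    have h0 : enum 0 ∈ S n := Finset.mem_image.2 ⟨0, Finset.mem_range.2 (by omega), rfl⟩
    have h1 := hφm n _ h0 _ h0
    rcases Nat.eq_zero_or_pos (m n) with h | h
    · exfalso
      have h5 : ((m n : ℕ) : ℝ) = 0 := by rw [h, Nat.cast_zero]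
      rw [h5, mul_zero] at h1
      exact absurd h1 (not_lt.2 (Nat.cast_nonneg _))
    · exact h
  have hlim : Tendsto (fun n : ℕ => 1 / ((n : ℝ) + 1)) atTop (𝓝 0) :=
    tendsto_one_div_add_atTop_nhds_zero_nat
  have hmul : ∀ g h : G, ∀ᶠ x in ae (fun n => Fin (m n)),
      φ x.1 (g * h) x.2 = (φ x.1 g * φ x.1 h) x.2 := by
    intro g h
    rw [mem_ae (A := fun n => Fin (m n)) (P := fun n a => φ n (g * h) a = (φ n g * φ n h) a)]
    refine squeeze_zero' (Eventually.of_forall fun n => dens_nonneg _ n) ?_ hlim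
    filter_upwards [hev g, hev h] with n hg hh
    have h1 := (hφm n g hg h hh).le
    have h2 : (0 : ℝ) < m n := by exact_mod_cast hm n
    unfold dens
    rw [Fintype.card_fin, div_le_iff₀ h2]
    refine le_trans (le_of_eq ?_) h1
    congr 2
    apply Finset.filter_congr_decidable
  refine ⟨fun n => Fin (m n), fun n => inferInstance, fun n => ⟨⟨0, hm n⟩⟩,
    MonoidHom.mk' (fun g => cls fun n => φ n g) ?_, ?_⟩
  · intro g h
    exact cls_eq (hmul g h)
  · intro g hg
    by_contra hg1
    have h1 := nul_of_cls_eq_one (A := fun n => Fin (m n)) (s := fun n => φ n g) hg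
    rw [mem_ae (A := fun n => Fin (m n)) (P := fun n a => φ n g a = a)] at h1
    have h2 : Tendsto (fun n : ℕ => 1 - 1 / ((n : ℝ) + 1)) atTop (𝓝 (1 - 0)) :=
      hlim.const_sub 1
    rw [sub_zero] at h2
    have h3 : (1 : ℝ) ≤ 0 := by
      refine le_of_tendsto_of_tendsto h2 h1 ?_
      filter_upwards [hev g] with n hg
      have h3 := hφf n g hg hg1
      have h4 : (0 : ℝ) < m n := by exact_mod_cast hm n
      unfold dens
      rw [Fintype.card_fin, le_div_iff₀ h4]
      refine le_trans h3 (le_of_eq ?_)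
      congr 2
      ext i
      simp only [Finset.mem_filter]
    linarith

end Pool.Agent.helper987_SE.F2
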