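import Pool.Agent.helper987_SE.Stm

/-!
# Part F3: the chain argument
-/

set_option autoImplicit false

namespace Pool.Agent.helper987_SE.F3

open Pool.Agent.helper987_SE

/-- Soficity is invariant under isomorphisms. -/
theorem Sof.congr {G H : Type} [Group G] [Group H] (e : G ≃* H) (h : Sof G) : Sof H := by
  classical
  intro F ε hε
  obtain ⟨n, φ, h1, h2⟩ := h (F.image e.symm) ε hε
  refine ⟨n, fun g => φ (e.symm g), ?_, ?_⟩
  · intro g hg k hk
    have := h1 (e.symm g) (Finset.mem_image_of_mem _ hg) (e.symm k) (Finset.mem_image_of_mem _ hk)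
    rw [← map_mul] at this
    exact this
  · intro g hg hg1
    exact h2 (e.symm g) (Finset.mem_image_of_mem _ hg) (fun h => hg1 (by
      rwa [EmbeddingLike.map_eq_one_iff] at h))

section chain

variable {G : Type} [Group G] (u : G) (hu : ∀ g, u * g = g * u)

/-- the subgroups of the chain -/
def Z (k : ℕ) : Subgroup G := Subgroup.zpowers (u ^ (2 ^ k))

include hu in
theorem Z_normal (k : ℕ) : (Z u k).Normal := by
  have hc : ∀ g, u ^ (2 ^ k) * g = g * u ^ (2 ^ k) := fun g => (Commute.pow_left (hu g) _)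
  refine ⟨fun x hx g => ?_⟩
  unfold Z at *
  obtain ⟨j, rfl⟩ := Subgroup.mem_zpowers_iff.1 hx
  have h2 : g * (u ^ (2 ^ k)) ^ j * g⁻¹ = (u ^ (2 ^ k)) ^ j := by
    have h3 : (u ^ (2 ^ k)) ^ j * g = g * (u ^ (2 ^ k)) ^ j := (Commute.zpow_left (hc g) j)
    rw [← h3, mul_inv_cancel_right]
  rw [h2]
  exact Subgroup.zpow_mem_zpowers _ _

theorem Z_le (k : ℕ) : Z u (k + 1) ≤ Z u k := by
  unfold Z
  rw [Subgroup.zpowers_le, Subgroup.mem_zpowers_iff]
  refine ⟨2, ?_⟩
  rw [pow_succ, pow_mul]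
  norm_cast

theorem not_mem (hinf : ∀ n : ℤ, u ^ n = 1 → n = 0) (a k : ℕ) (hak : a < k) :
    u ^ (2 ^ a) ∉ Z u k := by
  intro h
  unfold Z at h
  obtain ⟨j, hj⟩ := Subgroup.mem_zpowers_iff.1 h
  have h1 : u ^ ((2 : ℤ) ^ k * j - 2 ^ a) = 1 := by
    rw [zpow_sub, zpow_mul]
    have e1 : u ^ ((2 : ℤ) ^ k) = u ^ (2 ^ k) := by exact_mod_cast zpow_natCast u (2 ^ k)
    have e2 : u ^ ((2 : ℤ) ^ a) = u ^ (2 ^ a) := by exact_mod_cast zpow_natCast u (2 ^ a)
    rw [e1, e2, hj, mul_inv_cancel]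
  have h2 := hinf _ h1
  obtain ⟨b, rfl⟩ : ∃ b, k = a + 1 + b := ⟨k - (a + 1), by omega⟩
  have h3 : (2 : ℤ) ^ a ≠ 0 := by positivity
  have h4 : (2 : ℤ) ^ a * (2 ^ (1 + b) * j - 1) = 0 := by
    rw [← h2]
    ring
  have h5 : (2 : ℤ) ^ (1 + b) * j - 1 = 0 := (mul_eq_zero.1 h4).resolve_left h3
  have h6 : (2 : ℤ) * (2 ^ b * j) = 1 := by
    rw [pow_add] at h5
    linarith
  omega

end chain

theorem main : F3P := by
  rintro ⟨G, hG, u, P, P', φ, hPP, hu, hinf, hW, hker⟩ hF1 hF2 hD hfr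
  have hn : ∀ k, (Z u k).Normal := Z_normal u hu
  -- the chain
  have hsof : ∀ k, Sof (G ⧸ Z u k) := by
    intro k
    induction k with
    | zero =>
      have h0 : Z u 0 = φ.ker := by
        rw [hker]
        unfold Z
        rw [pow_zero, pow_one]
      have e : G ⧸ Z u 0 ≃* G ⧸ φ.ker := QuotientGroup.quotientMulEquivOfEq h0
      refine Sof.congr e.symm ?_
      exact hF1 (G ⧸ φ.ker) (Fin 26 ⊕ Fin 26) (QuotientGroup.kerLift φ)
        (QuotientGroup.kerLift_injective φ)
    | succ k ih =>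
      set N : Subgroup (G ⧸ Z u (k + 1)) := (Z u k).map (QuotientGroup.mk' (Z u (k + 1))) with hN
      have hNn : N.Normal := Subgroup.Normal.map (hn k) _ (QuotientGroup.mk'_surjective _)
      have e : ((G ⧸ Z u (k + 1)) ⧸ N) ≃* G ⧸ Z u k :=
        QuotientGroup.quotientQuotientEquivQuotient _ _ (Z_le u k)
      have hcard : Nat.card N = 2 := by
        have h1 : N = Subgroup.zpowers (QuotientGroup.mk' (Z u (k + 1)) (u ^ (2 ^ k))) := by
          exact MonoidHom.map_zpowers (QuotientGroup.mk' (Z u (k + 1))) (u ^ (2 ^ k))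
        rw [h1, Nat.card_zpowers]
        apply orderOf_eq_prime
        · rw [← map_pow, ← pow_mul, ← pow_succ]
          rw [QuotientGroup.mk'_apply, QuotientGroup.eq_one_iff]
          exact Subgroup.mem_zpowers _
        · rw [QuotientGroup.mk'_apply, Ne, QuotientGroup.eq_one_iff]
          exact not_mem u hinf k (k + 1) (by omega)
      exact hfr (G ⧸ Z u (k + 1)) N hcard (Sof.congr e.symm ih)
  -- countability
  have hcount : Countable G := by
    have c0 : Countable (Matrix (Fin 26 ⊕ Fin 26) (Fin 26 ⊕ Fin 26) ℤ) :=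
      (inferInstance : Countable ((Fin 26 ⊕ Fin 26) → (Fin 26 ⊕ Fin 26) → ℤ))
    have c1 : Countable (Matrix.GeneralLinearGroup (Fin 26 ⊕ Fin 26) ℤ) :=
      Function.Injective.countable (f := fun M => M.1) (fun _ _ h => Units.ext h)
    have c2 : Countable (G ⧸ φ.ker) :=
      Function.Injective.countable (QuotientGroup.kerLift_injective φ)
    have c3 : Countable φ.ker := by
      rw [hker]
      have : Function.Surjective (fun j : ℤ => (⟨u ^ j, Subgroup.zpow_mem_zpowers u j⟩ :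
          Subgroup.zpowers u)) := by
        rintro ⟨x, hx⟩
        obtain ⟨j, rfl⟩ := Subgroup.mem_zpowers_iff.1 hx
        exact ⟨j, rfl⟩
      exact this.countable
    exact (Subgroup.groupEquivQuotientProdSubgroup (s := φ.ker)).injective.countable
  have hcount5 : Countable (G ⧸ Z u 5) := (QuotientGroup.mk'_surjective (Z u 5)).countable
  obtain ⟨A, hA1, hA2, α, hα⟩ := hF2 (G ⧸ Z u 5) (hsof 5)
  have h1 := hD A G P P' hPP u hu hW (α.comp (QuotientGroup.mk' (Z u 5)))
  rw [MonoidHom.comp_apply, ← map_pow, ← map_pow] at h1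
  have h2 := hα _ h1
  rw [QuotientGroup.mk'_apply, QuotientGroup.eq_one_iff] at h2
  exact not_mem u hinf 4 5 (by omega) (by norm_num; exact h2)

end Pool.Agent.helper987_SE.F3
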