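import Pool.Agent.helper987_SE.Stm

/-!
# Part C2: a finite measure on the torus is determined by its Fourier coefficients
-/

set_option autoImplicit false

open MeasureTheory Filter Topology

namespace Pool.Agent.helper987_SE.C2

open Pool.Agent.helper987_SE

/-- the monomials -/
noncomputable def chi (p : ℤ × ℤ) : C(Tor, ℂ) :=
  ⟨fun z => fourier p.1 z.1 * fourier p.2 z.2,
    ((fourier p.1).continuous.comp continuous_fst).mul
      ((fourier p.2).continuous.comp continuous_snd)⟩

/-- the monomials as bounded functions -/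
noncomputable def chiB (p : ℤ × ℤ) : BoundedContinuousFunction Tor ℂ :=
  BoundedContinuousFunction.mkOfCompact (chi p)

theorem chiB_apply (p : ℤ × ℤ) (z : Tor) : chiB p z = fourier p.1 z.1 * fourier p.2 z.2 := rfl

theorem chiB_mul (p q : ℤ × ℤ) : chiB p * chiB q = chiB (p + q) := by
  ext z
  rw [BoundedContinuousFunction.mul_apply, chiB_apply, chiB_apply, chiB_apply, Prod.fst_add,
    Prod.snd_add, fourier_add, fourier_add]
  ring

theorem chiB_zero : chiB 0 = 1 := by
  ext z
  rw [chiB_apply, Prod.fst_zero, Prod.snd_zero, fourier_zero, fourier_zero, mul_one]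
  rfl

theorem chiB_star (p : ℤ × ℤ) : star (chiB p) = chiB (-p) := by
  ext z
  rw [BoundedContinuousFunction.star_apply, chiB_apply, chiB_apply, Prod.fst_neg, Prod.snd_neg,
    fourier_neg, fourier_neg]
  exact map_mul (starRingEnd ℂ) _ _

/-- trigonometric polynomials -/
noncomputable def AA : StarSubalgebra ℂ (BoundedContinuousFunction Tor ℂ) where
  toSubalgebra := Algebra.adjoin ℂ (Set.range chiB)
  star_mem' := by
    change Algebra.adjoin ℂ (Set.range chiB) ≤ star (Algebra.adjoin ℂ (Set.range chiB))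
    refine Algebra.adjoin_le ?_
    rintro - ⟨n, rfl⟩
    show star (chiB n) ∈ Algebra.adjoin ℂ (Set.range chiB)
    rw [chiB_star]
    exact Algebra.subset_adjoin ⟨-n, rfl⟩

theorem mem_span_of_mem {g : BoundedContinuousFunction Tor ℂ} (hg : g ∈ AA) :
    g ∈ Submodule.span ℂ (Set.range chiB) := by
  have h : Subalgebra.toSubmodule (Algebra.adjoin ℂ (Set.range chiB)) =
      Submodule.span ℂ (Set.range chiB) := by
    apply Algebra.adjoin_eq_span_of_subset
    refine Set.Subset.trans ?_ Submodule.subset_span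
    intro x hx
    refine Submonoid.closure_induction (fun _ => id) ⟨0, ?_⟩ ?_ hx
    · exact chiB_zero
    · rintro - - - - ⟨m, rfl⟩ ⟨n, rfl⟩
      exact ⟨m + n, (chiB_mul m n).symm⟩
  rw [← h]
  exact hg

theorem sep : (AA.map (BoundedContinuousFunction.toContinuousMapStarₐ ℂ)).SeparatesPoints := by
  intro x y hxy
  by_cases h1 : x.1 = y.1
  · have h2 : x.2 ≠ y.2 := fun h2 => hxy (Prod.ext h1 h2)
    refine ⟨_, ⟨chi (0, 1), ⟨chiB (0, 1), Algebra.subset_adjoin ⟨_, rfl⟩, rfl⟩, rfl⟩, ?_⟩
    show (fourier 0 x.1 * fourier 1 x.2 : ℂ) ≠ fourier 0 y.1 * fourier 1 y.2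
    rw [fourier_zero, fourier_zero, one_mul, one_mul, fourier_one, fourier_one]
    intro h3
    rw [Subtype.coe_inj] at h3
    exact h2 (AddCircle.injective_toCircle one_ne_zero h3)
  · refine ⟨_, ⟨chi (1, 0), ⟨chiB (1, 0), Algebra.subset_adjoin ⟨_, rfl⟩, rfl⟩, rfl⟩, ?_⟩
    show (fourier 1 x.1 * fourier 0 x.2 : ℂ) ≠ fourier 1 y.1 * fourier 0 y.2
    rw [fourier_zero, fourier_zero, mul_one, mul_one, fourier_one, fourier_one]
    intro h3
    rw [Subtype.coe_inj] at h3
    exact h1 (AddCircle.injective_toCircle one_ne_zero h3)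

theorem main : C2P := by
  intro μ ν hμ hν h
  apply ext_of_forall_mem_subalgebra_integral_eq_of_pseudoEMetric_complete_countable (𝕜 := ℂ)
    (A := AA) sep
  intro g hg
  have hint : ∀ (ρ : Measure Tor) [IsFiniteMeasure ρ] (k : BoundedContinuousFunction Tor ℂ),
      Integrable (fun z => k z) ρ := fun ρ _ k => k.integrable ρ
  refine Submodule.span_induction (p := fun g _ => ∫ z, g z ∂μ = ∫ z, g z ∂ν) ?_ ?_ ?_ ?_
    (mem_span_of_mem hg)
  · rintro - ⟨p, rfl⟩
    exact h p.1 p.2
  · simp
  · intro x y _ _ hx hy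
    simp only [BoundedContinuousFunction.add_apply]
    rw [integral_add (hint μ x) (hint μ y), integral_add (hint ν x) (hint ν y), hx, hy]
  · intro a x _ hx
    simp only [BoundedContinuousFunction.smul_apply]
    rw [integral_smul, integral_smul, hx]

end Pool.Agent.helper987_SE.C2
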