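import Pool.Agent.helper987_SE.Stm

/-!
# Project SE (helper987): how the parts fit together (hypotheses to be replaced by the parts)
-/

set_option autoImplicit false

namespace Pool.Agent.helper987_SE

/-- Final assembly from the parts. -/
theorem assembly
    (A1 : A1P) (A2 : A1P → A2P) (A3 : A2P → A3P) (A4 : A2P → A4P)
    (B1 : B1P) (B2 : B1P → B2P) (B3 : B1P → B3P) (B4 : B4P) (B5 : B3P → B4P → B5P) (B6 : B6P)
    (B7 : B4P → B7P) (B8 : B4P → B8P) (B9 : B9P)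
    (B10 : B2P → B5P → B6P → B7P → B8P → B9P → BP)
    (C1 : C1P) (C2 : C2P) (C3 : C3P) (C4 : C1P → C2P → C3P → C4P) (C5 : C5P) (C6 : C6P)
    (C7 : C4P → C5P → C6P → CP)
    (D1 : A4P → BP → CP → PwP) (D3 : PwP → D3P) (D4 : A3P → D3P → DP)
    (E : EP) (F1 : F1P) (F2 : F2P) (F3 : F3P) : ¬ Frozen := by
  have a2 := A2 A1
  have b2 := B2 B1
  have b5 := B5 (B3 B1) B4
  have b := B10 b2 b5 B6 (B7 B4) (B8 B4) B9
  have c := C7 (C4 C1 C2 C3) C5 C6
  exact F3 E F1 F2 (D4 (A3 a2) (D3 (D1 (A4 a2) b c)))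

end Pool.Agent.helper987_SE
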