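import Pool.Agent.helper987_SE.Stm

/-!
# Project SE, part C7, first file: projections to fixed vectors of unitary representations
-/

set_option autoImplicit false

namespace Pool.Agent.helper987_SE.C7

open Submodule Filter Topology

noncomputable section

variable {Γ : Type} [Group Γ] {H : Type} [NormedAddCommGroup H] [InnerProductSpace ℂ H]
  [CompleteSpace H] (π : Γ →* unitary (H →L[ℂ] H))

/-- the operator of a group element -/
def op (g : Γ) : H →L[ℂ] H := (π g : H →L[ℂ] H)

lemma op_mul (g h : Γ) (v : H) : op π (g * h) v = op π g (op π h v) := by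
  simp [op, map_mul]

@[simp] lemma op_one (v : H) : op π 1 v = v := by
  simp [op]

lemma op_inv_op (g : Γ) (v : H) : op π g⁻¹ (op π g v) = v := by
  rw [← op_mul]; simp

lemma op_op_inv (g : Γ) (v : H) : op π g (op π g⁻¹ v) = v := by
  rw [← op_mul]; simp

lemma norm_op (g : Γ) (v : H) : ‖op π g v‖ = ‖v‖ := Unitary.norm_map (π g) v

lemma inner_op (g : Γ) (v w : H) : inner ℂ (op π g v) w = inner ℂ v (op π g⁻¹ w) := by
  have h := Unitary.inner_map_map (π g) v (op π g⁻¹ w)
  rw [← h]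
  congr 1
  exact (op_op_inv π g w).symm

/-- vectors fixed by the elements of `A` -/
def Fx (A : Set Γ) : Submodule ℂ H where
  carrier := {v | ∀ g ∈ A, op π g v = v}
  add_mem' := by
    intro a b ha hb g hg
    rw [map_add, ha g hg, hb g hg]
  zero_mem' := by
    intro g _
    rw [map_zero]
  smul_mem' := by
    intro c a ha g hg
    rw [map_smul, ha g hg]

lemma mem_Fx {A : Set Γ} {v : H} : v ∈ Fx π A ↔ ∀ g ∈ A, op π g v = v := Iff.rfl

lemma isClosed_Fx (A : Set Γ) : IsClosed (Fx π A : Set H) := by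
  have : (Fx π A : Set H) = ⋂ g ∈ A, {v : H | op π g v = v} := by
    ext v
    simp only [SetLike.mem_coe, mem_Fx, Set.mem_iInter, Set.mem_ofPred_eq]
  rw [this]
  refine isClosed_biInter fun g _ => ?_
  exact isClosed_eq (op π g).continuous continuous_id

instance (A : Set Γ) : CompleteSpace (Fx π A) := (isClosed_Fx π A).completeSpace_coe

lemma Fx_mono {A B : Set Γ} (h : A ⊆ B) : Fx π B ≤ Fx π A := fun _ hv g hg => hv g (h hg)

lemma Fx_union (A B : Set Γ) : Fx π (A ∪ B) = Fx π A ⊓ Fx π B := by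
  ext v
  constructor
  · intro h
    exact ⟨fun g hg => h g (Or.inl hg), fun g hg => h g (Or.inr hg)⟩
  · rintro ⟨h1, h2⟩ g (hg | hg)
    · exact h1 g hg
    · exact h2 g hg

/-- a vector fixed by `A` is fixed by the group generated by `A` -/
lemma Fx_closure {A : Set Γ} {v : H} (hv : v ∈ Fx π A) {g : Γ} (hg : g ∈ Subgroup.closure A) :
    op π g v = v := by
  induction hg using Subgroup.closure_induction with
  | mem x hx => exact hv x hx
  | one => simp
  | mul x y _ _ hx hy => rw [op_mul, hy, hx]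
  | inv x _ hx =>
    have := op_inv_op π x v
    rwa [hx] at this

lemma fx_inv {g : Γ} {v : H} (h : op π g v = v) : op π g⁻¹ v = v := by
  have := op_inv_op π g v
  rwa [h] at this

/-- projection to the fixed vectors -/
def Pr (A : Set Γ) : H →L[ℂ] H := (Fx π A).starProjection

lemma Pr_mem (A : Set Γ) (v : H) : Pr π A v ∈ Fx π A := starProjection_apply_mem _ _

lemma Pr_of_mem {A : Set Γ} {v : H} (h : v ∈ Fx π A) : Pr π A v = v :=
  starProjection_eq_self_iff.2 h

lemma Pr_eq {A : Set Γ} {v : H} : Pr π A v = v ↔ v ∈ Fx π A := starProjection_eq_self_iff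

lemma Pr_Pr (A : Set Γ) (v : H) : Pr π A (Pr π A v) = Pr π A v := Pr_of_mem π (Pr_mem π A v)

lemma Pr_inner (A : Set Γ) (v w : H) : inner ℂ (Pr π A v) w = inner ℂ v (Pr π A w) :=
  inner_starProjection_left_eq_right _ _ _

lemma norm_Pr (A : Set Γ) (v : H) : ‖Pr π A v‖ ≤ ‖v‖ := norm_starProjection_apply_le _ _

lemma Pr_min (A : Set Γ) (v w : H) (hw : w ∈ Fx π A) : ‖v - Pr π A v‖ ≤ ‖v - w‖ := by
  have h1 : Pr π A (v - w) = Pr π A v - w := by rw [map_sub, Pr_of_mem π hw]
  have h2 : v - Pr π A v = (v - w) - Pr π A (v - w) := by rw [h1]; abel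
  have h3 := norm_sq_eq_add_norm_sq_starProjection (v - w) (Fx π A)
  have h4 : (Fx π A)ᗮ.starProjection (v - w) = (v - w) - Pr π A (v - w) := by
    rw [starProjection_orthogonal']
    simp [Pr]
  rw [h2]
  have h5 : ‖(v - w) - Pr π A (v - w)‖ ^ 2 ≤ ‖v - w‖ ^ 2 := by
    rw [h3, ← h4]
    nlinarith [sq_nonneg ‖(Fx π A).starProjection (v - w)‖]
  exact (pow_le_pow_iff_left₀ (norm_nonneg _) (norm_nonneg _) two_ne_zero).1 h5

/-- an operator which, together with its adjoint, preserves the fixed vectors commutes with the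
projection -/
lemma Pr_comm_of (A : Set Γ) (X Y : H →L[ℂ] H)
    (hXY : ∀ v w, inner ℂ (X v) w = inner ℂ v (Y w))
    (hX : ∀ v ∈ Fx π A, X v ∈ Fx π A) (hY : ∀ v ∈ Fx π A, Y v ∈ Fx π A) (v : H) :
    Pr π A (X v) = X (Pr π A v) := by
  refine eq_starProjection_of_mem_orthogonal' (K := Fx π A) (z := X (v - Pr π A v))
    (hX _ (Pr_mem π A v)) ?_ ?_ |>.symm ▸ rfl
  · rw [Submodule.mem_orthogonal']
    intro w hw
    rw [hXY]
    exact starProjection_inner_eq_zero _ _ (hY w hw)
  · rw [← map_add]; congr 1; abel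

lemma Pr_comm_op (A : Set Γ) (g : Γ) (h : ∀ v ∈ Fx π A, op π g v ∈ Fx π A)
    (h' : ∀ v ∈ Fx π A, op π g⁻¹ v ∈ Fx π A) (v : H) :
    Pr π A (op π g v) = op π g (Pr π A v) :=
  Pr_comm_of π A (op π g) (op π g⁻¹) (inner_op π g) h h' v

lemma Pr_comm_Pr (A B : Set Γ)
    (h : ∀ g ∈ A, ∀ v, Pr π B (op π g v) = op π g (Pr π B v)) (v : H) :
    Pr π A (Pr π B v) = Pr π B (Pr π A v) := by
  have h1 : ∀ v ∈ Fx π A, Pr π B v ∈ Fx π A := by
    intro v hv g hg
    rw [← h g hg, hv g hg]
  exact Pr_comm_of π A (Pr π B) (Pr π B) (Pr_inner π B) h1 h1 v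

lemma Fx_of_commute {A : Set Γ} {g : Γ} (h : ∀ a ∈ A, Commute g a) {v : H} (hv : v ∈ Fx π A) :
    op π g v ∈ Fx π A := by
  intro a ha
  rw [← op_mul, ← (h a ha).eq, op_mul, hv a ha]

lemma Pr_comm_op_of_commute {A : Set Γ} {g : Γ} (h : ∀ a ∈ A, Commute g a) (v : H) :
    Pr π A (op π g v) = op π g (Pr π A v) :=
  Pr_comm_op π A g (fun _ hv => Fx_of_commute π h hv)
    (fun _ hv => Fx_of_commute π (fun a ha => (h a ha).inv_left) hv) v

lemma Pr_comm_Pr_of_commute {A B : Set Γ} (h : ∀ a ∈ A, ∀ b ∈ B, Commute a b) (v : H) :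
    Pr π A (Pr π B v) = Pr π B (Pr π A v) :=
  Pr_comm_Pr π A B (fun g hg v => Pr_comm_op_of_commute π (h g hg) v) v

/-- projection for a union of two commuting sets -/
lemma Pr_union {A B : Set Γ} (h : ∀ v, Pr π A (Pr π B v) = Pr π B (Pr π A v)) (v : H) :
    Pr π (A ∪ B) v = Pr π A (Pr π B v) := by
  refine eq_starProjection_of_mem_orthogonal' (K := Fx π (A ∪ B)) (z := v - Pr π A (Pr π B v))
    ?_ ?_ ?_ |>.symm ▸ rfl
  · rw [Fx_union]
    refine ⟨Pr_mem π A _, ?_⟩
    rw [h]
    exact Pr_mem π B _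
  · rw [Submodule.mem_orthogonal]
    intro w hw
    rw [Fx_union] at hw
    rw [inner_sub_right, ← Pr_inner, ← Pr_inner, Pr_of_mem π hw.1, Pr_of_mem π hw.2, sub_self]
  · abel

lemma near_union {A B : Set Γ} (h : ∀ v, Pr π A (Pr π B v) = Pr π B (Pr π A v)) (v : H) :
    ‖v - Pr π (A ∪ B) v‖ ≤ ‖v - Pr π A v‖ + ‖v - Pr π B v‖ := by
  rw [Pr_union π h]
  have : v - Pr π A (Pr π B v) = (v - Pr π A v) + Pr π A (v - Pr π B v) := by
    rw [map_sub]; abel
  rw [this]
  exact (norm_add_le _ _).trans (add_le_add le_rfl (norm_Pr π A _))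

open scoped Classical in
lemma near_finset (F : Finset Γ) (hF : ∀ a ∈ F, ∀ b ∈ F, Commute a b) (v : H) (δ : ℝ)
    (h : ∀ g ∈ F, ‖v - Pr π {g} v‖ ≤ δ) : ‖v - Pr π (F : Set Γ) v‖ ≤ F.card * δ := by
  induction F using Finset.induction_on with
  | empty =>
    have : v ∈ Fx π (((∅ : Finset Γ) : Set Γ)) := by
      intro g hg
      simp at hg
    rw [Pr_of_mem π this]
    simp
  | insert a s ha ih =>
    have hs := ih (fun x hx y hy => hF x (Finset.mem_insert_of_mem hx) y (Finset.mem_insert_of_mem hy))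
      (fun g hg => h g (Finset.mem_insert_of_mem hg))
    have hcomm : ∀ v, Pr π {a} (Pr π (s : Set Γ) v) = Pr π (s : Set Γ) (Pr π {a} v) := by
      intro v
      apply Pr_comm_Pr_of_commute
      intro x hx b hb
      rw [Set.mem_singleton_iff.1 hx]
      exact hF a (Finset.mem_insert_self a s) b (Finset.mem_insert_of_mem hb)
    have e1 : ((insert a s : Finset Γ) : Set Γ) = {a} ∪ (s : Set Γ) := by
      rw [Finset.coe_insert]; rfl
    rw [e1, Finset.card_insert_of_notMem ha]
    refine (near_union π hcomm v).trans ?_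
    have h1 := h a (Finset.mem_insert_self a s)
    push_cast
    linarith

/-- mean ergodic theorem -/
lemma near_single (g : Γ) (v : H) (δ : ℝ) (h : ∀ n : ℕ, ‖op π (g ^ n) v - v‖ ≤ δ) :
    ‖v - Pr π {g} v‖ ≤ δ := by
  have hnorm : ‖op π g‖ ≤ 1 := by
    refine ContinuousLinearMap.opNorm_le_bound _ zero_le_one fun w => ?_
    rw [norm_op, one_mul]
  have ht := ContinuousLinearMap.tendsto_birkhoffAverage_orthogonalProjection (op π g) hnorm v
  set w := (((op π g).eqLocus (1 : H →L[ℂ] H)).orthogonalProjectionOnto v : H) with hw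
  have hwmem : w ∈ Fx π {g} := by
    intro a ha
    rw [Set.mem_singleton_iff.1 ha]
    have := (((op π g).eqLocus (1 : H →L[ℂ] H)).orthogonalProjectionOnto v).2
    rw [LinearMap.mem_eqLocus] at this
    exact this
  refine (Pr_min π {g} v w hwmem).trans ?_
  have hit : ∀ n : ℕ, (op π g)^[n] v = op π (g ^ n) v := by
    intro n
    induction n with
    | zero => simp
    | succ n ih => rw [Function.iterate_succ_apply', ih, pow_succ', op_mul]
  have hδ : 0 ≤ δ := (norm_nonneg _).trans (h 0)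
  have hb : ∀ n : ℕ, 0 < n → ‖v - birkhoffAverage ℂ (op π g) _root_.id n v‖ ≤ δ := by
    intro n hn
    have hn' : (n : ℂ) ≠ 0 := by exact_mod_cast hn.ne'
    have e1 : v - birkhoffAverage ℂ (op π g) _root_.id n v =
        (n : ℂ)⁻¹ • ∑ k ∈ Finset.range n, (v - op π (g ^ k) v) := by
      rw [birkhoffAverage, birkhoffSum, Finset.sum_sub_distrib, smul_sub]
      congr 1
      · rw [Finset.sum_const, Finset.card_range, ← Nat.cast_smul_eq_nsmul ℂ, smul_smul,
          inv_mul_cancel₀ hn', one_smul]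
      · congr 1
        refine Finset.sum_congr rfl fun k _ => ?_
        simp [hit]
    rw [e1, norm_smul, norm_inv, Complex.norm_natCast]
    have e2 : ‖∑ k ∈ Finset.range n, (v - op π (g ^ k) v)‖ ≤ n * δ := by
      refine (norm_sum_le _ _).trans ?_
      refine (Finset.sum_le_sum fun k _ => ?_).trans (le_of_eq (by simp : ∑ _k ∈ Finset.range n, δ = n * δ))
      rw [norm_sub_rev]
      exact h k
    have hn'' : (0 : ℝ) < n := by exact_mod_cast hn
    calc (n : ℝ)⁻¹ * _ ≤ (n : ℝ)⁻¹ * (n * δ) := mul_le_mul_of_nonneg_left e2 (by positivity)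
      _ = δ := by field_simp
  have ht2 : Tendsto (fun n : ℕ => ‖v - birkhoffAverage ℂ (op π g) _root_.id n v‖) atTop (𝓝 ‖v - w‖) :=
    (tendsto_const_nhds.sub ht).norm
  refine le_of_tendsto ht2 ?_
  filter_upwards [eventually_gt_atTop 0] with n hn
  exact hb n hn

end

end Pool.Agent.helper987_SE.C7
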