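import Pool.Agent.helper987_SE.C7b

/-!
# Project SE, part C7, third file: the abstract form of Theorem 15
-/

set_option autoImplicit false

namespace Pool.Agent.helper987_SE.C7

open Submodule Filter Topology

noncomputable section

/-- the index set `D` -/
abbrev DD := Fin 3 × Fin 3

/-- the relations of the groups `T_I^D(J,K)` -/
structure TD (Γ : Type) [Group Γ] (A B C : Type) where
  s : DD → DD → Γ
  x : A → DD → Γ
  y : DD → B → Γ
  w : A → B → Γ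
  t : C → Γ
  ss : ∀ p q r, p ≠ q → q ≠ r → p ≠ r → s p q * s q r = s p r * s q r * s p q
  ss_comm : ∀ p q r u, p ≠ q → r ≠ u → q ≠ r → p ≠ u → Commute (s p q) (s r u)
  xs : ∀ a p q, p ≠ q → x a p * s p q = x a q * s p q * x a p
  xs_comm : ∀ a r p q, p ≠ q → r ≠ p → Commute (x a r) (s p q)
  xx_comm : ∀ a p b q, Commute (x a p) (x b q)
  sy : ∀ p q b, p ≠ q → s p q * y q b = y p b * y q b * s p q
  sy_comm : ∀ p q r b, p ≠ q → r ≠ q → Commute (s p q) (y r b)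
  yy_comm : ∀ p b q c, Commute (y p b) (y q c)
  xy : ∀ a p b, x a p * y p b = w a b * y p b * x a p
  xy_comm : ∀ a p q b, p ≠ q → Commute (x a p) (y q b)
  w_cen : ∀ a b g, Commute (w a b) g
  t_cen : ∀ c g, Commute (t c) g
  t_sq : ∀ c, ∃ a b, t c * t c = w a b
  gen : ∀ K : Subgroup Γ, (∀ p q, p ≠ q → s p q ∈ K) → (∀ a p, x a p ∈ K) →
    (∀ p b, y p b ∈ K) → (∀ a b, w a b ∈ K) → (∀ c, t c ∈ K) → ∀ g, g ∈ K

section
variable {Γ : Type} [Group Γ] {H : Type} [NormedAddCommGroup H] [InnerProductSpace ℂ H]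
  [CompleteSpace H] (π : Γ →* unitary (H →L[ℂ] H))

lemma norm_inv (g : Γ) (v : H) : ‖op π g⁻¹ v - v‖ = ‖op π g v - v‖ := by
  have h := norm_op π g (op π g⁻¹ v - v)
  rw [map_sub, op_op_inv, norm_sub_rev] at h
  exact h.symm

lemma norm_sub_Pr (A : Set Γ) (v : H) : ‖v - Pr π A v‖ ≤ ‖v‖ := by
  have := Pr_min π A v 0 (Submodule.zero_mem _)
  rwa [sub_zero] at this

/-- from relative property (T) -/
lemma relT (c4 : C4P) (v : H) (hv : ‖v‖ = 1) (δ : ℝ) (hδ : 0 < δ) (hδ1 : δ ≤ 1) (a b x y : Γ)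
    (hab : a * b = b * a) (hxa : x * a = a * x) (hxb : x * b = a * b * x) (hyb : y * b = b * y)
    (hya : y * a = b * a * y)
    (ha : ‖op π a v - v‖ ≤ δ ^ 2 / 1000) (hb : ‖op π b v - v‖ ≤ δ ^ 2 / 1000)
    (hx : ‖op π x v - v‖ ≤ δ ^ 2 / 1000) (hy : ‖op π y v - v‖ ≤ δ ^ 2 / 1000) :
    ‖v - Pr π {a} v‖ ≤ δ := by
  refine near_single π a v δ fun n => ?_
  have h := c4 H (π a) (π b) (π x) (π y) (by rw [← map_mul, ← map_mul, hab])
    (by rw [← map_mul, ← map_mul, hxa]) (by rw [← map_mul, ← map_mul, ← map_mul, hxb])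
    (by rw [← map_mul, ← map_mul, hyb]) (by rw [← map_mul, ← map_mul, ← map_mul, hya])
    v (δ ^ 2 / 1000) hv (by positivity) (by nlinarith) ha hb hx hy (n : ℤ) 0
  have e1 : (((π a) ^ (n : ℤ) * (π b) ^ (0 : ℤ) : unitary (H →L[ℂ] H)) : H →L[ℂ] H) =
      op π (a ^ n) := by
    rw [zpow_zero, mul_one, zpow_natCast, ← map_pow]; rfl
  rw [e1] at h
  refine (abs_le_of_sq_le_sq' (h.trans (le_of_eq ?_)) hδ.le).2
  ring

/-- elements normalising `A` preserve the fixed vectors -/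
lemma pres {A : Set Γ} {g : Γ} (h : ∀ a ∈ A, g⁻¹ * a * g ∈ Subgroup.closure A) {v : H}
    (hv : v ∈ Fx π A) : op π g v ∈ Fx π A := by
  intro a ha
  have e1 : a * g = g * (g⁻¹ * a * g) := by group
  rw [← op_mul, e1, op_mul, Fx_closure π hv (h a ha)]

lemma Pr_comm_op_of_norm {A : Set Γ} {g : Γ} (h : ∀ a ∈ A, g⁻¹ * a * g ∈ Subgroup.closure A)
    (h' : ∀ a ∈ A, g * a * g⁻¹ ∈ Subgroup.closure A) (v : H) :
    Pr π A (op π g v) = op π g (Pr π A v) :=
  Pr_comm_op π A g (fun _ hv => pres π h hv)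
    (fun _ hv => pres π (by intro a ha; rw [inv_inv]; exact h' a ha) hv) v

end

section
variable {Γ : Type} [Group Γ] {A B C : Type} (d : TD Γ A B C)

open scoped Classical in
/-- a block of the matrices -/
def Ab (a b : Fin 3) : Finset Γ :=
  (Finset.univ : Finset (Fin 3 × Fin 3)).image fun i => d.s (a, i.1) (b, i.2)

open scoped Classical in
lemma mem_Ab {a b : Fin 3} {g : Γ} : g ∈ Ab d a b ↔ ∃ i j, g = d.s (a, i) (b, j) := by
  unfold Ab
  rw [Finset.mem_image]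
  constructor
  · rintro ⟨⟨i, j⟩, _, h⟩
    exact ⟨i, j, h.symm⟩
  · rintro ⟨i, j, h⟩
    exact ⟨(i, j), Finset.mem_univ _, h.symm⟩

open scoped Classical in
lemma card_Ab (a b : Fin 3) : (Ab d a b).card ≤ 9 := by
  unfold Ab
  refine Finset.card_image_le.trans ?_
  simp

/-- all the elements `s p q` -/
def Sa : Set Γ := {g | ∃ p q, p ≠ q ∧ g = d.s p q}

open scoped Classical in
/-- the elements `x` -/
def Xa [Fintype A] : Finset Γ := (Finset.univ : Finset (A × DD)).image fun i => d.x i.1 i.2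

open scoped Classical in
/-- the elements `y` -/
def Ya [Fintype B] : Finset Γ := (Finset.univ : Finset (DD × B)).image fun i => d.y i.1 i.2

open scoped Classical in
/-- the elements `w` -/
def Wa [Fintype A] [Fintype B] : Finset Γ :=
  (Finset.univ : Finset (A × B)).image fun i => d.w i.1 i.2

open scoped Classical in
/-- the elements `t` -/
def Ta [Fintype C] : Finset Γ := (Finset.univ : Finset C).image d.t

open scoped Classical in
lemma mem_Xa [Fintype A] {g : Γ} : g ∈ Xa d ↔ ∃ a p, g = d.x a p := by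
  unfold Xa
  rw [Finset.mem_image]
  constructor
  · rintro ⟨⟨i, j⟩, _, h⟩
    exact ⟨i, j, h.symm⟩
  · rintro ⟨i, j, h⟩
    exact ⟨(i, j), Finset.mem_univ _, h.symm⟩

open scoped Classical in
lemma mem_Ya [Fintype B] {g : Γ} : g ∈ Ya d ↔ ∃ p b, g = d.y p b := by
  unfold Ya
  rw [Finset.mem_image]
  constructor
  · rintro ⟨⟨i, j⟩, _, h⟩
    exact ⟨i, j, h.symm⟩
  · rintro ⟨i, j, h⟩
    exact ⟨(i, j), Finset.mem_univ _, h.symm⟩

open scoped Classical in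
lemma mem_Wa [Fintype A] [Fintype B] {g : Γ} : g ∈ Wa d ↔ ∃ a b, g = d.w a b := by
  unfold Wa
  rw [Finset.mem_image]
  constructor
  · rintro ⟨⟨i, j⟩, _, h⟩
    exact ⟨i, j, h.symm⟩
  · rintro ⟨i, j, h⟩
    exact ⟨(i, j), Finset.mem_univ _, h.symm⟩

open scoped Classical in
lemma mem_Ta [Fintype C] {g : Γ} : g ∈ Ta d ↔ ∃ c, g = d.t c := by
  unfold Ta
  rw [Finset.mem_image]
  constructor
  · rintro ⟨i, _, h⟩
    exact ⟨i, h.symm⟩
  · rintro ⟨i, h⟩
    exact ⟨i, Finset.mem_univ _, h.symm⟩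

lemma ne_blk {a b : Fin 3} (h : a ≠ b) (i j : Fin 3) : ((a, i) : DD) ≠ (b, j) := by
  intro hh
  exact h (congrArg Prod.fst hh)

variable {H : Type} [NormedAddCommGroup H] [InnerProductSpace ℂ H]
  [CompleteSpace H] (π : Γ →* unitary (H →L[ℂ] H))

/-- `x⁻¹ * b = a * b * x⁻¹` -/
lemma inv_rel {a b x : Γ} (h : b * x = a * x * b) (hc : Commute x a) : x⁻¹ * b = a * b * x⁻¹ := by
  have h1 : b = a * x * b * x⁻¹ := by rw [← h]; group
  calc x⁻¹ * b = x⁻¹ * (a * x * b * x⁻¹) := by rw [← h1]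
    _ = x⁻¹ * (x * a) * b * x⁻¹ := by rw [hc.eq]; group
    _ = a * b * x⁻¹ := by group

lemma exists_third (p q : DD) : ∃ r : DD, r ≠ p ∧ r ≠ q := by
  revert p q; decide

section near
variable (c4 : C4P) (v : H) (hv : ‖v‖ = 1) (δ : ℝ) (hδ : 0 < δ) (hδ1 : δ ≤ 1)
  (hs : ∀ p q, ‖op π (d.s p q) v - v‖ ≤ δ ^ 2 / 1000)
include c4 hv hδ hδ1 hs

lemma near_s (p q : DD) (hpq : p ≠ q) : ‖v - Pr π {d.s p q} v‖ ≤ δ := by
  obtain ⟨r, hrp, hrq⟩ := exists_third p q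
  have c1 : Commute (d.s r q) (d.s p q) := d.ss_comm _ _ _ _ hrq hpq hpq.symm hrq
  have c2 : Commute (d.s q r) (d.s p r) := d.ss_comm _ _ _ _ hrq.symm hrp.symm hrp hrq.symm
  refine relT π c4 v hv δ hδ hδ1 (d.s p q) (d.s p r) (d.s r q)⁻¹ (d.s q r)⁻¹ ?_ ?_ ?_ ?_ ?_
    (hs _ _) (hs _ _) ?_ ?_
  · exact (d.ss_comm _ _ _ _ hpq hrp.symm hpq.symm hrp.symm).eq
  · exact c1.inv_left.eq
  · exact inv_rel (d.ss p r q hrp.symm hrq hpq) c1
  · exact c2.inv_left.eq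
  · exact inv_rel (d.ss p q r hpq hrq.symm hrp.symm) c2
  · rw [norm_inv]; exact hs _ _
  · rw [norm_inv]; exact hs _ _

lemma near_x (hx : ∀ a p, ‖op π (d.x a p) v - v‖ ≤ δ ^ 2 / 1000) (a : A) (p : DD) :
    ‖v - Pr π {d.x a p} v‖ ≤ δ := by
  obtain ⟨q, hqp, -⟩ := exists_third p p
  have c1 : Commute (d.s q p) (d.x a p) := (d.xs_comm a p q p hqp hqp.symm).symm
  have c2 : Commute (d.s p q) (d.x a q) := (d.xs_comm a q p q hqp.symm hqp).symm
  refine relT π c4 v hv δ hδ hδ1 (d.x a p) (d.x a q) (d.s q p)⁻¹ (d.s p q)⁻¹ ?_ ?_ ?_ ?_ ?_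
    (hx _ _) (hx _ _) ?_ ?_
  · exact (d.xx_comm _ _ _ _).eq
  · exact c1.inv_left.eq
  · exact inv_rel (d.xs a q p hqp) c1
  · exact c2.inv_left.eq
  · exact inv_rel (d.xs a p q hqp.symm) c2
  · rw [norm_inv]; exact hs _ _
  · rw [norm_inv]; exact hs _ _

lemma near_y (hy : ∀ p b, ‖op π (d.y p b) v - v‖ ≤ δ ^ 2 / 1000) (p : DD) (b : B) :
    ‖v - Pr π {d.y p b} v‖ ≤ δ := by
  obtain ⟨q, hqp, -⟩ := exists_third p p
  refine relT π c4 v hv δ hδ hδ1 (d.y p b) (d.y q b) (d.s p q) (d.s q p) ?_ ?_ ?_ ?_ ?_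
    (hy _ _) (hy _ _) (hs _ _) (hs _ _)
  · exact (d.yy_comm _ _ _ _).eq
  · exact (d.sy_comm p q p b hqp.symm hqp.symm).eq
  · exact d.sy p q b hqp.symm
  · exact (d.sy_comm q p q b hqp hqp).eq
  · exact d.sy q p b hqp

end near

lemma fix_s {v : H} {p q r : DD} (hpq : p ≠ q) (hqr : q ≠ r) (hpr : p ≠ r)
    (h1 : op π (d.s p q) v = v) (h2 : op π (d.s q r) v = v) : op π (d.s p r) v = v := by
  have e1 : d.s p r = d.s p q * d.s q r * (d.s p q)⁻¹ * (d.s q r)⁻¹ := by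
    rw [d.ss p q r hpq hqr hpr]; group
  rw [e1, op_mul, op_mul, op_mul, fx_inv π h2, fx_inv π h1, h2, h1]

/-- the angle inequality for blocks -/
lemma angle_blk (c6 : C6P) {a b c : Fin 3} (hab : a ≠ b) (hbc : b ≠ c) (hac : a ≠ c) (f : H) :
    - (3 / 8) * (‖f - Pr π (Ab d a b : Set Γ) f‖ ^ 2 + ‖f - Pr π (Ab d b c : Set Γ) f‖ ^ 2) ≤
      2 * (inner ℂ (f - Pr π (Ab d a b : Set Γ) f) (f - Pr π (Ab d b c : Set Γ) f)).re := by
  refine angle π c6 (A := (Ab d a b : Set Γ)) (B := (Ab d b c : Set Γ)) (Z := Ab d a c)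
    ?_ ?_ ?_ ?_ (3 / 8) (by norm_num) (by norm_num) ?_ f
  · intro g hg z hz
    obtain ⟨i, j, rfl⟩ := (mem_Ab d).1 hg
    obtain ⟨i', k, rfl⟩ := (mem_Ab d).1 hz
    exact d.ss_comm _ _ _ _ (ne_blk hab _ _) (ne_blk hac _ _) (ne_blk hab.symm _ _) (ne_blk hac _ _)
  · intro g hg z hz
    obtain ⟨i, j, rfl⟩ := (mem_Ab d).1 hg
    obtain ⟨i', k, rfl⟩ := (mem_Ab d).1 hz
    exact d.ss_comm _ _ _ _ (ne_blk hbc _ _) (ne_blk hac _ _) (ne_blk hac.symm _ _) (ne_blk hbc _ _)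
  · intro g hg z hz
    obtain ⟨i, j, rfl⟩ := (mem_Ab d).1 hg
    obtain ⟨i', k, rfl⟩ := (mem_Ab d).1 hz
    exact d.ss_comm _ _ _ _ (ne_blk hac _ _) (ne_blk hac _ _) (ne_blk hac.symm _ _) (ne_blk hac _ _)
  · intro g hg h hh
    obtain ⟨i, j, rfl⟩ := (mem_Ab d).1 hg
    obtain ⟨j', k, rfl⟩ := (mem_Ab d).1 hh
    by_cases hj : j = j'
    · subst hj
      refine ⟨d.s (a, i) (c, k), Subgroup.subset_closure ((mem_Ab d).2 ⟨i, k, rfl⟩), ?_⟩
      exact d.ss _ _ _ (ne_blk hab _ _) (ne_blk hbc _ _) (ne_blk hac _ _)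
    · refine ⟨1, one_mem _, ?_⟩
      rw [one_mul]
      refine (d.ss_comm _ _ _ _ (ne_blk hab _ _) (ne_blk hbc _ _) ?_ (ne_blk hac _ _)).eq
      intro hh
      exact hj (congrArg Prod.snd hh)
  · intro z hz f hf
    obtain ⟨i, k, rfl⟩ := (mem_Ab d).1 hz
    refine pair_three π (x := fun q => d.s (a, i) (b, q)) (y := fun q => d.s (b, q) (c, k))
      (c := d.s (a, i) (c, k)) ?_ ?_ ?_ ?_ ?_ ?_ f hf
    · intro q; exact (mem_Ab d).2 ⟨i, q, rfl⟩
    · intro q; exact (mem_Ab d).2 ⟨q, k, rfl⟩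
    · intro q
      exact d.ss _ _ _ (ne_blk hab _ _) (ne_blk hbc _ _) (ne_blk hac _ _)
    · intro q q' hq
      refine d.ss_comm _ _ _ _ (ne_blk hab _ _) (ne_blk hbc _ _) ?_ (ne_blk hac _ _)
      intro hh
      exact hq (congrArg Prod.snd hh)
    · intro q
      exact d.ss_comm _ _ _ _ (ne_blk hac _ _) (ne_blk hab _ _) (ne_blk hac.symm _ _) (ne_blk hab _ _)
    · intro g hg
      obtain ⟨j, k', rfl⟩ := (mem_Ab d).1 hg
      exact d.ss_comm _ _ _ _ (ne_blk hac _ _) (ne_blk hbc _ _) (ne_blk hbc.symm _ _) (ne_blk hac _ _)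

/-- the three subspaces -/
def S3 : Fin 3 → Submodule ℂ H :=
  ![Fx π (Ab d 0 1 : Set Γ), Fx π (Ab d 1 2 : Set Γ), Fx π (Ab d 2 0 : Set Γ)]

lemma S3_eq (i : Fin 3) : S3 d π i = Fx π (Ab d i (i + 1) : Set Γ) := by
  fin_cases i <;> rfl

instance (i : Fin 3) : (S3 d π i).HasOrthogonalProjection := by
  rw [S3_eq]; infer_instance

instance : CompleteSpace (⨅ i, S3 d π i : Submodule ℂ H) := by
  have h : IsClosed ((⨅ i, S3 d π i : Submodule ℂ H) : Set H) := by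
    rw [Submodule.coe_iInf]
    refine isClosed_iInter fun i => ?_
    rw [S3_eq]
    exact isClosed_Fx π _
  exact h.completeSpace_coe

lemma inf_S3_le : (⨅ i, S3 d π i) ≤ Fx π (Sa d) := by
  intro v hv
  rw [Submodule.mem_iInf] at hv
  have h01 : ∀ i j, op π (d.s (0, i) (1, j)) v = v := fun i j =>
    hv 0 _ ((mem_Ab d).2 ⟨i, j, rfl⟩)
  have h12 : ∀ i j, op π (d.s (1, i) (2, j)) v = v := fun i j =>
    hv 1 _ ((mem_Ab d).2 ⟨i, j, rfl⟩)
  have h20 : ∀ i j, op π (d.s (2, i) (0, j)) v = v := fun i j =>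
    hv 2 _ ((mem_Ab d).2 ⟨i, j, rfl⟩)
  have h02 : ∀ i j, op π (d.s (0, i) (2, j)) v = v := fun i j =>
    fix_s d π (ne_blk (by decide) _ _) (ne_blk (by decide) _ _) (ne_blk (by decide) _ _)
      (h01 i 0) (h12 0 j)
  have h10 : ∀ i j, op π (d.s (1, i) (0, j)) v = v := fun i j =>
    fix_s d π (ne_blk (by decide) _ _) (ne_blk (by decide) _ _) (ne_blk (by decide) _ _)
      (h12 i 0) (h20 0 j)
  have h21 : ∀ i j, op π (d.s (2, i) (1, j)) v = v := fun i j =>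
    fix_s d π (ne_blk (by decide) _ _) (ne_blk (by decide) _ _) (ne_blk (by decide) _ _)
      (h20 i 0) (h01 0 j)
  have hne : ∀ a b i j, a ≠ b → op π (d.s (a, i) (b, j)) v = v := by
    intro a b i j hab
    fin_cases a <;> fin_cases b <;> first | exact absurd rfl hab | skip
    · exact h01 i j
    · exact h02 i j
    · exact h10 i j
    · exact h12 i j
    · exact h20 i j
    · exact h21 i j
  rintro g ⟨⟨a, i⟩, ⟨b, j⟩, hpq, rfl⟩
  by_cases hab : a = b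
  · subst hab
    have hex : ∀ a : Fin 3, ∃ c : Fin 3, a ≠ c := by decide
    obtain ⟨c, hc⟩ := hex a
    exact fix_s d π (ne_blk hc _ _) (ne_blk hc.symm _ _) hpq (hne a c i 0 hc) (hne c a 0 j hc.symm)
  · exact hne a b i j hab

/-- step (b) -/
lemma near_S (c5 : C5P) (c6 : C6P) (v : H) (δ : ℝ) (hδ : 0 < δ)
    (h : ∀ p q, p ≠ q → ‖v - Pr π {d.s p q} v‖ ≤ δ) : ‖v - Pr π (Sa d) v‖ ≤ 36 * δ := by
  have hblk : ∀ i : Fin 3, ‖v - Pr π (Ab d i (i + 1) : Set Γ) v‖ ≤ 9 * δ := by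
    intro i
    have hne : i ≠ i + 1 := by revert i; decide
    refine (near_finset π (Ab d i (i + 1)) ?_ v δ ?_).trans ?_
    · intro g hg z hz
      obtain ⟨i1, j1, rfl⟩ := (mem_Ab d).1 hg
      obtain ⟨i2, j2, rfl⟩ := (mem_Ab d).1 hz
      exact d.ss_comm _ _ _ _ (ne_blk hne _ _) (ne_blk hne _ _) (ne_blk hne.symm _ _) (ne_blk hne _ _)
    · intro g hg
      obtain ⟨i1, j1, rfl⟩ := (mem_Ab d).1 hg
      exact h _ _ (ne_blk hne _ _)
    · have h9 : ((Ab d i (i + 1)).card : ℝ) ≤ 9 := by exact_mod_cast card_Ab d i (i + 1)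
      exact mul_le_mul_of_nonneg_right h9 hδ.le
  have hP : ∀ i f, (S3 d π i).starProjection f = Pr π (Ab d i (i + 1) : Set Γ) f := by
    intro i f
    fin_cases i <;> rfl
  have hang : ∀ i j, i ≠ j → ∀ f : H,
      - (3 / 8 : ℝ) * (‖f - (S3 d π i).starProjection f‖ ^ 2 +
        ‖f - (S3 d π j).starProjection f‖ ^ 2) ≤
      2 * (inner ℂ (f - (S3 d π i).starProjection f) (f - (S3 d π j).starProjection f)).re := by
    have hsymm : ∀ x y : H, (inner ℂ x y).re = (inner ℂ y x).re := by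
      intro x y
      rw [← inner_conj_symm, Complex.conj_re]
    have h01 := fun f => angle_blk d π c6 (a := 0) (b := 1) (c := 2) (by decide) (by decide) (by decide) f
    have h12 := fun f => angle_blk d π c6 (a := 1) (b := 2) (c := 0) (by decide) (by decide) (by decide) f
    have h20 := fun f => angle_blk d π c6 (a := 2) (b := 0) (c := 1) (by decide) (by decide) (by decide) f
    intro i j hij f
    rw [hP, hP]
    fin_cases i <;> fin_cases j <;> first | exact absurd rfl hij | skip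
    · exact h01 f
    · rw [add_comm (‖_‖ ^ 2), hsymm]; exact h20 f
    · rw [add_comm (‖_‖ ^ 2), hsymm]; exact h01 f
    · exact h12 f
    · exact h20 f
    · rw [add_comm (‖_‖ ^ 2), hsymm]; exact h12 f
  have h5 := c5 H (S3 d π) (3 / 8) (by norm_num) (by norm_num) hang v
  have h6 : ∑ i, ‖v - (S3 d π i).starProjection v‖ ^ 2 ≤ 3 * (9 * δ) ^ 2 := by
    have : ∀ i ∈ (Finset.univ : Finset (Fin 3)), ‖v - (S3 d π i).starProjection v‖ ^ 2 ≤ (9 * δ) ^ 2 := by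
      intro i _
      rw [hP]
      exact pow_le_pow_left₀ (norm_nonneg _) (hblk i) 2
    refine (Finset.sum_le_sum this).trans (le_of_eq ?_)
    simp
  set u := (⨅ i, S3 d π i).starProjection v with hu
  have hmem : u ∈ Fx π (Sa d) := inf_S3_le d π (starProjection_apply_mem _ _)
  refine (Pr_min π (Sa d) v u hmem).trans ?_
  refine (abs_le_of_sq_le_sq' ?_ (by positivity)).2
  nlinarith [sq_nonneg δ]

end

end

end Pool.Agent.helper987_SE.C7
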