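import Pool.Agent.helper987_SE.D3a

/-!
# Project SE: group theory of the subgroups `T_I^D(J,K)`
-/

set_option autoImplicit false
set_option maxHeartbeats 400000

open Finset
open scoped Classical

namespace Pool.Agent.helper987_SE

variable {ι : Type} {G : Type} [Group G] (P : SpRel ι G) {D I J K : Finset ι}

/-! ### membership -/

theorem mem_EDD {p q : ι} (hp : p ∈ D) (hq : q ∈ D) (h : p ≠ q) : P.E p q 1 ∈ TT P D I J K :=
  Subgroup.subset_closure (Or.inl ⟨p, hp, q, hq, h, rfl⟩)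
theorem mem_EID {i p : ι} (hi : i ∈ I) (hp : p ∈ D) : P.E i p 1 ∈ TT P D I J K :=
  Subgroup.subset_closure (Or.inr (Or.inl ⟨i, hi, p, hp, rfl⟩))
theorem mem_EDJ {p j : ι} (hp : p ∈ D) (hj : j ∈ J) : P.E p j 1 ∈ TT P D I J K :=
  Subgroup.subset_closure (Or.inr (Or.inr (Or.inl ⟨p, hp, j, hj, rfl⟩)))
theorem mem_NDK {p k : ι} (hp : p ∈ D) (hk : k ∈ K) : P.N p k 1 ∈ TT P D I J K :=
  Subgroup.subset_closure (Or.inr (Or.inr (Or.inr (Or.inl ⟨p, hp, k, hk, rfl⟩))))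
theorem mem_EIJ {i j : ι} (hi : i ∈ I) (hj : j ∈ J) : P.E i j 1 ∈ TT P D I J K :=
  Subgroup.subset_closure (Or.inr (Or.inr (Or.inr (Or.inr (Or.inl ⟨i, hi, j, hj, rfl⟩)))))
theorem mem_NIK {i k : ι} (hi : i ∈ I) (hk : k ∈ K) : P.N i k 1 ∈ TT P D I J K :=
  Subgroup.subset_closure (Or.inr (Or.inr (Or.inr (Or.inr (Or.inr ⟨i, hi, k, hk, rfl⟩)))))

/-- induction over the generators -/
theorem gens_ind {p : G → Prop}
    (h1 : ∀ x ∈ D, ∀ y ∈ D, x ≠ y → p (P.E x y 1)) (h2 : ∀ i ∈ I, ∀ x ∈ D, p (P.E i x 1))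
    (h3 : ∀ x ∈ D, ∀ j ∈ J, p (P.E x j 1)) (h4 : ∀ x ∈ D, ∀ k ∈ K, p (P.N x k 1))
    (h5 : ∀ i ∈ I, ∀ j ∈ J, p (P.E i j 1)) (h6 : ∀ i ∈ I, ∀ k ∈ K, p (P.N i k 1)) :
    ∀ g ∈ gens P D I J K, p g := by
  rintro g (⟨x, hx, y, hy, hxy, rfl⟩ | ⟨i, hi, x, hx, rfl⟩ | ⟨x, hx, j, hj, rfl⟩ |
    ⟨x, hx, k, hk, rfl⟩ | ⟨i, hi, j, hj, rfl⟩ | ⟨i, hi, k, hk, rfl⟩)
  · exact h1 x hx y hy hxy
  · exact h2 i hi x hx
  · exact h3 x hx j hj
  · exact h4 x hx k hk
  · exact h5 i hi j hj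
  · exact h6 i hi k hk

theorem TT_mono {D' I' J' K' : Finset ι} (h1 : D ⊆ D') (h2 : I ⊆ I') (h3 : J ⊆ J')
    (h4 : K ⊆ K') : TT P D I J K ≤ TT P D' I' J' K' := by
  unfold TT
  rw [Subgroup.closure_le]
  exact gens_ind P (fun x hx y hy hxy => mem_EDD P (h1 hx) (h1 hy) hxy)
    (fun i hi x hx => mem_EID P (h2 hi) (h1 hx)) (fun x hx j hj => mem_EDJ P (h1 hx) (h3 hj))
    (fun x hx k hk => mem_NDK P (h1 hx) (h4 hk)) (fun i hi j hj => mem_EIJ P (h2 hi) (h3 hj))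
    (fun i hi k hk => mem_NIK P (h2 hi) (h4 hk))

theorem E_zero {i j : ι} (h : i ≠ j) : P.E i j 0 = 1 := by
  have := P.E_add i j 0 0 h
  rw [add_zero] at this
  exact (mul_eq_left.1 this.symm)

theorem N_zero (i j : ι) : P.N i j 0 = 1 := by
  have := P.N_add i j 0 0
  rw [add_zero] at this
  exact (mul_eq_left.1 this.symm)

theorem E_neg {i j : ι} (h : i ≠ j) (c : ℤ) : P.E i j (-c) = (P.E i j c)⁻¹ := by
  have := P.E_add i j (-c) c h
  rw [neg_add_cancel, E_zero P h] at this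
  exact eq_inv_of_mul_eq_one_left this.symm

theorem N_neg (i j : ι) (c : ℤ) : P.N i j (-c) = (P.N i j c)⁻¹ := by
  have := P.N_add i j (-c) c
  rw [neg_add_cancel, N_zero P] at this
  exact eq_inv_of_mul_eq_one_left this.symm

theorem zpow_of_add {f : ℤ → G} (h0 : f 0 = 1) (h : ∀ a b, f (a + b) = f a * f b) (c : ℤ) :
    f 1 ^ c = f c := by
  have hn : ∀ n : ℕ, f 1 ^ n = f n := by
    intro n
    induction n with
    | zero => rw [pow_zero, Nat.cast_zero, h0]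
    | succ n ih => rw [pow_succ, ih, ← h, Nat.cast_succ]
  obtain ⟨n, rfl | rfl⟩ := c.eq_nat_or_neg
  · rw [zpow_natCast, hn]
  · have := h (-(n : ℤ)) n
    rw [neg_add_cancel, h0] at this
    rw [zpow_neg, zpow_natCast, hn]
    exact (eq_inv_of_mul_eq_one_left this.symm).symm

theorem E_zpow {i j : ι} (h : i ≠ j) (c : ℤ) : P.E i j 1 ^ c = P.E i j c :=
  zpow_of_add (E_zero P h) (fun a b => P.E_add i j a b h) c

theorem N_zpow (i j : ι) (c : ℤ) : P.N i j 1 ^ c = P.N i j c :=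
  zpow_of_add (N_zero P i j) (fun a b => P.N_add i j a b) c

/-! ### commutation -/

theorem ne_of_disjoint {s t : Finset ι} (h : Disjoint s t) {a b : ι} (ha : a ∈ s) (hb : b ∈ t) :
    a ≠ b := fun hab => Finset.disjoint_left.1 h ha (hab ▸ hb)

/-- commuting with all of `T` -/
theorem comm_TT {g : G} (h : ∀ t ∈ gens P D I J K, Commute g t) :
    ∀ t ∈ TT P D I J K, Commute g t := by
  intro t ht
  induction ht using Subgroup.closure_induction with
  | mem t ht => exact h t ht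
  | one => exact Commute.one_right g
  | mul x y _ _ hx hy => exact hx.mul_right hy
  | inv x _ hx => exact hx.inv_right

theorem comm_E (h0 : Adm D I J K) {i j : ι} (h : i ≠ j) (hiD : i ∉ D) (hjD : j ∉ D)
    (hjI : j ∉ I) (hiJ : i ∉ J) (hjK : j ∉ K) (a : ℤ) :
    ∀ t ∈ TT P D I J K, Commute (P.E i j a) t := by
  have e1 : ∀ {s : Finset ι} {x y : ι}, x ∉ s → y ∈ s → x ≠ y := fun hx hy hxy => hx (hxy ▸ hy)
  refine comm_TT P (gens_ind P ?_ ?_ ?_ ?_ ?_ ?_)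
  · intro p hp q hq hpq
    exact P.EE_comm i j p q a 1 h hpq (e1 hjD hp) (e1 hiD hq)
  · intro x hx p hp
    exact P.EE_comm i j x p a 1 h (ne_of_disjoint h0.DI hp hx).symm (e1 hjI hx) (e1 hiD hp)
  · intro p hp x hx
    exact P.EE_comm i j p x a 1 h (ne_of_disjoint h0.DJ hp hx) (e1 hjD hp) (e1 hiJ hx)
  · intro p hp k hk
    exact P.EN_comm i j p k a 1 h (e1 hjD hp) (e1 hjK hk)
  · intro x hx y hy
    exact P.EE_comm i j x y a 1 h (ne_of_disjoint h0.IJ hx hy) (e1 hjI hx) (e1 hiJ hy)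
  · intro x hx k hk
    exact P.EN_comm i j x k a 1 h (e1 hjI hx) (e1 hjK hk)

theorem comm_N (h0 : Adm D I J K) {a b : ι} (haD : a ∉ D) (hbD : b ∉ D) (haJ : a ∉ J)
    (hbJ : b ∉ J) (c : ℤ) : ∀ t ∈ TT P D I J K, Commute (P.N a b c) t := by
  have e1 : ∀ {s : Finset ι} {x y : ι}, x ∉ s → y ∈ s → y ≠ x := fun hx hy hxy => hx (hxy ▸ hy)
  refine comm_TT P (gens_ind P ?_ ?_ ?_ ?_ ?_ ?_)
  · intro p hp q hq hpq
    exact (P.EN_comm p q a b 1 c hpq (e1 haD hq) (e1 hbD hq)).symm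
  · intro x hx p hp
    exact (P.EN_comm x p a b 1 c (ne_of_disjoint h0.DI hp hx).symm (e1 haD hp) (e1 hbD hp)).symm
  · intro p hp x hx
    exact (P.EN_comm p x a b 1 c (ne_of_disjoint h0.DJ hp hx) (e1 haJ hx) (e1 hbJ hx)).symm
  · intro p hp k hk
    exact P.NN_comm a b p k c 1
  · intro x hx y hy
    exact (P.EN_comm x y a b 1 c (ne_of_disjoint h0.IJ hx hy) (e1 haJ hy) (e1 hbJ hy)).symm
  · intro x hx k hk
    exact P.NN_comm a b x k c 1

theorem EC_TT {D' I' J' K' : Finset ι} (h0 : Adm D I J K) (h0' : Adm D' I' J' K')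
    (h1 : Disjoint D D') (h2 : Disjoint D I')
    (h3 : Disjoint D J') (h4 : Disjoint D K') (h5 : Disjoint I D') (h6 : Disjoint J D')
    (h7 : Disjoint K D') (h8 : Disjoint I J') (h9 : Disjoint J I') (h10 : Disjoint J K')
    (h11 : Disjoint K J') : EC (TT P D I J K) (TT P D' I' J' K') := by
  have e1 : ∀ {s t : Finset ι} {x : ι}, Disjoint s t → x ∈ s → x ∉ t :=
    fun h hx => Finset.disjoint_left.1 h hx
  intro t ht t' ht'
  refine (comm_TT P (g := t') ?_ t ht).symm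
  refine gens_ind P ?_ ?_ ?_ ?_ ?_ ?_
  · intro p hp q hq hpq
    exact (comm_E P h0' hpq (e1 h1 hp) (e1 h1 hq) (e1 h2 hq) (e1 h3 hp) (e1 h4 hq) 1 t' ht').symm
  · intro x hx p hp
    exact (comm_E P h0' (ne_of_disjoint h0.DI hp hx).symm (e1 h5 hx) (e1 h1 hp) (e1 h2 hp)
      (e1 h8 hx) (e1 h4 hp) 1 t' ht').symm
  · intro p hp x hx
    exact (comm_E P h0' (ne_of_disjoint h0.DJ hp hx) (e1 h1 hp) (e1 h6 hx) (e1 h9 hx)
      (e1 h3 hp) (e1 h10 hx) 1 t' ht').symm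
  · intro p hp k hk
    exact (comm_N P h0' (e1 h1 hp) (e1 h7 hk) (e1 h3 hp) (e1 h11 hk) 1 t' ht').symm
  · intro x hx y hy
    exact (comm_E P h0' (ne_of_disjoint h0.IJ hx hy) (e1 h5 hx) (e1 h6 hy) (e1 h9 hy)
      (e1 h8 hx) (e1 h10 hy) 1 t' ht').symm
  · intro x hx k hk
    exact (comm_N P h0' (e1 h5 hx) (e1 h7 hk) (e1 h8 hx) (e1 h11 hk) 1 t' ht').symm

/-! ### normalising elements -/

theorem norm_TT {g : G} (h : ∀ t ∈ gens P D I J K, g⁻¹ * t * g ∈ TT P D I J K) :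
    ∀ t ∈ TT P D I J K, g⁻¹ * t * g ∈ TT P D I J K := by
  intro t ht
  induction ht using Subgroup.closure_induction with
  | mem t ht => exact h t ht
  | one => rw [mul_one, inv_mul_cancel]; exact one_mem _
  | mul x y _ _ hx hy =>
    have : g⁻¹ * (x * y) * g = (g⁻¹ * x * g) * (g⁻¹ * y * g) := by group
    rw [this]
    exact mul_mem hx hy
  | inv x _ hx =>
    have : g⁻¹ * x⁻¹ * g = (g⁻¹ * x * g)⁻¹ := by group
    rw [this]
    exact inv_mem hx

theorem mem_of_comm {g t : G} {T : Subgroup G} (h : Commute g t) (ht : t ∈ T) :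
    g⁻¹ * t * g ∈ T := by
  rw [mul_assoc, ← h.eq, inv_mul_cancel_left]
  exact ht

theorem norm_N (h : Adm D I J K) {j k : ι} (hj : j ∈ J) (hk : k ∈ K) :
    ∀ t ∈ TT P D I J K, (P.N j k 1)⁻¹ * t * P.N j k 1 ∈ TT P D I J K := by
  have hjk : j ≠ k := ne_of_disjoint h.JK hj hk
  refine norm_TT P (gens_ind P ?_ ?_ ?_ ?_ ?_ ?_)
  · intro p hp q hq hpq
    exact mem_of_comm (P.EN_comm p q j k 1 1 hpq (ne_of_disjoint h.DJ hq hj)
      (ne_of_disjoint h.DK hq hk)).symm (mem_EDD P hp hq hpq)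
  · intro x hx p hp
    exact mem_of_comm (P.EN_comm x p j k 1 1 (ne_of_disjoint h.DI hp hx).symm
      (ne_of_disjoint h.DJ hp hj) (ne_of_disjoint h.DK hp hk)).symm (mem_EID P hx hp)
  · intro p hp x hx
    by_cases hxj : x = j
    · subst hxj
      have e := P.EN p x k 1 1 (ne_of_disjoint h.DJ hp hx) (ne_of_disjoint h.DK hp hk).symm
        hjk.symm
      rw [mul_assoc, e, mul_assoc (P.N x k 1), inv_mul_cancel_left]
      exact mul_mem (mem_NDK P hp hk) (mem_EDJ P hp hx)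
    · exact mem_of_comm (P.EN_comm p x j k 1 1 (ne_of_disjoint h.DJ hp hx) hxj
        (ne_of_disjoint h.JK hx hk)).symm (mem_EDJ P hp hx)
  · intro p hp x hx
    exact mem_of_comm (P.NN_comm j k p x 1 1) (mem_NDK P hp hx)
  · intro x hx y hy
    by_cases hyj : y = j
    · subst hyj
      by_cases hkx : k = x
      · subst hkx
        have e := P.EN_i k y 1 1 (ne_of_disjoint h.IJ hx hy)
        rw [mul_assoc, e, mul_assoc (P.N y k 1), inv_mul_cancel_left]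
        refine mul_mem ?_ (mem_EIJ P hx hy)
        rw [← N_zpow]
        exact zpow_mem (mem_NIK P hx hk) _
      · have e := P.EN x y k 1 1 (ne_of_disjoint h.IJ hx hy) hkx hjk.symm
        rw [mul_assoc, e, mul_assoc (P.N y k 1), inv_mul_cancel_left]
        exact mul_mem (mem_NIK P hx hk) (mem_EIJ P hx hy)
    · exact mem_of_comm (P.EN_comm x y j k 1 1 (ne_of_disjoint h.IJ hx hy) hyj
        (ne_of_disjoint h.JK hy hk)).symm (mem_EIJ P hx hy)
  · intro x hx y hy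
    exact mem_of_comm (P.NN_comm j k x y 1 1) (mem_NIK P hx hy)

theorem norm_EJ (h : Adm D I J K) {j q : ι} (hj : j ∈ J) (hq : q ∈ J) (hjq : j ≠ q) :
    ∀ t ∈ TT P D I J K, (P.E j q 1)⁻¹ * t * P.E j q 1 ∈ TT P D I J K := by
  have key : ∀ x : ι, x ≠ j → x ≠ q → P.E x q 1 ∈ TT P D I J K → P.E x j 1 ∈ TT P D I J K →
      (P.E j q 1)⁻¹ * P.E x j 1 * P.E j q 1 ∈ TT P D I J K := by
    intro x h1 h2 h3 h4
    have e := P.EE x j q 1 1 h1 hjq h2
    have c := P.EE_comm j q x q 1 1 hjq h2 h2.symm hjq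
    rw [mul_assoc, e, mul_one, ← c.eq, mul_assoc, inv_mul_cancel_left]
    exact mul_mem h3 h4
  refine norm_TT P (gens_ind P ?_ ?_ ?_ ?_ ?_ ?_)
  · intro p hp x hx hpx
    exact mem_of_comm (P.EE_comm j q p x 1 1 hjq hpx (ne_of_disjoint h.DJ hp hq).symm
      (ne_of_disjoint h.DJ hx hj).symm) (mem_EDD P hp hx hpx)
  · intro x hx p hp
    exact mem_of_comm (P.EE_comm j q x p 1 1 hjq (ne_of_disjoint h.DI hp hx).symm
      (ne_of_disjoint h.IJ hx hq).symm (ne_of_disjoint h.DJ hp hj).symm) (mem_EID P hx hp)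
  · intro p hp x hx
    by_cases hxj : x = j
    · subst hxj
      exact key p (ne_of_disjoint h.DJ hp hx) (ne_of_disjoint h.DJ hp hq) (mem_EDJ P hp hq)
        (mem_EDJ P hp hx)
    · exact mem_of_comm (P.EE_comm j q p x 1 1 hjq (ne_of_disjoint h.DJ hp hx)
        (ne_of_disjoint h.DJ hp hq).symm (Ne.symm hxj)) (mem_EDJ P hp hx)
  · intro p hp x hx
    exact mem_of_comm (P.EN_comm j q p x 1 1 hjq (ne_of_disjoint h.DJ hp hq).symm
      (ne_of_disjoint h.JK hq hx)) (mem_NDK P hp hx)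
  · intro x hx y hy
    by_cases hyj : y = j
    · subst hyj
      exact key x (ne_of_disjoint h.IJ hx hy) (ne_of_disjoint h.IJ hx hq) (mem_EIJ P hx hq)
        (mem_EIJ P hx hy)
    · exact mem_of_comm (P.EE_comm j q x y 1 1 hjq (ne_of_disjoint h.IJ hx hy)
        (ne_of_disjoint h.IJ hx hq).symm (Ne.symm hyj)) (mem_EIJ P hx hy)
  · intro x hx y hy
    exact mem_of_comm (P.EN_comm j q x y 1 1 hjq (ne_of_disjoint h.IJ hx hq).symm
      (ne_of_disjoint h.JK hq hy)) (mem_NIK P hx hy)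

theorem norm_EK (h : Adm D I J K) {a b : ι} (ha : a ∈ K) (hb : b ∈ K) (hab : a ≠ b)
    (haI : a ∉ I) (hbI : b ∉ I) :
    ∀ t ∈ TT P D I J K, (P.E a b 1)⁻¹ * t * P.E a b 1 ∈ TT P D I J K := by
  have e1 : ∀ {s : Finset ι} {x y : ι}, x ∉ s → y ∈ s → x ≠ y := fun hx hy hxy => hx (hxy ▸ hy)
  have key : ∀ x : ι, x ≠ a → x ≠ b → P.N x a 1 ∈ TT P D I J K → P.N x b 1 ∈ TT P D I J K →
      (P.E a b 1)⁻¹ * P.N x b 1 * P.E a b 1 ∈ TT P D I J K := by
    intro x h1 h2 h3 h4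
    have e := P.EN a b x (-1) 1 hab h1 h2
    rw [E_neg P hab, P.N_symm b x] at e
    rw [e, mul_assoc (P.N x b 1 * _), inv_mul_cancel, mul_one]
    refine mul_mem h4 ?_
    rw [P.N_symm a x, ← N_zpow]
    exact zpow_mem h3 _
  refine norm_TT P (gens_ind P ?_ ?_ ?_ ?_ ?_ ?_)
  · intro p hp x hx hpx
    exact mem_of_comm (P.EE_comm a b p x 1 1 hab hpx (ne_of_disjoint h.DK hp hb).symm
      (ne_of_disjoint h.DK hx ha).symm) (mem_EDD P hp hx hpx)
  · intro x hx p hp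
    exact mem_of_comm (P.EE_comm a b x p 1 1 hab (ne_of_disjoint h.DI hp hx).symm
      (e1 hbI hx) (ne_of_disjoint h.DK hp ha).symm) (mem_EID P hx hp)
  · intro p hp x hx
    exact mem_of_comm (P.EE_comm a b p x 1 1 hab (ne_of_disjoint h.DJ hp hx)
      (ne_of_disjoint h.DK hp hb).symm (ne_of_disjoint h.JK hx ha).symm) (mem_EDJ P hp hx)
  · intro p hp x hx
    by_cases hxb : x = b
    · subst hxb
      exact key p (ne_of_disjoint h.DK hp ha) (ne_of_disjoint h.DK hp hx) (mem_NDK P hp ha)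
        (mem_NDK P hp hx)
    · exact mem_of_comm (P.EN_comm a b p x 1 1 hab (ne_of_disjoint h.DK hp hb).symm
        (Ne.symm hxb)) (mem_NDK P hp hx)
  · intro x hx y hy
    exact mem_of_comm (P.EE_comm a b x y 1 1 hab (ne_of_disjoint h.IJ hx hy)
      (e1 hbI hx) (ne_of_disjoint h.JK hy ha).symm) (mem_EIJ P hx hy)
  · intro x hx y hy
    by_cases hyb : y = b
    · subst hyb
      exact key x (e1 haI hx).symm (e1 hbI hx).symm (mem_NIK P hx ha) (mem_NIK P hx hy)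
    · exact mem_of_comm (P.EN_comm a b x y 1 1 hab (e1 hbI hx) (Ne.symm hyb)) (mem_NIK P hx hy)

/-! ### conjugation formulas -/

theorem conj_N_E {i j k : ι} (h : i ≠ j) (h1 : k ≠ i) (h2 : k ≠ j) (c : ℤ) :
    P.N j k c * P.E i j 1 * (P.N j k c)⁻¹ = P.E i j 1 * P.N i k (-c) := by
  have e := P.EN i j k 1 (-c) h h1 h2
  have c1 := P.EN_comm i j i k 1 (-c) h h.symm h2.symm
  rw [one_mul, N_neg P j k, mul_assoc _ (P.N i k (-c)), ← c1.eq] at e
  rw [mul_assoc, e, mul_inv_cancel_left]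

theorem conj_N_E' {i j : ι} (h : i ≠ j) (c : ℤ) :
    P.N j i c * P.E i j 1 * (P.N j i c)⁻¹ = P.E i j 1 * P.N i i (-(2 * c)) := by
  have e := P.EN_i i j 1 (-c) h
  have e2 : (2 * 1 * -c : ℤ) = -(2 * c) := by ring
  rw [e2, N_neg P j i] at e
  have c1 := P.EN_comm i j i i 1 (-(2 * c)) h h.symm h.symm
  rw [mul_assoc _ (P.N i i _), ← c1.eq] at e
  rw [mul_assoc, e, mul_inv_cancel_left]

theorem conj_N_E'' {i j : ι} (h : i ≠ j) (c : ℤ) :
    P.N j j c * P.E i j 1 * (P.N j j c)⁻¹ = P.E i j 1 * P.N i j (-c) * P.N i i c := by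
  have e := P.EN_j i j 1 (-c) h
  have e2 : (1 * -c : ℤ) = -c := by ring
  have e3 : (1 ^ 2 * -c : ℤ) = -c := by ring
  rw [e2, e3, N_neg P j j] at e
  have c1 := P.EN_comm i j i i 1 (-c) h h.symm h.symm
  have d := P.EN_i i j 1 (-c) h
  have e4 : (2 * 1 * -c : ℤ) = -c + -c := by ring
  rw [e4, P.N_add, P.N_symm j i] at d
  have d2 : P.E i j 1 * P.N i j (-c) * P.N i i c = P.N i j (-c) * P.N i i (-c) * P.E i j 1 := by
    have c2 := P.EN_comm i j i i 1 c h h.symm h.symm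
    have e5 : P.N i i (-c) * P.N i i c = 1 := by
      rw [← P.N_add, neg_add_cancel, N_zero]
    rw [d, mul_assoc _ (P.E i j 1), c2.eq]
    simp only [mul_assoc]
    rw [← mul_assoc (P.N i i (-c)) (P.N i i c), e5, one_mul]
  rw [d2, mul_assoc, e]
  simp only [mul_assoc]
  rw [mul_inv_cancel_left]

theorem conj_E_E {i j q : ι} (h : i ≠ j) (h1 : j ≠ q) (h2 : i ≠ q) :
    P.E j q 1 * P.E i j 1 * (P.E j q 1)⁻¹ = P.E i j 1 * P.E i q (-1) := by
  have e := P.EE i j q 1 (-1) h h1 h2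
  rw [one_mul, E_neg P h1] at e
  have c1 := P.EE_comm j q i q (1) (-1) h1 h2 h2.symm h1
  have c2 := P.EE_comm i j i q 1 (-1) h h2 h.symm h2
  rw [mul_assoc, e, c2.eq, ← mul_assoc, ← mul_assoc, c1.eq, mul_assoc (P.E i q (-1)),
    mul_inv_cancel, mul_one]

theorem conj_E_N {i j p : ι} (h : p ≠ j) (h1 : i ≠ p) (h2 : i ≠ j) :
    P.E p j 1 * P.N i j 1 * (P.E p j 1)⁻¹ = P.N i j 1 * P.N i p 1 := by
  have e := P.EN p j i 1 1 h h1 h2
  rw [mul_one, P.N_symm j i, P.N_symm p i] at e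
  rw [e, mul_assoc _ (P.E p j 1), mul_inv_cancel, mul_one]

end Pool.Agent.helper987_SE
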