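import Pool.Agent.helper987_SE.D3b

/-!
# Project SE: nonstandard relations, preparations
-/

set_option autoImplicit false
set_option maxHeartbeats 400000

open Filter Topology Finset
open scoped Classical

namespace Pool.Agent.helper987_SE

open Helper418

section
variable {A : ℕ → Type} [∀ n, Fintype (A n)] {G : Type} [Group G]

/-- `v` is a central element of `T` -/
def CenIn (T : Subgroup G) (v : G) : Prop := v ∈ T ∧ ∀ t ∈ T, Commute v t

theorem CenIn.mul {T : Subgroup G} {v w : G} (h : CenIn T v) (h' : CenIn T w) :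
    CenIn T (v * w) :=
  ⟨T.mul_mem h.1 h'.1, fun t ht => (h.2 t ht).mul_left (h'.2 t ht)⟩

theorem CenIn.zpow {T : Subgroup G} {v : G} (h : CenIn T v) (c : ℤ) : CenIn T (v ^ c) :=
  ⟨T.zpow_mem h.1 c, fun t ht => (h.2 t ht).zpow_left c⟩

/-- exact powers exist for the central elements of `T` -/
def Pwr (α : G →* SS A) (T : Subgroup G) : Prop := ∀ v, CenIn T v → ∃ r, IsPw α T v r

/-- the exact power map -/
noncomputable def pw (α : G →* SS A) (T : Subgroup G) (v : G) : (ℕ → ℤ) → SS A :=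
  if h : ∃ r, IsPw α T v r then h.choose else fun _ => 1

theorem pw_spec {α : G →* SS A} {T : Subgroup G} {v : G} (hT : Pwr α T) (hv : CenIn T v) :
    IsPw α T v (pw α T v) := by
  unfold pw
  rw [dif_pos (hT v hv)]
  exact (hT v hv).choose_spec

theorem cj {α : G →* SS A} {T : Subgroup G} {v w g : G} (hT : Pwr α T) (hv : CenIn T v)
    (hw : CenIn T w) (hg : ∀ t ∈ T, g⁻¹ * t * g ∈ T) {d : ℤ}
    (hc : g * v * g⁻¹ = v * w ^ (-d)) (l : ℕ → ℤ) :
    pw α T v l * α g * (pw α T v l)⁻¹ = pw α T w ((fun _ => d) * l) * α g := by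
  have h1 := pw_spec hT hv
  have h2 := pw_spec hT hw
  have h3 := pw_spec hT (hw.zpow (-d))
  have h4 := pw_spec hT (hv.mul (hw.zpow (-d)))
  have e1 := h1.conj h4 hg hc (-l)
  rw [h1.mul_pw h3 h4, h2.zpow_pw h3, h1.int.neg] at e1
  have e2 : ((fun _ => -d) * (-l) : ℕ → ℤ) = (fun _ => d) * l := by
    funext n
    simp
  rw [e2] at e1
  -- `α g * (r l)⁻¹ * (α g)⁻¹ = (r l)⁻¹ * rn (d l)`
  have e3 : α g * (pw α T v l)⁻¹ = (pw α T v l)⁻¹ * pw α T w ((fun _ => d) * l) * α g := by
    rw [← e1]; group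
  rw [mul_assoc, e3]
  group

end

/-! ### index sets -/

theorem RR_DA {i : Fin 26} (h : i ∈ RR) : i ∉ DA := by
  unfold RR at h; unfold DA
  simp only [mem_filter, mem_univ, true_and] at h ⊢
  omega

theorem RR_DB {i : Fin 26} (h : i ∈ RR) : i ∉ DB := by
  unfold RR at h; unfold DB
  simp only [mem_filter, mem_univ, true_and] at h ⊢
  omega

theorem DA_DB {i : Fin 26} (h : i ∈ DA) : i ∉ DB := by
  unfold DA at h; unfold DB
  simp only [mem_filter, mem_univ, true_and] at h ⊢
  omega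

theorem DB_DA {i : Fin 26} (h : i ∈ DB) : i ∉ DA := fun h' => DA_DB h' h

theorem DA_RR {i : Fin 26} (h : i ∈ DA) : i ∉ RR := fun h' => RR_DA h' h

theorem DB_RR {i : Fin 26} (h : i ∈ DB) : i ∉ RR := fun h' => RR_DB h' h

theorem disj_AB : Disjoint DA DB := disjoint_left.2 fun _ h => DA_DB h

theorem disj_BA : Disjoint DB DA := disj_AB.symm

theorem card_DA : DA.card = 9 := by decide

theorem card_DB : DB.card = 9 := by decide

/-- the two auxiliary blocks -/
structure Pair (D D' : Finset (Fin 26)) : Prop where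
  card : D.card = 9
  disj : Disjoint D D'
  R : ∀ i ∈ RR, i ∉ D

theorem pairA : Pair DA DB := ⟨card_DA, disj_AB, fun _ h => RR_DA h⟩

theorem pairB : Pair DB DA := ⟨card_DB, disj_BA, fun _ h => RR_DB h⟩

theorem Pair.notin {D D' : Finset (Fin 26)} (h : Pair D D') {q : Fin 26} (hq : q ∈ D') :
    q ∉ D := fun h' => disjoint_left.1 h.disj h' hq

theorem ne_of_mem {S : Finset (Fin 26)} {a b : Fin 26} (ha : a ∈ S) (hb : b ∉ S) : a ≠ b := by
  rintro rfl
  exact hb ha

theorem sing_disj {a b : Fin 26} (h : a ≠ b) : Disjoint ({a} : Finset (Fin 26)) {b} := by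
  simpa using h

theorem disj_sing {D : Finset (Fin 26)} {a : Fin 26} (h : a ∉ D) : Disjoint D {a} := by
  simpa using h

theorem sing_disj' {D : Finset (Fin 26)} {a : Fin 26} (h : a ∉ D) : Disjoint {a} D := by
  simpa using h

section
variable {A : ℕ → Type} [∀ n, Fintype (A n)] [∀ n, Nonempty (A n)] {G : Type} [Group G]
  (P : SpRel (Fin 26) G) (α : G →* SS A) (hP : PwP)

include hP in
theorem pwr_TT {D I J K : Finset (Fin 26)} (h : Adm D I J K) : Pwr α (TT P D I J K) := by
  intro v hv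
  obtain ⟨r, h1, h2, h3, h4, h5⟩ := hP A G P α D I J K h v hv.1 (fun t ht => (hv.2 t ht).eq)
  exact ⟨r, h1, h2, h3, h4, h5⟩

theorem cenE {D I J K : Finset (Fin 26)} (h : Adm D I J K) {i j : Fin 26} (hi : i ∈ I)
    (hj : j ∈ J) : CenIn (TT P D I J K) (P.E i j 1) := by
  have hij : i ≠ j := fun e => disjoint_left.1 h.IJ hi (e ▸ hj)
  refine ⟨mem_EIJ P hi hj, comm_E P h hij (fun h' => disjoint_left.1 h.DI h' hi)
    (fun h' => disjoint_left.1 h.DJ h' hj) (fun h' => disjoint_left.1 h.IJ h' hj)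
    (fun h' => disjoint_left.1 h.IJ hi h') (fun h' => disjoint_left.1 h.JK hj h') 1⟩

theorem cenN {D I J K : Finset (Fin 26)} (h : Adm D I J K) {i k : Fin 26} (hi : i ∈ I)
    (hk : k ∈ K) : CenIn (TT P D I J K) (P.N i k 1) := by
  refine ⟨mem_NIK P hi hk, comm_N P h (fun h' => disjoint_left.1 h.DI h' hi)
    (fun h' => disjoint_left.1 h.DK h' hk) (fun h' => disjoint_left.1 h.IJ hi h')
    (fun h' => disjoint_left.1 h.JK h' hk) 1⟩

end

end Pool.Agent.helper987_SE
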