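import Pool.Agent.helper987_SE.D3c

/-!
# Project SE: nonstandard relations
-/

set_option autoImplicit false
set_option maxHeartbeats 400000

open Filter Topology Finset
open scoped Classical

namespace Pool.Agent.helper987_SE

open Helper418

section
variable {A : ℕ → Type} [∀ n, Fintype (A n)] [∀ n, Nonempty (A n)] {G : Type} [Group G]
  (P : SpRel (Fin 26) G) (α : G →* SS A) (hP : PwP)

/-- powers of `E i j 1`, auxiliary block `D` -/
noncomputable def eP (D : Finset (Fin 26)) (i j : Fin 26) : (ℕ → ℤ) → SS A :=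
  pw α (TT P D {i} {j} ∅) (P.E i j 1)

/-- powers of `N i j 1`, auxiliary block `D` -/
noncomputable def nP (D D' : Finset (Fin 26)) (i j : Fin 26) : (ℕ → ℤ) → SS A :=
  pw α (TT P D (RR ∪ D') ∅ (RR ∪ D')) (P.N i j 1)

theorem admEN {D I J K : Finset (Fin 26)} (hD : D.card = 9) (hI : ∀ i ∈ I, i ∉ D)
    (hJ : ∀ i ∈ J, i ∉ D) (hK : ∀ i ∈ K, i ∉ D) (hIJ : ∀ i ∈ I, i ∉ J) (hJK : ∀ i ∈ J, i ∉ K) :
    Adm D I J K :=
  ⟨hD, disjoint_right.2 hI, disjoint_right.2 hJ, disjoint_right.2 hK, disjoint_left.2 hIJ,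
    disjoint_left.2 hJK⟩

variable {D D' : Finset (Fin 26)} (hD : Pair D D')
include hD

theorem admE {i j : Fin 26} (hi : i ∉ D) (hj : j ∉ D) (hij : i ≠ j) : Adm D {i} {j} ∅ :=
  admEN hD.card (by simpa using hi) (by simpa using hj) (by simp) (by simpa using hij) (by simp)

theorem admN {i j : Fin 26} (hi : i ∉ D) (hj : j ∉ D) : Adm D {i} ∅ {j} :=
  admEN hD.card (by simpa using hi) (by simp) (by simpa using hj) (by simp) (by simp)

theorem admT {i j k : Fin 26} (hi : i ∉ D) (hj : j ∉ D) (hk : k ∉ D) (hij : i ≠ j)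
    (hjk : j ≠ k) : Adm D {i} {j} {k} :=
  admEN hD.card (by simpa using hi) (by simpa using hj) (by simpa using hk) (by simpa using hij)
    (by simpa using hjk)

theorem admEE {i j k : Fin 26} (hi : i ∉ D) (hj : j ∉ D) (hk : k ∉ D) (hij : i ≠ j)
    (hik : i ≠ k) : Adm D {i} {j, k} ∅ :=
  admEN hD.card (by simpa using hi) (by simpa using ⟨hj, hk⟩) (by simp)
    (by simpa using ⟨hij, hik⟩) (by simp)

theorem admNN {i j k : Fin 26} (hi : i ∉ D) (hj : j ∉ D) (hk : k ∉ D) : Adm D {i} ∅ {j, k} :=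
  admEN hD.card (by simpa using hi) (by simp) (by simpa using ⟨hj, hk⟩) (by simp) (by simp)

theorem admB : Adm D (RR ∪ D') ∅ (RR ∪ D') := by
  have h : ∀ i ∈ RR ∪ D', i ∉ D := by
    intro i hi
    rcases mem_union.1 hi with h | h
    · exact hD.R i h
    · exact hD.notin h
  exact admEN hD.card h (by simp) h (by simp) (by simp)

theorem notinU {i : Fin 26} (hi : i ∈ RR ∪ D') : i ∉ D := by
  rcases mem_union.1 hi with h | h
  · exact hD.R i h
  · exact hD.notin h

include hP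

theorem eP_spec {i j : Fin 26} (hi : i ∉ D) (hj : j ∉ D) (hij : i ≠ j) :
    IsPw α (TT P D {i} {j} ∅) (P.E i j 1) (eP P α D i j) :=
  pw_spec (pwr_TT P α hP (admE hD hi hj hij)) (cenE P (admE hD hi hj hij) (by simp) (by simp))

theorem nP_spec {i j : Fin 26} (hi : i ∈ RR ∪ D') (hj : j ∈ RR ∪ D') :
    IsPw α (TT P D (RR ∪ D') ∅ (RR ∪ D')) (P.N i j 1) (nP P α D D' i j) :=
  pw_spec (pwr_TT P α hP (admB hD)) (cenN P (admB hD) hi hj)

theorem nP_spec' {i j : Fin 26} (hi : i ∈ RR ∪ D') (hj : j ∈ RR ∪ D') :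
    IsPw α (TT P D {i} ∅ {j}) (P.N i j 1) (nP P α D D' i j) := by
  have h1 := admN hD (notinU hD hi) (notinU hD hj)
  have h2 := pw_spec (pwr_TT P α hP h1) (cenN P h1 (by simp) (by simp) : CenIn _ (P.N i j 1))
  have h3 := (nP_spec P α hP hD hi hj).mono h2 (TT_mono P subset_rfl (by simpa using hi)
    subset_rfl (by simpa using hj))
  rw [h3]
  exact h2

theorem nn_comm {a b c d : Fin 26} (ha : a ∈ RR ∪ D') (hb : b ∈ RR ∪ D') (hc : c ∈ RR ∪ D')
    (hd : d ∈ RR ∪ D') (l m : ℕ → ℤ) : Commute (nP P α D D' a b l) (nP P α D D' c d m) :=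
  (nP_spec P α hP hD ha hb).comm₁ (nP_spec P α hP hD hc hd) l m

/-- (B1), (B2) -/
theorem rB1 {i j k : Fin 26} (hi : i ∈ RR) (hj : j ∈ RR) (hk : k ∈ RR ∪ D') (hij : i ≠ j)
    (hki : k ≠ i) (hkj : k ≠ j) (l : ℕ → ℤ) :
    eP P α D i j l * α (P.N j k 1) * (eP P α D i j l)⁻¹ = nP P α D D' i k l * α (P.N j k 1) := by
  have hiD := hD.R i hi
  have hjD := hD.R j hj
  have hkD := notinU hD hk
  have h1 := admT hD hiD hjD hkD hij hkj.symm
  have hT := pwr_TT P α hP h1
  have hv : CenIn (TT P D {i} {j} {k}) (P.E i j 1) := cenE P h1 (by simp) (by simp)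
  have hw : CenIn (TT P D {i} {j} {k}) (P.N i k 1) := cenN P h1 (by simp) (by simp)
  have key := cj hT hv hw (norm_N P h1 (j := j) (k := k) (by simp) (by simp)) (d := 1)
    (by rw [conj_N_E P hij hki hkj, N_zpow]) l
  have e1 : pw α (TT P D {i} {j} {k}) (P.E i j 1) = eP P α D i j :=
    (pw_spec hT hv).mono (eP_spec P α hP hD hiD hjD hij)
      (TT_mono P subset_rfl subset_rfl subset_rfl (by simp))
  have e2 : pw α (TT P D {i} {j} {k}) (P.N i k 1) = nP P α D D' i k :=
    (pw_spec hT hw).mono (nP_spec' P α hP hD (mem_union_left _ hi) hk)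
      (TT_mono P subset_rfl subset_rfl (by simp) subset_rfl)
  rw [e1, e2] at key
  rw [key]
  congr 2
  funext n
  simp

/-- (B3) -/
theorem rB3 {i j : Fin 26} (hi : i ∈ RR) (hj : j ∈ RR) (hij : i ≠ j) (l : ℕ → ℤ) :
    eP P α D i j l * α (P.N j i 1) * (eP P α D i j l)⁻¹ =
      nP P α D D' i i (2 * l) * α (P.N j i 1) := by
  have hiD := hD.R i hi
  have hjD := hD.R j hj
  have h1 := admT hD hiD hjD hiD hij hij.symm
  have hT := pwr_TT P α hP h1
  have hv : CenIn (TT P D {i} {j} {i}) (P.E i j 1) := cenE P h1 (by simp) (by simp)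
  have hw : CenIn (TT P D {i} {j} {i}) (P.N i i 1) := cenN P h1 (by simp) (by simp)
  have key := cj hT hv hw (norm_N P h1 (j := j) (k := i) (by simp) (by simp)) (d := 2)
    (by rw [conj_N_E' P hij, N_zpow]; norm_num) l
  have e1 : pw α (TT P D {i} {j} {i}) (P.E i j 1) = eP P α D i j :=
    (pw_spec hT hv).mono (eP_spec P α hP hD hiD hjD hij)
      (TT_mono P subset_rfl subset_rfl subset_rfl (by simp))
  have e2 : pw α (TT P D {i} {j} {i}) (P.N i i 1) = nP P α D D' i i :=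
    (pw_spec hT hw).mono (nP_spec' P α hP hD (mem_union_left _ hi) (mem_union_left _ hi))
      (TT_mono P subset_rfl subset_rfl (by simp) subset_rfl)
  rw [e1, e2] at key
  rw [key]
  rfl

/-- (C1) -/
theorem rC1 {i j q : Fin 26} (hi : i ∈ RR) (hj : j ∈ RR) (hq : q ∈ D') (hij : i ≠ j)
    (hqR : q ∉ RR) (l : ℕ → ℤ) :
    eP P α D i j l * α (P.E j q 1) * (eP P α D i j l)⁻¹ = eP P α D i q l * α (P.E j q 1) := by
  have hiD := hD.R i hi
  have hjD := hD.R j hj
  have hqD := hD.notin hq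
  have hiq : i ≠ q := ne_of_mem hi hqR
  have hjq : j ≠ q := ne_of_mem hj hqR
  have h1 := admEE hD hiD hjD hqD hij hiq
  have hT := pwr_TT P α hP h1
  have hv : CenIn (TT P D {i} {j, q} ∅) (P.E i j 1) := cenE P h1 (by simp) (by simp)
  have hw : CenIn (TT P D {i} {j, q} ∅) (P.E i q 1) := cenE P h1 (by simp) (by simp)
  have key := cj hT hv hw (norm_EJ P h1 (j := j) (q := q) (by simp) (by simp) hjq) (d := 1)
    (by rw [conj_E_E P hij hjq hiq, E_zpow P hiq]) l
  have e1 : pw α (TT P D {i} {j, q} ∅) (P.E i j 1) = eP P α D i j :=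
    (pw_spec hT hv).mono (eP_spec P α hP hD hiD hjD hij)
      (TT_mono P subset_rfl subset_rfl (by simp) subset_rfl)
  have e2 : pw α (TT P D {i} {j, q} ∅) (P.E i q 1) = eP P α D i q :=
    (pw_spec hT hw).mono (eP_spec P α hP hD hiD hqD hiq)
      (TT_mono P subset_rfl subset_rfl (by simp) subset_rfl)
  rw [e1, e2] at key
  rw [key]
  congr 2
  funext n
  simp

/-- conjugation of `N i j` by `E p j` -/
theorem rN2 {i j p : Fin 26} (hi : i ∈ RR) (hj : j ∈ RR) (hp : p ∈ D') (hij : i ≠ j)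
    (hpR : p ∉ RR) (l : ℕ → ℤ) :
    nP P α D D' i j l * α (P.E p j 1) * (nP P α D D' i j l)⁻¹ =
      (nP P α D D' i p l)⁻¹ * α (P.E p j 1) := by
  have hiD := hD.R i hi
  have hjD := hD.R j hj
  have hpD := hD.notin hp
  have hip : i ≠ p := ne_of_mem hi hpR
  have hjp : j ≠ p := ne_of_mem hj hpR
  have h1 := admNN hD hiD hjD hpD
  have hT := pwr_TT P α hP h1
  have hv : CenIn (TT P D {i} ∅ {j, p}) (P.N i j 1) := cenN P h1 (by simp) (by simp)
  have hw : CenIn (TT P D {i} ∅ {j, p}) (P.N i p 1) := cenN P h1 (by simp) (by simp)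
  have key := cj hT hv hw (norm_EK P h1 (a := p) (b := j) (by simp) (by simp) hjp.symm
    (by simpa using hip.symm) (by simpa using hij.symm)) (d := -1)
    (by rw [conj_E_N P hjp.symm hip hij, neg_neg, zpow_one]) l
  have e1 : pw α (TT P D {i} ∅ {j, p}) (P.N i j 1) = nP P α D D' i j :=
    (pw_spec hT hv).mono (nP_spec' P α hP hD (mem_union_left _ hi) (mem_union_left _ hj))
      (TT_mono P subset_rfl subset_rfl subset_rfl (by simp))
  have e2 : pw α (TT P D {i} ∅ {j, p}) (P.N i p 1) = nP P α D D' i p :=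
    (pw_spec hT hw).mono (nP_spec' P α hP hD (mem_union_left _ hi) (mem_union_right _ hp))
      (TT_mono P subset_rfl subset_rfl subset_rfl (by simp))
  rw [e1, e2] at key
  rw [key]
  have h3 := (nP_spec P α hP hD (mem_union_left _ hi) (mem_union_right _ hp)).int
  rw [← h3.neg]
  congr 2
  funext n
  simp

end

end Pool.Agent.helper987_SE
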