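import Pool.Agent.helper987_SE.E1Defs

/-!
# Project SE, part E1: the central element and the kernel
-/

set_option autoImplicit false
set_option maxHeartbeats 400000

open Matrix Complex Topology

namespace Pool.Agent.helper987_SE.E1

noncomputable section

variable {n : Type} [Fintype n] [DecidableEq n]

theorem uu_comm (g : GG n) : uu * g = g * uu := by
  refine GG.ext' ?_ ?_
  · rw [mul_M, mul_M, uu_M, one_mul, mul_one]
  · intro τ
    rw [mul_ph, mul_ph, uu_ph, uu_ph, uu_M, one_smul, add_comm]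

theorem uu_pow_M (k : ℕ) : ((uu : GG n) ^ k).M = 1 := by
  induction k with
  | zero => rfl
  | succ k ih => rw [pow_succ, mul_M, ih, uu_M, one_mul]

theorem uu_pow_ph (k : ℕ) (τ : Hg n) : ((uu : GG n) ^ k).ph τ = k * (2 * Real.pi * I) := by
  induction k with
  | zero => simp [one_ph]
  | succ k ih =>
    rw [pow_succ, mul_ph, uu_M, one_smul, ih, uu_ph]
    push_cast
    ring

theorem uu_zpow_M (k : ℤ) : ((uu : GG n) ^ k).M = 1 := by
  obtain ⟨m, rfl | rfl⟩ := k.eq_nat_or_neg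
  · rw [zpow_natCast, uu_pow_M]
  · rw [_root_.zpow_neg, zpow_natCast, inv_M, uu_pow_M, inv_one]

theorem uu_zpow_ph (k : ℤ) (τ : Hg n) : ((uu : GG n) ^ k).ph τ = k * (2 * Real.pi * I) := by
  obtain ⟨m, rfl | rfl⟩ := k.eq_nat_or_neg
  · rw [zpow_natCast, uu_pow_ph]
    push_cast
    ring
  · rw [_root_.zpow_neg, zpow_natCast, inv_ph, uu_pow_ph]
    push_cast
    ring

theorem two_pi_I_ne : (2 * Real.pi * I : ℂ) ≠ 0 := by
  simp [Real.pi_ne_zero]

theorem uu_zpow_eq_one (k : ℤ) (h : (uu : GG n) ^ k = 1) : k = 0 := by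
  have h1 := uu_zpow_ph k (i1 n)
  rw [h, one_ph] at h1
  rcases mul_eq_zero.1 h1.symm with h2 | h2
  · exact_mod_cast h2
  · exact absurd h2 two_pi_I_ne

/-- an element with trivial matrix is a power of the central element -/
theorem mem_zpowers_of_M {g : GG n} (h : g.M = 1) : ∃ k : ℤ, g = uu ^ k := by
  have h1 : Complex.exp (g.ph (i1 n)) = 1 := by rw [g.hph, h, jf_one]
  obtain ⟨k, hk⟩ := Complex.exp_eq_one_iff.1 h1
  refine ⟨k, ext_i1 (by rw [h, uu_zpow_M]) ?_⟩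
  rw [hk, uu_zpow_ph]

/-- two elements with the same matrix differ by a power of the central element -/
theorem eq_mul_uu_zpow {g h : GG n} (h1 : g.M = h.M) : ∃ k : ℤ, g = h * uu ^ k := by
  have h2 : (h⁻¹ * g).M = 1 := by
    rw [mul_M, inv_M, h1, inv_mul_cancel]
  obtain ⟨k, hk⟩ := mem_zpowers_of_M h2
  exact ⟨k, by rw [← hk, mul_inv_cancel_left]⟩

theorem uu_zpow_comm (g : GG n) (k : ℤ) : uu ^ k * g = g * uu ^ k := by
  have h : Commute uu g := uu_comm g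
  exact h.zpow_left k

theorem toGL_apply (g : GG n) : ((toGL g : Matrix.GeneralLinearGroup (n ⊕ n) ℤ) :
    Matrix (n ⊕ n) (n ⊕ n) ℤ) = g.M.1 := rfl

theorem toGL_ker : (toGL : GG n →* Matrix.GeneralLinearGroup (n ⊕ n) ℤ).ker =
    Subgroup.zpowers uu := by
  ext g
  rw [MonoidHom.mem_ker, Subgroup.mem_zpowers_iff]
  constructor
  · intro h
    have h1 : g.M.1 = 1 := by
      rw [← toGL_apply, h]
      rfl
    obtain ⟨k, hk⟩ := mem_zpowers_of_M (g := g) (Subtype.ext h1)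
    exact ⟨k, hk.symm⟩
  · rintro ⟨k, rfl⟩
    apply Units.ext
    rw [toGL_apply, uu_zpow_M]
    rfl

/-- a commutator in `GG` depends only on the matrices of the two elements -/
theorem comm_lift {x y z x' y' z' : GG n} (hx : x'.M = x.M) (hy : y'.M = y.M)
    (h : x * y * x⁻¹ * y⁻¹ = z) (h' : x' * y' * x'⁻¹ * y'⁻¹ = z') : z = z' := by
  obtain ⟨a, rfl⟩ := eq_mul_uu_zpow hx
  obtain ⟨b, rfl⟩ := eq_mul_uu_zpow hy
  rw [← h, ← h']
  have ca : ∀ g : GG n, uu ^ a * g = g * uu ^ a := fun g => uu_zpow_comm g a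
  have cb : ∀ g : GG n, uu ^ b * g = g * uu ^ b := fun g => uu_zpow_comm g b
  have e1 : x * uu ^ a * (y * uu ^ b) * (x * uu ^ a)⁻¹ * (y * uu ^ b)⁻¹ =
      x * (uu ^ a * y) * (uu ^ b * (uu ^ a)⁻¹ * x⁻¹) * ((uu ^ b)⁻¹ * y⁻¹) := by
    group
  rw [e1, ca y]
  have e2 : uu ^ b * (uu ^ a)⁻¹ * x⁻¹ = x⁻¹ * (uu ^ b * (uu ^ a)⁻¹) := by
    have : Commute (uu ^ b * (uu ^ a)⁻¹) x⁻¹ := by
      have c1 : Commute uu x⁻¹ := uu_comm x⁻¹
      exact (c1.zpow_left b).mul_left (c1.zpow_left a).inv_left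
    exact this
  have e3 : x * (y * uu ^ a) * (uu ^ b * (uu ^ a)⁻¹ * x⁻¹) * ((uu ^ b)⁻¹ * y⁻¹) =
      x * y * (uu ^ a * (uu ^ b * (uu ^ a)⁻¹) * x⁻¹ * (uu ^ b)⁻¹) * y⁻¹ := by
    group
  rw [e3]
  have e4 : uu ^ a * (uu ^ b * (uu ^ a)⁻¹) * x⁻¹ * (uu ^ b)⁻¹ = x⁻¹ := by
    have : uu ^ a * (uu ^ b * (uu ^ a)⁻¹) = (uu : GG n) ^ b := by
      rw [← _root_.zpow_neg, ← _root_.zpow_add, ← _root_.zpow_add]
      congr 1
      ring
    rw [this, cb, mul_inv_cancel_right]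
  rw [e4]

end

end Pool.Agent.helper987_SE.E1
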