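import Mathlib

/-!
# Project SE, part E1: the Siegel space and the group `GG`
-/

set_option autoImplicit false
set_option maxHeartbeats 400000

open Matrix Complex Topology

namespace Pool.Agent.helper987_SE.E1

noncomputable section

variable {n : Type} [Fintype n] [DecidableEq n]

/-! ## Blocks of symplectic matrices -/

/-- the complex blocks of an integral symplectic matrix -/
def bA (M : symplecticGroup n ℤ) : Matrix n n ℂ := (M.1.map (Int.castRingHom ℂ)).toBlocks₁₁

def bB (M : symplecticGroup n ℤ) : Matrix n n ℂ := (M.1.map (Int.castRingHom ℂ)).toBlocks₁₂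

def bC (M : symplecticGroup n ℤ) : Matrix n n ℂ := (M.1.map (Int.castRingHom ℂ)).toBlocks₂₁

def bD (M : symplecticGroup n ℤ) : Matrix n n ℂ := (M.1.map (Int.castRingHom ℂ)).toBlocks₂₂

theorem map_eq (M : symplecticGroup n ℤ) :
    M.1.map (Int.castRingHom ℂ) = fromBlocks (bA M) (bB M) (bC M) (bD M) :=
  (fromBlocks_toBlocks _).symm

theorem rel (M : symplecticGroup n ℤ) : (bA M)ᵀ * bC M = (bC M)ᵀ * bA M ∧
    (bB M)ᵀ * bD M = (bD M)ᵀ * bB M ∧ (bA M)ᵀ * bD M - (bC M)ᵀ * bB M = 1 := by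
  have h := SymplecticGroup.map_mem M.2 (Int.castRingHom ℂ)
  rw [map_eq] at h
  exact SymplecticGroup.fromBlocks_mem_iff.1 h

theorem bA_conj (M : symplecticGroup n ℤ) : (bA M)ᴴ = (bA M)ᵀ := by
  ext i j
  simp [bA, toBlocks₁₁, conjTranspose_apply]

theorem bB_conj (M : symplecticGroup n ℤ) : (bB M)ᴴ = (bB M)ᵀ := by
  ext i j
  simp [bB, toBlocks₁₂, conjTranspose_apply]

theorem bC_conj (M : symplecticGroup n ℤ) : (bC M)ᴴ = (bC M)ᵀ := by
  ext i j
  simp [bC, toBlocks₂₁, conjTranspose_apply]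

theorem bD_conj (M : symplecticGroup n ℤ) : (bD M)ᴴ = (bD M)ᵀ := by
  ext i j
  simp [bD, toBlocks₂₂, conjTranspose_apply]

theorem mul_blocks (M M' : symplecticGroup n ℤ) :
    bA (M * M') = bA M * bA M' + bB M * bC M' ∧ bB (M * M') = bA M * bB M' + bB M * bD M' ∧
    bC (M * M') = bC M * bA M' + bD M * bC M' ∧ bD (M * M') = bC M * bB M' + bD M * bD M' := by
  have h : (M * M').1.map (Int.castRingHom ℂ) =
      M.1.map (Int.castRingHom ℂ) * M'.1.map (Int.castRingHom ℂ) := by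
    rw [Submonoid.coe_mul, Matrix.map_mul]
  rw [map_eq, map_eq, map_eq, fromBlocks_multiply] at h
  exact fromBlocks_inj.1 h

theorem one_blocks : bA (1 : symplecticGroup n ℤ) = 1 ∧ bB (1 : symplecticGroup n ℤ) = 0 ∧
    bC (1 : symplecticGroup n ℤ) = 0 ∧ bD (1 : symplecticGroup n ℤ) = 1 := by
  have h : (1 : symplecticGroup n ℤ).1.map (Int.castRingHom ℂ) = fromBlocks 1 0 0 1 := by
    rw [Submonoid.coe_one, fromBlocks_one]
    simp
  rw [map_eq] at h
  exact fromBlocks_inj.1 h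

/-! ## The Siegel space -/

/-- the Siegel space -/
def Hg (n : Type) [Fintype n] : Set (Matrix n n ℂ) :=
  {τ | τᵀ = τ ∧ ∀ v : n → ℂ, v ≠ 0 → 0 < (star v ⬝ᵥ (τ *ᵥ v)).im}

/-- numerator -/
def num (M : symplecticGroup n ℤ) (τ : Matrix n n ℂ) : Matrix n n ℂ := bA M * τ + bB M

/-- denominator -/
def den (M : symplecticGroup n ℤ) (τ : Matrix n n ℂ) : Matrix n n ℂ := bC M * τ + bD M

theorem rel_T (M : symplecticGroup n ℤ) {τ : Matrix n n ℂ} (hτ : τᵀ = τ) :
    (num M τ)ᵀ * den M τ = (den M τ)ᵀ * num M τ := by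
  obtain ⟨h1, h2, h3⟩ := rel M
  have h4 : (bD M)ᵀ * bA M - (bB M)ᵀ * bC M = 1 := by
    have := congrArg Matrix.transpose h3
    simpa using this
  rw [← sub_eq_zero]
  have : (num M τ)ᵀ * den M τ - (den M τ)ᵀ * num M τ =
      τᵀ * ((bA M)ᵀ * bC M - (bC M)ᵀ * bA M) * τ + τᵀ * ((bA M)ᵀ * bD M - (bC M)ᵀ * bB M)
      - ((bD M)ᵀ * bA M - (bB M)ᵀ * bC M) * τ + ((bB M)ᵀ * bD M - (bD M)ᵀ * bB M) := by
    unfold num den
    simp only [Matrix.transpose_add, Matrix.transpose_mul]
    noncomm_ring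
  rw [this, h1, h2, h3, h4, hτ]
  simp

theorem rel_H (M : symplecticGroup n ℤ) (τ : Matrix n n ℂ) :
    (den M τ)ᴴ * num M τ - (num M τ)ᴴ * den M τ = τ - τᴴ := by
  obtain ⟨h1, h2, h3⟩ := rel M
  have h4 : (bD M)ᵀ * bA M - (bB M)ᵀ * bC M = 1 := by
    have := congrArg Matrix.transpose h3
    simpa using this
  have : (den M τ)ᴴ * num M τ - (num M τ)ᴴ * den M τ =
      - (τᴴ * ((bA M)ᵀ * bC M - (bC M)ᵀ * bA M) * τ) - τᴴ * ((bA M)ᵀ * bD M - (bC M)ᵀ * bB M)
      + ((bD M)ᵀ * bA M - (bB M)ᵀ * bC M) * τ - ((bB M)ᵀ * bD M - (bD M)ᵀ * bB M) := by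
    unfold num den
    simp only [Matrix.conjTranspose_add, Matrix.conjTranspose_mul, bA_conj, bB_conj, bC_conj,
      bD_conj]
    noncomm_ring
  rw [this, h1, h2, h3, h4]
  simp
  abel

omit [DecidableEq n] in
/-- the quadratic form of `τ - τᴴ` -/
theorem form_im (τ : Matrix n n ℂ) (v : n → ℂ) :
    star v ⬝ᵥ ((τ - τᴴ) *ᵥ v) = 2 * I * ((star v ⬝ᵥ (τ *ᵥ v)).im : ℂ) := by
  have h1 : star v ⬝ᵥ (τᴴ *ᵥ v) = star (star v ⬝ᵥ (τ *ᵥ v)) := by
    rw [Matrix.star_dotProduct, Matrix.star_mulVec, Matrix.conjTranspose_conjTranspose,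
      ← Matrix.dotProduct_mulVec]
  rw [Matrix.sub_mulVec, dotProduct_sub, h1]
  have := Complex.sub_conj (star v ⬝ᵥ (τ *ᵥ v))
  simp only [starRingEnd_apply] at this
  rw [this]
  push_cast
  ring

theorem det_den_ne (M : symplecticGroup n ℤ) {τ : Matrix n n ℂ} (hτ : τ ∈ Hg n) :
    (den M τ).det ≠ 0 := by
  intro h0
  obtain ⟨v, hv, hv0⟩ := Matrix.exists_mulVec_eq_zero_iff.2 h0
  have h1 := rel_H M τ
  have h2 : star v ⬝ᵥ ((τ - τᴴ) *ᵥ v) = 0 := by
    rw [← h1, Matrix.sub_mulVec, dotProduct_sub, ← Matrix.mulVec_mulVec, ← Matrix.mulVec_mulVec,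
      hv0, Matrix.mulVec_zero, dotProduct_zero, sub_zero, Matrix.dotProduct_mulVec,
      ← Matrix.star_mulVec, hv0]
    simp
  rw [form_im] at h2
  have h3 := hτ.2 v hv
  have h4 : (((star v ⬝ᵥ (τ *ᵥ v)).im : ℝ) : ℂ) ≠ 0 := by
    exact_mod_cast h3.ne'
  have h5 : (2 * I : ℂ) ≠ 0 := by simp
  exact (mul_ne_zero h5 h4) h2

/-- the action -/
def actM (M : symplecticGroup n ℤ) (τ : Matrix n n ℂ) : Matrix n n ℂ := num M τ * (den M τ)⁻¹

theorem actM_mul_den (M : symplecticGroup n ℤ) {τ : Matrix n n ℂ} (hτ : τ ∈ Hg n) :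
    actM M τ * den M τ = num M τ := by
  unfold actM
  rw [Matrix.mul_assoc, Matrix.nonsing_inv_mul _ (isUnit_iff_ne_zero.2 (det_den_ne M hτ)),
    Matrix.mul_one]

theorem actM_mem (M : symplecticGroup n ℤ) {τ : Matrix n n ℂ} (hτ : τ ∈ Hg n) :
    actM M τ ∈ Hg n := by
  have hu : IsUnit (den M τ).det := isUnit_iff_ne_zero.2 (det_den_ne M hτ)
  have hm := actM_mul_den M hτ
  refine ⟨?_, ?_⟩
  · have h1 := rel_T M hτ.1
    -- Pᵀ Q = Qᵀ P
    have h2 : (den M τ)ᵀ * (actM M τ)ᵀ * den M τ = (den M τ)ᵀ * actM M τ * den M τ := by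
      rw [← Matrix.transpose_mul, hm, Matrix.mul_assoc, hm, h1]
    have h3 : (den M τ)ᵀ * (actM M τ)ᵀ = (den M τ)ᵀ * actM M τ := by
      have := congrArg (fun X => X * (den M τ)⁻¹) h2
      simpa [Matrix.mul_assoc, Matrix.mul_nonsing_inv _ hu] using this
    have hu' : IsUnit ((den M τ)ᵀ).det := by rwa [Matrix.det_transpose]
    have := congrArg (fun X => ((den M τ)ᵀ)⁻¹ * X) h3
    simpa [← Matrix.mul_assoc, Matrix.nonsing_inv_mul _ hu'] using this
  · intro w hw
    set v := (den M τ)⁻¹ *ᵥ w with hv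
    have hwv : w = den M τ *ᵥ v := by
      rw [hv, Matrix.mulVec_mulVec, Matrix.mul_nonsing_inv _ hu, Matrix.one_mulVec]
    have hv0 : v ≠ 0 := by
      intro h
      rw [h, Matrix.mulVec_zero] at hwv
      exact hw hwv
    have h1 := hτ.2 v hv0
    have h2 := form_im τ v
    rw [← rel_H M τ] at h2
    have h3 := form_im (actM M τ) w
    have h4 : star w ⬝ᵥ ((actM M τ - (actM M τ)ᴴ) *ᵥ w) =
        star v ⬝ᵥ (((den M τ)ᴴ * num M τ - (num M τ)ᴴ * den M τ) *ᵥ v) := by
      rw [hwv, Matrix.star_mulVec, ← Matrix.dotProduct_mulVec, Matrix.mulVec_mulVec,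
        Matrix.mulVec_mulVec]
      congr 2
      rw [← hm, Matrix.conjTranspose_mul]
      noncomm_ring
    rw [h3, h2] at h4
    have h5 : (2 * I : ℂ) ≠ 0 := by simp
    have h6 := mul_left_cancel₀ h5 h4
    have h7 : (star w ⬝ᵥ (actM M τ *ᵥ w)).im = (star v ⬝ᵥ (τ *ᵥ v)).im := by exact_mod_cast h6
    rw [h7]
    exact h1

theorem num_mul (M M' : symplecticGroup n ℤ) {τ : Matrix n n ℂ} (hτ : τ ∈ Hg n) :
    num (M * M') τ = num M (actM M' τ) * den M' τ := by
  obtain ⟨h1, h2, -, -⟩ := mul_blocks M M'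
  have hm := actM_mul_den M' hτ
  have : num M (actM M' τ) * den M' τ = bA M * num M' τ + bB M * den M' τ := by
    rw [← hm]
    unfold num
    noncomm_ring
  rw [this]
  unfold num den
  rw [h1, h2]
  noncomm_ring

theorem den_mul (M M' : symplecticGroup n ℤ) {τ : Matrix n n ℂ} (hτ : τ ∈ Hg n) :
    den (M * M') τ = den M (actM M' τ) * den M' τ := by
  obtain ⟨-, -, h1, h2⟩ := mul_blocks M M'
  have hm := actM_mul_den M' hτ
  have : den M (actM M' τ) * den M' τ = bC M * num M' τ + bD M * den M' τ := by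
    rw [← hm]
    unfold den
    noncomm_ring
  rw [this]
  unfold num den
  rw [h1, h2]
  noncomm_ring

theorem actM_mul (M M' : symplecticGroup n ℤ) {τ : Matrix n n ℂ} (hτ : τ ∈ Hg n) :
    actM (M * M') τ = actM M (actM M' τ) := by
  have hu : IsUnit (den M' τ).det := isUnit_iff_ne_zero.2 (det_den_ne M' hτ)
  unfold actM
  rw [num_mul M M' hτ, den_mul M M' hτ, Matrix.mul_inv_rev, Matrix.mul_assoc,
    ← Matrix.mul_assoc (den M' τ), Matrix.mul_nonsing_inv _ hu, Matrix.one_mul]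
  rfl

theorem den_one (τ : Matrix n n ℂ) : den (1 : symplecticGroup n ℤ) τ = 1 := by
  obtain ⟨-, -, h1, h2⟩ := one_blocks (n := n)
  unfold den
  rw [h1, h2]
  simp

theorem num_one (τ : Matrix n n ℂ) : num (1 : symplecticGroup n ℤ) τ = τ := by
  obtain ⟨h1, h2, -, -⟩ := one_blocks (n := n)
  unfold num
  rw [h1, h2]
  simp

theorem actM_one (τ : Matrix n n ℂ) : actM (1 : symplecticGroup n ℤ) τ = τ := by
  unfold actM
  rw [den_one, num_one]
  simp

instance : MulAction (symplecticGroup n ℤ) (Hg n) where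
  smul M τ := ⟨actM M τ.1, actM_mem M τ.2⟩
  one_smul τ := Subtype.ext (actM_one τ.1)
  mul_smul M M' τ := Subtype.ext (actM_mul M M' τ.2)

theorem smul_val (M : symplecticGroup n ℤ) (τ : Hg n) : (M • τ).1 = actM M τ.1 := rfl

/-- the automorphy factor -/
def jf (M : symplecticGroup n ℤ) (τ : Hg n) : ℂ := (den M τ.1).det

theorem jf_ne (M : symplecticGroup n ℤ) (τ : Hg n) : jf M τ ≠ 0 := det_den_ne M τ.2

theorem jf_one (τ : Hg n) : jf (1 : symplecticGroup n ℤ) τ = 1 := by
  unfold jf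
  rw [den_one, Matrix.det_one]

theorem jf_mul (M M' : symplecticGroup n ℤ) (τ : Hg n) :
    jf (M * M') τ = jf M (M' • τ) * jf M' τ := by
  unfold jf
  rw [den_mul M M' τ.2, Matrix.det_mul]
  rfl

theorem continuous_den (M : symplecticGroup n ℤ) : Continuous fun τ : Hg n => den M τ.1 := by
  unfold den
  exact (continuous_const.matrix_mul continuous_subtype_val).add continuous_const

theorem continuous_num (M : symplecticGroup n ℤ) : Continuous fun τ : Hg n => num M τ.1 := by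
  unfold num
  exact (continuous_const.matrix_mul continuous_subtype_val).add continuous_const

theorem continuous_act (M : symplecticGroup n ℤ) : Continuous fun τ : Hg n => M • τ := by
  refine Continuous.subtype_mk (f := fun τ : Hg n => actM M τ.1) ?_ _
  have h : (fun τ : Hg n => actM M τ.1) =
      fun τ : Hg n => num M τ.1 * (((den M τ.1).det)⁻¹ • (den M τ.1).adjugate) := by
    funext τ
    unfold actM
    rw [Matrix.inv_def, Ring.inverse_eq_inv']
  rw [h]
  have h1 : Continuous fun τ : Hg n => ((den M τ.1).det)⁻¹ :=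
    (continuous_den M).matrix_det.inv₀ fun τ => det_den_ne M τ.2
  have h2 : Continuous fun τ : Hg n => (den M τ.1).adjugate :=
    (continuous_den M).matrix_adjugate
  exact (continuous_num M).matrix_mul (h1.smul h2)

/-- the base point `i` -/
def i1 (n : Type) [Fintype n] [DecidableEq n] : Hg n :=
  ⟨(I : ℂ) • (1 : Matrix n n ℂ), by
    refine ⟨by simp, ?_⟩
    intro v hv
    rw [Matrix.smul_mulVec, Matrix.one_mulVec, dotProduct_smul, smul_eq_mul]
    have h1 : star v ⬝ᵥ v = ((∑ i, ‖v i‖ ^ 2 : ℝ) : ℂ) := by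
      simp only [dotProduct, Pi.star_apply, RCLike.star_def]
      push_cast
      refine Finset.sum_congr rfl fun i _ => ?_
      rw [mul_comm, Complex.mul_conj, Complex.normSq_eq_norm_sq]
      push_cast
      rfl
    rw [h1]
    simp only [Complex.mul_im, Complex.I_re, Complex.I_im, Complex.ofReal_im, Complex.ofReal_re,
      zero_mul, one_mul, zero_add]
    obtain ⟨i, hi⟩ := Function.ne_iff.1 hv
    refine Finset.sum_pos' (fun _ _ => by positivity) ⟨i, Finset.mem_univ _, ?_⟩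
    have : 0 < ‖v i‖ := norm_pos_iff.2 hi
    positivity⟩

omit [DecidableEq n] in
theorem convex_Hg : Convex ℝ (Hg n) := by
  rw [convex_iff_forall_pos]
  intro τ hτ τ' hτ' a b ha hb _
  refine ⟨by rw [Matrix.transpose_add, Matrix.transpose_smul, Matrix.transpose_smul, hτ.1, hτ'.1],
    ?_⟩
  intro v hv
  have h1 := hτ.2 v hv
  have h2 := hτ'.2 v hv
  rw [Matrix.add_mulVec, dotProduct_add, Matrix.smul_mulVec, Matrix.smul_mulVec, dotProduct_smul,
    dotProduct_smul, Complex.add_im, Complex.smul_im, Complex.smul_im]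
  positivity

instance : PreconnectedSpace (Hg n) :=
  isPreconnected_iff_preconnectedSpace.1 (convex_Hg (n := n)).isPreconnected

/-! ## The group `GG` -/

/-- the central extension of the integral symplectic group by logarithms of the automorphy
factor -/
structure GG (n : Type) [Fintype n] [DecidableEq n] where
  M : symplecticGroup n ℤ
  ph : C(Hg n, ℂ)
  hph : ∀ τ, Complex.exp (ph τ) = jf M τ

theorem GG.ext' {g h : GG n} (h1 : g.M = h.M) (h2 : ∀ τ, g.ph τ = h.ph τ) : g = h := by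
  obtain ⟨M, p, hp⟩ := g
  obtain ⟨M', p', hp'⟩ := h
  obtain rfl : M = M' := h1
  obtain rfl : p = p' := ContinuousMap.ext h2
  rfl

instance : Mul (GG n) where
  mul g h := ⟨g.M * h.M, ⟨fun τ => g.ph (h.M • τ) + h.ph τ,
    (g.ph.continuous.comp (continuous_act h.M)).add h.ph.continuous⟩, fun τ => by
      show Complex.exp (g.ph (h.M • τ) + h.ph τ) = _
      rw [Complex.exp_add, g.hph, h.hph, jf_mul]⟩

instance : One (GG n) where
  one := ⟨1, ⟨fun _ => 0, continuous_const⟩, fun τ => by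
    show Complex.exp 0 = _
    rw [Complex.exp_zero, jf_one]⟩

instance : Inv (GG n) where
  inv g := ⟨g.M⁻¹, ⟨fun τ => - g.ph (g.M⁻¹ • τ),
    (g.ph.continuous.comp (continuous_act g.M⁻¹)).neg⟩, fun τ => by
      show Complex.exp (- g.ph (g.M⁻¹ • τ)) = _
      rw [Complex.exp_neg, g.hph]
      have h := jf_mul g.M g.M⁻¹ τ
      rw [mul_inv_cancel, jf_one] at h
      exact (eq_inv_of_mul_eq_one_right h.symm).symm⟩

theorem mul_M (g h : GG n) : (g * h).M = g.M * h.M := rfl

theorem mul_ph (g h : GG n) (τ : Hg n) : (g * h).ph τ = g.ph (h.M • τ) + h.ph τ := rfl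

theorem one_M : (1 : GG n).M = 1 := rfl

theorem one_ph (τ : Hg n) : (1 : GG n).ph τ = 0 := rfl

theorem inv_M (g : GG n) : (g⁻¹).M = g.M⁻¹ := rfl

theorem inv_ph (g : GG n) (τ : Hg n) : (g⁻¹).ph τ = - g.ph (g.M⁻¹ • τ) := rfl

instance : Group (GG n) :=
  Group.ofLeftAxioms
    (fun a b c => GG.ext' (mul_assoc a.M b.M c.M) fun τ => by
      rw [mul_ph, mul_ph, mul_ph, mul_ph, mul_M, mul_smul, add_assoc])
    (fun a => GG.ext' (one_mul a.M) fun τ => by
      rw [mul_ph, one_ph, zero_add])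
    (fun a => GG.ext' (inv_mul_cancel a.M) fun τ => by
      rw [mul_ph, inv_ph, one_ph, inv_smul_smul, neg_add_cancel])

/-- the central element -/
def uu : GG n := ⟨1, ⟨fun _ => 2 * Real.pi * I, continuous_const⟩, fun τ => by
  show Complex.exp (2 * Real.pi * I) = _
  rw [Complex.exp_two_pi_mul_I, jf_one]⟩

theorem uu_M : (uu : GG n).M = 1 := rfl

theorem uu_ph (τ : Hg n) : (uu : GG n).ph τ = 2 * Real.pi * I := rfl

/-- the homomorphism to the symplectic group -/
def toSp : GG n →* symplecticGroup n ℤ where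
  toFun g := g.M
  map_one' := rfl
  map_mul' _ _ := rfl

/-- the homomorphism to the general linear group -/
def toGL : GG n →* Matrix.GeneralLinearGroup (n ⊕ n) ℤ :=
  MonoidHom.toHomUnits ((symplecticGroup n ℤ).subtype.comp toSp)

/-- an element of `GG` is determined by the matrix and the value of the phase at `i` -/
theorem ext_i1 {g h : GG n} (h1 : g.M = h.M) (h2 : g.ph (i1 n) = h.ph (i1 n)) : g = h := by
  refine GG.ext' h1 ?_
  have hk : ∀ τ, ∃ k : ℤ, g.ph τ = h.ph τ + k * (2 * Real.pi * I) := by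
    intro τ
    have h3 : Complex.exp (g.ph τ) = Complex.exp (h.ph τ) := by rw [g.hph, h.hph, h1]
    obtain ⟨k, hk⟩ := Complex.exp_eq_exp_iff_exists_int.1 h3
    exact ⟨k, hk⟩
  choose k hk using hk
  have hne : (2 * Real.pi * I : ℂ) ≠ 0 := by
    simp [Real.pi_ne_zero]
  have hkr : ∀ τ, ((k τ : ℤ) : ℝ) = ((g.ph τ - h.ph τ) / (2 * Real.pi * I)).re := by
    intro τ
    have : (g.ph τ - h.ph τ) / (2 * Real.pi * I) = ((k τ : ℝ) : ℂ) := by
      rw [div_eq_iff hne, hk τ]
      push_cast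
      ring
    rw [this, Complex.ofReal_re]
  have hcr : Continuous fun τ => ((k τ : ℤ) : ℝ) := by
    have : (fun τ => ((k τ : ℤ) : ℝ)) = fun τ => ((g.ph τ - h.ph τ) / (2 * Real.pi * I)).re :=
      funext hkr
    rw [this]
    exact Complex.continuous_re.comp
      ((g.ph.continuous.sub h.ph.continuous).div_const _)
  have hc : Continuous k := Int.isClosedEmbedding_coe_real.isInducing.continuous_iff.2 hcr
  intro τ
  have h4 : k τ = k (i1 n) := PreconnectedSpace.constant inferInstance hc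
  have h5 : k (i1 n) = 0 := by
    have := hk (i1 n)
    rw [h2] at this
    have h6 : (k (i1 n) : ℂ) * (2 * Real.pi * I) = 0 := by
      linear_combination -this
    rcases mul_eq_zero.1 h6 with h7 | h7
    · exact_mod_cast h7
    · exact absurd h7 hne
  rw [hk τ, h4, h5]
  simp

end

end Pool.Agent.helper987_SE.E1
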